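import Pool.Agent.W420.NS.Chk

/-!
# Statements of the parts
-/

set_option autoImplicit false

namespace Pool.Agent.W420.NS

/-! ### soundness -/

/-- (CRS) a coarser state covers as well -/
def S_CRS : Prop := ∀ (P : Pole) (c : P.V → Fin 3 → ℕ) (r t : St), Cov P c r → Crs r t → Cov P c t

/-- (UNI) identified labels are equal -/
def S_UNI : Prop := ∀ (r : List (ℕ × ℕ)), ∀ x ∈ r, unite r x.1 = unite r x.2

/-- (ONE) -/
def S_ONE : Prop := Sound one fun s => ∃ a b c : ℕ, okV a b c = true ∧ s = [(a, 0), (b, 0), (c, 0)]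

/-- (RE) -/
def S_RE : Prop := ∀ (A : Pole) (σ : List ℕ) (S : St → Prop), Sound A S →
  Sound (A.re σ) fun t => ∃ s, S s ∧ t = ord σ s

/-- (LAB) labels of the vertices: the main step of (JOIN) and (CLOSE). If `a`, `b` cover the
restrictions of `c` to `A`, `B`, and all vertices of `A`, `B` are connected to dangling edges, then there
is a label for every vertex, compatible with the dangling edges, and invariant under the connections of
the join. -/
def S_LAB : Prop := ∀ (A B : Pole) (s : ℕ) (c : (A.join B s).V → Fin 3 → ℕ) (a b : St),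
  Valid (A.join B s) c →
  Reach A (fun x => c (Sum.inl x)) → Reach B (fun x => c (Sum.inr x)) →
  Cov A (fun x => c (Sum.inl x)) a → Cov B (fun x => c (Sum.inr x)) b →
  ∃ lab : (A.join B s).V → ℕ,
    (∀ x ∈ A.D.zip a, isT x.2.1 = true → lab (Sum.inl x.1.1) = unite (prs s a b) x.2.2) ∧
    (∀ x ∈ B.D.zip b, isT x.2.1 = true → lab (Sum.inr x.1.1) = unite (prs s a b) (x.2.2 + 8)) ∧
    ∀ x y, Conn (A.join B s) c x y → lab x = lab y

/-- (VAL) restrictions of colourings; matching of the covering states -/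
def S_VAL : Prop := ∀ (A B : Pole) (s : ℕ) (c : (A.join B s).V → Fin 3 → ℕ),
  Valid (A.join B s) c →
    Valid A (fun x => c (Sum.inl x)) ∧ Valid B (fun x => c (Sum.inr x)) ∧
    ∀ a b : St, Cov A (fun x => c (Sum.inl x)) a → Cov B (fun x => c (Sum.inr x)) b → Mat s a b

/-- (REA) if a connected path leads from each vertex to a dangling edge of the join, or to the other
side, then every vertex of `A` and `B` is connected to a dangling edge of `A`, `B` -/
def S_REA : Prop := ∀ (A B : Pole) (s : ℕ) (c : (A.join B s).V → Fin 3 → ℕ),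
  Valid (A.join B s) c →
  ((∀ x : A.V, (∃ d ∈ (A.join B s).D, isT (c d.1 d.2) = true ∧ Conn (A.join B s) c (Sum.inl x) d.1) ∨
      ∃ y : B.V, Conn (A.join B s) c (Sum.inl x) (Sum.inr y)) →
    Reach A (fun x => c (Sum.inl x))) ∧
  ((∀ y : B.V, (∃ d ∈ (A.join B s).D, isT (c d.1 d.2) = true ∧ Conn (A.join B s) c (Sum.inr y) d.1) ∨
      ∃ x : A.V, Conn (A.join B s) c (Sum.inr y) (Sum.inl x)) →
    Reach B (fun x => c (Sum.inr x)))

/-- (JOIN) -/
def S_JOIN : Prop := ∀ (A B : Pole) (s : ℕ) (SA SB S : St → Prop),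
  s ≤ A.D.length → s ≤ B.D.length → Sound A SA → Sound B SB →
  (∀ a b, SA a → SB b → s ≤ a.length → s ≤ b.length → Mat s a b → Opn s a b →
    ∃ t, S t ∧ Crs (mrg s a b) t) →
  Sound (A.join B s) S

/-- (CLOSE) -/
def S_CLOSE : Prop := ∀ (A B : Pole) (s : ℕ) (SA SB : St → Prop),
  A.D.length = s → B.D.length = s → Nonempty A.V → Nonempty B.V → Sound A SA → Sound B SB →
  (∀ a b, SA a → SB b → a.length = s → b.length = s → Mat s a b →
    ∃ x ∈ a, ∃ y ∈ a, isT x.1 = true ∧ isT y.1 = true ∧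
      unite (prs s a b) x.2 ≠ unite (prs s a b) y.2) →
  NoCol (A.join B s)

/-- (CHK) the check of a join -/
def S_CHK : Prop := ∀ (ka kb k s : ℕ) (σ τ : List ℕ) (TA TB G T : BT),
  chkJoin ka kb k s σ τ TA TB G T = true →
  ∀ a b, TS ka TA a → TS kb TB b → s ≤ (ord σ a).length → s ≤ (ord τ b).length →
    Mat s (ord σ a) (ord τ b) → Opn s (ord σ a) (ord τ b) →
      ∃ t, TS k T t ∧ Crs (mrg s (ord σ a) (ord τ b)) t

def closeOK (s : ℕ) (a b : St) : Bool :=
  !(((a.take s).zip (b.take s)).all fun x => Nat.beq x.2.1 (neg x.1.1)) ||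
    a.any fun x => a.any fun y => isT x.1 && isT y.1 &&
      !(Nat.beq (unite (prs s a b) x.2) (unite (prs s a b) y.2))

def chkClose (ka kb s : ℕ) (σ τ : List ℕ) (TA TB : BT) : Bool :=
  TA.all fun n => TB.all fun m => closeOK s (ord σ (unp ka n)) (ord τ (unp kb m))

/-- (CHC) the check of the final join -/
def S_CHC : Prop := ∀ (ka kb s : ℕ) (σ τ : List ℕ) (TA TB : BT),
  chkClose ka kb s σ τ TA TB = true →
  ∀ a b, TS ka TA a → TS kb TB b → Mat s (ord σ a) (ord τ b) →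
    ∃ x ∈ ord σ a, ∃ y ∈ ord σ a, isT x.1 = true ∧ isT y.1 = true ∧
      unite (prs s (ord σ a) (ord τ b)) x.2 ≠ unite (prs s (ord σ a) (ord τ b)) y.2

/-! ### cuts -/

/-- number of positions below `s` with different values -/
def dif (s : ℕ) (p q : List Bool) : ℕ := (((p.take s).zip (q.take s)).filter fun x => x.1 != x.2).length

def chkCut (s : ℕ) (LA LB L : List Ct) : Bool :=
  LA.all fun x => LB.all fun y => L.any fun z =>
    (z.pat == x.pat.drop s ++ y.pat.drop s) && (Nat.beq z.a (min 2 (x.a + y.a)) &&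
      (Nat.beq z.b (min 2 (x.b + y.b)) && Nat.ble z.cut (x.cut + y.cut + dif s x.pat y.pat)))

def chkCutC (s : ℕ) (LA LB : List Ct) : Bool :=
  LA.all fun x => LB.all fun y =>
    !(Nat.ble 1 (x.a + y.a) && Nat.ble 1 (x.b + y.b)) ||
      (Nat.ble 1 (x.cut + y.cut + dif s x.pat y.pat) &&
        (!(Nat.ble 2 (x.a + y.a) && Nat.ble 2 (x.b + y.b)) ||
          Nat.ble 4 (x.cut + y.cut + dif s x.pat y.pat)))

/-- reordering of the patterns -/
def reL (σ : List ℕ) (L : List Ct) : List Ct := L.map fun e => ⟨ord σ e.pat, e.a, e.b, e.cut⟩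

/-- (CUT1) -/
def S_CUT1 : Prop := CutS one [⟨[true, true, true], 1, 0, 0⟩, ⟨[false, false, false], 0, 1, 0⟩]

/-- (CUTR) -/
def S_CUTR : Prop := ∀ (A : Pole) (σ : List ℕ) (L : List Ct), CutS A L → CutS (A.re σ) (reL σ L)

/-- (CUTJ) -/
def S_CUTJ : Prop := ∀ (A B : Pole) (s : ℕ) (LA LB L : List Ct), s ≤ A.D.length → s ≤ B.D.length →
  CutS A LA → CutS B LB → chkCut s LA LB L = true → CutS (A.join B s) L

/-- (CUTC) -/
def S_CUTC : Prop := ∀ (A B : Pole) (s : ℕ) (LA LB : List Ct), A.D.length = s → B.D.length = s →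
  CutS A LA → CutS B LB → chkCutC s LA LB = true → BigCuts (A.join B s)

/-! ### slots -/

/-- (SLR) -/
def S_SLR : Prop := ∀ (A : Pole) (σ : List ℕ), σ.Perm (List.range A.D.length) → SlotOK A →
  SlotOK (A.re σ) ∧ (A.re σ).D.length = A.D.length

/-- (SLJ) -/
def S_SLJ : Prop := ∀ (A B : Pole) (s : ℕ), s ≤ A.D.length → s ≤ B.D.length → SlotOK A → SlotOK B →
  SlotOK (A.join B s) ∧ (A.join B s).D.length = (A.D.length - s) + (B.D.length - s)

/-! ### closed multipoles -/

/-- (CNT) -/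
def S_CNT : Prop := ∀ (P : Pole), P.D = [] → SlotOK P → ∀ X : P.V → Bool,
  cutN P X + 2 * (P.E.filter fun e => X e.1.1 && X e.2.1).length =
    3 * Fintype.card {x // X x = true}

/-- (NB) the other end of the edge at a slot -/
def S_NB : Prop := ∀ (P : Pole), P.D = [] → SlotOK P → BigCuts P → 4 ≤ Fintype.card P.V →
  P.E.Nodup ∧ ∃ nb : P.V × Fin 3 → P.V × Fin 3, (∀ e ∈ P.E, nb e.1 = e.2 ∧ nb e.2 = e.1) ∧
    (∀ t, (t, nb t) ∈ P.E ∨ (nb t, t) ∈ P.E) ∧ (∀ x i, (nb (x, i)).1 ≠ x) ∧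
    ∀ x i j, (nb (x, i)).1 = (nb (x, j)).1 → i = j

/-- (CUB) the graph is cubic -/
def S_CUB : Prop := ∀ (P : Pole), P.D = [] → SlotOK P → BigCuts P → 4 ≤ Fintype.card P.V →
  ∀ v, (P.graph.neighborSet v).ncard = 3

/-- (CON) the graph is connected -/
def S_CON : Prop := ∀ (P : Pole), Nonempty P.V → BigCuts P → P.graph.Connected

/-- (CYC) the graph is cyclically four-edge-connected -/
def S_CYC : Prop := ∀ (P : Pole), P.D = [] → SlotOK P → BigCuts P → 4 ≤ Fintype.card P.V →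
  ∀ F : Set (Sym2 P.V), F.ncard ≤ 3 →
    ∀ (u v : P.V) (p : (P.graph.deleteEdges F).Walk u u) (q : (P.graph.deleteEdges F).Walk v v),
      p.IsCycle → q.IsCycle → (P.graph.deleteEdges F).Reachable u v

open Classical in
/-- The contracted graph `G / E(C)` has a nowhere-zero 4-flow: its vertices are the components of
`C`, its edges the edges of `G` which are not in `C`. -/
def FourFlow {V : Type} [Fintype V] (G C : SimpleGraph V) : Prop :=
  ∃ f : V → V → ℤ, (∀ u v, f v u = -f u v) ∧ (∀ u v, (G \ C).Adj u v → f u v ≠ 0 ∧ |f u v| ≤ 3) ∧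
    (∀ u v, ¬ (G \ C).Adj u v → f u v = 0) ∧
    ∀ K : C.ConnectedComponent, ∑ u, (if C.connectedComponentMk u = K then ∑ v, f u v else 0) = 0

open Classical in
/-- (LIFT) flows in the components of a graph -/
def S_LIFT : Prop := ∀ (V : Type) [Fintype V] (C : SimpleGraph V) (b : V → ZMod 4),
  (∀ K : C.ConnectedComponent, ∑ u, (if C.connectedComponentMk u = K then b u else 0) = 0) →
  ∃ x : V → V → ZMod 4, (∀ u v, x v u = -x u v) ∧ (∀ u v, ¬ C.Adj u v → x u v = 0) ∧
    ∀ u, ∑ v, x u v = b u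

/-- (MOD) from the flow on the contracted graph to a flow in `ℤ/4` on the graph -/
def S_MOD : Prop := ∀ (V : Type) [Fintype V] (G C : SimpleGraph V), C ≤ G → FourFlow G C →
  ∃ φ : V → V → ZMod 4, (∀ u v, φ v u = -φ u v) ∧ (∀ u v, (G \ C).Adj u v → φ u v ≠ 0) ∧
    (∀ u v, ¬ G.Adj u v → φ u v = 0) ∧ ∀ u, ∑ v, φ u v = 0

/-- (COL) from a flow in `ℤ/4` to a colouring -/
def S_COL : Prop := ∀ (P : Pole), P.D = [] → SlotOK P → BigCuts P → 4 ≤ Fintype.card P.V →
  ∀ C : SimpleGraph P.V, C ≤ P.graph → (∀ v, Even (C.neighborSet v).ncard) →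
    (P.graph \ C).Connected → ∀ φ : P.V → P.V → ZMod 4, (∀ u v, φ v u = -φ u v) →
    (∀ u v, (P.graph \ C).Adj u v → φ u v ≠ 0) → (∀ u v, ¬ P.graph.Adj u v → φ u v = 0) →
    (∀ u, ∑ v, φ u v = 0) → ∃ c : P.V → Fin 3 → ℕ, Valid P c ∧ ∀ x y, Conn P c x y

end Pool.Agent.W420.NS
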