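import Pool.Agent.W420.NS.Fast

/-! # Table of `P3` -/

set_option autoImplicit false
set_option maxRecDepth 1000000

namespace Pool.Agent.W420.NS

def TP3 : Tr (List ℕ) := (.node 15595 [12417] (.node 10170 [4609] (.node 7065 [12305] (.node 5462 [9224] (.node 5035 [4609] (.node 4853 [9280] (.node 4772 [9280] (.node 4727 [9280] (.node 4709 [9280] (.node 4691 [4681] .nil .nil) (.node 4716 [9280] .nil .nil)) (.node 4747 [4681] (.node 4734 [9280] .nil .nil) (.node 4761 [4681] .nil .nil))) (.node 4817 [4681] (.node 4790 [9280] (.node 4783 [9280] .nil .nil) (.node 4797 [9280] .nil .nil)) (.node 4846 [9280] (.node 4839 [9280] .nil .nil) .nil))) (.node 4951 [9224] (.node 4895 [9224] (.node 4877 [9224] (.node 4860 [9280] .nil .nil) (.node 4884 [9224] .nil .nil)) (.node 4923 [4609] (.node 4905 [4609] .nil .nil) (.node 4940 [9224] .nil .nil))) (.node 5007 [9224] (.node 4961 [4609] (.node 4958 [9224] .nil .nil) (.node 4979 [4609] .nil .nil)) (.node 5021 [9224] (.node 5014 [9224] .nil .nil) .nil)))) (.node 5294 [9280] (.node 5202 [4681] (.node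 5084 [9224] (.node 5070 [9224] (.node 5049 [4609] .nil .nil) (.node 5077 [9224] .nil .nil)) (.node 5105 [4609] (.node 5091 [4609] .nil .nil) (.node 5195 [4681] .nil .nil))) (.node 5245 [9280] (.node 5231 [9280] (.node 5220 [9280] .nil .nil) (.node 5238 [9280] .nil .nil)) (.node 5287 [9280] (.node 5258 [4681] .nil .nil) .nil))) (.node 5375 [9280] (.node 5350 [9280] (.node 5308 [9280] (.node 5301 [9280] .nil .nil) (.node 5339 [4681] .nil .nil)) (.node 5364 [9280] (.node 5357 [9280] .nil .nil) .nil)) (.node 5427 [4609] (.node 5399 [9224] (.node 5388 [9224] .nil .nil) (.node 5406 [9224] .nil .nil)) (.node 5455 [9224] (.node 5434 [4609] .nil .nil) .nil))))) (.node 6417 [12305] (.node 6228 [8264] (.node 5546 [4609] (.node 5518 [9224] (.node 5483 [4609] (.node 5469 [9224] .nil .nil) (.node 5490 [4609] .nil .nil)) (.node 5532 [9224] (.node 5525 [9224] .nil .nil) (.node 5539 [4609] .nil .nil))) (.node 5602 [4609] (.node 5588 [9224] (.node 5581 [9224] .nil .nil) (.node 5599 [9224] .nil .nil)) (.node 6221 [8264] (.node 5627 [4609] .nil .nil)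 .nil))) (.node 6330 [12417] (.node 6284 [8264] (.node 6249 [12417] (.node 6242 [12417] .nil .nil) (.node 6267 [12417] .nil .nil)) (.node 6305 [12417] (.node 6302 [8264] .nil .nil) (.node 6323 [12417] .nil .nil))) (.node 6386 [12417] (.node 6365 [8264] (.node 6358 [8264] .nil .nil) (.node 6379 [12417] .nil .nil)) (.node 6410 [12305] (.node 6393 [12417] .nil .nil) .nil)))) (.node 6827 [12417] (.node 6732 [8264] (.node 6554 [12305] (.node 6491 [12305] (.node 6473 [12305] .nil .nil) (.node 6547 [12305] .nil .nil)) (.node 6610 [12305] (.node 6603 [12305] .nil .nil) (.node 6617 [12305] .nil .nil))) (.node 6778 [12417] (.node 6753 [12417] (.node 6743 [8264] .nil .nil) (.node 6771 [12417] .nil .nil)) (.node 6813 [8264] (.node 6799 [8264] .nil .nil) .nil))) (.node 6897 [12417] (.node 6876 [8264] (.node 6841 [12417] (.node 6834 [12417] .nil .nil) (.node 6869 [8264] .nil .nil)) (.node 6890 [12417] (.node 6883 [12417] .nil .nil) .nil)) (.node 7002 [12305] (.node 6939 [12305] (.node 6921 [12305] .nil .nil) (.node 6995 [12305] .nil .nil)) (.node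 7058 [12305] (.node 7051 [12305] .nil .nil) .nil)))))) (.node 8878 [9280] (.node 7786 [12417] (.node 7394 [12417] (.node 7310 [8264] (.node 7254 [8264] (.node 7121 [12305] (.node 7114 [12305] .nil .nil) (.node 7247 [8264] .nil .nil)) (.node 7282 [12417] (.node 7275 [12417] .nil .nil) (.node 7289 [12417] .nil .nil))) (.node 7345 [12417] (.node 7331 [12417] (.node 7324 [8264] .nil .nil) (.node 7338 [12417] .nil .nil)) (.node 7391 [8264] (.node 7380 [8264] .nil .nil) .nil))) (.node 7562 [12305] (.node 7450 [12305] (.node 7419 [12417] (.node 7401 [12417] .nil .nil) (.node 7443 [12305] .nil .nil)) (.node 7506 [12305] (.node 7499 [12305] .nil .nil) (.node 7513 [12305] .nil .nil))) (.node 7758 [8264] (.node 7625 [12305] (.node 7569 [12305] .nil .nil) (.node 7643 [12305] .nil .nil)) (.node 7779 [12417] (.node 7765 [8264] .nil .nil) .nil)))) (.node 8010 [12305] (.node 7902 [8264] (.node 7842 [12417] (.node 7821 [8264] (.node 7793 [12417] .nil .nil) (.node 7839 [8264] .nil .nil)) (.node 7867 [12417] (.node 7849 [12417] .nil .nil) (.node 7895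 [8264] .nil .nil))) (.node 7947 [12305] (.node 7923 [12417] (.node 7905 [12417] .nil .nil) (.node 7930 [12417] .nil .nil)) (.node 7961 [12305] (.node 7954 [12305] .nil .nil) .nil))) (.node 8786 [4681] (.node 8147 [12305] (.node 8073 [12305] (.node 8017 [12305] .nil .nil) (.node 8091 [12305] .nil .nil)) (.node 8779 [4681] (.node 8154 [12305] .nil .nil) .nil)) (.node 8829 [9280] (.node 8815 [9280] (.node 8804 [9280] .nil .nil) (.node 8822 [9280] .nil .nil)) (.node 8871 [9280] (.node 8842 [4681] .nil .nil) .nil))))) (.node 9830 [9280] (.node 9053 [9224] (.node 8972 [9224] (.node 8934 [9280] (.node 8892 [9280] (.node 8885 [9280] .nil .nil) (.node 8923 [4681] .nil .nil)) (.node 8948 [9280] (.node 8941 [9280] .nil .nil) (.node 8959 [9280] .nil .nil))) (.node 9018 [4609] (.node 8990 [9224] (.node 8983 [9224] .nil .nil) (.node 9011 [4609] .nil .nil)) (.node 9046 [9224] (.node 9039 [9224] .nil .nil) .nil))) (.node 9130 [4609] (.node 9109 [9224] (.node 9074 [4609] (.node 9067 [4609] .nil .nil) (.node 9102 [9224] .nil .nil)) (.node 9123 [4609]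 (.node 9116 [9224] .nil .nil) .nil)) (.node 9186 [4609] (.node 9172 [9224] (.node 9165 [9224] .nil .nil) (.node 9183 [9224] .nil .nil)) (.node 9801 [4681] (.node 9211 [4609] .nil .nil) .nil)))) (.node 9998 [9224] (.node 9918 [9280] (.node 9882 [4681] (.node 9844 [9280] (.node 9837 [9280] .nil .nil) (.node 9855 [9280] .nil .nil)) (.node 9900 [9280] (.node 9893 [9280] .nil .nil) (.node 9911 [9280] .nil .nil))) (.node 9967 [9280] (.node 9945 [4681] (.node 9938 [4681] .nil .nil) (.node 9956 [9280] .nil .nil)) (.node 9981 [9280] (.node 9974 [9280] .nil .nil) .nil))) (.node 10079 [9224] (.node 10033 [4609] (.node 10012 [9224] (.node 10005 [9224] .nil .nil) (.node 10026 [4609] .nil .nil)) (.node 10068 [9224] (.node 10061 [9224] .nil .nil) .nil)) (.node 10135 [9224] (.node 10089 [4609] (.node 10082 [4609] .nil .nil) (.node 10124 [9224] .nil .nil)) (.node 10145 [4609] (.node 10142 [9224] .nil .nil) .nil))))))) (.node 13565 [9280] (.node 11405 [8264] (.node 10831 [8264] (.node 10425 [12417] (.node 10337 [12417] (.node 10226 [4609] (.node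 10198 [9224] (.node 10191 [9224] .nil .nil) (.node 10205 [9224] .nil .nil)) (.node 10316 [8264] (.node 10233 [4609] .nil .nil) (.node 10327 [8264] .nil .nil))) (.node 10397 [8264] (.node 10362 [12417] (.node 10355 [12417] .nil .nil) (.node 10383 [8264] .nil .nil)) (.node 10418 [12417] (.node 10411 [12417] .nil .nil) .nil))) (.node 10579 [12305] (.node 10474 [12417] (.node 10460 [8264] (.node 10453 [8264] .nil .nil) (.node 10467 [12417] .nil .nil)) (.node 10505 [12305] (.node 10481 [12417] .nil .nil) (.node 10523 [12305] .nil .nil))) (.node 10649 [12305] (.node 10635 [12305] (.node 10586 [12305] .nil .nil) (.node 10642 [12305] .nil .nil)) (.node 10705 [12305] (.node 10698 [12305] .nil .nil) .nil)))) (.node 11027 [12305] (.node 10922 [12417] (.node 10873 [12417] (.node 10859 [12417] (.node 10838 [8264] .nil .nil) (.node 10866 [12417] .nil .nil)) (.node 10908 [8264] (.node 10894 [8264] .nil .nil) (.node 10915 [12417] .nil .nil))) (.node 10978 [12417] (.node 10964 [8264] (.node 10929 [12417] .nil .nil) (.node 10975 [8264] .nil .nil))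 (.node 11003 [12417] (.node 10985 [12417] .nil .nil) .nil))) (.node 11209 [12305] (.node 11097 [12305] (.node 11083 [12305] (.node 11034 [12305] .nil .nil) (.node 11090 [12305] .nil .nil)) (.node 11153 [12305] (.node 11146 [12305] .nil .nil) .nil)) (.node 11363 [12417] (.node 11342 [8264] (.node 11227 [12305] .nil .nil) (.node 11349 [8264] .nil .nil)) (.node 11377 [12417] (.node 11370 [12417] .nil .nil) .nil))))) (.node 11990 [8264] (.node 11657 [12305] (.node 11507 [12417] (.node 11451 [12417] (.node 11426 [12417] (.node 11423 [8264] .nil .nil) (.node 11433 [12417] .nil .nil)) (.node 11486 [8264] (.node 11479 [8264] .nil .nil) (.node 11489 [12417] .nil .nil))) (.node 11545 [12305] (.node 11531 [12305] (.node 11514 [12417] .nil .nil) (.node 11538 [12305] .nil .nil)) (.node 11601 [12305] (.node 11594 [12305] .nil .nil) .nil))) (.node 11881 [12417] (.node 11853 [8264] (.node 11731 [12305] (.node 11675 [12305] .nil .nil) (.node 11738 [12305] .nil .nil)) (.node 11874 [12417] (.node 11860 [8264] .nil .nil) .nil)) (.node 11937 [12417]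 (.node 11916 [8264] (.node 11899 [12417] .nil .nil) (.node 11934 [8264] .nil .nil)) (.node 11962 [12417] (.node 11955 [12417] .nil .nil) .nil)))) (.node 13414 [9280] (.node 12123 [12305] (.node 12025 [12417] (.node 12011 [12417] (.node 11997 [8264] .nil .nil) (.node 12018 [12417] .nil .nil)) (.node 12049 [12305] (.node 12042 [12305] .nil .nil) (.node 12105 [12305] .nil .nil))) (.node 12242 [12305] (.node 12186 [12305] (.node 12179 [12305] .nil .nil) (.node 12235 [12305] .nil .nil)) (.node 13385 [4681] (.node 12249 [12305] .nil .nil) .nil))) (.node 13495 [9280] (.node 13466 [4681] (.node 13428 [9280] (.node 13421 [9280] .nil .nil) (.node 13439 [9280] .nil .nil)) (.node 13484 [9280] (.node 13477 [9280] .nil .nil) .nil)) (.node 13540 [9280] (.node 13522 [4681] (.node 13502 [9280] .nil .nil) (.node 13529 [4681] .nil .nil)) (.node 13558 [9280] (.node 13551 [9280] .nil .nil) .nil)))))) (.node 14443 [12417] (.node 14006 [9280] (.node 13754 [4609] (.node 13663 [9224] (.node 13610 [4609] (.node 13589 [9224] (.node 13582 [9224] .nil .nil)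 (.node 13596 [9224] .nil .nil)) (.node 13645 [9224] (.node 13617 [4609] .nil .nil) (.node 13652 [9224] .nil .nil))) (.node 13719 [9224] (.node 13673 [4609] (.node 13666 [4609] .nil .nil) (.node 13708 [9224] .nil .nil)) (.node 13729 [4609] (.node 13726 [9224] .nil .nil) .nil))) (.node 13932 [9280] (.node 13810 [4609] (.node 13782 [9224] (.node 13775 [9224] .nil .nil) (.node 13789 [9224] .nil .nil)) (.node 13907 [4681] (.node 13817 [4609] .nil .nil) (.node 13925 [9280] .nil .nil))) (.node 13977 [4681] (.node 13950 [9280] (.node 13943 [9280] .nil .nil) (.node 13963 [4681] .nil .nil)) (.node 13999 [9280] (.node 13988 [9280] .nil .nil) .nil)))) (.node 14177 [4609] (.node 14100 [9224] (.node 14062 [9280] (.node 14033 [4681] (.node 14013 [9280] .nil .nil) (.node 14055 [9280] .nil .nil)) (.node 14076 [9280] (.node 14069 [9280] .nil .nil) (.node 14093 [9224] .nil .nil))) (.node 14156 [9224] (.node 14121 [4609] (.node 14111 [9224] .nil .nil) (.node 14139 [4609] .nil .nil)) (.node 14174 [9224] (.node 14167 [9224] .nil .nil) .nil))) (.node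 14286 [9224] (.node 14237 [9224] (.node 14223 [9224] (.node 14195 [4609] .nil .nil) (.node 14230 [9224] .nil .nil)) (.node 14265 [4609] (.node 14251 [4609] .nil .nil) .nil)) (.node 14321 [4609] (.node 14300 [9224] (.node 14293 [9224] .nil .nil) (.node 14307 [4609] .nil .nil)) (.node 14422 [8264] (.node 14415 [8264] .nil .nil) .nil))))) (.node 15010 [12417] (.node 14667 [12305] (.node 14548 [8264] (.node 14492 [8264] (.node 14457 [12417] (.node 14450 [12417] .nil .nil) (.node 14478 [8264] .nil .nil)) (.node 14506 [12417] (.node 14499 [12417] .nil .nil) (.node 14513 [12417] .nil .nil))) (.node 14587 [12417] (.node 14562 [12417] (.node 14559 [8264] .nil .nil) (.node 14569 [12417] .nil .nil)) (.node 14618 [12305] (.node 14611 [12305] .nil .nil) .nil))) (.node 14926 [8264] (.node 14737 [12305] (.node 14681 [12305] (.node 14674 [12305] .nil .nil) (.node 14730 [12305] .nil .nil)) (.node 14811 [12305] (.node 14793 [12305] .nil .nil) .nil)) (.node 14961 [12417] (.node 14947 [12417] (.node 14933 [8264] .nil .nil) (.node 14954 [12417] .nil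 .nil)) (.node 15007 [8264] (.node 14989 [8264] .nil .nil) .nil)))) (.node 15315 [12305] (.node 15115 [12305] (.node 15070 [8264] (.node 15035 [12417] (.node 15017 [12417] .nil .nil) (.node 15063 [8264] .nil .nil)) (.node 15091 [12417] (.node 15073 [12417] .nil .nil) (.node 15098 [12417] .nil .nil))) (.node 15185 [12305] (.node 15129 [12305] (.node 15122 [12305] .nil .nil) (.node 15178 [12305] .nil .nil)) (.node 15259 [12305] (.node 15241 [12305] .nil .nil) .nil))) (.node 15500 [8264] (.node 15458 [12417] (.node 15437 [8264] (.node 15322 [12305] .nil .nil) (.node 15444 [8264] .nil .nil)) (.node 15483 [12417] (.node 15465 [12417] .nil .nil) .nil)) (.node 15546 [12417] (.node 15521 [12417] (.node 15518 [8264] .nil .nil) (.node 15539 [12417] .nil .nil)) (.node 15581 [8264] (.node 15574 [8264] .nil .nil) .nil)))))))) (.node 23393 [1] (.node 19386 [1] (.node 17369 [1553] (.node 16218 [12305] (.node 15987 [12417] (.node 15770 [12305] (.node 15633 [12305] (.node 15609 [12417] (.node 15602 [12417] .nil .nil) (.node 15626 [12305] .nil .nil))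 (.node 15707 [12305] (.node 15689 [12305] .nil .nil) (.node 15763 [12305] .nil .nil))) (.node 15948 [8264] (.node 15826 [12305] (.node 15819 [12305] .nil .nil) (.node 15833 [12305] .nil .nil)) (.node 15969 [12417] (.node 15959 [8264] .nil .nil) .nil))) (.node 16092 [8264] (.node 16043 [12417] (.node 16015 [8264] (.node 15994 [12417] .nil .nil) (.node 16029 [8264] .nil .nil)) (.node 16057 [12417] (.node 16050 [12417] .nil .nil) (.node 16085 [8264] .nil .nil))) (.node 16137 [12305] (.node 16106 [12417] (.node 16099 [12417] .nil .nil) (.node 16113 [12417] .nil .nil)) (.node 16211 [12305] (.node 16155 [12305] .nil .nil) .nil)))) (.node 17082 [1665] (.node 16994 [1665] (.node 16330 [12305] (.node 16274 [12305] (.node 16267 [12305] .nil .nil) (.node 16281 [12305] .nil .nil)) (.node 16973 [1096] (.node 16337 [12305] .nil .nil) (.node 16980 [1096] .nil .nil))) (.node 17054 [1096] (.node 17019 [1665] (.node 17001 [1665] .nil .nil) (.node 17036 [1096] .nil .nil)) (.node 17075 [1665] (.node 17057 [1665] .nil .nil) .nil))) (.node 17169 [1553]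 (.node 17138 [1665] (.node 17117 [1096] (.node 17110 [1096] .nil .nil) (.node 17131 [1665] .nil .nil)) (.node 17162 [1553] (.node 17145 [1665] .nil .nil) .nil)) (.node 17306 [1553] (.node 17243 [1553] (.node 17225 [1553] .nil .nil) (.node 17299 [1553] .nil .nil)) (.node 17362 [1553] (.node 17355 [1553] .nil .nil) .nil))))) (.node 18041 [1665] (.node 17649 [1665] (.node 17579 [1665] (.node 17523 [1665] (.node 17495 [1096] (.node 17484 [1096] .nil .nil) (.node 17505 [1665] .nil .nil)) (.node 17551 [1096] (.node 17530 [1665] .nil .nil) (.node 17565 [1096] .nil .nil))) (.node 17628 [1096] (.node 17593 [1665] (.node 17586 [1665] .nil .nil) (.node 17621 [1096] .nil .nil)) (.node 17642 [1665] (.node 17635 [1665] .nil .nil) .nil))) (.node 17817 [1553] (.node 17754 [1553] (.node 17691 [1553] (.node 17673 [1553] .nil .nil) (.node 17747 [1553] .nil .nil)) (.node 17810 [1553] (.node 17803 [1553] .nil .nil) .nil)) (.node 18006 [1096] (.node 17873 [1553] (.node 17866 [1553] .nil .nil) (.node 17999 [1096] .nil .nil)) (.node 18034 [1665] (.node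 18027 [1665] .nil .nil) .nil)))) (.node 18265 [1553] (.node 18146 [1665] (.node 18090 [1665] (.node 18076 [1096] (.node 18062 [1096] .nil .nil) (.node 18083 [1665] .nil .nil)) (.node 18132 [1096] (.node 18097 [1665] .nil .nil) (.node 18143 [1096] .nil .nil))) (.node 18202 [1553] (.node 18171 [1665] (.node 18153 [1665] .nil .nil) (.node 18195 [1553] .nil .nil)) (.node 18258 [1553] (.node 18251 [1553] .nil .nil) .nil))) (.node 19154 [73] (.node 18395 [1553] (.node 18321 [1553] (.node 18314 [1553] .nil .nil) (.node 18377 [1553] .nil .nil)) (.node 19098 [73] (.node 19017 [73] .nil .nil) .nil)) (.node 19298 [1] (.node 19242 [1] (.node 19161 [73] .nil .nil) (.node 19249 [1] .nil .nil)) (.node 19361 [1] (.node 19305 [1] .nil .nil) .nil)))))) (.node 21674 [1665] (.node 21107 [1665] (.node 20043 [73] (.node 19771 [1] (.node 19595 [73] (.node 19449 [1] (.node 19442 [1] .nil .nil) (.node 19539 [73] .nil .nil)) (.node 19665 [73] (.node 19609 [73] .nil .nil) (.node 19753 [1] .nil .nil))) (.node 19897 [1] (.node 19827 [1] (.node 19809 [1] .nil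 .nil) (.node 19883 [1] .nil .nil)) (.node 19953 [1] (.node 19939 [1] .nil .nil) .nil))) (.node 20387 [1] (.node 20275 [1] (.node 20106 [73] (.node 20050 [73] .nil .nil) (.node 20187 [73] .nil .nil)) (.node 20331 [1] (.node 20282 [1] .nil .nil) (.node 20338 [1] .nil .nil))) (.node 21068 [1096] (.node 20450 [1] (.node 20394 [1] .nil .nil) (.node 20475 [1] .nil .nil)) (.node 21089 [1665] (.node 21079 [1096] .nil .nil) .nil)))) (.node 21338 [1553] (.node 21212 [1096] (.node 21163 [1665] (.node 21135 [1096] (.node 21114 [1665] .nil .nil) (.node 21149 [1096] .nil .nil)) (.node 21177 [1665] (.node 21170 [1665] .nil .nil) (.node 21205 [1096] .nil .nil))) (.node 21257 [1553] (.node 21226 [1665] (.node 21219 [1665] .nil .nil) (.node 21233 [1665] .nil .nil)) (.node 21331 [1553] (.node 21275 [1553] .nil .nil) .nil))) (.node 21590 [1096] (.node 21450 [1553] (.node 21394 [1553] (.node 21387 [1553] .nil .nil) (.node 21401 [1553] .nil .nil)) (.node 21583 [1096] (.node 21457 [1553] .nil .nil) .nil)) (.node 21646 [1096] (.node 21618 [1665] (.node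 21611 [1665] .nil .nil) (.node 21625 [1665] .nil .nil)) (.node 21667 [1665] (.node 21660 [1096] .nil .nil) .nil))))) (.node 22259 [1665] (.node 21979 [1553] (.node 21786 [1553] (.node 21730 [1665] (.node 21716 [1096] (.node 21681 [1665] .nil .nil) (.node 21727 [1096] .nil .nil)) (.node 21755 [1665] (.node 21737 [1665] .nil .nil) (.node 21779 [1553] .nil .nil))) (.node 21898 [1553] (.node 21842 [1553] (.node 21835 [1553] .nil .nil) (.node 21849 [1553] .nil .nil)) (.node 21961 [1553] (.node 21905 [1553] .nil .nil) .nil))) (.node 22175 [1096] (.node 22122 [1665] (.node 22101 [1096] (.node 22094 [1096] .nil .nil) (.node 22115 [1665] .nil .nil)) (.node 22157 [1096] (.node 22129 [1665] .nil .nil) .nil)) (.node 22231 [1096] (.node 22185 [1665] (.node 22178 [1665] .nil .nil) (.node 22203 [1665] .nil .nil)) (.node 22241 [1665] (.node 22238 [1096] .nil .nil) .nil)))) (.node 22826 [1] (.node 22427 [1553] (.node 22297 [1553] (.node 22283 [1553] (.node 22266 [1665] .nil .nil) (.node 22290 [1553] .nil .nil)) (.node 22353 [1553] (.node 22346 [1553]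 .nil .nil) (.node 22409 [1553] .nil .nil))) (.node 22682 [73] (.node 22490 [1553] (.node 22483 [1553] .nil .nil) (.node 22601 [73] .nil .nil)) (.node 22745 [73] (.node 22738 [73] .nil .nil) .nil))) (.node 23033 [1] (.node 22945 [1] (.node 22882 [1] (.node 22833 [1] .nil .nil) (.node 22889 [1] .nil .nil)) (.node 23026 [1] (.node 22970 [1] .nil .nil) .nil)) (.node 23249 [73] (.node 23179 [73] (.node 23123 [73] .nil .nil) (.node 23193 [73] .nil .nil)) (.node 23355 [1] (.node 23337 [1] .nil .nil) .nil))))))) (.node 28377 [73] (.node 25881 [1553] (.node 25314 [1665] (.node 23978 [1] (.node 23690 [73] (.node 23523 [1] (.node 23467 [1] (.node 23411 [1] .nil .nil) (.node 23481 [1] .nil .nil)) (.node 23627 [73] (.node 23537 [1] .nil .nil) (.node 23634 [73] .nil .nil))) (.node 23915 [1] (.node 23859 [1] (.node 23771 [73] .nil .nil) (.node 23866 [1] .nil .nil)) (.node 23971 [1] (.node 23922 [1] .nil .nil) .nil))) (.node 25230 [1096] (.node 25174 [1096] (.node 24059 [1] (.node 24034 [1] .nil .nil) (.node 25167 [1096] .nil .nil)) (.node 25202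 [1665] (.node 25195 [1665] .nil .nil) (.node 25209 [1665] .nil .nil))) (.node 25265 [1665] (.node 25251 [1665] (.node 25244 [1096] .nil .nil) (.node 25258 [1665] .nil .nil)) (.node 25311 [1096] (.node 25300 [1096] .nil .nil) .nil)))) (.node 25706 [1665] (.node 25482 [1553] (.node 25370 [1553] (.node 25339 [1665] (.node 25321 [1665] .nil .nil) (.node 25363 [1553] .nil .nil)) (.node 25426 [1553] (.node 25419 [1553] .nil .nil) (.node 25433 [1553] .nil .nil))) (.node 25678 [1096] (.node 25545 [1553] (.node 25489 [1553] .nil .nil) (.node 25563 [1553] .nil .nil)) (.node 25699 [1665] (.node 25685 [1096] .nil .nil) .nil))) (.node 25815 [1096] (.node 25762 [1665] (.node 25741 [1096] (.node 25713 [1665] .nil .nil) (.node 25759 [1096] .nil .nil)) (.node 25787 [1665] (.node 25769 [1665] .nil .nil) .nil)) (.node 25850 [1665] (.node 25825 [1665] (.node 25822 [1096] .nil .nil) (.node 25843 [1665] .nil .nil)) (.node 25874 [1553] (.node 25867 [1553] .nil .nil) .nil))))) (.node 26578 [1553] (.node 26291 [1665] (.node 26196 [1096] (.node 26011 [1553]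 (.node 25937 [1553] (.node 25930 [1553] .nil .nil) (.node 25993 [1553] .nil .nil)) (.node 26074 [1553] (.node 26067 [1553] .nil .nil) (.node 26189 [1096] .nil .nil))) (.node 26252 [1096] (.node 26217 [1665] (.node 26210 [1665] .nil .nil) (.node 26235 [1665] .nil .nil)) (.node 26273 [1665] (.node 26270 [1096] .nil .nil) .nil))) (.node 26378 [1553] (.node 26347 [1665] (.node 26326 [1096] (.node 26298 [1665] .nil .nil) (.node 26333 [1096] .nil .nil)) (.node 26361 [1665] (.node 26354 [1665] .nil .nil) .nil)) (.node 26515 [1553] (.node 26441 [1553] (.node 26385 [1553] .nil .nil) (.node 26459 [1553] .nil .nil)) (.node 26571 [1553] (.node 26522 [1553] .nil .nil) .nil)))) (.node 27218 [73] (.node 26977 [1] (.node 26777 [73] (.node 26707 [73] (.node 26585 [1553] .nil .nil) (.node 26763 [73] .nil .nil)) (.node 26921 [1] (.node 26833 [73] .nil .nil) (.node 26939 [1] .nil .nil))) (.node 27107 [1] (.node 27051 [1] (.node 26995 [1] .nil .nil) (.node 27065 [1] .nil .nil)) (.node 27211 [73] (.node 27121 [1] .nil .nil) .nil))) (.node 27555 [1] (.node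 27450 [1] (.node 27355 [73] (.node 27274 [73] .nil .nil) (.node 27443 [1] .nil .nil)) (.node 27506 [1] (.node 27499 [1] .nil .nil) .nil)) (.node 28233 [73] (.node 27618 [1] (.node 27562 [1] .nil .nil) (.node 27643 [1] .nil .nil)) (.node 28370 [73] (.node 28314 [73] .nil .nil) .nil)))))) (.node 30305 [1665] (.node 29595 [1553] (.node 29343 [1096] (.node 28665 [1] (.node 28521 [1] (.node 28465 [1] (.node 28458 [1] .nil .nil) (.node 28514 [1] .nil .nil)) (.node 28602 [1] (.node 28577 [1] .nil .nil) (.node 28658 [1] .nil .nil))) (.node 29290 [1665] (.node 29269 [1096] (.node 29262 [1096] .nil .nil) (.node 29283 [1665] .nil .nil)) (.node 29325 [1096] (.node 29297 [1665] .nil .nil) .nil))) (.node 29434 [1665] (.node 29399 [1096] (.node 29353 [1665] (.node 29346 [1665] .nil .nil) (.node 29371 [1665] .nil .nil)) (.node 29409 [1665] (.node 29406 [1096] .nil .nil) (.node 29427 [1665] .nil .nil))) (.node 29514 [1553] (.node 29458 [1553] (.node 29451 [1553] .nil .nil) (.node 29465 [1553] .nil .nil)) (.node 29577 [1553] (.node 29521 [1553] .nil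 .nil) .nil)))) (.node 29931 [1665] (.node 29836 [1096] (.node 29780 [1096] (.node 29658 [1553] (.node 29651 [1553] .nil .nil) (.node 29773 [1096] .nil .nil)) (.node 29801 [1665] (.node 29794 [1665] .nil .nil) (.node 29819 [1665] .nil .nil))) (.node 29882 [1665] (.node 29857 [1665] (.node 29854 [1096] .nil .nil) (.node 29875 [1665] .nil .nil)) (.node 29917 [1096] (.node 29910 [1096] .nil .nil) .nil))) (.node 30099 [1553] (.node 29969 [1553] (.node 29945 [1665] (.node 29938 [1665] .nil .nil) (.node 29962 [1553] .nil .nil)) (.node 30043 [1553] (.node 30025 [1553] .nil .nil) .nil)) (.node 30169 [1553] (.node 30155 [1553] (.node 30106 [1553] .nil .nil) (.node 30162 [1553] .nil .nil)) (.node 30295 [1096] (.node 30284 [1096] .nil .nil) .nil))))) (.node 31090 [1] (.node 30547 [1553] (.node 30421 [1096] (.node 30365 [1096] (.node 30330 [1665] (.node 30323 [1665] .nil .nil) (.node 30351 [1096] .nil .nil)) (.node 30386 [1665] (.node 30379 [1665] .nil .nil) (.node 30393 [1665] .nil .nil))) (.node 30449 [1665] (.node 30435 [1665] (.node 30428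 [1096] .nil .nil) (.node 30442 [1665] .nil .nil)) (.node 30491 [1553] (.node 30473 [1553] .nil .nil) .nil))) (.node 30795 [73] (.node 30617 [1553] (.node 30603 [1553] (.node 30554 [1553] .nil .nil) (.node 30610 [1553] .nil .nil)) (.node 30673 [1553] (.node 30666 [1553] .nil .nil) .nil)) (.node 31027 [1] (.node 30858 [73] (.node 30802 [73] .nil .nil) (.node 30939 [73] .nil .nil)) (.node 31083 [1] (.node 31034 [1] .nil .nil) .nil)))) (.node 32242 [1] (.node 31961 [73] (.node 31227 [1] (.node 31146 [1] (.node 31139 [1] .nil .nil) (.node 31202 [1] .nil .nil)) (.node 31898 [73] (.node 31817 [73] .nil .nil) (.node 31954 [73] .nil .nil))) (.node 32105 [1] (.node 32049 [1] (.node 32042 [1] .nil .nil) (.node 32098 [1] .nil .nil)) (.node 32186 [1] (.node 32161 [1] .nil .nil) .nil))) (.node 32571 [1] (.node 32409 [73] (.node 32339 [73] (.node 32249 [1] .nil .nil) (.node 32395 [73] .nil .nil)) (.node 32553 [1] (.node 32465 [73] .nil .nil) .nil)) (.node 32697 [1] (.node 32627 [1] (.node 32609 [1] .nil .nil) (.node 32683 [1] .nil .nil)) (.node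 32753 [1] (.node 32739 [1] .nil .nil) .nil)))))))))

def LP3 : List Ct := [⟨[false, false, false, false, false], 0, 2, 0⟩, ⟨[false, false, false, true, true], 1, 2, 1⟩, ⟨[false, true, true, false, false], 1, 2, 1⟩, ⟨[false, true, true, true, true], 2, 1, 2⟩, ⟨[true, false, false, false, false], 1, 2, 2⟩, ⟨[true, false, false, true, true], 2, 1, 1⟩, ⟨[true, true, true, false, false], 2, 1, 1⟩, ⟨[true, true, true, true, true], 2, 0, 0⟩]

end Pool.Agent.W420.NS
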