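import Pool.Agent.W420.NS.TC5
import Pool.Agent.W420.NS.TP3
import Pool.Agent.W420.NS.TK2

/-! # Check of `C5` -/

set_option autoImplicit false
set_option maxRecDepth 1000000

namespace Pool.Agent.W420.NS

def GC5 : Tr (List (ℕ × List ℕ)) := (.node 36 [(1088,[25,18,11])] (.node 22 [(80,[57,50,43]),(520,[29,15])] (.node 15 [(80,[57,50,43]),(520,[22,15])] (.node 12 [(80,[49,42,35]),(520,[21,14])] (.node 10 [(17,[44,37,62,55]),(585,[19])] (.node 9 [(17,[52,45,38,63]),(585,[9])] .nil .nil) (.node 11 [(17,[36,61,54,47]),(585,[18,11])] .nil .nil)) (.node 14 [(80,[33,58,51]),(520,[12,23])] (.node 13 [(80,[41,34,59]),(520,[20,13])] .nil .nil) .nil)) (.node 19 [(17,[60,53,46,39]),(585,[10])] (.node 18 [(17,[36,61,54,47]),(585,[25,11])] (.node 17 [(17,[44,37,62,55]),(585,[26])] .nil .nil) .nil) (.node 21 [(80,[33,58,51]),(520,[12,30])] (.node 20 [(80,[41,34,59]),(520,[13,31])] .nil .nil) .nil))) (.node 29 [(80,[57,50,43]),(520,[29,22])] (.node 26 [(17,[60,53,46,39]),(585,[17])]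 (.node 25 [(17,[36,61,54,47]),(585,[25,18])] (.node 23 [(80,[49,42,35]),(520,[28,14])] .nil .nil) .nil) (.node 28 [(80,[33,58,51]),(520,[30,23])] (.node 27 [(17,[52,45,38,63]),(585,[27])] .nil .nil) .nil)) (.node 33 [(65,[49,42]),(1025,[28,21,14])] (.node 31 [(80,[41,34,59]),(520,[20,31])] (.node 30 [(80,[49,42,35]),(520,[28,21])] .nil .nil) .nil) (.node 35 [(65,[58,51]),(1025,[12,30,23])] (.node 34 [(65,[41,59]),(1025,[20,13,31])] .nil .nil) .nil)))) (.node 51 [(65,[42,35]),(1025,[28,21,14])] (.node 44 [(1088,[17,10])] (.node 41 [(65,[41,34]),(1025,[20,13,31])] (.node 38 [(1088,[9,27])] (.node 37 [(1088,[17,10])] .nil .nil) (.node 39 [(1088,[26,19])] .nil .nil)) (.node 43 [(65,[50,43]),(1025,[29,22,15])] (.node 42 [(65,[33,51]),(1025,[12,30,23])] .nil .nil) .nil)) (.node 47 [(1088,[25,18,11])] (.node 46 [(1088,[26,19])] (.node 45 [(1088,[9,27])] .nil .nil) .nil) (.node 50 [(65,[57,43]),(1025,[29,22,15])] (.node 49 [(65,[33,58]),(1025,[12,30,23])]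 .nil .nil) .nil))) (.node 58 [(65,[49,35]),(1025,[28,21,14])] (.node 54 [(1088,[25,18,11])] (.node 53 [(1088,[26,19])] (.node 52 [(1088,[9,27])] .nil .nil) .nil) (.node 57 [(65,[57,50]),(1025,[29,22,15])] (.node 55 [(1088,[17,10])] .nil .nil) .nil)) (.node 61 [(1088,[25,18,11])] (.node 60 [(1088,[26,19])] (.node 59 [(65,[34,59]),(1025,[20,13,31])] .nil .nil) .nil) (.node 63 [(1088,[9,27])] (.node 62 [(1088,[17,10])] .nil .nil) .nil)))))

def MC5 : Tr (List ℕ) := (.node 17043528 [4161] (.node 2138625 [648] (.node 561737 [73] (.node 557585 [16777216] (.node 557146 [16777216] .nil .nil) .nil) (.node 2130497 [521] (.node 565265 [16777216] .nil .nil) .nil)) (.node 2625608 [1089] (.node 2622552 [16777216] (.node 2142274 [1089] .nil .nil) .nil) (.node 17040472 [8201] (.node 2630160 [648] .nil .nil) .nil))) (.node 33587777 [8201] (.node 19169809 [4616] (.node 19169370 [9217] (.node 17048080 [8328] .nil .nil) .nil) (.node 19177489 [4672] (.node 19173961 [4681]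 .nil .nil) .nil)) (.node 35651648 [9217] (.node 33599554 [16777216] (.node 33595905 [8328] .nil .nil) .nil) (.node 35664960 [4681,22737] .nil .nil))))

theorem jC5 : chkJ 5 4 2 [1, 3, 0, 2, 4] [0, 2, 1, 3] TP3 TK2 MC5 GC5 TC5 = true := by decide +kernel

theorem cC5 : chkCut 2 (reL [1, 3, 0, 2, 4] LP3) (reL [0, 2, 1, 3] LK2) LC5 = true := by decide +kernel

end Pool.Agent.W420.NS
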