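import Pool.Agent.W420.NS.Fast

/-! # Table of the vertex -/

set_option autoImplicit false
set_option maxRecDepth 1000000

namespace Pool.Agent.W420.NS

def TV : Tr (List ℕ) := (.node 299 [1] (.node 180 [64] (.node 124 [64] (.node 103 [64] (.node 81 [73] (.node 74 [73] .nil .nil) .nil) (.node 117 [64] (.node 110 [64] .nil .nil) .nil)) (.node 166 [64] (.node 155 [73] (.node 137 [73] .nil .nil) .nil) (.node 173 [64] .nil .nil))) (.node 247 [64] (.node 218 [73] (.node 211 [73] (.node 191 [64] .nil .nil) .nil) (.node 236 [64] (.node 229 [64] .nil .nil) .nil)) (.node 278 [8] (.node 271 [8] (.node 254 [64] .nil .nil) .nil) (.node 285 [8] .nil .nil)))) (.node 415 [8] (.node 355 [1] (.node 334 [8] (.node 313 [1] (.node 306 [1] .nil .nil) .nil) (.node 348 [8] (.node 341 [8] .nil .nil) .nil)) (.node 397 [8] (.node 369 [1] (.node 362 [1] .nil .nil) .nil) (.node 404 [8] .nil .nil))) (.node 471 [8] (.node 443 [1] (.node 425 [1] (.node 418 [1] .nil .nil) .nil) (.node 460 [8] .nil .nil)) (.node 499 [1] (.node 481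 [1] (.node 478 [8] .nil .nil) .nil) (.node 506 [1] .nil .nil)))))

def LV : List Ct := [⟨[true, true, true], 1, 0, 0⟩, ⟨[false, false, false], 0, 1, 0⟩]

end Pool.Agent.W420.NS
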