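import Pool.Agent.W420.NS.TK2
import Pool.Agent.W420.NS.TV

/-! # Check of `K2` -/

set_option autoImplicit false
set_option maxRecDepth 1000000

namespace Pool.Agent.W420.NS

def GK2 : Tr (List (ℕ × List ℕ)) := (.node 4 [(8,[57,50,43]),(64,[29,22,15])] (.node 2 [(1,[52,45,38,63]),(73,[9,27])] (.node 1 [(1,[60,53,46,39]),(73,[17,10])] .nil .nil) (.node 3 [(1,[44,37,62,55]),(73,[26,19])] .nil .nil)) (.node 6 [(8,[41,34,59]),(64,[20,13,31])] (.node 5 [(8,[49,42,35]),(64,[28,21,14])] .nil .nil) (.node 7 [(8,[33,58,51]),(64,[12,30,23])] .nil .nil)))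

def MK2 : Tr (List ℕ) := (.node 32776 [1025] (.node 4104 [129] (.node 585 [9] (.node 513 [16777216] .nil .nil) .nil) (.node 4160 [136] .nil .nil)) (.node 37377 [576] (.node 32832 [1032] .nil .nil) (.node 37449 [585] .nil .nil)))

theorem jK2 : chkJ 3 3 1 [2, 0, 1] [2, 0, 1] TV TV MK2 GK2 TK2 = true := by decide +kernel

theorem cK2 : chkCut 1 (reL [2, 0, 1] LV) (reL [2, 0, 1] LV) LK2 = true := by decide +kernel

end Pool.Agent.W420.NS
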