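import Pool.Agent.W420.NS.TN15
import Pool.Agent.W420.NS.TM142
import Pool.Agent.W420.NS.TV

/-! # Check of `N15` -/

set_option autoImplicit false
set_option maxRecDepth 1000000

namespace Pool.Agent.W420.NS

def GN15 : Tr (List (ℕ × List ℕ)) := (.node 37 [(64,[3])] (.node 22 [(8,[4])] (.node 15 [(8,[4])] (.node 12 [(8,[7])] (.node 10 [(73,[1])] (.node 9 [(73,[2])] .nil .nil) .nil) (.node 14 [(8,[5])] (.node 13 [(8,[6])] .nil .nil) .nil)) (.node 20 [(8,[6])] (.node 19 [(73,[3])] (.node 17 [(73,[1])] .nil .nil) .nil) (.node 21 [(8,[5])] .nil .nil))) (.node 30 [(8,[7])] (.node 27 [(73,[2])] (.node 26 [(73,[3])] (.node 23 [(8,[7])] .nil .nil) .nil) (.node 29 [(8,[4])] (.node 28 [(8,[5])] .nil .nil) .nil)) (.node 34 [(1,[6])] (.node 33 [(1,[7])] (.node 31 [(8,[6])] .nil .nil) .nil) (.node 35 [(1,[5])] .nil .nil)))) (.node 51 [(1,[7])] (.node 44 [(64,[3])] (.node 41 [(1,[6])] (.node 39 [(64,[1])] (.node 38 [(64,[2])] .nil .nil) .nil) (.node 43 [(1,[4])] (.node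 42 [(1,[5])] .nil .nil) .nil)) (.node 49 [(1,[5])] (.node 46 [(64,[1])] (.node 45 [(64,[2])] .nil .nil) .nil) (.node 50 [(1,[4])] .nil .nil))) (.node 58 [(1,[7])] (.node 55 [(64,[3])] (.node 53 [(64,[1])] (.node 52 [(64,[2])] .nil .nil) .nil) (.node 57 [(1,[4])] .nil .nil)) (.node 62 [(64,[3])] (.node 60 [(64,[1])] (.node 59 [(1,[6])] .nil .nil) .nil) (.node 63 [(64,[2])] .nil .nil)))))

def MN15 : Tr (List ℕ) := (.node 2101248 [576] (.node 262152 [16777216] (.node 36929 [65] (.node 33345 [9] (.node 32769 [16777216] .nil .nil) (.node 34433 [16777216] .nil .nil)) (.node 41985 [16777216] (.node 37377 [72] .nil .nil) (.node 45185 [16777216] .nil .nil))) (.node 270864 [136] (.node 266312 [65] (.node 262728 [9] .nil .nil) (.node 270856 [136] .nil .nil)) (.node 2097664 [520] (.node 2097216 [513,1025] .nil .nil) .nil))) (.node 2397257 [593] (.node 2392217 [513,1025] (.node 2106432 [657] (.node 2101824 [1097] .nil .nil) (.node 2392137 [513] .nil .nil)) (.node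 2396169 [576] (.node 2392585 [520] .nil .nil) .nil)) (.node 2406049 [657] (.node 2401369 [657] (.node 2400841 [649] .nil .nil) (.node 2406041 [1169] .nil .nil)) (.node 2410145 [593] (.node 2410137 [649] .nil .nil) .nil))))

theorem jN15 : chkJ 5 3 2 [0, 3, 1, 2, 4] [0, 1, 2] TM142 TV MN15 GN15 TN15 = true := by decide +kernel

theorem cN15 : chkCut 2 (reL [0, 3, 1, 2, 4] LM142) (reL [0, 1, 2] LV) LN15 = true := by decide +kernel

end Pool.Agent.W420.NS
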