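import Pool.Agent.W420.NS.TN18
import Pool.Agent.W420.NS.TP3
import Pool.Agent.W420.NS.TM142

/-! # Check of `N18` -/

set_option autoImplicit false
set_option maxRecDepth 1000000

namespace Pool.Agent.W420.NS

def GN18 : Tr (List (ℕ × List ℕ)) := (.node 236 [(64,[36,61,54,47]),(4672,[25,18,11])] (.node 154 [(139,[44,37,62,55]),(13963,[19]),(14475,[26]),(18059,[26]),(18571,[26])] (.node 109 [(64,[44,37,62,55]),(4672,[26,19])] (.node 91 [(73,[44,37,62,55]),(4682,[26,19]),(8777,[26,19]),(9802,[26,19])] (.node 82 [(139,[60,53,46,39]),(13963,[17]),(14475,[10]),(18059,[10]),(18571,[10])] (.node 77 [(1672,[33,58,51]),(12424,[12,30,23])] (.node 75 [(139,[60,53,46,39]),(13963,[10]),(14475,[17]),(18059,[17]),(18571,[17])] (.node 74 [(139,[36,61,54,47]),(13963,[18]),(14475,[25,11]),(18059,[25,11]),(18571,[25,11])] (.node 73 [(139,[44,37,62,55]),(13963,[26]),(14475,[19]),(18059,[19]),(18571,[19])] .nil .nil) .nil) (.node 76 [(1672,[41,34,59]),(12424,[20,13,31])]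 .nil .nil)) (.node 79 [(1672,[49,42,35]),(12424,[28,21,14])] (.node 78 [(1672,[57,50,43]),(12424,[29,22,15])] .nil .nil) (.node 81 [(139,[36,61,54,47]),(13963,[25]),(14475,[18,11]),(18059,[18,11]),(18571,[18,11])] .nil .nil))) (.node 86 [(1672,[49,42,35]),(12424,[28,21,14])] (.node 84 [(1672,[33,58,51]),(12424,[12,30,23])] (.node 83 [(139,[52,45,38,63]),(13963,[9]),(14475,[27]),(18059,[27]),(18571,[27])] .nil .nil) (.node 85 [(1672,[57,50,43]),(12424,[29,22,15])] .nil .nil)) (.node 89 [(73,[60,53,46,39]),(4682,[17,10]),(8777,[17,10]),(9802,[17,10])] (.node 87 [(1672,[41,34,59]),(12424,[20,13,31])] .nil .nil) (.node 90 [(73,[52,45,38,63]),(4682,[9,27]),(8777,[9,27]),(9802,[9,27])] .nil .nil)))) (.node 100 [(64,[60,53,46,39]),(4672,[17,10])] (.node 95 [(584,[33,58,51]),(4168,[12,30,23])] (.node 93 [(584,[49,42,35]),(4168,[28,21,14])] (.node 92 [(584,[57,50,43]),(4168,[29,22,15])] .nil .nil) (.node 94 [(584,[41,34,59]),(4168,[20,13,31])] .nil .nil))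 (.node 98 [(577,[33,58,51]),(4161,[23]),(8258,[12,30])] (.node 97 [(577,[41,34,59]),(4161,[31]),(8258,[20,13])] .nil .nil) (.node 99 [(577,[57,50,43]),(4161,[15]),(8258,[29,22])] .nil .nil))) (.node 105 [(577,[33,58,51]),(4161,[30]),(8258,[12,23])] (.node 102 [(64,[44,37,62,55]),(4672,[26,19])] (.node 101 [(64,[52,45,38,63]),(4672,[9,27])] .nil .nil) (.node 103 [(64,[36,61,54,47]),(4672,[25,18,11])] .nil .nil)) (.node 107 [(577,[49,42,35]),(4161,[14]),(8258,[28,21])] (.node 106 [(577,[57,50,43]),(4161,[22]),(8258,[29,15])] .nil .nil) (.node 108 [(64,[52,45,38,63]),(4672,[9,27])] .nil .nil))))) (.node 127 [(64,[44,37,62,55]),(4672,[26,19])] (.node 118 [(64,[60,53,46,39]),(4672,[17,10])] (.node 114 [(577,[49,42,35]),(4161,[21]),(8258,[28,14])] (.node 111 [(64,[60,53,46,39]),(4672,[17,10])] (.node 110 [(64,[36,61,54,47]),(4672,[25,18,11])] .nil .nil) (.node 113 [(577,[57,50,43]),(4161,[29]),(8258,[22,15])] .nil .nil)) (.node 116 [(64,[44,37,62,55]),(4672,[26,19])]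 (.node 115 [(577,[41,34,59]),(4161,[13]),(8258,[20,31])] .nil .nil) (.node 117 [(64,[36,61,54,47]),(4672,[25,18,11])] .nil .nil))) (.node 123 [(577,[33,58,51]),(4161,[12]),(8258,[30,23])] (.node 121 [(577,[49,42,35]),(4161,[28]),(8258,[21,14])] (.node 119 [(64,[52,45,38,63]),(4672,[9,27])] .nil .nil) (.node 122 [(577,[41,34,59]),(4161,[20]),(8258,[13,31])] .nil .nil)) (.node 125 [(64,[60,53,46,39]),(4672,[17,10])] (.node 124 [(64,[36,61,54,47]),(4672,[25,18,11])] .nil .nil) (.node 126 [(64,[52,45,38,63]),(4672,[9,27])] .nil .nil)))) (.node 145 [(73,[60,53,46,39]),(4682,[17,10]),(8777,[17,10]),(9802,[17,10])] (.node 140 [(1672,[33,58,51]),(12424,[12,30,23])] (.node 138 [(139,[60,53,46,39]),(13963,[17]),(14475,[10]),(18059,[10]),(18571,[10])] (.node 137 [(139,[36,61,54,47]),(13963,[25]),(14475,[18,11]),(18059,[18,11]),(18571,[18,11])] .nil .nil) (.node 139 [(139,[52,45,38,63]),(13963,[9]),(14475,[27]),(18059,[27]),(18571,[27])] .nil .nil)) (.node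 142 [(1672,[49,42,35]),(12424,[28,21,14])] (.node 141 [(1672,[57,50,43]),(12424,[29,22,15])] .nil .nil) (.node 143 [(1672,[41,34,59]),(12424,[20,13,31])] .nil .nil))) (.node 149 [(584,[49,42,35]),(4168,[28,21,14])] (.node 147 [(73,[44,37,62,55]),(4682,[26,19]),(8777,[26,19]),(9802,[26,19])] (.node 146 [(73,[52,45,38,63]),(4682,[9,27]),(8777,[9,27]),(9802,[9,27])] .nil .nil) (.node 148 [(584,[57,50,43]),(4168,[29,22,15])] .nil .nil)) (.node 151 [(584,[33,58,51]),(4168,[12,30,23])] (.node 150 [(584,[41,34,59]),(4168,[20,13,31])] .nil .nil) (.node 153 [(139,[52,45,38,63]),(13963,[27]),(14475,[9]),(18059,[9]),(18571,[9])] .nil .nil)))))) (.node 191 [(64,[36,61,54,47]),(4672,[25,18,11])] (.node 173 [(64,[36,61,54,47]),(4672,[25,18,11])] (.node 164 [(64,[52,45,38,63]),(4672,[9,27])] (.node 159 [(1672,[57,50,43]),(12424,[29,22,15])] (.node 157 [(1672,[41,34,59]),(12424,[20,13,31])] (.node 156 [(1672,[49,42,35]),(12424,[28,21,14])] (.node 155 [(139,[36,61,54,47]),(13963,[11]),(14475,[25,18]),(18059,[25,18]),(18571,[25,18])]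 .nil .nil) .nil) (.node 158 [(1672,[33,58,51]),(12424,[12,30,23])] .nil .nil)) (.node 162 [(577,[57,50,43]),(4161,[22]),(8258,[29,15])] (.node 161 [(577,[33,58,51]),(4161,[30]),(8258,[12,23])] .nil .nil) (.node 163 [(577,[49,42,35]),(4161,[14]),(8258,[28,21])] .nil .nil))) (.node 169 [(577,[57,50,43]),(4161,[29]),(8258,[22,15])] (.node 166 [(64,[36,61,54,47]),(4672,[25,18,11])] (.node 165 [(64,[44,37,62,55]),(4672,[26,19])] .nil .nil) (.node 167 [(64,[60,53,46,39]),(4672,[17,10])] .nil .nil)) (.node 171 [(577,[41,34,59]),(4161,[13]),(8258,[20,31])] (.node 170 [(577,[49,42,35]),(4161,[21]),(8258,[28,14])] .nil .nil) (.node 172 [(64,[44,37,62,55]),(4672,[26,19])] .nil .nil)))) (.node 182 [(64,[52,45,38,63]),(4672,[9,27])] (.node 178 [(577,[41,34,59]),(4161,[20]),(8258,[13,31])] (.node 175 [(64,[52,45,38,63]),(4672,[9,27])] (.node 174 [(64,[60,53,46,39]),(4672,[17,10])] .nil .nil) (.node 177 [(577,[49,42,35]),(4161,[28]),(8258,[21,14])] .nil .nil))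 (.node 180 [(64,[36,61,54,47]),(4672,[25,18,11])] (.node 179 [(577,[33,58,51]),(4161,[12]),(8258,[30,23])] .nil .nil) (.node 181 [(64,[60,53,46,39]),(4672,[17,10])] .nil .nil))) (.node 187 [(577,[57,50,43]),(4161,[15]),(8258,[29,22])] (.node 185 [(577,[41,34,59]),(4161,[31]),(8258,[20,13])] (.node 183 [(64,[44,37,62,55]),(4672,[26,19])] .nil .nil) (.node 186 [(577,[33,58,51]),(4161,[23]),(8258,[12,30])] .nil .nil)) (.node 189 [(64,[52,45,38,63]),(4672,[9,27])] (.node 188 [(64,[60,53,46,39]),(4672,[17,10])] .nil .nil) (.node 190 [(64,[44,37,62,55]),(4672,[26,19])] .nil .nil))))) (.node 218 [(139,[36,61,54,47]),(13963,[18]),(14475,[25,11]),(18059,[25,11]),(18571,[25,11])] (.node 209 [(139,[52,45,38,63]),(13963,[27]),(14475,[9]),(18059,[9]),(18571,[9])] (.node 204 [(584,[57,50,43]),(4168,[29,22,15])] (.node 202 [(73,[52,45,38,63]),(4682,[9,27]),(8777,[9,27]),(9802,[9,27])] (.node 201 [(73,[60,53,46,39]),(4682,[17,10]),(8777,[17,10]),(9802,[17,10])]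 .nil .nil) (.node 203 [(73,[44,37,62,55]),(4682,[26,19]),(8777,[26,19]),(9802,[26,19])] .nil .nil)) (.node 206 [(584,[41,34,59]),(4168,[20,13,31])] (.node 205 [(584,[49,42,35]),(4168,[28,21,14])] .nil .nil) (.node 207 [(584,[33,58,51]),(4168,[12,30,23])] .nil .nil))) (.node 213 [(1672,[41,34,59]),(12424,[20,13,31])] (.node 211 [(139,[36,61,54,47]),(13963,[11]),(14475,[25,18]),(18059,[25,18]),(18571,[25,18])] (.node 210 [(139,[44,37,62,55]),(13963,[19]),(14475,[26]),(18059,[26]),(18571,[26])] .nil .nil) (.node 212 [(1672,[49,42,35]),(12424,[28,21,14])] .nil .nil)) (.node 215 [(1672,[57,50,43]),(12424,[29,22,15])] (.node 214 [(1672,[33,58,51]),(12424,[12,30,23])] .nil .nil) (.node 217 [(139,[44,37,62,55]),(13963,[26]),(14475,[19]),(18059,[19]),(18571,[19])] .nil .nil)))) (.node 227 [(577,[41,34,59]),(4161,[13]),(8258,[20,31])] (.node 222 [(1672,[57,50,43]),(12424,[29,22,15])] (.node 220 [(1672,[41,34,59]),(12424,[20,13,31])] (.node 219 [(139,[60,53,46,39]),(13963,[10]),(14475,[17]),(18059,[17]),(18571,[17])]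 .nil .nil) (.node 221 [(1672,[33,58,51]),(12424,[12,30,23])] .nil .nil)) (.node 225 [(577,[57,50,43]),(4161,[29]),(8258,[22,15])] (.node 223 [(1672,[49,42,35]),(12424,[28,21,14])] .nil .nil) (.node 226 [(577,[49,42,35]),(4161,[21]),(8258,[28,14])] .nil .nil))) (.node 231 [(64,[52,45,38,63]),(4672,[9,27])] (.node 229 [(64,[36,61,54,47]),(4672,[25,18,11])] (.node 228 [(64,[44,37,62,55]),(4672,[26,19])] .nil .nil) (.node 230 [(64,[60,53,46,39]),(4672,[17,10])] .nil .nil)) (.node 234 [(577,[41,34,59]),(4161,[20]),(8258,[13,31])] (.node 233 [(577,[49,42,35]),(4161,[28]),(8258,[21,14])] .nil .nil) (.node 235 [(577,[33,58,51]),(4161,[12]),(8258,[30,23])] .nil .nil))))))) (.node 350 [(8,[52,45,38,63]),(4616,[9,27])] (.node 282 [(521,[49,42,35]),(4105,[21]),(8202,[28,14])] (.node 255 [(64,[60,53,46,39]),(4672,[17,10])] (.node 246 [(64,[44,37,62,55]),(4672,[26,19])] (.node 242 [(577,[33,58,51]),(4161,[23]),(8258,[12,30])] (.node 239 [(64,[44,37,62,55]),(4672,[26,19])]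 (.node 238 [(64,[52,45,38,63]),(4672,[9,27])] (.node 237 [(64,[60,53,46,39]),(4672,[17,10])] .nil .nil) .nil) (.node 241 [(577,[41,34,59]),(4161,[31]),(8258,[20,13])] .nil .nil)) (.node 244 [(64,[60,53,46,39]),(4672,[17,10])] (.node 243 [(577,[57,50,43]),(4161,[15]),(8258,[29,22])] .nil .nil) (.node 245 [(64,[52,45,38,63]),(4672,[9,27])] .nil .nil))) (.node 251 [(577,[49,42,35]),(4161,[14]),(8258,[28,21])] (.node 249 [(577,[33,58,51]),(4161,[30]),(8258,[12,23])] (.node 247 [(64,[36,61,54,47]),(4672,[25,18,11])] .nil .nil) (.node 250 [(577,[57,50,43]),(4161,[22]),(8258,[29,15])] .nil .nil)) (.node 253 [(64,[44,37,62,55]),(4672,[26,19])] (.node 252 [(64,[52,45,38,63]),(4672,[9,27])] .nil .nil) (.node 254 [(64,[36,61,54,47]),(4672,[25,18,11])] .nil .nil)))) (.node 273 [(521,[33,58,51]),(4105,[30]),(8202,[12,23])] (.node 268 [(8,[60,53,46,39]),(4616,[17,10])] (.node 266 [(521,[33,58,51]),(4105,[23]),(8202,[12,30])] (.node 265 [(521,[41,34,59]),(4105,[31]),(8202,[20,13])]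 .nil .nil) (.node 267 [(521,[57,50,43]),(4105,[15]),(8202,[29,22])] .nil .nil)) (.node 270 [(8,[44,37,62,55]),(4616,[26,19])] (.node 269 [(8,[52,45,38,63]),(4616,[9,27])] .nil .nil) (.node 271 [(8,[36,61,54,47]),(4616,[25,18,11])] .nil .nil))) (.node 277 [(8,[44,37,62,55]),(4616,[26,19])] (.node 275 [(521,[49,42,35]),(4105,[14]),(8202,[28,21])] (.node 274 [(521,[57,50,43]),(4105,[22]),(8202,[29,15])] .nil .nil) (.node 276 [(8,[52,45,38,63]),(4616,[9,27])] .nil .nil)) (.node 279 [(8,[60,53,46,39]),(4616,[17,10])] (.node 278 [(8,[36,61,54,47]),(4616,[25,18,11])] .nil .nil) (.node 281 [(521,[57,50,43]),(4105,[29]),(8202,[22,15])] .nil .nil))))) (.node 332 [(8,[52,45,38,63]),(4616,[9,27])] (.node 291 [(1,[44,37,62,55]),(8705,[26,19]),(9217,[26,19])] (.node 286 [(8,[60,53,46,39]),(4616,[17,10])] (.node 284 [(8,[44,37,62,55]),(4616,[26,19])] (.node 283 [(521,[41,34,59]),(4105,[13]),(8202,[20,31])] .nil .nil) (.node 285 [(8,[36,61,54,47]),(4616,[25,18,11])]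 .nil .nil)) (.node 289 [(1,[60,53,46,39]),(8705,[17,10]),(9217,[17,10])] (.node 287 [(8,[52,45,38,63]),(4616,[9,27])] .nil .nil) (.node 290 [(1,[52,45,38,63]),(8705,[9,27]),(9217,[9,27])] .nil .nil))) (.node 295 [(512,[33,58,51]),(4096,[12,30,23])] (.node 293 [(512,[49,42,35]),(4096,[28,21,14])] (.node 292 [(512,[57,50,43]),(4096,[29,22,15])] .nil .nil) (.node 294 [(512,[41,34,59]),(4096,[20,13,31])] .nil .nil)) (.node 330 [(521,[57,50,43]),(4105,[22]),(8202,[29,15])] (.node 329 [(521,[33,58,51]),(4105,[30]),(8202,[12,23])] .nil .nil) (.node 331 [(521,[49,42,35]),(4105,[14]),(8202,[28,21])] .nil .nil)))) (.node 341 [(8,[36,61,54,47]),(4616,[25,18,11])] (.node 337 [(521,[57,50,43]),(4105,[29]),(8202,[22,15])] (.node 334 [(8,[36,61,54,47]),(4616,[25,18,11])] (.node 333 [(8,[44,37,62,55]),(4616,[26,19])] .nil .nil) (.node 335 [(8,[60,53,46,39]),(4616,[17,10])] .nil .nil)) (.node 339 [(521,[41,34,59]),(4105,[13]),(8202,[20,31])] (.node 338 [(521,[49,42,35]),(4105,[21]),(8202,[28,14])]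 .nil .nil) (.node 340 [(8,[44,37,62,55]),(4616,[26,19])] .nil .nil))) (.node 346 [(521,[41,34,59]),(4105,[20]),(8202,[13,31])] (.node 343 [(8,[52,45,38,63]),(4616,[9,27])] (.node 342 [(8,[60,53,46,39]),(4616,[17,10])] .nil .nil) (.node 345 [(521,[49,42,35]),(4105,[28]),(8202,[21,14])] .nil .nil)) (.node 348 [(8,[36,61,54,47]),(4616,[25,18,11])] (.node 347 [(521,[33,58,51]),(4105,[12]),(8202,[30,23])] .nil .nil) (.node 349 [(8,[60,53,46,39]),(4616,[17,10])] .nil .nil)))))) (.node 436 [(512,[57,50,43]),(4096,[29,22,15])] (.node 402 [(521,[41,34,59]),(4105,[20]),(8202,[13,31])] (.node 393 [(521,[57,50,43]),(4105,[29]),(8202,[22,15])] (.node 380 [(512,[57,50,43]),(4096,[29,22,15])] (.node 378 [(1,[52,45,38,63]),(8705,[9,27]),(9217,[9,27])] (.node 377 [(1,[60,53,46,39]),(8705,[17,10]),(9217,[17,10])] (.node 351 [(8,[44,37,62,55]),(4616,[26,19])] .nil .nil) .nil) (.node 379 [(1,[44,37,62,55]),(8705,[26,19]),(9217,[26,19])] .nil .nil)) (.node 382 [(512,[41,34,59]),(4096,[20,13,31])]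 (.node 381 [(512,[49,42,35]),(4096,[28,21,14])] .nil .nil) (.node 383 [(512,[33,58,51]),(4096,[12,30,23])] .nil .nil))) (.node 397 [(8,[36,61,54,47]),(4616,[25,18,11])] (.node 395 [(521,[41,34,59]),(4105,[13]),(8202,[20,31])] (.node 394 [(521,[49,42,35]),(4105,[21]),(8202,[28,14])] .nil .nil) (.node 396 [(8,[44,37,62,55]),(4616,[26,19])] .nil .nil)) (.node 399 [(8,[52,45,38,63]),(4616,[9,27])] (.node 398 [(8,[60,53,46,39]),(4616,[17,10])] .nil .nil) (.node 401 [(521,[49,42,35]),(4105,[28]),(8202,[21,14])] .nil .nil)))) (.node 411 [(521,[57,50,43]),(4105,[15]),(8202,[29,22])] (.node 406 [(8,[52,45,38,63]),(4616,[9,27])] (.node 404 [(8,[36,61,54,47]),(4616,[25,18,11])] (.node 403 [(521,[33,58,51]),(4105,[12]),(8202,[30,23])] .nil .nil) (.node 405 [(8,[60,53,46,39]),(4616,[17,10])] .nil .nil)) (.node 409 [(521,[41,34,59]),(4105,[31]),(8202,[20,13])] (.node 407 [(8,[44,37,62,55]),(4616,[26,19])] .nil .nil) (.node 410 [(521,[33,58,51]),(4105,[23]),(8202,[12,30])]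 .nil .nil))) (.node 415 [(8,[36,61,54,47]),(4616,[25,18,11])] (.node 413 [(8,[52,45,38,63]),(4616,[9,27])] (.node 412 [(8,[60,53,46,39]),(4616,[17,10])] .nil .nil) (.node 414 [(8,[44,37,62,55]),(4616,[26,19])] .nil .nil)) (.node 434 [(1,[52,45,38,63]),(8705,[9,27]),(9217,[9,27])] (.node 433 [(1,[60,53,46,39]),(8705,[17,10]),(9217,[17,10])] .nil .nil) (.node 435 [(1,[44,37,62,55]),(8705,[26,19]),(9217,[26,19])] .nil .nil))))) (.node 470 [(8,[44,37,62,55]),(4616,[26,19])] (.node 461 [(8,[60,53,46,39]),(4616,[17,10])] (.node 457 [(521,[49,42,35]),(4105,[28]),(8202,[21,14])] (.node 438 [(512,[41,34,59]),(4096,[20,13,31])] (.node 437 [(512,[49,42,35]),(4096,[28,21,14])] .nil .nil) (.node 439 [(512,[33,58,51]),(4096,[12,30,23])] .nil .nil)) (.node 459 [(521,[33,58,51]),(4105,[12]),(8202,[30,23])] (.node 458 [(521,[41,34,59]),(4105,[20]),(8202,[13,31])] .nil .nil) (.node 460 [(8,[36,61,54,47]),(4616,[25,18,11])] .nil .nil))) (.node 466 [(521,[33,58,51]),(4105,[23]),(8202,[12,30])]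 (.node 463 [(8,[44,37,62,55]),(4616,[26,19])] (.node 462 [(8,[52,45,38,63]),(4616,[9,27])] .nil .nil) (.node 465 [(521,[41,34,59]),(4105,[31]),(8202,[20,13])] .nil .nil)) (.node 468 [(8,[60,53,46,39]),(4616,[17,10])] (.node 467 [(521,[57,50,43]),(4105,[15]),(8202,[29,22])] .nil .nil) (.node 469 [(8,[52,45,38,63]),(4616,[9,27])] .nil .nil)))) (.node 479 [(8,[60,53,46,39]),(4616,[17,10])] (.node 475 [(521,[49,42,35]),(4105,[14]),(8202,[28,21])] (.node 473 [(521,[33,58,51]),(4105,[30]),(8202,[12,23])] (.node 471 [(8,[36,61,54,47]),(4616,[25,18,11])] .nil .nil) (.node 474 [(521,[57,50,43]),(4105,[22]),(8202,[29,15])] .nil .nil)) (.node 477 [(8,[44,37,62,55]),(4616,[26,19])] (.node 476 [(8,[52,45,38,63]),(4616,[9,27])] .nil .nil) (.node 478 [(8,[36,61,54,47]),(4616,[25,18,11])] .nil .nil))) (.node 492 [(512,[57,50,43]),(4096,[29,22,15])] (.node 490 [(1,[52,45,38,63]),(8705,[9,27]),(9217,[9,27])] (.node 489 [(1,[60,53,46,39]),(8705,[17,10]),(9217,[17,10])]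 .nil .nil) (.node 491 [(1,[44,37,62,55]),(8705,[26,19]),(9217,[26,19])] .nil .nil)) (.node 494 [(512,[41,34,59]),(4096,[20,13,31])] (.node 493 [(512,[49,42,35]),(4096,[28,21,14])] .nil .nil) (.node 495 [(512,[33,58,51]),(4096,[12,30,23])] .nil .nil))))))))

def MN18 : Tr (List ℕ) := (.node 153419985 [16777216] (.node 19137160 [65] (.node 4554961 [16777216] (.node 2105984 [9] (.node 46081 [16777216] (.node 32769 [16777216] .nil .nil) (.node 270856 [9] .nil .nil)) (.node 2396745 [9] (.node 2392273 [16777216] .nil .nil) .nil)) (.node 17084433 [72] (.node 17072649 [65] (.node 4559433 [9] .nil .nil) .nil) (.node 18911297 [72] (.node 18908353 [65] .nil .nil) .nil))) (.node 136348865 [513] (.node 54796424 [16777216] (.node 54788744 [16777216] (.node 19144840 [72] .nil .nil) .nil) (.node 134524945 [520] (.node 134513161 [513] .nil .nil) .nil)) (.node 136585352 [520] (.node 136577672 [513] (.node 136351809 [520] .nil .nil) .nil) (.node 153100928 [585,1169]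 (.node 151265800 [585,593] .nil .nil) .nil)))) (.node 321192145 [16777216] (.node 285245441 [1088] (.node 268775441 [16777216] (.node 268763657 [513] (.node 153424457 [585] .nil .nil) .nil) (.node 270602305 [520] (.node 270599361 [16777216] .nil .nil) .nil)) (.node 287609417 [585] (.node 287604945 [1088] (.node 285258753 [585] .nil .nil) .nil) (.node 302035969 [16777216] (.node 302022657 [16777216] .nil .nil) .nil))) (.node 474317009 [16777216] (.node 407117960 [16777216] (.node 407110280 [16777216] (.node 321196617 [585] .nil .nil) .nil) (.node 457544265 [585] (.node 457539793 [16777216] .nil .nil) .nil)) (.node 591761993 [585,1097] (.node 591757521 [16777216] (.node 474321481 [585,649] .nil .nil) .nil) (.node 608539209 [585,1161] (.node 608534737 [16777216] .nil .nil) .nil)))))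

theorem jN18 : chkJ 5 5 3 [0, 1, 3, 2, 4] [2, 0, 1, 3, 4] TP3 TM142 MN18 GN18 TN18 = true := by decide +kernel

theorem cN18 : chkCut 3 (reL [0, 1, 3, 2, 4] LP3) (reL [2, 0, 1, 3, 4] LM142) LN18 = true := by decide +kernel

end Pool.Agent.W420.NS
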