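import Pool.Agent.W420.NS.Fast

/-! # Table of `P7` -/

set_option autoImplicit false
set_option maxRecDepth 1000000

namespace Pool.Agent.W420.NS

def TP7 : Tr (List ℕ) := (.node 13719 [4616] (.node 9130 [5121,9217] (.node 6639 [4096] (.node 5588 [4616] (.node 5091 [5121,9217] (.node 4884 [4616] (.node 4783 [4672] (.node 4734 [4672] (.node 4709 [4672] (.node 4698 [4681] (.node 4691 [4681] .nil .nil) .nil) (.node 4727 [4672] (.node 4716 [4672] .nil .nil) .nil)) (.node 4761 [18057,18129] (.node 4754 [4681] (.node 4747 [4681] .nil .nil) .nil) (.node 4772 [4672] .nil .nil))) (.node 4839 [4672] (.node 4810 [4681] (.node 4797 [4672] (.node 4790 [4672] .nil .nil) .nil) (.node 4817 [18057,18129] .nil .nil)) (.node 4860 [4672] (.node 4853 [4672] (.node 4846 [4672] .nil .nil) .nil) (.node 4877 [4616] .nil .nil)))) (.node 4986 [5121,9217] (.node 4940 [4616] (.node 4905 [5121,9217] (.node 4898 [5121,9217] (.node 4895 [4616] .nil .nil) .nil) (.node 4923 [5121,9217] .nil .nil)) (.node 4961 [5121,9217] (.node 4958 [4616] (.node 4951 [4616] .nil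 .nil) .nil) (.node 4979 [5121,9217] .nil .nil))) (.node 5042 [5121,9217] (.node 5021 [4616] (.node 5014 [4616] (.node 5007 [4616] .nil .nil) .nil) (.node 5035 [5121,9217] .nil .nil)) (.node 5077 [4616] (.node 5070 [4616] (.node 5049 [5121,9217] .nil .nil) .nil) (.node 5084 [4616] .nil .nil))))) (.node 5375 [4672] (.node 5265 [4681] (.node 5220 [4672] (.node 5195 [18057,18129] (.node 5105 [5121,9217] (.node 5098 [5121,9217] .nil .nil) .nil) (.node 5209 [4681] (.node 5202 [4681] .nil .nil) .nil)) (.node 5245 [4672] (.node 5238 [4672] (.node 5231 [4672] .nil .nil) .nil) (.node 5258 [4681] .nil .nil))) (.node 5321 [4681] (.node 5301 [4672] (.node 5294 [4672] (.node 5287 [4672] .nil .nil) .nil) (.node 5308 [4672] .nil .nil)) (.node 5357 [4672] (.node 5350 [4672] (.node 5339 [18057,18129] .nil .nil) .nil) (.node 5364 [4672] .nil .nil)))) (.node 5483 [5121,9217] (.node 5427 [5121,9217] (.node 5406 [4616] (.node 5399 [4616] (.node 5388 [4616] .nil .nil) .nil) (.node 5409 [5121,9217] .nil .nil)) (.node 5462 [4616] (.node 5455 [4616] (.node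 5434 [5121,9217] .nil .nil) .nil) (.node 5469 [4616] .nil .nil))) (.node 5532 [4616] (.node 5518 [4616] (.node 5497 [5121,9217] (.node 5490 [5121,9217] .nil .nil) .nil) (.node 5525 [4616] .nil .nil)) (.node 5553 [5121,9217] (.node 5546 [5121,9217] (.node 5539 [5121,9217] .nil .nil) .nil) (.node 5581 [4616] .nil .nil)))))) (.node 6131 [5121,9217] (.node 5917 [4616] (.node 5769 [4681] (.node 5713 [4681] (.node 5609 [5121,9217] (.node 5602 [5121,9217] (.node 5599 [4616] .nil .nil) .nil) (.node 5706 [18057,18129] (.node 5627 [5121,9217] .nil .nil) .nil)) (.node 5749 [4672] (.node 5742 [4672] (.node 5735 [4672] .nil .nil) .nil) (.node 5756 [4672] .nil .nil))) (.node 5823 [4672] (.node 5805 [4672] (.node 5798 [4672] (.node 5787 [18057,18129] .nil .nil) .nil) (.node 5812 [4672] .nil .nil)) (.node 5903 [4616] (.node 5850 [18057,18129] (.node 5843 [18057,18129] .nil .nil) .nil) (.node 5910 [4616] .nil .nil)))) (.node 6029 [4616] (.node 5973 [4616] (.node 5945 [5121,9217] (.node 5938 [5121,9217] (.node 5931 [5121,9217] .nil .nil) .nil) (.node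 5966 [4616] .nil .nil)) (.node 5994 [5121,9217] (.node 5987 [5121,9217] (.node 5980 [4616] .nil .nil) .nil) (.node 6001 [5121,9217] .nil .nil))) (.node 6075 [5121,9217] (.node 6050 [5121,9217] (.node 6047 [4616] (.node 6036 [4616] .nil .nil) .nil) (.node 6057 [5121,9217] .nil .nil)) (.node 6110 [4616] (.node 6103 [4616] (.node 6092 [4616] .nil .nil) .nil) (.node 6113 [5121,9217] .nil .nil))))) (.node 6417 [4105] (.node 6305 [4161] (.node 6249 [4161] (.node 6228 [8328,4232] (.node 6221 [8328,4232] (.node 6138 [5121,9217] .nil .nil) .nil) (.node 6242 [4161] (.node 6239 [8328,4232] .nil .nil) .nil)) (.node 6295 [8328,4232] (.node 6284 [8328,4232] (.node 6267 [4161] .nil .nil) .nil) (.node 6302 [8328,4232] .nil .nil))) (.node 6365 [8328,4232] (.node 6351 [8328,4232] (.node 6330 [4161] (.node 6323 [4161] .nil .nil) .nil) (.node 6358 [8328,4232] .nil .nil)) (.node 6393 [4161] (.node 6386 [4161] (.node 6379 [4161] .nil .nil) .nil) (.node 6410 [4105] .nil .nil)))) (.node 6547 [4105] (.node 6473 [4105] (.node 6453 [4096] (.node 6446 [4096]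 (.node 6439 [4096] .nil .nil) .nil) (.node 6460 [4096] .nil .nil)) (.node 6516 [4096] (.node 6509 [4096] (.node 6502 [4096] .nil .nil) .nil) (.node 6527 [4096] .nil .nil))) (.node 6590 [4096] (.node 6572 [4096] (.node 6565 [4096] (.node 6554 [4105] .nil .nil) .nil) (.node 6583 [4096] .nil .nil)) (.node 6617 [4105] (.node 6610 [4105] (.node 6603 [4105] .nil .nil) .nil) (.node 6628 [4096] .nil .nil))))))) (.node 7625 [4105] (.node 7143 [4096] (.node 6921 [4105] (.node 6813 [8328,4232] (.node 6753 [4161] (.node 6732 [8328,4232] (.node 6653 [4096] (.node 6646 [4096] .nil .nil) .nil) (.node 6750 [8328,4232] (.node 6743 [8328,4232] .nil .nil) .nil)) (.node 6799 [8328,4232] (.node 6778 [4161] (.node 6771 [4161] .nil .nil) .nil) (.node 6806 [8328,4232] .nil .nil))) (.node 6869 [8328,4232] (.node 6841 [4161] (.node 6834 [4161] (.node 6827 [4161] .nil .nil) .nil) (.node 6862 [8328,4232] .nil .nil)) (.node 6890 [4161] (.node 6883 [4161] (.node 6876 [8328,4232] .nil .nil) .nil) (.node 6897 [4161] .nil .nil)))) (.node 7038 [4096] (.node 6995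 [4105] (.node 6964 [4096] (.node 6957 [4096] (.node 6950 [4096] .nil .nil) .nil) (.node 6975 [4096] .nil .nil)) (.node 7020 [4096] (.node 7013 [4096] (.node 7002 [4105] .nil .nil) .nil) (.node 7031 [4096] .nil .nil))) (.node 7087 [4096] (.node 7065 [4105] (.node 7058 [4105] (.node 7051 [4105] .nil .nil) .nil) (.node 7076 [4096] .nil .nil)) (.node 7114 [4105] (.node 7101 [4096] (.node 7094 [4096] .nil .nil) .nil) (.node 7121 [4105] .nil .nil))))) (.node 7419 [4161] (.node 7317 [8328,4232] (.node 7261 [8328,4232] (.node 7164 [4096] (.node 7157 [4096] (.node 7150 [4096] .nil .nil) .nil) (.node 7254 [8328,4232] (.node 7247 [8328,4232] .nil .nil) .nil)) (.node 7289 [4161] (.node 7282 [4161] (.node 7275 [4161] .nil .nil) .nil) (.node 7310 [8328,4232] .nil .nil))) (.node 7373 [8328,4232] (.node 7338 [4161] (.node 7331 [4161] (.node 7324 [8328,4232] .nil .nil) .nil) (.node 7345 [4161] .nil .nil)) (.node 7394 [4161] (.node 7391 [8328,4232] (.node 7380 [8328,4232] .nil .nil) .nil) (.node 7401 [4161] .nil .nil)))) (.node 7524 [4096] (.node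 7479 [4096] (.node 7461 [4096] (.node 7450 [4105] (.node 7443 [4105] .nil .nil) .nil) (.node 7468 [4096] .nil .nil)) (.node 7506 [4105] (.node 7499 [4105] (.node 7486 [4096] .nil .nil) .nil) (.node 7513 [4105] .nil .nil))) (.node 7569 [4105] (.node 7549 [4096] (.node 7542 [4096] (.node 7535 [4096] .nil .nil) .nil) (.node 7562 [4105] .nil .nil)) (.node 7605 [4096] (.node 7598 [4096] (.node 7591 [4096] .nil .nil) .nil) (.node 7612 [4096] .nil .nil)))))) (.node 8147 [4105] (.node 7923 [4161] (.node 7821 [8328,4232] (.node 7765 [8328,4232] (.node 7668 [4096] (.node 7661 [4096] (.node 7654 [4096] .nil .nil) .nil) (.node 7758 [8328,4232] (.node 7679 [4096] .nil .nil) .nil)) (.node 7786 [4161] (.node 7779 [4161] (.node 7772 [8328,4232] .nil .nil) .nil) (.node 7793 [4161] .nil .nil))) (.node 7867 [4161] (.node 7842 [4161] (.node 7839 [8328,4232] (.node 7828 [8328,4232] .nil .nil) .nil) (.node 7849 [4161] .nil .nil)) (.node 7902 [8328,4232] (.node 7895 [8328,4232] (.node 7884 [8328,4232] .nil .nil) .nil) (.node 7905 [4161] .nil .nil))))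 (.node 8017 [4105] (.node 7972 [4096] (.node 7954 [4105] (.node 7947 [4105] (.node 7930 [4161] .nil .nil) .nil) (.node 7961 [4105] .nil .nil)) (.node 7997 [4096] (.node 7990 [4096] (.node 7983 [4096] .nil .nil) .nil) (.node 8010 [4105] .nil .nil))) (.node 8073 [4105] (.node 8053 [4096] (.node 8046 [4096] (.node 8039 [4096] .nil .nil) .nil) (.node 8060 [4096] .nil .nil)) (.node 8116 [4096] (.node 8109 [4096] (.node 8102 [4096] .nil .nil) .nil) (.node 8127 [4096] .nil .nil))))) (.node 8934 [4672] (.node 8822 [4672] (.node 8779 [4681] (.node 8172 [4096] (.node 8165 [4096] (.node 8154 [4105] .nil .nil) .nil) (.node 8190 [4096] (.node 8183 [4096] .nil .nil) .nil)) (.node 8804 [4672] (.node 8793 [4681] (.node 8786 [18057,18129] .nil .nil) .nil) (.node 8815 [4672] .nil .nil))) (.node 8878 [4672] (.node 8849 [4681] (.node 8842 [18057,18129] (.node 8829 [4672] .nil .nil) .nil) (.node 8871 [4672] .nil .nil)) (.node 8905 [4681] (.node 8892 [4672] (.node 8885 [4672] .nil .nil) .nil) (.node 8923 [4681] .nil .nil)))) (.node 9039 [4616] (.node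 8983 [4616] (.node 8959 [4672] (.node 8948 [4672] (.node 8941 [4672] .nil .nil) .nil) (.node 8972 [4616] .nil .nil)) (.node 9011 [5121,9217] (.node 8993 [5121,9217] (.node 8990 [4616] .nil .nil) .nil) (.node 9018 [5121,9217] .nil .nil))) (.node 9081 [5121,9217] (.node 9067 [5121,9217] (.node 9053 [4616] (.node 9046 [4616] .nil .nil) .nil) (.node 9074 [5121,9217] .nil .nil)) (.node 9116 [4616] (.node 9109 [4616] (.node 9102 [4616] .nil .nil) .nil) (.node 9123 [5121,9217] .nil .nil)))))))) (.node 11182 [4096] (.node 10170 [5121,9217] (.node 9687 [13320] (.node 9470 [4672] (.node 9326 [4672] (.node 9193 [5121,9217] (.node 9172 [4616] (.node 9165 [4616] (.node 9137 [5121,9217] .nil .nil) .nil) (.node 9186 [5121,9217] (.node 9183 [4616] .nil .nil) .nil)) (.node 9297 [18057,18129] (.node 9290 [4681] (.node 9211 [5121,9217] .nil .nil) .nil) (.node 9319 [4672] .nil .nil))) (.node 9427 [18057,18129] (.node 9353 [18057,18129] (.node 9340 [4672] (.node 9333 [4672] .nil .nil) .nil) (.node 9371 [18057,18129] .nil .nil)) (.node 9452 [4672] (.node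 9445 [4672] (.node 9434 [4681] .nil .nil) .nil) (.node 9463 [4672] .nil .nil)))) (.node 9571 [5121,9217] (.node 9522 [5121,9217] (.node 9501 [4616] (.node 9494 [13320] (.node 9487 [4616] .nil .nil) .nil) (.node 9515 [5121,9217] .nil .nil)) (.node 9557 [13320] (.node 9550 [4616] (.node 9529 [5121,9217] .nil .nil) .nil) (.node 9564 [4616] .nil .nil))) (.node 9631 [4616] (.node 9613 [4616] (.node 9585 [5121,9217] (.node 9578 [5121,9217] .nil .nil) .nil) (.node 9620 [13320] .nil .nil)) (.node 9659 [5121,9217] (.node 9641 [5121,9217] (.node 9634 [5121,9217] .nil .nil) .nil) (.node 9676 [4616] .nil .nil))))) (.node 9967 [4672] (.node 9875 [4681] (.node 9819 [4681] (.node 9715 [5121,9217] (.node 9697 [5121,9217] (.node 9694 [4616] .nil .nil) .nil) (.node 9801 [4681] (.node 9722 [5121,9217] .nil .nil) .nil)) (.node 9844 [4672] (.node 9837 [4672] (.node 9830 [4672] .nil .nil) .nil) (.node 9855 [4672] .nil .nil))) (.node 9918 [4672] (.node 9900 [4672] (.node 9893 [4672] (.node 9882 [18057,18129] .nil .nil) .nil) (.node 9911 [4672] .nil .nil))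 (.node 9945 [4681] (.node 9938 [18057,18129] (.node 9931 [4681] .nil .nil) .nil) (.node 9956 [4672] .nil .nil)))) (.node 10068 [4616] (.node 10012 [4616] (.node 9998 [4616] (.node 9981 [4672] (.node 9974 [4672] .nil .nil) .nil) (.node 10005 [4616] .nil .nil)) (.node 10033 [5121,9217] (.node 10026 [5121,9217] (.node 10019 [5121,9217] .nil .nil) .nil) (.node 10061 [4616] .nil .nil))) (.node 10124 [4616] (.node 10089 [5121,9217] (.node 10082 [5121,9217] (.node 10079 [4616] .nil .nil) .nil) (.node 10107 [5121,9217] .nil .nil)) (.node 10145 [5121,9217] (.node 10142 [4616] (.node 10135 [4616] .nil .nil) .nil) (.node 10163 [5121,9217] .nil .nil)))))) (.node 10678 [4096] (.node 10460 [8328,4232] (.node 10355 [4161] (.node 10233 [5121,9217] (.node 10205 [4616] (.node 10198 [4616] (.node 10191 [4616] .nil .nil) .nil) (.node 10226 [5121,9217] (.node 10219 [5121,9217] .nil .nil) .nil)) (.node 10334 [8328,4232] (.node 10327 [8328,4232] (.node 10316 [8328,4232] .nil .nil) .nil) (.node 10337 [4161] .nil .nil))) (.node 10411 [4161] (.node 10390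 [8328,4232] (.node 10383 [8328,4232] (.node 10362 [4161] .nil .nil) .nil) (.node 10397 [8328,4232] .nil .nil)) (.node 10446 [8328,4232] (.node 10425 [4161] (.node 10418 [12417] .nil .nil) .nil) (.node 10453 [8328,4232] .nil .nil)))) (.node 10579 [4105] (.node 10523 [4105] (.node 10481 [4161] (.node 10474 [4161] (.node 10467 [4161] .nil .nil) .nil) (.node 10505 [4105] .nil .nil)) (.node 10548 [4096] (.node 10541 [4096] (.node 10534 [4096] .nil .nil) .nil) (.node 10559 [4096] .nil .nil))) (.node 10622 [4096] (.node 10604 [4096] (.node 10597 [4096] (.node 10586 [4105] .nil .nil) .nil) (.node 10615 [4096] .nil .nil)) (.node 10660 [4096] (.node 10649 [4105] (.node 10635 [4105] .nil .nil) .nil) (.node 10671 [4096] .nil .nil))))) (.node 10964 [8328,4232] (.node 10859 [4161] (.node 10741 [4096] (.node 10705 [4105] (.node 10698 [4105] (.node 10685 [4096] .nil .nil) .nil) (.node 10734 [4096] (.node 10727 [4096] .nil .nil) .nil)) (.node 10838 [8328,4232] (.node 10831 [8328,4232] (.node 10748 [4096] .nil .nil) .nil) (.node 10845 [8328,4232]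 .nil .nil))) (.node 10908 [8328,4232] (.node 10894 [8328,4232] (.node 10873 [4161] (.node 10866 [4161] .nil .nil) .nil) (.node 10901 [8328,4232] .nil .nil)) (.node 10929 [4161] (.node 10922 [12417] (.node 10915 [4161] .nil .nil) .nil) (.node 10957 [8328,4232] .nil .nil)))) (.node 11070 [4096] (.node 11027 [4105] (.node 10985 [4161] (.node 10978 [4161] (.node 10975 [8328,4232] .nil .nil) .nil) (.node 11003 [4161] .nil .nil)) (.node 11052 [4096] (.node 11045 [4096] (.node 11034 [4105] .nil .nil) .nil) (.node 11063 [4096] .nil .nil))) (.node 11126 [4096] (.node 11108 [4096] (.node 11097 [4105] (.node 11083 [4105] .nil .nil) .nil) (.node 11119 [4096] .nil .nil)) (.node 11153 [4105] (.node 11146 [4105] (.node 11133 [4096] .nil .nil) .nil) (.node 11175 [4096] .nil .nil))))))) (.node 12186 [4105] (.node 11686 [4096] (.node 11468 [8328,4232] (.node 11356 [8328,4232] (.node 11245 [4096] (.node 11209 [4105] (.node 11196 [4096] (.node 11189 [4096] .nil .nil) .nil) (.node 11238 [4096] (.node 11227 [4105] .nil .nil) .nil)) (.node 11342 [8328,4232]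 (.node 11263 [4096] (.node 11252 [4096] .nil .nil) .nil) (.node 11349 [8328,4232] .nil .nil))) (.node 11412 [8328,4232] (.node 11377 [4161] (.node 11370 [4161] (.node 11363 [4161] .nil .nil) .nil) (.node 11405 [8328,4232] .nil .nil)) (.node 11433 [4161] (.node 11426 [12417] (.node 11423 [8328,4232] .nil .nil) .nil) (.node 11451 [4161] .nil .nil)))) (.node 11574 [4096] (.node 11514 [4161] (.node 11489 [4161] (.node 11486 [8328,4232] (.node 11479 [8328,4232] .nil .nil) .nil) (.node 11507 [4161] .nil .nil)) (.node 11556 [4096] (.node 11545 [4105] (.node 11531 [4105] .nil .nil) .nil) (.node 11567 [4096] .nil .nil))) (.node 11630 [4096] (.node 11601 [4105] (.node 11594 [4105] (.node 11581 [4096] .nil .nil) .nil) (.node 11623 [4096] .nil .nil)) (.node 11657 [4105] (.node 11644 [4096] (.node 11637 [4096] .nil .nil) .nil) (.node 11675 [4105] .nil .nil))))) (.node 11962 [12417] (.node 11860 [8328,4232] (.node 11749 [4096] (.node 11711 [4096] (.node 11700 [4096] (.node 11693 [4096] .nil .nil) .nil) (.node 11738 [4105] (.node 11731 [4105]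 .nil .nil) .nil)) (.node 11774 [4096] (.node 11767 [4096] (.node 11756 [4096] .nil .nil) .nil) (.node 11853 [8328,4232] .nil .nil))) (.node 11916 [8328,4232] (.node 11881 [4161] (.node 11874 [4161] (.node 11871 [8328,4232] .nil .nil) .nil) (.node 11899 [4161] .nil .nil)) (.node 11937 [4161] (.node 11934 [8328,4232] (.node 11927 [8328,4232] .nil .nil) .nil) (.node 11955 [4161] .nil .nil)))) (.node 12078 [4096] (.node 12018 [4161] (.node 11997 [8328,4232] (.node 11990 [8328,4232] (.node 11983 [8328,4232] .nil .nil) .nil) (.node 12011 [4161] .nil .nil)) (.node 12049 [4105] (.node 12042 [4105] (.node 12025 [4161] .nil .nil) .nil) (.node 12071 [4096] .nil .nil))) (.node 12134 [4096] (.node 12105 [4105] (.node 12092 [4096] (.node 12085 [4096] .nil .nil) .nil) (.node 12123 [4105] .nil .nil)) (.node 12159 [4096] (.node 12148 [4096] (.node 12141 [4096] .nil .nil) .nil) (.node 12179 [4105] .nil .nil)))))) (.node 13225 [5121,9217] (.node 13029 [4672] (.node 12874 [18057,18129] (.node 12249 [4105] (.node 12215 [4096] (.node 12204 [4096] (.node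 12197 [4096] .nil .nil) .nil) (.node 12235 [4105] (.node 12222 [4096] .nil .nil) .nil)) (.node 12278 [4096] (.node 12271 [4096] (.node 12260 [4096] .nil .nil) .nil) (.node 12285 [4096] .nil .nil))) (.node 12973 [4672] (.node 12955 [4681] (.node 12937 [18057,18129] (.node 12881 [18057,18129] .nil .nil) .nil) (.node 12966 [4672] .nil .nil)) (.node 13011 [4681] (.node 12991 [4672] (.node 12980 [4672] .nil .nil) .nil) (.node 13018 [18057,18129] .nil .nil)))) (.node 13134 [4616] (.node 13078 [4616] (.node 13054 [4672] (.node 13047 [4672] (.node 13036 [4672] .nil .nil) .nil) (.node 13071 [4616] .nil .nil)) (.node 13106 [5121,9217] (.node 13099 [5121,9217] (.node 13085 [4616] .nil .nil) .nil) (.node 13113 [5121,9217] .nil .nil))) (.node 13169 [5121,9217] (.node 13155 [5121,9217] (.node 13148 [4616] (.node 13141 [4616] .nil .nil) .nil) (.node 13162 [5121,9217] .nil .nil)) (.node 13215 [4616] (.node 13204 [4616] (.node 13197 [4616] .nil .nil) .nil) (.node 13218 [5121,9217] .nil .nil))))) (.node 13515 [4681] (.node 13414 [4672] (.node 13281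 [5121,9217] (.node 13271 [4616] (.node 13260 [4616] (.node 13243 [5121,9217] .nil .nil) .nil) (.node 13278 [4616] .nil .nil)) (.node 13385 [18057,18129] (.node 13306 [5121,9217] (.node 13299 [5121,9217] .nil .nil) .nil) (.node 13403 [4681] .nil .nil))) (.node 13466 [4681] (.node 13439 [4672] (.node 13428 [4672] (.node 13421 [4672] .nil .nil) .nil) (.node 13459 [4681] .nil .nil)) (.node 13495 [4672] (.node 13484 [4672] (.node 13477 [4672] .nil .nil) .nil) (.node 13502 [4672] .nil .nil)))) (.node 13603 [5121,9217] (.node 13558 [4672] (.node 13540 [4672] (.node 13529 [18057,18129] (.node 13522 [4681] .nil .nil) .nil) (.node 13551 [4672] .nil .nil)) (.node 13589 [4616] (.node 13582 [4616] (.node 13565 [4672] .nil .nil) .nil) (.node 13596 [4616] .nil .nil))) (.node 13663 [4616] (.node 13645 [4616] (.node 13617 [5121,9217] (.node 13610 [5121,9217] .nil .nil) .nil) (.node 13652 [4616] .nil .nil)) (.node 13691 [5121,9217] (.node 13673 [5121,9217] (.node 13666 [5121,9217] .nil .nil) .nil) (.node 13708 [4616] .nil .nil))))))))) (.node 20113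 [73] (.node 15725 [4096] (.node 14703 [4096] (.node 14202 [5121,9217] (.node 13999 [4672] (.node 13907 [18057,18129] (.node 13782 [4616] (.node 13747 [5121,9217] (.node 13729 [5121,9217] (.node 13726 [4616] .nil .nil) .nil) (.node 13775 [4616] (.node 13754 [5121,9217] .nil .nil) .nil)) (.node 13810 [5121,9217] (.node 13803 [5121,9217] (.node 13789 [4616] .nil .nil) .nil) (.node 13817 [5121,9217] .nil .nil))) (.node 13950 [4672] (.node 13932 [4672] (.node 13925 [4672] (.node 13914 [4681] .nil .nil) .nil) (.node 13943 [4672] .nil .nil)) (.node 13977 [4681] (.node 13970 [4681] (.node 13963 [18057,18129] .nil .nil) .nil) (.node 13988 [4672] .nil .nil)))) (.node 14100 [4616] (.node 14055 [4672] (.node 14026 [4681] (.node 14013 [4672] (.node 14006 [4672] .nil .nil) .nil) (.node 14033 [4681] .nil .nil)) (.node 14076 [4672] (.node 14069 [4672] (.node 14062 [4672] .nil .nil) .nil) (.node 14093 [4616] .nil .nil))) (.node 14156 [4616] (.node 14121 [5121,9217] (.node 14114 [5121,9217] (.node 14111 [4616] .nil .nil) .nil) (.node 14139 [5121,9217]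 .nil .nil)) (.node 14177 [5121,9217] (.node 14174 [4616] (.node 14167 [4616] .nil .nil) .nil) (.node 14195 [5121,9217] .nil .nil))))) (.node 14492 [8328,4232] (.node 14314 [5121,9217] (.node 14265 [5121,9217] (.node 14237 [4616] (.node 14230 [4616] (.node 14223 [4616] .nil .nil) .nil) (.node 14258 [5121,9217] (.node 14251 [5121,9217] .nil .nil) .nil)) (.node 14300 [4616] (.node 14293 [4616] (.node 14286 [4616] .nil .nil) .nil) (.node 14307 [5121,9217] .nil .nil))) (.node 14443 [4161] (.node 14422 [8328,4232] (.node 14415 [8328,4232] (.node 14321 [5121,9217] .nil .nil) .nil) (.node 14429 [8328,4232] .nil .nil)) (.node 14478 [8328,4232] (.node 14457 [4161] (.node 14450 [4161] .nil .nil) .nil) (.node 14485 [8328,4232] .nil .nil)))) (.node 14611 [4105] (.node 14548 [8328,4232] (.node 14513 [4161] (.node 14506 [4161] (.node 14499 [4161] .nil .nil) .nil) (.node 14541 [8328,4232] .nil .nil)) (.node 14569 [4161] (.node 14562 [4161] (.node 14559 [8328,4232] .nil .nil) .nil) (.node 14587 [4161] .nil .nil))) (.node 14654 [4096] (.node 14636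 [4096] (.node 14629 [4096] (.node 14618 [4105] .nil .nil) .nil) (.node 14647 [4096] .nil .nil)) (.node 14681 [4105] (.node 14674 [4105] (.node 14667 [4105] .nil .nil) .nil) (.node 14692 [4096] .nil .nil)))))) (.node 15207 [4096] (.node 14996 [8328,4232] (.node 14829 [4096] (.node 14766 [4096] (.node 14730 [4105] (.node 14717 [4096] (.node 14710 [4096] .nil .nil) .nil) (.node 14759 [4096] (.node 14737 [4105] .nil .nil) .nil)) (.node 14811 [4105] (.node 14780 [4096] (.node 14773 [4096] .nil .nil) .nil) (.node 14822 [4096] .nil .nil))) (.node 14940 [8328,4232] (.node 14926 [8328,4232] (.node 14847 [4096] (.node 14836 [4096] .nil .nil) .nil) (.node 14933 [8328,4232] .nil .nil)) (.node 14961 [4161] (.node 14954 [4161] (.node 14947 [4161] .nil .nil) .nil) (.node 14989 [8328,4232] .nil .nil)))) (.node 15098 [4161] (.node 15052 [8328,4232] (.node 15017 [4161] (.node 15010 [4161] (.node 15007 [8328,4232] .nil .nil) .nil) (.node 15035 [4161] .nil .nil)) (.node 15073 [4161] (.node 15070 [8328,4232] (.node 15063 [8328,4232] .nil .nil) .nil)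 (.node 15091 [4161] .nil .nil))) (.node 15151 [4096] (.node 15129 [4105] (.node 15122 [4105] (.node 15115 [4105] .nil .nil) .nil) (.node 15140 [4096] .nil .nil)) (.node 15178 [4105] (.node 15165 [4096] (.node 15158 [4096] .nil .nil) .nil) (.node 15185 [4105] .nil .nil))))) (.node 15500 [8328,4232] (.node 15333 [4096] (.node 15277 [4096] (.node 15228 [4096] (.node 15221 [4096] (.node 15214 [4096] .nil .nil) .nil) (.node 15270 [4096] (.node 15259 [4105] .nil .nil) .nil)) (.node 15315 [4105] (.node 15295 [4096] (.node 15284 [4096] .nil .nil) .nil) (.node 15322 [4105] .nil .nil))) (.node 15444 [8328,4232] (.node 15358 [4096] (.node 15351 [4096] (.node 15340 [4096] .nil .nil) .nil) (.node 15437 [8328,4232] .nil .nil)) (.node 15465 [4161] (.node 15458 [4161] (.node 15455 [8328,4232] .nil .nil) .nil) (.node 15483 [4161] .nil .nil)))) (.node 15602 [4161] (.node 15546 [4161] (.node 15521 [4161] (.node 15518 [8328,4232] (.node 15511 [8328,4232] .nil .nil) .nil) (.node 15539 [4161] .nil .nil)) (.node 15581 [8328,4232] (.node 15574 [8328,4232]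 (.node 15567 [8328,4232] .nil .nil) .nil) (.node 15595 [4161] .nil .nil))) (.node 15662 [4096] (.node 15633 [4105] (.node 15626 [4105] (.node 15609 [4161] .nil .nil) .nil) (.node 15655 [4096] .nil .nil)) (.node 15707 [4105] (.node 15676 [4096] (.node 15669 [4096] .nil .nil) .nil) (.node 15718 [4096] .nil .nil))))))) (.node 17355 [521] (.node 16229 [4096] (.node 15994 [4161] (.node 15833 [4105] (.node 15788 [4096] (.node 15763 [4105] (.node 15743 [4096] (.node 15732 [4096] .nil .nil) .nil) (.node 15781 [4096] (.node 15770 [4105] .nil .nil) .nil)) (.node 15819 [4105] (.node 15806 [4096] (.node 15799 [4096] .nil .nil) .nil) (.node 15826 [4105] .nil .nil))) (.node 15948 [8328,4232] (.node 15862 [4096] (.node 15855 [4096] (.node 15844 [4096] .nil .nil) .nil) (.node 15869 [4096] .nil .nil)) (.node 15969 [4161] (.node 15966 [8328,4232] (.node 15959 [8328,4232] .nil .nil) .nil) (.node 15987 [4161] .nil .nil)))) (.node 16099 [4161] (.node 16050 [4161] (.node 16029 [8328,4232] (.node 16022 [8328,4232] (.node 16015 [8328,4232] .nil .nil)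 .nil) (.node 16043 [4161] .nil .nil)) (.node 16085 [8328,4232] (.node 16078 [8328,4232] (.node 16057 [4161] .nil .nil) .nil) (.node 16092 [8328,4232] .nil .nil))) (.node 16173 [4096] (.node 16155 [4105] (.node 16113 [4161] (.node 16106 [4161] .nil .nil) .nil) (.node 16166 [4096] .nil .nil)) (.node 16211 [4105] (.node 16191 [4096] (.node 16180 [4096] .nil .nil) .nil) (.node 16218 [4105] .nil .nil))))) (.node 17001 [577] (.node 16330 [4105] (.node 16281 [4105] (.node 16254 [4096] (.node 16247 [4096] (.node 16236 [4096] .nil .nil) .nil) (.node 16274 [4105] (.node 16267 [4105] .nil .nil) .nil)) (.node 16310 [4096] (.node 16303 [4096] (.node 16292 [4096] .nil .nil) .nil) (.node 16317 [4096] .nil .nil))) (.node 16380 [4096] (.node 16366 [4096] (.node 16359 [4096] (.node 16337 [4105] .nil .nil) .nil) (.node 16373 [4096] .nil .nil)) (.node 16991 [584] (.node 16980 [584] (.node 16973 [584] .nil .nil) .nil) (.node 16994 [577] .nil .nil)))) (.node 17117 [584] (.node 17057 [577] (.node 17047 [584] (.node 17036 [584] (.node 17019 [577] .nil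 .nil) .nil) (.node 17054 [584] .nil .nil)) (.node 17103 [584] (.node 17082 [577] (.node 17075 [577] .nil .nil) .nil) (.node 17110 [584] .nil .nil))) (.node 17169 [521] (.node 17145 [577] (.node 17138 [577] (.node 17131 [577] .nil .nil) .nil) (.node 17162 [521] .nil .nil)) (.node 17299 [521] (.node 17243 [521] (.node 17225 [521] .nil .nil) .nil) (.node 17306 [521] .nil .nil)))))) (.node 18097 [577] (.node 17673 [521] (.node 17565 [584] (.node 17505 [577] (.node 17484 [584] (.node 17369 [521] (.node 17362 [521] .nil .nil) .nil) (.node 17502 [584] (.node 17495 [584] .nil .nil) .nil)) (.node 17551 [584] (.node 17530 [577] (.node 17523 [577] .nil .nil) .nil) (.node 17558 [584] .nil .nil))) (.node 17621 [584] (.node 17593 [577] (.node 17586 [577] (.node 17579 [577] .nil .nil) .nil) (.node 17614 [584] .nil .nil)) (.node 17642 [577] (.node 17635 [577] (.node 17628 [584] .nil .nil) .nil) (.node 17649 [577] .nil .nil)))) (.node 18006 [584] (.node 17810 [521] (.node 17754 [521] (.node 17747 [521] (.node 17691 [521] .nil .nil) .nil) (.node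 17803 [521] .nil .nil)) (.node 17873 [521] (.node 17866 [521] (.node 17817 [521] .nil .nil) .nil) (.node 17999 [584] .nil .nil))) (.node 18062 [584] (.node 18034 [577] (.node 18027 [577] (.node 18013 [584] .nil .nil) .nil) (.node 18041 [577] .nil .nil)) (.node 18083 [577] (.node 18076 [584] (.node 18069 [584] .nil .nil) .nil) (.node 18090 [577] .nil .nil))))) (.node 18643 [73] (.node 18258 [521] (.node 18153 [577] (.node 18143 [584] (.node 18132 [584] (.node 18125 [584] .nil .nil) .nil) (.node 18146 [577] .nil .nil)) (.node 18202 [521] (.node 18195 [521] (.node 18171 [577] .nil .nil) .nil) (.node 18251 [521] .nil .nil))) (.node 18395 [521] (.node 18321 [521] (.node 18314 [521] (.node 18265 [521] .nil .nil) .nil) (.node 18377 [521] .nil .nil)) (.node 18569 [73] (.node 18513 [73] (.node 18506 [73] .nil .nil) .nil) (.node 18587 [73] .nil .nil)))) (.node 19546 [73] (.node 19098 [73] (.node 19035 [73] (.node 19017 [73] (.node 18650 [73] .nil .nil) .nil) (.node 19091 [73] .nil .nil)) (.node 19161 [73] (.node 19154 [73] (.node 19147 [73]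 .nil .nil) .nil) (.node 19539 [73] .nil .nil))) (.node 19665 [73] (.node 19609 [73] (.node 19602 [73] (.node 19595 [73] .nil .nil) .nil) (.node 19658 [73] .nil .nil)) (.node 20057 [73] (.node 20050 [73] (.node 20043 [73] .nil .nil) .nil) (.node 20106 [73] .nil .nil)))))))) (.node 26074 [521] (.node 22483 [521] (.node 21681 [577] (.node 21257 [521] (.node 21149 [584] (.node 21089 [577] (.node 21068 [584] (.node 20187 [73] (.node 20169 [73] .nil .nil) .nil) (.node 21086 [584] (.node 21079 [584] .nil .nil) .nil)) (.node 21135 [584] (.node 21114 [577] (.node 21107 [577] .nil .nil) .nil) (.node 21142 [584] .nil .nil))) (.node 21205 [584] (.node 21177 [577] (.node 21170 [577] (.node 21163 [577] .nil .nil) .nil) (.node 21198 [584] .nil .nil)) (.node 21226 [577] (.node 21219 [577] (.node 21212 [584] .nil .nil) .nil) (.node 21233 [577] .nil .nil)))) (.node 21590 [584] (.node 21394 [521] (.node 21338 [521] (.node 21331 [521] (.node 21275 [521] .nil .nil) .nil) (.node 21387 [521] .nil .nil)) (.node 21457 [521] (.node 21450 [521] (.node 21401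 [521] .nil .nil) .nil) (.node 21583 [584] .nil .nil))) (.node 21646 [584] (.node 21618 [577] (.node 21611 [577] (.node 21597 [584] .nil .nil) .nil) (.node 21625 [577] .nil .nil)) (.node 21667 [577] (.node 21660 [584] (.node 21653 [584] .nil .nil) .nil) (.node 21674 [577] .nil .nil))))) (.node 22129 [577] (.node 21849 [521] (.node 21755 [577] (.node 21727 [584] (.node 21716 [584] (.node 21709 [584] .nil .nil) .nil) (.node 21737 [577] (.node 21730 [577] .nil .nil) .nil)) (.node 21835 [521] (.node 21786 [521] (.node 21779 [521] .nil .nil) .nil) (.node 21842 [521] .nil .nil))) (.node 22094 [584] (.node 21961 [521] (.node 21905 [521] (.node 21898 [521] .nil .nil) .nil) (.node 21979 [521] .nil .nil)) (.node 22115 [577] (.node 22108 [584] (.node 22101 [584] .nil .nil) .nil) (.node 22122 [577] .nil .nil)))) (.node 22241 [577] (.node 22185 [577] (.node 22175 [584] (.node 22164 [584] (.node 22157 [584] .nil .nil) .nil) (.node 22178 [577] .nil .nil)) (.node 22231 [584] (.node 22220 [584] (.node 22203 [577] .nil .nil) .nil) (.node 22238 [584]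 .nil .nil))) (.node 22297 [521] (.node 22283 [521] (.node 22266 [577] (.node 22259 [577] .nil .nil) .nil) (.node 22290 [521] .nil .nil)) (.node 22409 [521] (.node 22353 [521] (.node 22346 [521] .nil .nil) .nil) (.node 22427 [521] .nil .nil)))))) (.node 25293 [584] (.node 23753 [73] (.node 23179 [73] (.node 22731 [73] (.node 22619 [73] (.node 22601 [73] (.node 22490 [521] .nil .nil) .nil) (.node 22682 [73] (.node 22675 [73] .nil .nil) .nil)) (.node 23123 [73] (.node 22745 [73] (.node 22738 [73] .nil .nil) .nil) (.node 23130 [73] .nil .nil))) (.node 23627 [73] (.node 23242 [73] (.node 23193 [73] (.node 23186 [73] .nil .nil) .nil) (.node 23249 [73] .nil .nil)) (.node 23690 [73] (.node 23641 [73] (.node 23634 [73] .nil .nil) .nil) (.node 23697 [73] .nil .nil)))) (.node 25181 [584] (.node 24219 [73] (.node 24145 [73] (.node 24138 [73] (.node 23771 [73] .nil .nil) .nil) (.node 24201 [73] .nil .nil)) (.node 25167 [584] (.node 24282 [73] (.node 24275 [73] .nil .nil) .nil) (.node 25174 [584] .nil .nil))) (.node 25237 [584] (.node 25209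 [577] (.node 25202 [577] (.node 25195 [577] .nil .nil) .nil) (.node 25230 [584] .nil .nil)) (.node 25258 [577] (.node 25251 [577] (.node 25244 [584] .nil .nil) .nil) (.node 25265 [577] .nil .nil))))) (.node 25741 [584] (.node 25482 [521] (.node 25363 [521] (.node 25314 [577] (.node 25311 [584] (.node 25300 [584] .nil .nil) .nil) (.node 25339 [577] (.node 25321 [577] .nil .nil) .nil)) (.node 25426 [521] (.node 25419 [521] (.node 25370 [521] .nil .nil) .nil) (.node 25433 [521] .nil .nil))) (.node 25685 [584] (.node 25563 [521] (.node 25545 [521] (.node 25489 [521] .nil .nil) .nil) (.node 25678 [584] .nil .nil)) (.node 25706 [577] (.node 25699 [577] (.node 25692 [584] .nil .nil) .nil) (.node 25713 [577] .nil .nil)))) (.node 25843 [577] (.node 25787 [577] (.node 25762 [577] (.node 25759 [584] (.node 25748 [584] .nil .nil) .nil) (.node 25769 [577] .nil .nil)) (.node 25822 [584] (.node 25815 [584] (.node 25804 [584] .nil .nil) .nil) (.node 25825 [577] .nil .nil))) (.node 25930 [521] (.node 25874 [521] (.node 25867 [521] (.node 25850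 [577] .nil .nil) .nil) (.node 25881 [521] .nil .nil)) (.node 26011 [521] (.node 25993 [521] (.node 25937 [521] .nil .nil) .nil) (.node 26067 [521] .nil .nil))))))) (.node 29773 [584] (.node 27355 [73] (.node 26441 [521] (.node 26291 [577] (.node 26235 [577] (.node 26207 [584] (.node 26196 [584] (.node 26189 [584] .nil .nil) .nil) (.node 26217 [577] (.node 26210 [577] .nil .nil) .nil)) (.node 26270 [584] (.node 26263 [584] (.node 26252 [584] .nil .nil) .nil) (.node 26273 [577] .nil .nil))) (.node 26347 [577] (.node 26326 [584] (.node 26319 [584] (.node 26298 [577] .nil .nil) .nil) (.node 26333 [584] .nil .nil)) (.node 26378 [521] (.node 26361 [577] (.node 26354 [577] .nil .nil) .nil) (.node 26385 [521] .nil .nil)))) (.node 26770 [73] (.node 26578 [521] (.node 26522 [521] (.node 26515 [521] (.node 26459 [521] .nil .nil) .nil) (.node 26571 [521] .nil .nil)) (.node 26714 [73] (.node 26707 [73] (.node 26585 [521] .nil .nil) .nil) (.node 26763 [73] .nil .nil))) (.node 27218 [73] (.node 26833 [73] (.node 26826 [73] (.node 26777 [73] .nil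 .nil) .nil) (.node 27211 [73] .nil .nil)) (.node 27281 [73] (.node 27274 [73] (.node 27225 [73] .nil .nil) .nil) (.node 27337 [73] .nil .nil))))) (.node 29332 [584] (.node 28363 [73] (.node 27866 [73] (.node 27785 [73] (.node 27729 [73] (.node 27722 [73] .nil .nil) .nil) (.node 27859 [73] (.node 27803 [73] .nil .nil) .nil)) (.node 28307 [73] (.node 28251 [73] (.node 28233 [73] .nil .nil) .nil) (.node 28314 [73] .nil .nil))) (.node 29276 [584] (.node 29262 [584] (.node 28377 [73] (.node 28370 [73] .nil .nil) .nil) (.node 29269 [584] .nil .nil)) (.node 29297 [577] (.node 29290 [577] (.node 29283 [577] .nil .nil) .nil) (.node 29325 [584] .nil .nil)))) (.node 29434 [577] (.node 29388 [584] (.node 29353 [577] (.node 29346 [577] (.node 29343 [584] .nil .nil) .nil) (.node 29371 [577] .nil .nil)) (.node 29409 [577] (.node 29406 [584] (.node 29399 [584] .nil .nil) .nil) (.node 29427 [577] .nil .nil))) (.node 29521 [521] (.node 29465 [521] (.node 29458 [521] (.node 29451 [521] .nil .nil) .nil) (.node 29514 [521] .nil .nil)) (.node 29651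 [521] (.node 29595 [521] (.node 29577 [521] .nil .nil) .nil) (.node 29658 [521] .nil .nil)))))) (.node 30428 [584] (.node 30043 [521] (.node 29882 [577] (.node 29836 [584] (.node 29794 [577] (.node 29791 [584] (.node 29780 [584] .nil .nil) .nil) (.node 29819 [577] (.node 29801 [577] .nil .nil) .nil)) (.node 29857 [577] (.node 29854 [584] (.node 29847 [584] .nil .nil) .nil) (.node 29875 [577] .nil .nil))) (.node 29938 [577] (.node 29917 [584] (.node 29910 [584] (.node 29903 [584] .nil .nil) .nil) (.node 29931 [577] .nil .nil)) (.node 29969 [521] (.node 29962 [521] (.node 29945 [577] .nil .nil) .nil) (.node 30025 [521] .nil .nil)))) (.node 30323 [577] (.node 30169 [521] (.node 30155 [521] (.node 30106 [521] (.node 30099 [521] .nil .nil) .nil) (.node 30162 [521] .nil .nil)) (.node 30302 [584] (.node 30295 [584] (.node 30284 [584] .nil .nil) .nil) (.node 30305 [577] .nil .nil))) (.node 30379 [577] (.node 30358 [584] (.node 30351 [584] (.node 30330 [577] .nil .nil) .nil) (.node 30365 [584] .nil .nil)) (.node 30414 [584] (.node 30393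 [577] (.node 30386 [577] .nil .nil) .nil) (.node 30421 [584] .nil .nil))))) (.node 31306 [73] (.node 30617 [521] (.node 30491 [521] (.node 30449 [577] (.node 30442 [577] (.node 30435 [577] .nil .nil) .nil) (.node 30473 [521] .nil .nil)) (.node 30603 [521] (.node 30554 [521] (.node 30547 [521] .nil .nil) .nil) (.node 30610 [521] .nil .nil))) (.node 30809 [73] (.node 30795 [73] (.node 30673 [521] (.node 30666 [521] .nil .nil) .nil) (.node 30802 [73] .nil .nil)) (.node 30921 [73] (.node 30865 [73] (.node 30858 [73] .nil .nil) .nil) (.node 30939 [73] .nil .nil)))) (.node 31947 [73] (.node 31450 [73] (.node 31387 [73] (.node 31369 [73] (.node 31313 [73] .nil .nil) .nil) (.node 31443 [73] .nil .nil)) (.node 31891 [73] (.node 31835 [73] (.node 31817 [73] .nil .nil) .nil) (.node 31898 [73] .nil .nil))) (.node 32395 [73] (.node 32339 [73] (.node 31961 [73] (.node 31954 [73] .nil .nil) .nil) (.node 32346 [73] .nil .nil)) (.node 32458 [73] (.node 32409 [73] (.node 32402 [73] .nil .nil) .nil) (.node 32465 [73] .nil .nil))))))))))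

def LP7 : List Ct := [⟨[false, false, false, false, false], 0, 2, 0⟩, ⟨[false, false, false, false, false], 1, 2, 3⟩, ⟨[false, false, false, false, false], 2, 2, 6⟩, ⟨[false, false, false, false, true], 1, 2, 2⟩, ⟨[false, false, false, false, true], 2, 2, 3⟩, ⟨[false, false, false, true, false], 1, 2, 2⟩, ⟨[false, false, false, true, false], 2, 2, 3⟩, ⟨[false, false, false, true, true], 2, 2, 3⟩, ⟨[false, false, true, false, false], 1, 2, 2⟩, ⟨[false, false, true, false, false], 2, 2, 3⟩, ⟨[false, false, true, false, true], 2, 2, 3⟩, ⟨[false, false, true, true, false], 2, 2, 2⟩, ⟨[false, false, true, true, true], 2, 2, 2⟩, ⟨[false, true, false, false, false], 1, 2, 2⟩, ⟨[false, true, false, false, false], 2, 2, 3⟩, ⟨[false, true, false, false, true], 2, 2, 3⟩, ⟨[false, true, false, true, false], 2, 2, 3⟩, ⟨[false, true, false, true, true], 2, 2, 3⟩, ⟨[false, true, true, false, false], 2, 2, 4⟩, ⟨[false, true, true, false, true], 2, 2, 4⟩, ⟨[false, true, true, true, false], 2, 2, 3⟩, ⟨[false, true, true, true, true], 2, 1, 2⟩,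 ⟨[false, true, true, true, true], 2, 2, 3⟩, ⟨[true, false, false, false, false], 1, 2, 2⟩, ⟨[true, false, false, false, false], 2, 2, 3⟩, ⟨[true, false, false, false, true], 2, 2, 3⟩, ⟨[true, false, false, true, false], 2, 2, 4⟩, ⟨[true, false, false, true, true], 2, 2, 4⟩, ⟨[true, false, true, false, false], 2, 2, 3⟩, ⟨[true, false, true, false, true], 2, 2, 3⟩, ⟨[true, false, true, true, false], 2, 2, 3⟩, ⟨[true, false, true, true, true], 2, 1, 2⟩, ⟨[true, false, true, true, true], 2, 2, 3⟩, ⟨[true, true, false, false, false], 2, 2, 2⟩, ⟨[true, true, false, false, true], 2, 2, 2⟩, ⟨[true, true, false, true, false], 2, 2, 3⟩, ⟨[true, true, false, true, true], 2, 1, 2⟩, ⟨[true, true, false, true, true], 2, 2, 3⟩, ⟨[true, true, true, false, false], 2, 2, 3⟩, ⟨[true, true, true, false, true], 2, 1, 2⟩, ⟨[true, true, true, false, true], 2, 2, 3⟩, ⟨[true, true, true, true, false], 2, 1, 2⟩, ⟨[true, true, true, true, false], 2, 2, 3⟩, ⟨[true, true, true, true, true], 2, 0, 0⟩, ⟨[true, true, true, true, true], 2, 1, 3⟩, ⟨[true, true,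 true, true, true], 2, 2, 6⟩]

end Pool.Agent.W420.NS
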