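import Pool.Agent.W420.NS.TN20
import Pool.Agent.W420.NS.TP7
import Pool.Agent.W420.NS.TM158

/-! # Check of `N20` -/

set_option autoImplicit false
set_option maxRecDepth 1000000

namespace Pool.Agent.W420.NS

def GN20 : Tr (List (ℕ × List ℕ)) := (.node 293 [(512,[49,42,35]),(4096,[28,21,14])] (.node 179 [(577,[33,58,51]),(4161,[12,30,23])] (.node 121 [(577,[49,42,35]),(4161,[28,21,14])] (.node 97 [(577,[41,34,59]),(4161,[20,13,31])] (.node 85 [(648,[57,50,43]),(4232,[29,22,15])] (.node 78 [(648,[57,50,43]),(4232,[29,22,15])] (.node 76 [(648,[41,34,59]),(4232,[20,13,31])] (.node 74 [(73,[36,61,54,47]),(8777,[25,18,11]),(8850,[25,18,11])] (.node 73 [(138,[44,37,62,55]),(4689,[26,19]),(4746,[26,19]),(4754,[26,19])] .nil .nil) .nil) (.node 77 [(648,[33,58,51]),(4232,[12,30,23])] .nil .nil)) (.node 82 [(138,[60,53,46,39]),(4689,[17,10]),(4746,[17,10]),(4754,[17,10])] (.node 81 [(73,[36,61,54,47]),(8777,[25,18,11]),(8850,[25,18,11])] (.node 79 [(648,[49,42,35]),(4232,[28,21,14])]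 .nil .nil) .nil) (.node 84 [(648,[33,58,51]),(4232,[12,30,23])] .nil .nil))) (.node 92 [(648,[57,50,43]),(4232,[29,22,15])] (.node 89 [(138,[60,53,46,39]),(4689,[17,10]),(4746,[17,10]),(4754,[17,10])] (.node 87 [(648,[41,34,59]),(4232,[20,13,31])] (.node 86 [(648,[49,42,35]),(4232,[28,21,14])] .nil .nil) .nil) (.node 90 [(138,[52,45,38,63]),(4689,[9,27]),(4746,[9,27]),(4754,[9,27])] .nil .nil)) (.node 94 [(648,[41,34,59]),(4232,[20,13,31])] (.node 93 [(648,[49,42,35]),(4232,[28,21,14])] .nil .nil) (.node 95 [(648,[33,58,51]),(4232,[12,30,23])] .nil .nil)))) (.node 109 [(4736,[26,19])] (.node 103 [(8896,[25,18,11])] (.node 101 [(4736,[9,27])] (.node 100 [(4736,[17,10])] (.node 98 [(577,[33,58,51]),(4161,[12,30,23])] .nil .nil) .nil) (.node 102 [(4736,[26,19])] .nil .nil)) (.node 106 [(577,[57,50,43]),(4161,[29,22,15])] (.node 105 [(577,[33,58,51]),(4161,[12,30,23])] .nil .nil) (.node 108 [(4736,[9,27])] .nil .nil))) (.node 116 [(4736,[26,19])] (.node 113 [(577,[57,50,43]),(4161,[29,22,15])]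 (.node 111 [(4736,[17,10])] (.node 110 [(8896,[25,18,11])] .nil .nil) .nil) (.node 114 [(577,[49,42,35]),(4161,[28,21,14])] .nil .nil)) (.node 118 [(4736,[17,10])] (.node 117 [(8896,[25,18,11])] .nil .nil) (.node 119 [(4736,[9,27])] .nil .nil))))) (.node 155 [(73,[36,61,54,47]),(8777,[25,18,11]),(8850,[25,18,11])] (.node 142 [(648,[49,42,35]),(4232,[28,21,14])] (.node 127 [(4736,[26,19])] (.node 125 [(4736,[17,10])] (.node 124 [(8896,[25,18,11])] (.node 122 [(577,[41,34,59]),(4161,[20,13,31])] .nil .nil) .nil) (.node 126 [(4736,[9,27])] .nil .nil)) (.node 140 [(648,[33,58,51]),(4232,[12,30,23])] (.node 139 [(138,[52,45,38,63]),(4689,[9,27]),(4746,[9,27]),(4754,[9,27])] (.node 137 [(73,[36,61,54,47]),(8777,[25,18,11]),(8850,[25,18,11])] .nil .nil) .nil) (.node 141 [(648,[57,50,43]),(4232,[29,22,15])] .nil .nil))) (.node 149 [(648,[49,42,35]),(4232,[28,21,14])] (.node 147 [(138,[44,37,62,55]),(4689,[26,19]),(4746,[26,19]),(4754,[26,19])] (.node 145 [(138,[60,53,46,39]),(4689,[17,10]),(4746,[17,10]),(4754,[17,10])]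 (.node 143 [(648,[41,34,59]),(4232,[20,13,31])] .nil .nil) .nil) (.node 148 [(648,[57,50,43]),(4232,[29,22,15])] .nil .nil)) (.node 151 [(648,[33,58,51]),(4232,[12,30,23])] (.node 150 [(648,[41,34,59]),(4232,[20,13,31])] .nil .nil) (.node 153 [(138,[52,45,38,63]),(4689,[9,27]),(4746,[9,27]),(4754,[9,27])] .nil .nil)))) (.node 166 [(8896,[25,18,11])] (.node 161 [(577,[33,58,51]),(4161,[12,30,23])] (.node 158 [(648,[33,58,51]),(4232,[12,30,23])] (.node 157 [(648,[41,34,59]),(4232,[20,13,31])] (.node 156 [(648,[49,42,35]),(4232,[28,21,14])] .nil .nil) .nil) (.node 159 [(648,[57,50,43]),(4232,[29,22,15])] .nil .nil)) (.node 164 [(4736,[9,27])] (.node 163 [(577,[49,42,35]),(4161,[28,21,14])] .nil .nil) (.node 165 [(4736,[26,19])] .nil .nil))) (.node 173 [(8896,[25,18,11])] (.node 171 [(577,[41,34,59]),(4161,[20,13,31])] (.node 169 [(577,[57,50,43]),(4161,[29,22,15])] (.node 167 [(4736,[17,10])] .nil .nil) .nil) (.node 172 [(4736,[26,19])] .nil .nil)) (.node 175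 [(4736,[9,27])] (.node 174 [(4736,[17,10])] .nil .nil) (.node 177 [(577,[49,42,35]),(4161,[28,21,14])] .nil .nil)))))) (.node 236 [(8896,[25,18,11])] (.node 212 [(648,[49,42,35]),(4232,[28,21,14])] (.node 191 [(8896,[25,18,11])] (.node 185 [(577,[41,34,59]),(4161,[20,13,31])] (.node 182 [(4736,[9,27])] (.node 181 [(4736,[17,10])] (.node 180 [(8896,[25,18,11])] .nil .nil) .nil) (.node 183 [(4736,[26,19])] .nil .nil)) (.node 189 [(4736,[9,27])] (.node 188 [(4736,[17,10])] (.node 187 [(577,[57,50,43]),(4161,[29,22,15])] .nil .nil) .nil) (.node 190 [(4736,[26,19])] .nil .nil))) (.node 206 [(648,[41,34,59]),(4232,[20,13,31])] (.node 204 [(648,[57,50,43]),(4232,[29,22,15])] (.node 203 [(138,[44,37,62,55]),(4689,[26,19]),(4746,[26,19]),(4754,[26,19])] (.node 202 [(138,[52,45,38,63]),(4689,[9,27]),(4746,[9,27]),(4754,[9,27])] .nil .nil) .nil) (.node 205 [(648,[49,42,35]),(4232,[28,21,14])] .nil .nil)) (.node 210 [(138,[44,37,62,55]),(4689,[26,19]),(4746,[26,19]),(4754,[26,19])]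 (.node 207 [(648,[33,58,51]),(4232,[12,30,23])] .nil .nil) (.node 211 [(73,[36,61,54,47]),(8777,[25,18,11]),(8850,[25,18,11])] .nil .nil)))) (.node 223 [(648,[49,42,35]),(4232,[28,21,14])] (.node 219 [(138,[60,53,46,39]),(4689,[17,10]),(4746,[17,10]),(4754,[17,10])] (.node 215 [(648,[57,50,43]),(4232,[29,22,15])] (.node 214 [(648,[33,58,51]),(4232,[12,30,23])] (.node 213 [(648,[41,34,59]),(4232,[20,13,31])] .nil .nil) .nil) (.node 218 [(73,[36,61,54,47]),(8777,[25,18,11]),(8850,[25,18,11])] .nil .nil)) (.node 221 [(648,[33,58,51]),(4232,[12,30,23])] (.node 220 [(648,[41,34,59]),(4232,[20,13,31])] .nil .nil) (.node 222 [(648,[57,50,43]),(4232,[29,22,15])] .nil .nil))) (.node 230 [(4736,[17,10])] (.node 228 [(4736,[26,19])] (.node 227 [(577,[41,34,59]),(4161,[20,13,31])] (.node 226 [(577,[49,42,35]),(4161,[28,21,14])] .nil .nil) .nil) (.node 229 [(8896,[25,18,11])] .nil .nil)) (.node 234 [(577,[41,34,59]),(4161,[20,13,31])] (.node 231 [(4736,[9,27])] .nil .nil)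 (.node 235 [(577,[33,58,51]),(4161,[12,30,23])] .nil .nil))))) (.node 269 [(4624,[9,27])] (.node 250 [(577,[57,50,43]),(4161,[29,22,15])] (.node 243 [(577,[57,50,43]),(4161,[29,22,15])] (.node 239 [(4736,[26,19])] (.node 238 [(4736,[9,27])] (.node 237 [(4736,[17,10])] .nil .nil) .nil) (.node 242 [(577,[33,58,51]),(4161,[12,30,23])] .nil .nil)) (.node 246 [(4736,[26,19])] (.node 245 [(4736,[9,27])] (.node 244 [(4736,[17,10])] .nil .nil) .nil) (.node 247 [(8896,[25,18,11])] .nil .nil))) (.node 255 [(4736,[17,10])] (.node 253 [(4736,[26,19])] (.node 252 [(4736,[9,27])] (.node 251 [(577,[49,42,35]),(4161,[28,21,14])] .nil .nil) .nil) (.node 254 [(8896,[25,18,11])] .nil .nil)) (.node 266 [(522,[33,58,51]),(4106,[12,30,23])] (.node 265 [(522,[41,34,59]),(4106,[20,13,31])] .nil .nil) (.node 267 [(522,[57,50,43]),(4106,[29,22,15])] .nil .nil)))) (.node 281 [(522,[57,50,43]),(4106,[29,22,15])] (.node 275 [(522,[49,42,35]),(4106,[28,21,14])] (.node 273 [(522,[33,58,51]),(4106,[12,30,23])]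 (.node 271 [(8,[36,61,54,47]),(8712,[25,18,11]),(8720,[25,18,11])] (.node 270 [(4624,[26,19])] .nil .nil) .nil) (.node 274 [(522,[57,50,43]),(4106,[29,22,15])] .nil .nil)) (.node 278 [(8,[36,61,54,47]),(8712,[25,18,11]),(8720,[25,18,11])] (.node 277 [(4624,[26,19])] .nil .nil) (.node 279 [(4624,[17,10])] .nil .nil))) (.node 287 [(4624,[9,27])] (.node 285 [(8,[36,61,54,47]),(8712,[25,18,11]),(8720,[25,18,11])] (.node 283 [(522,[41,34,59]),(4106,[20,13,31])] (.node 282 [(522,[49,42,35]),(4106,[28,21,14])] .nil .nil) .nil) (.node 286 [(4624,[17,10])] .nil .nil)) (.node 290 [(4610,[9,27])] (.node 289 [(4610,[17,10])] .nil .nil) (.node 291 [(4610,[26,19])] .nil .nil))))))) (.node 407 [(4624,[26,19])] (.node 349 [(4624,[17,10])] (.node 318 [(512,[49,42,35]),(4096,[28,21,14])] (.node 306 [(8707,[25,18,11])] (.node 299 [(8707,[25,18,11])] (.node 297 [(4610,[9,27])] (.node 295 [(512,[33,58,51]),(4096,[12,30,23])] (.node 294 [(512,[41,34,59]),(4096,[20,13,31])] .nil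 .nil) .nil) (.node 298 [(4610,[26,19])] .nil .nil)) (.node 303 [(512,[57,50,43]),(4096,[29,22,15])] (.node 302 [(512,[33,58,51]),(4096,[12,30,23])] (.node 301 [(512,[41,34,59]),(4096,[20,13,31])] .nil .nil) .nil) (.node 305 [(4610,[26,19])] .nil .nil))) (.node 313 [(8707,[25,18,11])] (.node 310 [(512,[57,50,43]),(4096,[29,22,15])] (.node 309 [(512,[33,58,51]),(4096,[12,30,23])] (.node 307 [(4610,[17,10])] .nil .nil) .nil) (.node 311 [(512,[49,42,35]),(4096,[28,21,14])] .nil .nil)) (.node 315 [(4610,[9,27])] (.node 314 [(4610,[17,10])] .nil .nil) (.node 317 [(512,[57,50,43]),(4096,[29,22,15])] .nil .nil)))) (.node 338 [(522,[49,42,35]),(4106,[28,21,14])] (.node 332 [(4624,[9,27])] (.node 330 [(522,[57,50,43]),(4106,[29,22,15])] (.node 329 [(522,[33,58,51]),(4106,[12,30,23])] (.node 319 [(512,[41,34,59]),(4096,[20,13,31])] .nil .nil) .nil) (.node 331 [(522,[49,42,35]),(4106,[28,21,14])] .nil .nil)) (.node 334 [(8,[36,61,54,47]),(8712,[25,18,11]),(8720,[25,18,11])]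 (.node 333 [(4624,[26,19])] .nil .nil) (.node 337 [(522,[57,50,43]),(4106,[29,22,15])] .nil .nil))) (.node 345 [(522,[49,42,35]),(4106,[28,21,14])] (.node 341 [(8,[36,61,54,47]),(8712,[25,18,11]),(8720,[25,18,11])] (.node 340 [(4624,[26,19])] (.node 339 [(522,[41,34,59]),(4106,[20,13,31])] .nil .nil) .nil) (.node 342 [(4624,[17,10])] .nil .nil)) (.node 347 [(522,[33,58,51]),(4106,[12,30,23])] (.node 346 [(522,[41,34,59]),(4106,[20,13,31])] .nil .nil) (.node 348 [(8,[36,61,54,47]),(8712,[25,18,11]),(8720,[25,18,11])] .nil .nil))))) (.node 374 [(512,[49,42,35]),(4096,[28,21,14])] (.node 363 [(4610,[17,10])] (.node 356 [(512,[49,42,35]),(4096,[28,21,14])] (.node 354 [(4610,[26,19])] (.node 353 [(4610,[9,27])] (.node 350 [(4624,[9,27])] .nil .nil) .nil) (.node 355 [(8707,[25,18,11])] .nil .nil)) (.node 361 [(4610,[26,19])] (.node 358 [(512,[33,58,51]),(4096,[12,30,23])] (.node 357 [(512,[41,34,59]),(4096,[20,13,31])] .nil .nil) .nil) (.node 362 [(8707,[25,18,11])]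 .nil .nil))) (.node 370 [(4610,[17,10])] (.node 366 [(512,[57,50,43]),(4096,[29,22,15])] (.node 365 [(512,[33,58,51]),(4096,[12,30,23])] (.node 364 [(512,[41,34,59]),(4096,[20,13,31])] .nil .nil) .nil) (.node 369 [(8707,[25,18,11])] .nil .nil)) (.node 372 [(512,[33,58,51]),(4096,[12,30,23])] (.node 371 [(4610,[9,27])] .nil .nil) (.node 373 [(512,[57,50,43]),(4096,[29,22,15])] .nil .nil)))) (.node 395 [(522,[41,34,59]),(4106,[20,13,31])] (.node 381 [(512,[49,42,35]),(4096,[28,21,14])] (.node 379 [(4610,[26,19])] (.node 378 [(4610,[9,27])] (.node 377 [(4610,[17,10])] .nil .nil) .nil) (.node 380 [(512,[57,50,43]),(4096,[29,22,15])] .nil .nil)) (.node 393 [(522,[57,50,43]),(4106,[29,22,15])] (.node 382 [(512,[41,34,59]),(4096,[20,13,31])] .nil .nil) (.node 394 [(522,[49,42,35]),(4106,[28,21,14])] .nil .nil))) (.node 402 [(522,[41,34,59]),(4106,[20,13,31])] (.node 399 [(4624,[9,27])] (.node 397 [(8,[36,61,54,47]),(8712,[25,18,11]),(8720,[25,18,11])] (.node 396 [(4624,[26,19])]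 .nil .nil) .nil) (.node 401 [(522,[49,42,35]),(4106,[28,21,14])] .nil .nil)) (.node 404 [(8,[36,61,54,47]),(8712,[25,18,11]),(8720,[25,18,11])] (.node 403 [(522,[33,58,51]),(4106,[12,30,23])] .nil .nil) (.node 405 [(4624,[17,10])] .nil .nil)))))) (.node 465 [(522,[41,34,59]),(4106,[20,13,31])] (.node 433 [(4610,[17,10])] (.node 420 [(512,[41,34,59]),(4096,[20,13,31])] (.node 413 [(4624,[9,27])] (.node 411 [(522,[57,50,43]),(4106,[29,22,15])] (.node 410 [(522,[33,58,51]),(4106,[12,30,23])] (.node 409 [(522,[41,34,59]),(4106,[20,13,31])] .nil .nil) .nil) (.node 412 [(4624,[17,10])] .nil .nil)) (.node 418 [(8707,[25,18,11])] (.node 417 [(4610,[26,19])] (.node 415 [(8,[36,61,54,47]),(8712,[25,18,11]),(8720,[25,18,11])] .nil .nil) .nil) (.node 419 [(4610,[17,10])] .nil .nil))) (.node 427 [(4610,[9,27])] (.node 425 [(8707,[25,18,11])] (.node 423 [(512,[49,42,35]),(4096,[28,21,14])] (.node 421 [(512,[33,58,51]),(4096,[12,30,23])] .nil .nil) .nil) (.node 426 [(4610,[17,10])]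 .nil .nil)) (.node 429 [(512,[57,50,43]),(4096,[29,22,15])] (.node 428 [(512,[33,58,51]),(4096,[12,30,23])] .nil .nil) (.node 431 [(512,[41,34,59]),(4096,[20,13,31])] .nil .nil)))) (.node 444 [(512,[49,42,35]),(4096,[28,21,14])] (.node 439 [(512,[33,58,51]),(4096,[12,30,23])] (.node 436 [(512,[57,50,43]),(4096,[29,22,15])] (.node 435 [(4610,[26,19])] (.node 434 [(4610,[9,27])] .nil .nil) .nil) (.node 437 [(512,[49,42,35]),(4096,[28,21,14])] .nil .nil)) (.node 442 [(4610,[26,19])] (.node 441 [(4610,[9,27])] .nil .nil) (.node 443 [(8707,[25,18,11])] .nil .nil))) (.node 459 [(522,[33,58,51]),(4106,[12,30,23])] (.node 457 [(522,[49,42,35]),(4106,[28,21,14])] (.node 447 [(512,[57,50,43]),(4096,[29,22,15])] (.node 445 [(512,[41,34,59]),(4096,[20,13,31])] .nil .nil) .nil) (.node 458 [(522,[41,34,59]),(4106,[20,13,31])] .nil .nil)) (.node 462 [(4624,[9,27])] (.node 460 [(8,[36,61,54,47]),(8712,[25,18,11]),(8720,[25,18,11])] .nil .nil) (.node 463 [(4624,[26,19])] .nil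 .nil))))) (.node 489 [(4610,[17,10])] (.node 476 [(4624,[9,27])] (.node 471 [(8,[36,61,54,47]),(8712,[25,18,11]),(8720,[25,18,11])] (.node 468 [(4624,[17,10])] (.node 467 [(522,[57,50,43]),(4106,[29,22,15])] (.node 466 [(522,[33,58,51]),(4106,[12,30,23])] .nil .nil) .nil) (.node 470 [(4624,[26,19])] .nil .nil)) (.node 474 [(522,[57,50,43]),(4106,[29,22,15])] (.node 473 [(522,[33,58,51]),(4106,[12,30,23])] .nil .nil) (.node 475 [(522,[49,42,35]),(4106,[28,21,14])] .nil .nil))) (.node 483 [(4610,[9,27])] (.node 481 [(8707,[25,18,11])] (.node 479 [(4624,[17,10])] (.node 478 [(8,[36,61,54,47]),(8712,[25,18,11]),(8720,[25,18,11])] .nil .nil) .nil) (.node 482 [(4610,[17,10])] .nil .nil)) (.node 486 [(512,[49,42,35]),(4096,[28,21,14])] (.node 484 [(512,[33,58,51]),(4096,[12,30,23])] .nil .nil) (.node 487 [(512,[41,34,59]),(4096,[20,13,31])] .nil .nil)))) (.node 500 [(512,[49,42,35]),(4096,[28,21,14])] (.node 495 [(512,[33,58,51]),(4096,[12,30,23])] (.node 492 [(512,[57,50,43]),(4096,[29,22,15])]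 (.node 491 [(4610,[26,19])] (.node 490 [(4610,[9,27])] .nil .nil) .nil) (.node 494 [(512,[41,34,59]),(4096,[20,13,31])] .nil .nil)) (.node 498 [(4610,[26,19])] (.node 497 [(4610,[9,27])] .nil .nil) (.node 499 [(8707,[25,18,11])] .nil .nil))) (.node 507 [(4610,[17,10])] (.node 505 [(4610,[26,19])] (.node 503 [(512,[57,50,43]),(4096,[29,22,15])] (.node 502 [(512,[33,58,51]),(4096,[12,30,23])] .nil .nil) .nil) (.node 506 [(8707,[25,18,11])] .nil .nil)) (.node 510 [(512,[57,50,43]),(4096,[29,22,15])] (.node 508 [(512,[41,34,59]),(4096,[20,13,31])] .nil .nil) (.node 511 [(512,[49,42,35]),(4096,[28,21,14])] .nil .nil))))))))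

def MN20 : Tr (List ℕ) := (.node 151527944 [1161] (.node 18911297 [72] (.node 4522066 [16777216] (.node 2392138 [16777216] (.node 270856 [9] (.node 262152 [16777216] .nil .nil) (.node 270864 [9] .nil .nil)) (.node 2396745 [9] (.node 2392146 [16777216] .nil .nil) (.node 4522058 [16777216] .nil .nil))) (.node 17105434 [16777216] (.node 4534947 [16777216] (.node 4534882 [16777216] .nil .nil) (.node 17105417 [65] .nil .nil)) (.node 18907713 [65] (.node 17109001 [72] .nil .nil) .nil))) (.node 136348225 [513] (.node 134545929 [513] (.node 21237832 [72] (.node 21234248 [65] .nil .nil) (.node 21241944 [16777216] .nil .nil)) (.node 134549513 [520] (.node 134545946 [16777216] .nil .nil) .nil)) (.node 138682456 [16777216] (.node 138674760 [513] (.node 136351809 [520] .nil .nil) (.node 138678344 [520] .nil .nil)) (.node 151519240 [16777216] (.node 151065089 [1161] .nil .nil) .nil)))) (.node 285315585 [649] (.node 155517010 [576] (.node 153662050 [16777216] (.node 153649226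 [576] (.node 151527952 [1161] .nil .nil) (.node 153649234 [576] .nil .nil)) (.node 155193920 [1161] (.node 153662115 [16777216] .nil .nil) (.node 155517002 [576] .nil .nil))) (.node 155779154 [16777216] (.node 155529891 [1161] (.node 155529826 [1161] .nil .nil) (.node 155779146 [16777216] .nil .nil)) (.node 155792035 [1161] (.node 155791970 [1161] .nil .nil) .nil))) (.node 287604810 [1088] (.node 285736968 [1088] (.node 285483528 [1097] (.node 285474824 [1088] .nil .nil) (.node 285483536 [1097] .nil .nil)) (.node 285745680 [649] (.node 285745672 [649] .nil .nil) .nil)) (.node 289996882 [1088] (.node 287609417 [1097] (.node 287604818 [1088] .nil .nil) (.node 289996874 [1088] .nil .nil)) (.node 291508800 [649] (.node 290001481 [649] .nil .nil) .nil)))))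

theorem jN20 : chkJ 5 5 3 [2, 4, 1, 0, 3] [3, 1, 4, 0, 2] TP7 TM158 MN20 GN20 TN20 = true := by decide +kernel

theorem cN20 : chkCut 3 (reL [2, 4, 1, 0, 3] LP7) (reL [3, 1, 4, 0, 2] LM158) LN20 = true := by decide +kernel

end Pool.Agent.W420.NS
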