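import Pool.Agent.W420.NS.TN21
import Pool.Agent.W420.NS.TK2
import Pool.Agent.W420.NS.TN20

/-! # Check of `N21` -/

set_option autoImplicit false
set_option maxRecDepth 1000000

namespace Pool.Agent.W420.NS

def GN21 : Tr (List (ℕ × List ℕ)) := (.node 36 [(1088,[25,18,11])] (.node 22 [(72,[57,50,43]),(520,[29,22,15])] (.node 15 [(72,[57,50,43]),(520,[29,22,15])] (.node 12 [(72,[49,42,35]),(520,[28,21,14])] (.node 10 [(1161,[26,19])] (.node 9 [(1161,[9,27])] .nil .nil) (.node 11 [(9,[36,61,54,47]),(649,[25,18,11]),(1097,[25,18,11])] .nil .nil)) (.node 14 [(72,[33,58,51]),(520,[12,30,23])] (.node 13 [(72,[41,34,59]),(520,[20,13,31])] .nil .nil) .nil)) (.node 19 [(1161,[17,10])] (.node 18 [(9,[36,61,54,47]),(649,[25,18,11]),(1097,[25,18,11])] (.node 17 [(1161,[26,19])] .nil .nil) .nil) (.node 21 [(72,[33,58,51]),(520,[12,30,23])] (.node 20 [(72,[41,34,59]),(520,[20,13,31])] .nil .nil) .nil))) (.node 29 [(72,[57,50,43]),(520,[29,22,15])] (.node 26 [(1161,[17,10])]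 (.node 25 [(9,[36,61,54,47]),(649,[25,18,11]),(1097,[25,18,11])] (.node 23 [(72,[49,42,35]),(520,[28,21,14])] .nil .nil) .nil) (.node 28 [(72,[33,58,51]),(520,[12,30,23])] (.node 27 [(1161,[9,27])] .nil .nil) .nil)) (.node 33 [(65,[49,42,35]),(513,[28,21,14])] (.node 31 [(72,[41,34,59]),(520,[20,13,31])] (.node 30 [(72,[49,42,35]),(520,[28,21,14])] .nil .nil) .nil) (.node 35 [(65,[33,58,51]),(513,[12,30,23])] (.node 34 [(65,[41,34,59]),(513,[20,13,31])] .nil .nil) .nil)))) (.node 51 [(65,[49,42,35]),(513,[28,21,14])] (.node 44 [(576,[17,10])] (.node 41 [(65,[41,34,59]),(513,[20,13,31])] (.node 38 [(576,[9,27])] (.node 37 [(576,[17,10])] .nil .nil) (.node 39 [(576,[26,19])] .nil .nil)) (.node 43 [(65,[57,50,43]),(513,[29,22,15])] (.node 42 [(65,[33,58,51]),(513,[12,30,23])] .nil .nil) .nil)) (.node 47 [(1088,[25,18,11])] (.node 46 [(576,[26,19])] (.node 45 [(576,[9,27])] .nil .nil) .nil) (.node 50 [(65,[57,50,43]),(513,[29,22,15])] (.node 49 [(65,[33,58,51]),(513,[12,30,23])]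 .nil .nil) .nil))) (.node 58 [(65,[49,42,35]),(513,[28,21,14])] (.node 54 [(1088,[25,18,11])] (.node 53 [(576,[26,19])] (.node 52 [(576,[9,27])] .nil .nil) .nil) (.node 57 [(65,[57,50,43]),(513,[29,22,15])] (.node 55 [(576,[17,10])] .nil .nil) .nil)) (.node 61 [(1088,[25,18,11])] (.node 60 [(576,[26,19])] (.node 59 [(65,[41,34,59]),(513,[20,13,31])] .nil .nil) .nil) (.node 63 [(576,[9,27])] (.node 62 [(576,[17,10])] .nil .nil) .nil)))))

def MN21 : Tr (List ℕ) := (.node 2130440 [520] (.node 294992 [65] (.node 266305 [65] (.node 37449 [9] (.node 36881 [16777216] .nil .nil) .nil) (.node 267265 [72] .nil .nil)) (.node 2102273 [520] (.node 2101313 [513] (.node 295432 [72] .nil .nil) .nil) (.node 2130000 [513] .nil .nil))) (.node 4493329 [1088] (.node 2658889 [649] (.node 2658321 [1088] (.node 2360384 [1161] .nil .nil) .nil) (.node 4457536 [649] .nil .nil)) (.node 4755473 [16777216] (.node 4493897 [1097] .nil .nil) (.node 4756041 [1161] .nil .nil))))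

theorem jN21 : chkJ 4 4 2 [0, 2, 1, 3] [0, 1, 2, 3] TK2 TN20 MN21 GN21 TN21 = true := by decide +kernel

theorem cN21 : chkCut 2 (reL [0, 2, 1, 3] LK2) (reL [0, 1, 2, 3] LN20) LN21 = true := by decide +kernel

end Pool.Agent.W420.NS
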