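import Pool.Agent.W420.NS.TN26
import Pool.Agent.W420.NS.TN18
import Pool.Agent.W420.NS.TN21

/-! # Check of `N26` -/

set_option autoImplicit false
set_option maxRecDepth 1000000

namespace Pool.Agent.W420.NS

def GN26 : Tr (List (ℕ × List ℕ)) := (.node 29 [(72,[57,50,43]),(520,[29,22,15])] (.node 19 [(1161,[17,10])] (.node 13 [(72,[41,34,59]),(520,[20,13,31])] (.node 11 [(9,[36,61,54,47]),(649,[25,18,11]),(1097,[25,18,11])] (.node 10 [(1161,[26,19])] (.node 9 [(1161,[9,27])] .nil .nil) .nil) (.node 12 [(72,[49,42,35]),(520,[28,21,14])] .nil .nil)) (.node 17 [(1161,[26,19])] (.node 15 [(72,[57,50,43]),(520,[29,22,15])] (.node 14 [(72,[33,58,51]),(520,[12,30,23])] .nil .nil) .nil) (.node 18 [(9,[36,61,54,47]),(649,[25,18,11]),(1097,[25,18,11])] .nil .nil))) (.node 25 [(9,[36,61,54,47]),(649,[25,18,11]),(1097,[25,18,11])] (.node 22 [(72,[57,50,43]),(520,[29,22,15])] (.node 21 [(72,[33,58,51]),(520,[12,30,23])] (.node 20 [(72,[41,34,59]),(520,[20,13,31])] .nil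 .nil) .nil) (.node 23 [(72,[49,42,35]),(520,[28,21,14])] .nil .nil)) (.node 27 [(1161,[9,27])] (.node 26 [(1161,[17,10])] .nil .nil) (.node 28 [(72,[33,58,51]),(520,[12,30,23])] .nil .nil)))) (.node 47 [(1088,[25,18,11])] (.node 35 [(65,[33,58,51]),(513,[12,30,23])] (.node 33 [(65,[49,42,35]),(513,[28,21,14])] (.node 31 [(72,[41,34,59]),(520,[20,13,31])] (.node 30 [(72,[49,42,35]),(520,[28,21,14])] .nil .nil) .nil) (.node 34 [(65,[41,34,59]),(513,[20,13,31])] .nil .nil)) (.node 42 [(65,[33,58,51]),(513,[12,30,23])] (.node 41 [(65,[41,34,59]),(513,[20,13,31])] (.node 36 [(1088,[25,18,11])] .nil .nil) .nil) (.node 43 [(65,[57,50,43]),(513,[29,22,15])] .nil .nil))) (.node 57 [(65,[57,50,43]),(513,[29,22,15])] (.node 51 [(65,[49,42,35]),(513,[28,21,14])] (.node 50 [(65,[57,50,43]),(513,[29,22,15])] (.node 49 [(65,[33,58,51]),(513,[12,30,23])] .nil .nil) .nil) (.node 54 [(1088,[25,18,11])] .nil .nil)) (.node 59 [(65,[41,34,59]),(513,[20,13,31])] (.node 58 [(65,[49,42,35]),(513,[28,21,14])]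 .nil .nil) (.node 61 [(1088,[25,18,11])] .nil .nil)))))

def MN26 : Tr (List ℕ) := (.node 2658889 [649] (.node 266753 [72] (.node 37458 [16777216] (.node 37450 [9] (.node 37449 [9] .nil .nil) (.node 37457 [9] .nil .nil)) (.node 37970 [9] (.node 37961 [9] .nil .nil) (.node 266305 [65] .nil .nil))) (.node 2101761 [520] (.node 295432 [72] (.node 294984 [65] .nil .nil) (.node 2101313 [513] .nil .nil)) (.node 2130440 [520] (.node 2129992 [513] .nil .nil) .nil))) (.node 4493898 [1097] (.node 2659401 [649] (.node 2658897 [649] (.node 2658890 [649] .nil .nil) (.node 2658898 [649] .nil .nil)) (.node 4457024 [649] (.node 2659410 [649] .nil .nil) (.node 4493897 [1097] .nil .nil))) (.node 4494418 [1097] (.node 4493906 [649] (.node 4493905 [1097] .nil .nil) (.node 4494409 [1097] .nil .nil)) (.node 4756041 [1161] (.node 4755473 [16777216] .nil .nil) .nil))))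

theorem jN26 : chkJ 4 4 2 [2, 3, 0, 1] [0, 1, 2, 3] TN18 TN21 MN26 GN26 TN26 = true := by decide +kernel

theorem cN26 : chkCut 2 (reL [2, 3, 0, 1] LN18) (reL [0, 1, 2, 3] LN21) LN26 = true := by decide +kernel

end Pool.Agent.W420.NS
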