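import Pool.Agent.W420.NS.TN3
import Pool.Agent.W420.NS.TK2
import Pool.Agent.W420.NS.TP8

/-! # Check of `N3` -/

set_option autoImplicit false
set_option maxRecDepth 1000000

namespace Pool.Agent.W420.NS

def GN3 : Tr (List (ℕ × List ℕ)) := (.node 36 [(576,[25,18,11])] (.node 22 [(72,[57,50,43]),(520,[29,22,15])] (.node 15 [(72,[57,50,43]),(520,[29,22,15])] (.node 12 [(72,[49,42,35]),(520,[28,21,14])] (.node 10 [(9,[44,37,62,55]),(1107,[26,19]),(1610,[26,19]),(1617,[26,19]),(1619,[26,19])] (.node 9 [(9,[52,45,38,63]),(1107,[9,27]),(1610,[9,27]),(1617,[9,27]),(1619,[9,27])] .nil .nil) (.node 11 [(9,[36,61,54,47]),(585,[25,18,11])] .nil .nil)) (.node 14 [(72,[33,58,51]),(520,[12,30,23])] (.node 13 [(72,[41,34,59]),(520,[20,13,31])] .nil .nil) .nil)) (.node 19 [(9,[60,53,46,39]),(1107,[17,10]),(1610,[17,10]),(1617,[17,10]),(1619,[17,10])] (.node 18 [(9,[36,61,54,47]),(585,[25,18,11])] (.node 17 [(9,[44,37,62,55]),(1107,[26,19]),(1610,[26,19]),(1617,[26,19]),(1619,[26,19])]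 .nil .nil) .nil) (.node 21 [(72,[33,58,51]),(520,[12,30,23])] (.node 20 [(72,[41,34,59]),(520,[20,13,31])] .nil .nil) .nil))) (.node 29 [(72,[57,50,43]),(520,[29,22,15])] (.node 26 [(9,[60,53,46,39]),(1107,[17,10]),(1610,[17,10]),(1617,[17,10]),(1619,[17,10])] (.node 25 [(9,[36,61,54,47]),(585,[25,18,11])] (.node 23 [(72,[49,42,35]),(520,[28,21,14])] .nil .nil) .nil) (.node 28 [(72,[33,58,51]),(520,[12,30,23])] (.node 27 [(9,[52,45,38,63]),(1107,[9,27]),(1610,[9,27]),(1617,[9,27]),(1619,[9,27])] .nil .nil) .nil)) (.node 33 [(65,[49,42,35]),(513,[28,21,14])] (.node 31 [(72,[41,34,59]),(520,[20,13,31])] (.node 30 [(72,[49,42,35]),(520,[28,21,14])] .nil .nil) .nil) (.node 35 [(65,[33,58,51]),(513,[12,30,23])] (.node 34 [(65,[41,34,59]),(513,[20,13,31])] .nil .nil) .nil)))) (.node 51 [(65,[49,42,35]),(513,[28,21,14])] (.node 44 [(576,[17,10])] (.node 41 [(65,[41,34,59]),(513,[20,13,31])] (.node 38 [(576,[9,27])] (.node 37 [(576,[17,10])] .nil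 .nil) (.node 39 [(576,[26,19])] .nil .nil)) (.node 43 [(65,[57,50,43]),(513,[29,22,15])] (.node 42 [(65,[33,58,51]),(513,[12,30,23])] .nil .nil) .nil)) (.node 47 [(576,[25,18,11])] (.node 46 [(576,[26,19])] (.node 45 [(576,[9,27])] .nil .nil) .nil) (.node 50 [(65,[57,50,43]),(513,[29,22,15])] (.node 49 [(65,[33,58,51]),(513,[12,30,23])] .nil .nil) .nil))) (.node 58 [(65,[49,42,35]),(513,[28,21,14])] (.node 54 [(576,[25,18,11])] (.node 53 [(576,[26,19])] (.node 52 [(576,[9,27])] .nil .nil) .nil) (.node 57 [(65,[57,50,43]),(513,[29,22,15])] (.node 55 [(576,[17,10])] .nil .nil) .nil)) (.node 61 [(576,[25,18,11])] (.node 60 [(576,[26,19])] (.node 59 [(65,[41,34,59]),(513,[20,13,31])] .nil .nil) .nil) (.node 63 [(576,[9,27])] (.node 62 [(576,[17,10])] .nil .nil) .nil)))))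

def MN3 : Tr (List ℕ) := (.node 2360384 [585,1745] (.node 295432 [72] (.node 266305 [65] (.node 37449 [9] (.node 36881 [16777216] .nil .nil) .nil) (.node 294992 [65] (.node 267265 [72] .nil .nil) .nil)) (.node 2130000 [513] (.node 2102273 [520] (.node 2101313 [513] .nil .nil) .nil) (.node 2130440 [520] .nil .nil))) (.node 6595145 [1097] (.node 4534289 [16777216] (.node 2396745 [585] (.node 2396177 [576] .nil .nil) .nil) (.node 6594577 [16777216] (.node 4534857 [649] .nil .nil) .nil)) (.node 6631441 [16777216] (.node 6623817 [1097] (.node 6623249 [16777216] .nil .nil) .nil) (.node 6632009 [649] .nil .nil))))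

theorem jN3 : chkJ 4 4 2 [0, 2, 1, 3] [2, 1, 0, 3] TK2 TP8 MN3 GN3 TN3 = true := by decide +kernel

theorem cN3 : chkCut 2 (reL [0, 2, 1, 3] LK2) (reL [2, 1, 0, 3] LP8) LN3 = true := by decide +kernel

end Pool.Agent.W420.NS
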