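import Pool.Agent.W420.NS.TN31
import Pool.Agent.W420.NS.TN26

/-! # Check of `N31` -/

set_option autoImplicit false
set_option maxRecDepth 1000000

namespace Pool.Agent.W420.NS

def GN31 : Tr (List (ℕ × List ℕ)) := (.node 27 [(1161,[9,27])] (.node 18 [(9,[36,61,54,47]),(649,[25,18,11]),(1097,[25,18,11])] (.node 13 [(72,[41,34,59]),(520,[20,13,31])] (.node 11 [(9,[36,61,54,47]),(649,[25,18,11]),(1097,[25,18,11])] (.node 10 [(1161,[26,19])] (.node 9 [(1161,[9,27])] .nil .nil) .nil) (.node 12 [(72,[49,42,35]),(520,[28,21,14])] .nil .nil)) (.node 15 [(72,[57,50,43]),(520,[29,22,15])] (.node 14 [(72,[33,58,51]),(520,[12,30,23])] .nil .nil) (.node 17 [(1161,[26,19])] .nil .nil))) (.node 22 [(72,[57,50,43]),(520,[29,22,15])] (.node 20 [(72,[41,34,59]),(520,[20,13,31])] (.node 19 [(1161,[17,10])] .nil .nil) (.node 21 [(72,[33,58,51]),(520,[12,30,23])] .nil .nil)) (.node 25 [(9,[36,61,54,47]),(649,[25,18,11]),(1097,[25,18,11])] (.node 23 [(72,[49,42,35]),(520,[28,21,14])]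 .nil .nil) (.node 26 [(1161,[17,10])] .nil .nil)))) (.node 42 [(65,[33,58,51]),(513,[12,30,23])] (.node 33 [(65,[49,42,35]),(513,[28,21,14])] (.node 30 [(72,[49,42,35]),(520,[28,21,14])] (.node 29 [(72,[57,50,43]),(520,[29,22,15])] (.node 28 [(72,[33,58,51]),(520,[12,30,23])] .nil .nil) .nil) (.node 31 [(72,[41,34,59]),(520,[20,13,31])] .nil .nil)) (.node 35 [(65,[33,58,51]),(513,[12,30,23])] (.node 34 [(65,[41,34,59]),(513,[20,13,31])] .nil .nil) (.node 41 [(65,[41,34,59]),(513,[20,13,31])] .nil .nil))) (.node 51 [(65,[49,42,35]),(513,[28,21,14])] (.node 49 [(65,[33,58,51]),(513,[12,30,23])] (.node 43 [(65,[57,50,43]),(513,[29,22,15])] .nil .nil) (.node 50 [(65,[57,50,43]),(513,[29,22,15])] .nil .nil)) (.node 58 [(65,[49,42,35]),(513,[28,21,14])] (.node 57 [(65,[57,50,43]),(513,[29,22,15])] .nil .nil) (.node 59 [(65,[41,34,59]),(513,[20,13,31])] .nil .nil)))))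

def MN31 : Tr (List ℕ) := (.node 2129992 [513] (.node 266753 [72] (.node 37961 [17] (.node 37513 [17] (.node 36873 [16777216] .nil .nil) .nil) (.node 266305 [65] .nil .nil)) (.node 2101313 [513] (.node 295432 [72] (.node 294984 [65] .nil .nil) .nil) (.node 2101761 [520] .nil .nil))) (.node 4493321 [1088] (.node 2658953 [1233] (.node 2658313 [1088] (.node 2130440 [520] .nil .nil) .nil) (.node 2659401 [721] .nil .nil)) (.node 4494409 [1617] (.node 4493961 [1681] .nil .nil) (.node 4756617 [16777216] .nil .nil))))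

theorem jN31 : chkJ 4 4 2 [0, 1, 2, 3] [0, 1, 2, 3] TN26 TN26 MN31 GN31 TN31 = true := by decide +kernel

theorem cN31 : chkCut 2 (reL [0, 1, 2, 3] LN26) (reL [0, 1, 2, 3] LN26) LN31 = true := by decide +kernel

end Pool.Agent.W420.NS
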