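import Pool.Agent.W420.NS.Fast

/-! # Table of `N34` -/

set_option autoImplicit false
set_option maxRecDepth 1000000

namespace Pool.Agent.W420.NS

def TN34 : Tr (List ℕ) := (.node 2196 [72] (.node 1423 [1032] (.node 975 [1032] (.node 817 [513] (.node 729 [1745] (.node 666 [1745] (.node 603 [1745] (.node 585 [1161,1097,649] .nil .nil) (.node 659 [1161,1097,649] .nil .nil)) (.node 722 [1161,1097,649] (.node 715 [1161,1097,649] .nil .nil) .nil)) (.node 796 [1032] (.node 789 [1032] (.node 782 [1032] .nil .nil) .nil) (.node 810 [513] (.node 803 [513] .nil .nil) .nil))) (.node 908 [1032] (.node 866 [513] (.node 852 [1032] (.node 845 [1032] .nil .nil) (.node 863 [1032] .nil .nil)) (.node 891 [513] (.node 873 [513] .nil .nil) .nil)) (.node 929 [513] (.node 926 [1032] (.node 919 [1032] .nil .nil) .nil) (.node 954 [513] (.node 947 [513] .nil .nil) .nil)))) (.node 1293 [1032] (.node 1114 [1161,1097,649] (.node 1010 [513] (.node 989 [1032] (.node 982 [1032] .nil .nil) (.node 1003 [513] .nil .nil))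 (.node 1107 [1745] (.node 1017 [513] .nil .nil) .nil)) (.node 1177 [1161,1097,649] (.node 1170 [1745] (.node 1163 [1161,1097,649] .nil .nil) .nil) (.node 1233 [1745] (.node 1226 [1161,1097,649] .nil .nil) .nil))) (.node 1356 [1032] (.node 1314 [513] (.node 1311 [1032] (.node 1300 [1032] .nil .nil) .nil) (.node 1339 [513] (.node 1321 [513] .nil .nil) .nil)) (.node 1377 [513] (.node 1374 [1032] (.node 1367 [1032] .nil .nil) .nil) (.node 1402 [513] (.node 1395 [513] .nil .nil) .nil))))) (.node 1871 [1032] (.node 1618 [1161,1097,649] (.node 1493 [1032] (.node 1458 [513] (.node 1437 [1032] (.node 1430 [1032] .nil .nil) (.node 1451 [513] .nil .nil)) (.node 1486 [1032] (.node 1465 [513] .nil .nil) .nil)) (.node 1514 [513] (.node 1507 [513] (.node 1500 [1032] .nil .nil) .nil) (.node 1611 [1745] (.node 1521 [513] .nil .nil) .nil))) (.node 1804 [1032] (.node 1681 [1161,1097,649] (.node 1674 [1745] (.node 1625 [1161,1097,649] .nil .nil) .nil) (.node 1755 [1161,1097,649] (.node 1737 [1745] .nil .nil)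 .nil)) (.node 1825 [513] (.node 1822 [1032] (.node 1815 [1032] .nil .nil) .nil) (.node 1850 [513] (.node 1843 [513] .nil .nil) .nil)))) (.node 2004 [1032] (.node 1941 [1032] (.node 1906 [513] (.node 1885 [1032] (.node 1878 [1032] .nil .nil) (.node 1899 [513] .nil .nil)) (.node 1934 [1032] (.node 1913 [513] .nil .nil) .nil)) (.node 1962 [513] (.node 1955 [513] (.node 1948 [1032] .nil .nil) .nil) (.node 1997 [1032] (.node 1969 [513] .nil .nil) .nil))) (.node 2133 [72] (.node 2025 [513] (.node 2018 [513] (.node 2015 [1032] .nil .nil) .nil) (.node 2126 [72] (.node 2043 [513] .nil .nil) .nil)) (.node 2154 [129] (.node 2147 [129] (.node 2140 [72] .nil .nil) .nil) (.node 2189 [72] (.node 2161 [129] .nil .nil) .nil)))))) (.node 3187 [129] (.node 2700 [72] (.node 2329 [9] (.node 2270 [72] (.node 2235 [129] (.node 2210 [129] (.node 2207 [72] .nil .nil) (.node 2217 [129] .nil .nil)) (.node 2263 [72] (.node 2252 [72] .nil .nil) .nil)) (.node 2298 [129] (.node 2291 [129] (.node 2273 [129] .nil .nil)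 .nil) (.node 2322 [9] (.node 2315 [9] .nil .nil) .nil))) (.node 2637 [72] (.node 2459 [9] (.node 2385 [9] (.node 2378 [9] .nil .nil) (.node 2441 [9] .nil .nil)) (.node 2522 [9] (.node 2515 [9] .nil .nil) .nil)) (.node 2658 [129] (.node 2655 [72] (.node 2644 [72] .nil .nil) .nil) (.node 2683 [129] (.node 2665 [129] .nil .nil) .nil)))) (.node 2833 [9] (.node 2774 [72] (.node 2739 [129] (.node 2718 [72] (.node 2711 [72] .nil .nil) (.node 2721 [129] .nil .nil)) (.node 2767 [72] (.node 2746 [129] .nil .nil) .nil)) (.node 2802 [129] (.node 2795 [129] (.node 2781 [72] .nil .nil) .nil) (.node 2826 [9] (.node 2809 [129] .nil .nil) .nil))) (.node 3026 [9] (.node 2963 [9] (.node 2907 [9] (.node 2889 [9] .nil .nil) .nil) (.node 3019 [9] (.node 2970 [9] .nil .nil) .nil)) (.node 3159 [72] (.node 3148 [72] (.node 3033 [9] .nil .nil) .nil) (.node 3169 [129] (.node 3166 [72] .nil .nil) .nil))))) (.node 3677 [72] (.node 3313 [129] (.node 3257 [129] (.node 3229 [72] (.node 3215 [72] (.node 3194 [129] .nil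 .nil) (.node 3222 [72] .nil .nil)) (.node 3250 [129] (.node 3243 [129] .nil .nil) .nil)) (.node 3292 [72] (.node 3285 [72] (.node 3278 [72] .nil .nil) .nil) (.node 3306 [129] (.node 3299 [129] .nil .nil) .nil))) (.node 3474 [9] (.node 3411 [9] (.node 3355 [9] (.node 3337 [9] .nil .nil) .nil) (.node 3467 [9] (.node 3418 [9] .nil .nil) .nil)) (.node 3537 [9] (.node 3530 [9] (.node 3481 [9] .nil .nil) .nil) (.node 3670 [72] (.node 3663 [72] .nil .nil) .nil)))) (.node 3810 [129] (.node 3747 [129] (.node 3726 [72] (.node 3698 [129] (.node 3691 [129] .nil .nil) (.node 3705 [129] .nil .nil)) (.node 3740 [72] (.node 3733 [72] .nil .nil) .nil)) (.node 3789 [72] (.node 3761 [129] (.node 3754 [129] .nil .nil) .nil) (.node 3807 [72] (.node 3796 [72] .nil .nil) .nil))) (.node 3922 [9] (.node 3859 [9] (.node 3835 [129] (.node 3817 [129] .nil .nil) .nil) (.node 3915 [9] (.node 3866 [9] .nil .nil) .nil)) (.node 3985 [9] (.node 3978 [9] (.node 3929 [9] .nil .nil) .nil) (.node 4059 [9] (.node 4041 [9] .nil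 .nil) .nil)))))))

def LN34 : List Ct := [⟨[false, false, false, false], 0, 2, 0⟩, ⟨[false, false, false, false], 1, 2, 3⟩, ⟨[false, false, false, false], 2, 2, 4⟩, ⟨[false, false, false, true], 1, 2, 2⟩, ⟨[false, false, false, true], 2, 2, 3⟩, ⟨[false, false, true, false], 1, 2, 2⟩, ⟨[false, false, true, false], 2, 2, 3⟩, ⟨[false, false, true, true], 2, 2, 2⟩, ⟨[false, true, false, false], 1, 2, 2⟩, ⟨[false, true, false, false], 2, 2, 3⟩, ⟨[false, true, false, true], 2, 2, 3⟩, ⟨[false, true, true, false], 2, 2, 4⟩, ⟨[false, true, true, true], 2, 1, 2⟩, ⟨[false, true, true, true], 2, 2, 3⟩, ⟨[true, false, false, false], 1, 2, 2⟩, ⟨[true, false, false, false], 2, 2, 3⟩, ⟨[true, false, false, true], 2, 2, 4⟩, ⟨[true, false, true, false], 2, 2, 3⟩, ⟨[true, false, true, true], 2, 1, 2⟩, ⟨[true, false, true, true], 2, 2, 3⟩, ⟨[true, true, false, false], 2, 2, 2⟩, ⟨[true, true, false, true], 2, 1, 2⟩, ⟨[true, true, false, true], 2, 2, 3⟩, ⟨[true, true, true, false], 2, 1, 2⟩, ⟨[true, true, true,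 false], 2, 2, 3⟩, ⟨[true, true, true, true], 2, 0, 0⟩, ⟨[true, true, true, true], 2, 1, 3⟩, ⟨[true, true, true, true], 2, 2, 4⟩]

end Pool.Agent.W420.NS
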