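import Pool.Agent.W420.NS.TN43
import Pool.Agent.W420.NS.TK4
import Pool.Agent.W420.NS.TN34

/-! # Check of `N43` -/

set_option autoImplicit false
set_option maxRecDepth 1000000

namespace Pool.Agent.W420.NS

def GN43 : Tr (List (ℕ × List ℕ)) := (.node 36 [(576,[25,18,11])] (.node 22 [(80,[57,50,43])] (.node 15 [(80,[57,50,43])] (.node 12 [(80,[49,42,35])] (.node 10 [(9,[44,37,62,55]),(593,[26]),(1097,[26]),(1105,[26]),(1689,[19])] (.node 9 [(9,[52,45,38,63]),(593,[9]),(1097,[9]),(1105,[9]),(1689,[27])] .nil .nil) (.node 11 [(9,[36,61,54,47]),(593,[25,18]),(1097,[25,18]),(1105,[25,18]),(1689,[11])] .nil .nil)) (.node 14 [(80,[33,58,51])] (.node 13 [(80,[41,34,59])] .nil .nil) .nil)) (.node 19 [(9,[60,53,46,39]),(593,[17]),(1097,[17]),(1105,[17]),(1689,[10])] (.node 18 [(9,[36,61,54,47]),(593,[25,11]),(1097,[25,11]),(1105,[25,11]),(1689,[18])] (.node 17 [(9,[44,37,62,55]),(593,[19]),(1097,[19]),(1105,[19]),(1689,[26])] .nil .nil) .nil) (.node 21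 [(80,[33,58,51])] (.node 20 [(80,[41,34,59])] .nil .nil) .nil))) (.node 29 [(80,[57,50,43])] (.node 26 [(9,[60,53,46,39]),(593,[10]),(1097,[10]),(1105,[10]),(1689,[17])] (.node 25 [(9,[36,61,54,47]),(593,[18,11]),(1097,[18,11]),(1105,[18,11]),(1689,[25])] (.node 23 [(80,[49,42,35])] .nil .nil) .nil) (.node 28 [(80,[33,58,51])] (.node 27 [(9,[52,45,38,63]),(593,[27]),(1097,[27]),(1105,[27]),(1689,[9])] .nil .nil) .nil)) (.node 33 [(65,[49,42,35]),(1025,[28,21,14])] (.node 31 [(80,[41,34,59])] (.node 30 [(80,[49,42,35])] .nil .nil) .nil) (.node 35 [(65,[33,58,51]),(1025,[12,30,23])] (.node 34 [(65,[41,34,59]),(1025,[20,13,31])] .nil .nil) .nil)))) (.node 51 [(65,[49,42,35]),(1025,[28,21,14])] (.node 44 [(576,[17,10])] (.node 41 [(65,[41,34,59]),(1025,[20,13,31])] (.node 38 [(576,[9,27])] (.node 37 [(576,[17,10])] .nil .nil) (.node 39 [(576,[26,19])] .nil .nil)) (.node 43 [(65,[57,50,43]),(1025,[29,22,15])] (.node 42 [(65,[33,58,51]),(1025,[12,30,23])]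 .nil .nil) .nil)) (.node 47 [(576,[25,18,11])] (.node 46 [(576,[26,19])] (.node 45 [(576,[9,27])] .nil .nil) .nil) (.node 50 [(65,[57,50,43]),(1025,[29,22,15])] (.node 49 [(65,[33,58,51]),(1025,[12,30,23])] .nil .nil) .nil))) (.node 58 [(65,[49,42,35]),(1025,[28,21,14])] (.node 54 [(576,[25,18,11])] (.node 53 [(576,[26,19])] (.node 52 [(576,[9,27])] .nil .nil) .nil) (.node 57 [(65,[57,50,43]),(1025,[29,22,15])] (.node 55 [(576,[17,10])] .nil .nil) .nil)) (.node 61 [(576,[25,18,11])] (.node 60 [(576,[26,19])] (.node 59 [(65,[41,34,59]),(1025,[20,13,31])] .nil .nil) .nil) (.node 63 [(576,[9,27])] (.node 62 [(576,[17,10])] .nil .nil) .nil)))))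

def MN43 : Tr (List ℕ) := (.node 4198465 [1025] (.node 327752 [65] (.node 38561 [16777216] (.node 37449 [9] (.node 36881 [16777216] .nil .nil) .nil) (.node 266753 [72] (.node 266305 [65] .nil .nil) .nil)) (.node 2428945 [16777216] (.node 2360384 [585,1745] (.node 328200 [72] .nil .nil) .nil) (.node 2430625 [16777216] (.node 2429513 [585] .nil .nil) .nil))) (.node 4526665 [585] (.node 4493897 [585] (.node 4493329 [1088] (.node 4198913 [1032] .nil .nil) .nil) (.node 4526097 [1088] (.node 4495009 [585,649] .nil .nil) .nil)) (.node 6918729 [585,649] (.node 6918161 [16777216] (.node 4527777 [585,649] .nil .nil) .nil) (.node 6919841 [16777216] .nil .nil))))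

theorem jN43 : chkJ 4 4 2 [0, 3, 1, 2] [0, 3, 1, 2] TK4 TN34 MN43 GN43 TN43 = true := by decide +kernel

theorem cN43 : chkCut 2 (reL [0, 3, 1, 2] LK4) (reL [0, 3, 1, 2] LN34) LN43 = true := by decide +kernel

end Pool.Agent.W420.NS
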