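import Pool.Agent.W420.NS.Fast

/-! # Table of `N31` -/

set_option autoImplicit false
set_option maxRecDepth 1000000

namespace Pool.Agent.W420.NS

def TN31 : Tr (List ℕ) := (.node 2004 [520] (.node 1356 [520] (.node 929 [513] (.node 810 [513] (.node 758 [1088] (.node 729 [1233,1681,721,1617] (.node 722 [1233,1681,721,1617] (.node 715 [1233,1681,721,1617] .nil .nil) .nil) (.node 751 [1088] (.node 740 [1088] .nil .nil) .nil)) (.node 789 [520] (.node 782 [520] (.node 765 [1088] .nil .nil) .nil) (.node 803 [513] (.node 796 [520] .nil .nil) .nil))) (.node 873 [513] (.node 852 [520] (.node 845 [520] (.node 817 [513] .nil .nil) .nil) (.node 866 [513] (.node 863 [520] .nil .nil) .nil)) (.node 919 [520] (.node 908 [520] (.node 891 [513] .nil .nil) .nil) (.node 926 [520] .nil .nil)))) (.node 1177 [1233,1681,721,1617] (.node 1003 [513] (.node 975 [520] (.node 954 [513] (.node 947 [513] .nil .nil) .nil) (.node 989 [520] (.node 982 [520] .nil .nil) .nil)) (.node 1163 [1233,1681,721,1617] (.node 1017 [513]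 (.node 1010 [513] .nil .nil) .nil) (.node 1170 [1233,1681,721,1617] .nil .nil))) (.node 1300 [520] (.node 1206 [1088] (.node 1199 [1088] (.node 1188 [1088] .nil .nil) .nil) (.node 1293 [520] (.node 1213 [1088] .nil .nil) .nil)) (.node 1321 [513] (.node 1314 [513] (.node 1311 [520] .nil .nil) .nil) (.node 1339 [513] .nil .nil))))) (.node 1647 [1088] (.node 1465 [513] (.node 1423 [520] (.node 1377 [513] (.node 1374 [520] (.node 1367 [520] .nil .nil) .nil) (.node 1402 [513] (.node 1395 [513] .nil .nil) .nil)) (.node 1451 [513] (.node 1437 [520] (.node 1430 [520] .nil .nil) .nil) (.node 1458 [513] .nil .nil))) (.node 1521 [513] (.node 1500 [520] (.node 1493 [520] (.node 1486 [520] .nil .nil) .nil) (.node 1514 [513] (.node 1507 [513] .nil .nil) .nil)) (.node 1625 [1233,1681,721,1617] (.node 1618 [1233,1681,721,1617] (.node 1611 [1233,1681,721,1617] .nil .nil) .nil) (.node 1636 [1088] .nil .nil)))) (.node 1885 [520] (.node 1825 [513] (.node 1804 [520] (.node 1661 [1088] (.node 1654 [1088] .nil .nil)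 .nil) (.node 1822 [520] (.node 1815 [520] .nil .nil) .nil)) (.node 1871 [520] (.node 1850 [513] (.node 1843 [513] .nil .nil) .nil) (.node 1878 [520] .nil .nil))) (.node 1948 [520] (.node 1913 [513] (.node 1906 [513] (.node 1899 [513] .nil .nil) .nil) (.node 1941 [520] (.node 1934 [520] .nil .nil) .nil)) (.node 1969 [513] (.node 1962 [513] (.node 1955 [513] .nil .nil) .nil) (.node 1997 [520] .nil .nil)))))) (.node 3026 [17] (.node 2315 [17] (.node 2196 [72] (.node 2133 [72] (.node 2025 [513] (.node 2018 [513] (.node 2015 [520] .nil .nil) .nil) (.node 2126 [72] (.node 2043 [513] .nil .nil) .nil)) (.node 2154 [65] (.node 2147 [65] (.node 2140 [72] .nil .nil) .nil) (.node 2189 [72] (.node 2161 [65] .nil .nil) .nil))) (.node 2263 [72] (.node 2217 [65] (.node 2210 [65] (.node 2207 [72] .nil .nil) .nil) (.node 2252 [72] (.node 2235 [65] .nil .nil) .nil)) (.node 2291 [65] (.node 2273 [65] (.node 2270 [72] .nil .nil) .nil) (.node 2298 [65] .nil .nil)))) (.node 2718 [72] (.node 2658 [65] (.node 2637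 [72] (.node 2329 [17] (.node 2322 [17] .nil .nil) .nil) (.node 2655 [72] (.node 2644 [72] .nil .nil) .nil)) (.node 2700 [72] (.node 2683 [65] (.node 2665 [65] .nil .nil) .nil) (.node 2711 [72] .nil .nil))) (.node 2781 [72] (.node 2746 [65] (.node 2739 [65] (.node 2721 [65] .nil .nil) .nil) (.node 2774 [72] (.node 2767 [72] .nil .nil) .nil)) (.node 2809 [65] (.node 2802 [65] (.node 2795 [65] .nil .nil) .nil) (.node 3019 [17] .nil .nil))))) (.node 3481 [17] (.node 3243 [65] (.node 3187 [65] (.node 3159 [72] (.node 3148 [72] (.node 3033 [17] .nil .nil) .nil) (.node 3169 [65] (.node 3166 [72] .nil .nil) .nil)) (.node 3222 [72] (.node 3215 [72] (.node 3194 [65] .nil .nil) .nil) (.node 3229 [72] .nil .nil))) (.node 3299 [65] (.node 3278 [72] (.node 3257 [65] (.node 3250 [65] .nil .nil) .nil) (.node 3292 [72] (.node 3285 [72] .nil .nil) .nil)) (.node 3467 [17] (.node 3313 [65] (.node 3306 [65] .nil .nil) .nil) (.node 3474 [17] .nil .nil)))) (.node 3754 [65] (.node 3705 [65] (.node 3677 [72] (.node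 3670 [72] (.node 3663 [72] .nil .nil) .nil) (.node 3698 [65] (.node 3691 [65] .nil .nil) .nil)) (.node 3740 [72] (.node 3733 [72] (.node 3726 [72] .nil .nil) .nil) (.node 3747 [65] .nil .nil))) (.node 3817 [65] (.node 3796 [72] (.node 3789 [72] (.node 3761 [65] .nil .nil) .nil) (.node 3810 [65] (.node 3807 [72] .nil .nil) .nil)) (.node 3922 [17] (.node 3915 [17] (.node 3835 [65] .nil .nil) .nil) (.node 3929 [17] .nil .nil)))))))

def LN31 : List Ct := [⟨[false, false, false, false], 0, 2, 0⟩, ⟨[false, false, false, false], 1, 2, 3⟩, ⟨[false, false, false, false], 2, 2, 4⟩, ⟨[false, false, false, true], 1, 2, 2⟩, ⟨[false, false, false, true], 2, 2, 3⟩, ⟨[false, false, true, false], 1, 2, 2⟩, ⟨[false, false, true, false], 2, 2, 3⟩, ⟨[false, false, true, true], 2, 2, 2⟩, ⟨[false, true, false, false], 1, 2, 2⟩, ⟨[false, true, false, false], 2, 2, 3⟩, ⟨[false, true, false, true], 2, 2, 4⟩, ⟨[false, true, true, false], 2, 2, 4⟩, ⟨[false, true, true, true], 2, 1, 2⟩, ⟨[false, true, true, true], 2,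 2, 3⟩, ⟨[true, false, false, false], 1, 2, 2⟩, ⟨[true, false, false, false], 2, 2, 3⟩, ⟨[true, false, false, true], 2, 2, 4⟩, ⟨[true, false, true, false], 2, 2, 4⟩, ⟨[true, false, true, true], 2, 1, 2⟩, ⟨[true, false, true, true], 2, 2, 3⟩, ⟨[true, true, false, false], 2, 2, 2⟩, ⟨[true, true, false, true], 2, 1, 2⟩, ⟨[true, true, false, true], 2, 2, 3⟩, ⟨[true, true, true, false], 2, 1, 2⟩, ⟨[true, true, true, false], 2, 2, 3⟩, ⟨[true, true, true, true], 2, 0, 0⟩, ⟨[true, true, true, true], 2, 1, 3⟩, ⟨[true, true, true, true], 2, 2, 4⟩]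

end Pool.Agent.W420.NS
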