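import Pool.Agent.W420.NS.TN52
import Pool.Agent.W420.NS.TN31

/-! # Check of `N52` -/

set_option autoImplicit false
set_option maxRecDepth 1000000

namespace Pool.Agent.W420.NS

def GN52 : Tr (List (ℕ × List ℕ)) := (.node 33 [(65,[49,42,35]),(513,[28,21,14])] (.node 21 [(72,[33,58,51]),(520,[12,30,23])] (.node 14 [(72,[33,58,51]),(520,[12,30,23])] (.node 12 [(72,[49,42,35]),(520,[28,21,14])] (.node 11 [(17,[36,61,54,47]),(721,[25,18,11]),(1233,[25,18,11]),(1617,[25,18,11]),(1681,[25,18,11])] .nil .nil) (.node 13 [(72,[41,34,59]),(520,[20,13,31])] .nil .nil)) (.node 18 [(17,[36,61,54,47]),(721,[25,18,11]),(1233,[25,18,11]),(1617,[25,18,11]),(1681,[25,18,11])] (.node 15 [(72,[57,50,43]),(520,[29,22,15])] .nil .nil) (.node 20 [(72,[41,34,59]),(520,[20,13,31])] .nil .nil))) (.node 28 [(72,[33,58,51]),(520,[12,30,23])] (.node 23 [(72,[49,42,35]),(520,[28,21,14])] (.node 22 [(72,[57,50,43]),(520,[29,22,15])] .nil .nil) (.node 25 [(17,[36,61,54,47]),(721,[25,18,11]),(1233,[25,18,11]),(1617,[25,18,11]),(1681,[25,18,11])]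 .nil .nil)) (.node 30 [(72,[49,42,35]),(520,[28,21,14])] (.node 29 [(72,[57,50,43]),(520,[29,22,15])] .nil .nil) (.node 31 [(72,[41,34,59]),(520,[20,13,31])] .nil .nil)))) (.node 49 [(65,[33,58,51]),(513,[12,30,23])] (.node 41 [(65,[41,34,59]),(513,[20,13,31])] (.node 35 [(65,[33,58,51]),(513,[12,30,23])] (.node 34 [(65,[41,34,59]),(513,[20,13,31])] .nil .nil) (.node 36 [(1088,[25,18,11])] .nil .nil)) (.node 43 [(65,[57,50,43]),(513,[29,22,15])] (.node 42 [(65,[33,58,51]),(513,[12,30,23])] .nil .nil) (.node 47 [(1088,[25,18,11])] .nil .nil))) (.node 57 [(65,[57,50,43]),(513,[29,22,15])] (.node 51 [(65,[49,42,35]),(513,[28,21,14])] (.node 50 [(65,[57,50,43]),(513,[29,22,15])] .nil .nil) (.node 54 [(1088,[25,18,11])] .nil .nil)) (.node 59 [(65,[41,34,59]),(513,[20,13,31])] (.node 58 [(65,[49,42,35]),(513,[28,21,14])] .nil .nil) (.node 61 [(1088,[25,18,11])] .nil .nil)))))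

def MN52 : Tr (List ℕ) := (.node 2954897 [2257] (.node 295432 [72] (.node 71313 [16777216] (.node 70865 [16777216] (.node 70353 [16777216] (.node 69649 [16777216] .nil .nil) .nil) (.node 71249 [16777216] .nil .nil)) (.node 266753 [72] (.node 266305 [65] .nil .nil) (.node 294984 [65] .nil .nil))) (.node 2953233 [16777216] (.node 2129992 [513] (.node 2101761 [520] (.node 2101313 [513] .nil .nil) .nil) (.node 2130440 [520] .nil .nil)) (.node 2954449 [2257] (.node 2953937 [16777216] .nil .nil) (.node 2954833 [16777216] .nil .nil)))) (.node 6624465 [2257] (.node 5051985 [2257] (.node 5051089 [2257] (.node 5050385 [16777216] (.node 4457536 [2257] .nil .nil) .nil) (.node 5051601 [16777216] .nil .nil)) (.node 6623249 [16777216] (.node 5052049 [16777216] .nil .nil) (.node 6623953 [16777216] .nil .nil))) (.node 6886097 [2257] (.node 6624913 [2257] (.node 6624849 [16777216] .nil .nil) (.node 6885393 [16777216] .nil .nil)) (.node 6886993 [2257] (.node 6886609 [16777216] .nil .nil) (.node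 6887057 [16777216] .nil .nil)))))

theorem jN52 : chkJ 4 4 2 [0, 1, 2, 3] [0, 1, 2, 3] TN31 TN31 MN52 GN52 TN52 = true := by decide +kernel

theorem cN52 : chkCut 2 (reL [0, 1, 2, 3] LN31) (reL [0, 1, 2, 3] LN31) LN52 = true := by decide +kernel

end Pool.Agent.W420.NS
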