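import Pool.Agent.W420.NS.TN63
import Pool.Agent.W420.NS.TN43
import Pool.Agent.W420.NS.TN52

/-! # Check of `N63` -/

set_option autoImplicit false
set_option maxRecDepth 1000000

namespace Pool.Agent.W420.NS

def GN63 : Tr (List (ℕ × List ℕ)) := (.node 30 [(72,[49,42,35]),(520,[28,21,14])] (.node 20 [(72,[41,34,59]),(520,[20,13,31])] (.node 14 [(72,[33,58,51]),(520,[12,30,23])] (.node 12 [(72,[49,42,35]),(520,[28,21,14])] (.node 11 [(2257,[25,18,11])] .nil .nil) (.node 13 [(72,[41,34,59]),(520,[20,13,31])] .nil .nil)) (.node 18 [(2257,[25,18,11])] (.node 15 [(72,[57,50,43]),(520,[29,22,15])] .nil .nil) .nil)) (.node 25 [(2257,[25,18,11])] (.node 22 [(72,[57,50,43]),(520,[29,22,15])] (.node 21 [(72,[33,58,51]),(520,[12,30,23])] .nil .nil) (.node 23 [(72,[49,42,35]),(520,[28,21,14])] .nil .nil)) (.node 29 [(72,[57,50,43]),(520,[29,22,15])] (.node 28 [(72,[33,58,51]),(520,[12,30,23])] .nil .nil) .nil))) (.node 43 [(65,[57,50,43]),(513,[29,22,15])] (.node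 35 [(65,[33,58,51]),(513,[12,30,23])] (.node 33 [(65,[49,42,35]),(513,[28,21,14])] (.node 31 [(72,[41,34,59]),(520,[20,13,31])] .nil .nil) (.node 34 [(65,[41,34,59]),(513,[20,13,31])] .nil .nil)) (.node 42 [(65,[33,58,51]),(513,[12,30,23])] (.node 41 [(65,[41,34,59]),(513,[20,13,31])] .nil .nil) .nil)) (.node 57 [(65,[57,50,43]),(513,[29,22,15])] (.node 50 [(65,[57,50,43]),(513,[29,22,15])] (.node 49 [(65,[33,58,51]),(513,[12,30,23])] .nil .nil) (.node 51 [(65,[49,42,35]),(513,[28,21,14])] .nil .nil)) (.node 59 [(65,[41,34,59]),(513,[20,13,31])] (.node 58 [(65,[49,42,35]),(513,[28,21,14])] .nil .nil) .nil))))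

def MN63 : Tr (List ℕ) := (.node 2129992 [513] (.node 295944 [136] (.node 267265 [136] (.node 266305 [65] .nil .nil) (.node 294984 [65] .nil .nil)) (.node 2102273 [1032] (.node 2101313 [513] .nil .nil) .nil)) (.node 9245257 [1673] (.node 9244681 [16777216] (.node 2130952 [1032] .nil .nil) .nil) (.node 9246417 [16777216] (.node 9245321 [1673] .nil .nil) .nil)))

theorem jN63 : chkJ 4 4 2 [0, 1, 2, 3] [0, 1, 2, 3] TN43 TN52 MN63 GN63 TN63 = true := by decide +kernel

theorem cN63 : chkCut 2 (reL [0, 1, 2, 3] LN43) (reL [0, 1, 2, 3] LN52) LN63 = true := by decide +kernel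

end Pool.Agent.W420.NS
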