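import Pool.Agent.W420.NS.TN7
import Pool.Agent.W420.NS.TP8
import Pool.Agent.W420.NS.TN3

/-! # Check of `N7` -/

set_option autoImplicit false
set_option maxRecDepth 1000000

namespace Pool.Agent.W420.NS

def GN7 : Tr (List (ℕ × List ℕ)) := (.node 29 [(72,[57,50,43]),(520,[29,22,15])] (.node 19 [(9,[60,53,46,39]),(649,[17,10]),(1097,[17,10]),(1745,[17,10])] (.node 13 [(72,[41,34,59]),(520,[20,13,31])] (.node 11 [(9,[36,61,54,47]),(585,[25,18,11])] (.node 10 [(9,[44,37,62,55]),(649,[26,19]),(1097,[26,19]),(1745,[26,19])] (.node 9 [(9,[52,45,38,63]),(649,[9,27]),(1097,[9,27]),(1745,[9,27])] .nil .nil) .nil) (.node 12 [(72,[49,42,35]),(520,[28,21,14])] .nil .nil)) (.node 17 [(9,[44,37,62,55]),(649,[26,19]),(1097,[26,19]),(1745,[26,19])] (.node 15 [(72,[57,50,43]),(520,[29,22,15])] (.node 14 [(72,[33,58,51]),(520,[12,30,23])] .nil .nil) .nil) (.node 18 [(9,[36,61,54,47]),(585,[25,18,11])] .nil .nil))) (.node 25 [(9,[36,61,54,47]),(585,[25,18,11])] (.node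 22 [(72,[57,50,43]),(520,[29,22,15])] (.node 21 [(72,[33,58,51]),(520,[12,30,23])] (.node 20 [(72,[41,34,59]),(520,[20,13,31])] .nil .nil) .nil) (.node 23 [(72,[49,42,35]),(520,[28,21,14])] .nil .nil)) (.node 27 [(9,[52,45,38,63]),(649,[9,27]),(1097,[9,27]),(1745,[9,27])] (.node 26 [(9,[60,53,46,39]),(649,[17,10]),(1097,[17,10]),(1745,[17,10])] .nil .nil) (.node 28 [(72,[33,58,51]),(520,[12,30,23])] .nil .nil)))) (.node 47 [(576,[25,18,11])] (.node 35 [(65,[33,58,51]),(513,[12,30,23])] (.node 33 [(65,[49,42,35]),(513,[28,21,14])] (.node 31 [(72,[41,34,59]),(520,[20,13,31])] (.node 30 [(72,[49,42,35]),(520,[28,21,14])] .nil .nil) .nil) (.node 34 [(65,[41,34,59]),(513,[20,13,31])] .nil .nil)) (.node 42 [(65,[33,58,51]),(513,[12,30,23])] (.node 41 [(65,[41,34,59]),(513,[20,13,31])] (.node 36 [(576,[25,18,11])] .nil .nil) .nil) (.node 43 [(65,[57,50,43]),(513,[29,22,15])] .nil .nil))) (.node 57 [(65,[57,50,43]),(513,[29,22,15])] (.node 51 [(65,[49,42,35]),(513,[28,21,14])]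 (.node 50 [(65,[57,50,43]),(513,[29,22,15])] (.node 49 [(65,[33,58,51]),(513,[12,30,23])] .nil .nil) .nil) (.node 54 [(576,[25,18,11])] .nil .nil)) (.node 59 [(65,[41,34,59]),(513,[20,13,31])] (.node 58 [(65,[49,42,35]),(513,[28,21,14])] .nil .nil) (.node 61 [(576,[25,18,11])] .nil .nil)))))

def MN7 : Tr (List ℕ) := (.node 2396745 [585] (.node 294984 [65] (.node 38481 [17] (.node 37971 [17] (.node 37449 [9] (.node 36873 [16777216] .nil .nil) .nil) (.node 38474 [17] .nil .nil)) (.node 266305 [65] (.node 38483 [17] .nil .nil) (.node 266753 [72] .nil .nil))) (.node 2129992 [513] (.node 2101313 [513] (.node 295432 [72] .nil .nil) (.node 2101761 [520] .nil .nil)) (.node 2359872 [585] (.node 2130440 [520] .nil .nil) (.node 2396169 [576] .nil .nil)))) (.node 4494922 [1617] (.node 2659921 [721] (.node 2659411 [1233] (.node 2658313 [1088] .nil .nil) (.node 2659914 [721] .nil .nil)) (.node 4493321 [1088] (.node 2659923 [1233] .nil .nil) (.node 4494419 [1681]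 .nil .nil))) (.node 7148627 [16777216] (.node 4494931 [1681] (.node 4494929 [1617] .nil .nil) (.node 7147529 [16777216] .nil .nil)) (.node 7149137 [16777216] (.node 7149130 [16777216] .nil .nil) (.node 7149139 [16777216] .nil .nil)))))

theorem jN7 : chkJ 4 4 2 [2, 1, 0, 3] [0, 1, 2, 3] TP8 TN3 MN7 GN7 TN7 = true := by decide +kernel

theorem cN7 : chkCut 2 (reL [2, 1, 0, 3] LP8) (reL [0, 1, 2, 3] LN3) LN7 = true := by decide +kernel

end Pool.Agent.W420.NS
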