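import Pool.Agent.W420.NS.TN88
import Pool.Agent.W420.NS.TN63

/-! # Check of `N88` -/

set_option autoImplicit false
set_option maxRecDepth 1000000

namespace Pool.Agent.W420.NS

def GN88 : Tr (List (ℕ × List ℕ)) := (.node 36 [(1088,[25,18,11])] (.node 22 [(80,[57,50,43])] (.node 15 [(80,[57,50,43])] (.node 12 [(80,[49,42,35])] (.node 10 [(9,[44,37,62,55]),(1617,[26])] (.node 9 [(9,[52,45,38,63]),(1617,[27])] .nil .nil) (.node 11 [(9,[36,61,54,47]),(1617,[25])] .nil .nil)) (.node 14 [(80,[33,58,51])] (.node 13 [(80,[41,34,59])] .nil .nil) .nil)) (.node 19 [(9,[60,53,46,39]),(1617,[17])] (.node 18 [(9,[36,61,54,47]),(1617,[18])] (.node 17 [(9,[44,37,62,55]),(1617,[19])] .nil .nil) .nil) (.node 21 [(80,[33,58,51])] (.node 20 [(80,[41,34,59])] .nil .nil) .nil))) (.node 29 [(80,[57,50,43])] (.node 26 [(9,[60,53,46,39]),(1617,[10])] (.node 25 [(9,[36,61,54,47]),(1617,[11])] (.node 23 [(80,[49,42,35])] .nil .nil) .nil) (.node 28 [(80,[33,58,51])]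 (.node 27 [(9,[52,45,38,63]),(1617,[9])] .nil .nil) .nil)) (.node 33 [(513,[28,21,14])] (.node 31 [(80,[41,34,59])] (.node 30 [(80,[49,42,35])] .nil .nil) .nil) (.node 35 [(513,[12,30,23])] (.node 34 [(513,[20,13,31])] .nil .nil) .nil)))) (.node 51 [(513,[28,21,14])] (.node 44 [(1088,[17,10])] (.node 41 [(513,[20,13,31])] (.node 38 [(1088,[9,27])] (.node 37 [(1088,[17,10])] .nil .nil) (.node 39 [(1088,[26,19])] .nil .nil)) (.node 43 [(513,[29,22,15])] (.node 42 [(513,[12,30,23])] .nil .nil) .nil)) (.node 47 [(1088,[25,18,11])] (.node 46 [(1088,[26,19])] (.node 45 [(1088,[9,27])] .nil .nil) .nil) (.node 50 [(513,[29,22,15])] (.node 49 [(513,[12,30,23])] .nil .nil) .nil))) (.node 58 [(513,[28,21,14])] (.node 54 [(1088,[25,18,11])] (.node 53 [(1088,[26,19])] (.node 52 [(1088,[9,27])] .nil .nil) .nil) (.node 57 [(513,[29,22,15])] (.node 55 [(1088,[17,10])] .nil .nil) .nil)) (.node 61 [(1088,[25,18,11])] (.node 60 [(1088,[26,19])] (.node 59 [(513,[20,13,31])]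 .nil .nil) .nil) (.node 63 [(1088,[9,27])] (.node 62 [(1088,[17,10])] .nil .nil) .nil)))))

def MN88 : Tr (List ℕ) := (.node 2101313 [513] (.node 327816 [16777216] (.node 38537 [16777216] .nil .nil) (.node 328712 [16777216] .nil .nil)) (.node 6624905 [2257] (.node 2101761 [520] .nil .nil) .nil))

theorem jN88 : chkJ 4 4 2 [0, 1, 2, 3] [0, 2, 1, 3] TN63 TN63 MN88 GN88 TN88 = true := by decide +kernel

theorem cN88 : chkCut 2 (reL [0, 1, 2, 3] LN63) (reL [0, 2, 1, 3] LN63) LN88 = true := by decide +kernel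

end Pool.Agent.W420.NS
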