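import Pool.Agent.W420.NS.TP3
import Pool.Agent.W420.NS.TK2
import Pool.Agent.W420.NS.TV

/-! # Check of `P3` -/

set_option autoImplicit false
set_option maxRecDepth 1000000

namespace Pool.Agent.W420.NS

def GP3 : Tr (List (ℕ × List ℕ)) := (.node 4 [(8,[57,50,43]),(64,[29,22,15])] (.node 2 [(1,[52,45,38,63]),(73,[9,27])] (.node 1 [(1,[60,53,46,39]),(73,[17,10])] .nil .nil) (.node 3 [(1,[44,37,62,55]),(73,[26,19])] .nil .nil)) (.node 6 [(8,[41,34,59]),(64,[20,13,31])] (.node 5 [(8,[49,42,35]),(64,[28,21,14])] .nil .nil) (.node 7 [(8,[33,58,51]),(64,[12,30,23])] .nil .nil)))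

def MP3 : Tr (List ℕ) := (.node 262280 [12305] (.node 5121 [16777216] (.node 4225 [16777216] (.node 4105 [1] .nil .nil) (.node 4681 [73] .nil .nil)) (.node 33344 [1096] (.node 32904 [1553] .nil .nil) (.node 33800 [1665] .nil .nil))) (.node 299137 [9224] (.node 263176 [12417] (.node 262720 [8264] .nil .nil) (.node 299017 [4609] .nil .nil)) (.node 300033 [9280] (.node 299593 [4681] .nil .nil) .nil)))

theorem jP3 : chkJ 4 3 1 [0, 1, 2, 3] [0, 1, 2] TK2 TV MP3 GP3 TP3 = true := by decide +kernel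

theorem cP3 : chkCut 1 (reL [0, 1, 2, 3] LK2) (reL [0, 1, 2] LV) LP3 = true := by decide +kernel

end Pool.Agent.W420.NS
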