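import Pool.Agent.W420.NS.Fast

/-! # Table of `C5` -/

set_option autoImplicit false
set_option maxRecDepth 1000000

namespace Pool.Agent.W420.NS

def TC5 : Tr (List ℕ) := (.node 13988 [4672] (.node 9382 [4672] (.node 6393 [4161] (.node 5546 [9217] (.node 5084 [4616] (.node 4884 [4616] (.node 4790 [4672] (.node 4754 [4681] (.node 4698 [22737] (.node 4691 [22737] .nil .nil) (.node 4747 [22737] .nil .nil)) (.node 4772 [4672] (.node 4761 [4681] .nil .nil) (.node 4783 [4672] .nil .nil))) (.node 4839 [4672] (.node 4810 [22737] (.node 4797 [4672] .nil .nil) (.node 4817 [4681] .nil .nil)) (.node 4853 [4672] (.node 4846 [4672] .nil .nil) (.node 4860 [4672] .nil .nil)))) (.node 4979 [9217] (.node 4923 [9217] (.node 4898 [9217] (.node 4895 [4616] .nil .nil) (.node 4905 [9217] .nil .nil)) (.node 4958 [4616] (.node 4951 [4616] .nil .nil) (.node 4961 [9217] .nil .nil))) (.node 5035 [9217] (.node 5014 [4616] (.node 4986 [9217] .nil .nil) (.node 5021 [4616] .nil .nil)) (.node 5049 [9217] (.node 5042 [9217] .nil .nil) (.node 5077 [4616] .nil .nil)))))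 (.node 5357 [4672] (.node 5231 [4672] (.node 5195 [4681] (.node 5098 [9217] (.node 5091 [9217] .nil .nil) (.node 5105 [9217] .nil .nil)) (.node 5209 [22737] (.node 5202 [4681] .nil .nil) (.node 5220 [4672] .nil .nil))) (.node 5265 [22737] (.node 5245 [4672] (.node 5238 [4672] .nil .nil) (.node 5258 [22737] .nil .nil)) (.node 5339 [22737] (.node 5321 [4681] .nil .nil) (.node 5350 [4672] .nil .nil)))) (.node 5455 [4616] (.node 5399 [4616] (.node 5375 [4672] (.node 5364 [4672] .nil .nil) (.node 5388 [4616] .nil .nil)) (.node 5427 [9217] (.node 5409 [9217] .nil .nil) (.node 5434 [9217] .nil .nil))) (.node 5497 [9217] (.node 5483 [9217] (.node 5462 [4616] .nil .nil) (.node 5490 [9217] .nil .nil)) (.node 5525 [4616] (.node 5518 [4616] .nil .nil) (.node 5539 [9217] .nil .nil)))))) (.node 5973 [4616] (.node 5805 [4672] (.node 5713 [22737] (.node 5602 [9217] (.node 5581 [4616] (.node 5553 [9217] .nil .nil) (.node 5588 [4616] .nil .nil)) (.node 5627 [9217] (.node 5609 [9217] .nil .nil) (.node 5706 [4681] .nil .nil))) (.node 5756 [4672] (.node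 5742 [4672] (.node 5735 [4672] .nil .nil) (.node 5749 [4672] .nil .nil)) (.node 5787 [22737] (.node 5769 [4681] .nil .nil) (.node 5798 [4672] .nil .nil)))) (.node 5886 [4672] (.node 5850 [4681] (.node 5823 [4672] (.node 5812 [4672] .nil .nil) (.node 5843 [4681] .nil .nil)) (.node 5868 [4672] (.node 5861 [4672] .nil .nil) (.node 5879 [4672] .nil .nil))) (.node 5931 [9217] (.node 5910 [4616] (.node 5903 [4616] .nil .nil) (.node 5917 [4616] .nil .nil)) (.node 5945 [9217] (.node 5938 [9217] .nil .nil) (.node 5966 [4616] .nil .nil))))) (.node 6138 [9217] (.node 6050 [9217] (.node 6001 [9217] (.node 5987 [9217] (.node 5980 [4616] .nil .nil) (.node 5994 [9217] .nil .nil)) (.node 6036 [4616] (.node 6029 [4616] .nil .nil) (.node 6047 [4616] .nil .nil))) (.node 6103 [4616] (.node 6075 [9217] (.node 6057 [9217] .nil .nil) (.node 6092 [4616] .nil .nil)) (.node 6113 [9217] (.node 6110 [4616] .nil .nil) (.node 6131 [9217] .nil .nil)))) (.node 6302 [8328] (.node 6242 [4161] (.node 6228 [8328] (.node 6221 [8328] .nil .nil) (.node 6239 [8328] .nil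 .nil)) (.node 6284 [8328] (.node 6267 [4161] .nil .nil) (.node 6295 [8328] .nil .nil))) (.node 6358 [8328] (.node 6330 [4161] (.node 6305 [4161] .nil .nil) (.node 6351 [8328] .nil .nil)) (.node 6379 [4161] (.node 6365 [8328] .nil .nil) (.node 6386 [4161] .nil .nil))))))) (.node 7786 [4161] (.node 7065 [8201] (.node 6806 [8328] (.node 6610 [8201] (.node 6491 [8201] (.node 6417 [8201] (.node 6410 [8201] .nil .nil) (.node 6473 [8201] .nil .nil)) (.node 6554 [8201] (.node 6547 [8201] .nil .nil) (.node 6603 [8201] .nil .nil))) (.node 6750 [8328] (.node 6732 [8328] (.node 6617 [8201] .nil .nil) (.node 6743 [8328] .nil .nil)) (.node 6778 [4161] (.node 6771 [4161] .nil .nil) (.node 6799 [8328] .nil .nil)))) (.node 6890 [4161] (.node 6862 [8328] (.node 6834 [4161] (.node 6813 [8328] .nil .nil) (.node 6841 [4161] .nil .nil)) (.node 6876 [8328] (.node 6869 [8328] .nil .nil) (.node 6883 [4161] .nil .nil))) (.node 6995 [8201] (.node 6921 [8201] (.node 6897 [4161] .nil .nil) (.node 6939 [8201] .nil .nil)) (.node 7051 [8201] (.node 7002 [8201]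 .nil .nil) (.node 7058 [8201] .nil .nil))))) (.node 7394 [4161] (.node 7310 [8328] (.node 7254 [8328] (.node 7121 [8201] (.node 7114 [8201] .nil .nil) (.node 7247 [8328] .nil .nil)) (.node 7275 [4161] (.node 7261 [8328] .nil .nil) (.node 7282 [4161] .nil .nil))) (.node 7345 [4161] (.node 7324 [8328] (.node 7317 [8328] .nil .nil) (.node 7338 [4161] .nil .nil)) (.node 7380 [8328] (.node 7373 [8328] .nil .nil) (.node 7391 [8328] .nil .nil)))) (.node 7562 [8201] (.node 7450 [8201] (.node 7419 [4161] (.node 7401 [4161] .nil .nil) (.node 7443 [8201] .nil .nil)) (.node 7506 [8201] (.node 7499 [8201] .nil .nil) (.node 7513 [8201] .nil .nil))) (.node 7758 [8328] (.node 7625 [8201] (.node 7569 [8201] .nil .nil) (.node 7643 [8201] .nil .nil)) (.node 7772 [8328] (.node 7765 [8328] .nil .nil) (.node 7779 [4161] .nil .nil)))))) (.node 8885 [4672] (.node 8017 [8201] (.node 7902 [8328] (.node 7842 [4161] (.node 7828 [8328] (.node 7821 [8328] .nil .nil) (.node 7839 [8328] .nil .nil)) (.node 7884 [8328] (.node 7849 [4161] .nil .nil) (.node 7895 [8328]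 .nil .nil))) (.node 7947 [8201] (.node 7923 [4161] (.node 7905 [4161] .nil .nil) (.node 7930 [4161] .nil .nil)) (.node 7961 [8201] (.node 7954 [8201] .nil .nil) (.node 8010 [8201] .nil .nil)))) (.node 8804 [4672] (.node 8154 [8201] (.node 8091 [8201] (.node 8073 [8201] .nil .nil) (.node 8147 [8201] .nil .nil)) (.node 8786 [22737] (.node 8779 [4681] .nil .nil) (.node 8793 [4681] .nil .nil))) (.node 8842 [4681] (.node 8822 [4672] (.node 8815 [4672] .nil .nil) (.node 8829 [4672] .nil .nil)) (.node 8871 [4672] (.node 8849 [22737] .nil .nil) (.node 8878 [4672] .nil .nil))))) (.node 9123 [9217] (.node 9018 [9217] (.node 8972 [4616] (.node 8905 [22737] (.node 8892 [4672] .nil .nil) (.node 8923 [22737] .nil .nil)) (.node 8993 [9217] (.node 8990 [4616] .nil .nil) (.node 9011 [9217] .nil .nil))) (.node 9074 [9217] (.node 9053 [4616] (.node 9039 [4616] .nil .nil) (.node 9067 [9217] .nil .nil)) (.node 9102 [4616] (.node 9081 [9217] .nil .nil) (.node 9116 [4616] .nil .nil)))) (.node 9290 [22737] (.node 9183 [4616] (.node 9137 [9217] (.node 9130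 [9217] .nil .nil) (.node 9165 [4616] .nil .nil)) (.node 9193 [9217] (.node 9186 [9217] .nil .nil) (.node 9211 [9217] .nil .nil))) (.node 9333 [4672] (.node 9319 [4672] (.node 9297 [4681] .nil .nil) (.node 9326 [4672] .nil .nil)) (.node 9353 [4681] (.node 9340 [4672] .nil .nil) (.node 9371 [4681] .nil .nil)))))))) (.node 11433 [4161] (.node 10191 [4616] (.node 9715 [9217] (.node 9550 [4616] (.node 9463 [4672] (.node 9427 [4681] (.node 9396 [4672] (.node 9389 [4672] .nil .nil) (.node 9407 [4672] .nil .nil)) (.node 9445 [4672] (.node 9434 [22737] .nil .nil) (.node 9452 [4672] .nil .nil))) (.node 9501 [4616] (.node 9487 [4616] (.node 9470 [4672] .nil .nil) (.node 9494 [4616] .nil .nil)) (.node 9522 [9217] (.node 9515 [9217] .nil .nil) (.node 9529 [9217] .nil .nil)))) (.node 9631 [4616] (.node 9578 [9217] (.node 9564 [4616] (.node 9557 [4616] .nil .nil) (.node 9571 [9217] .nil .nil)) (.node 9613 [4616] (.node 9585 [9217] .nil .nil) (.node 9620 [4616] .nil .nil))) (.node 9676 [4616] (.node 9641 [9217] (.node 9634 [9217] .nil .nil) (.node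 9659 [9217] .nil .nil)) (.node 9694 [4616] (.node 9687 [4616] .nil .nil) (.node 9697 [9217] .nil .nil))))) (.node 9981 [4672] (.node 9911 [4672] (.node 9875 [22737] (.node 9801 [22737] (.node 9722 [9217] .nil .nil) (.node 9819 [22737] .nil .nil)) (.node 9893 [4672] (.node 9882 [4681] .nil .nil) (.node 9900 [4672] .nil .nil))) (.node 9945 [4681] (.node 9931 [4681] (.node 9918 [4672] .nil .nil) (.node 9938 [22737] .nil .nil)) (.node 9967 [4672] (.node 9956 [4672] .nil .nil) (.node 9974 [4672] .nil .nil)))) (.node 10082 [9217] (.node 10026 [9217] (.node 10012 [4616] (.node 9998 [4616] .nil .nil) (.node 10019 [9217] .nil .nil)) (.node 10061 [4616] (.node 10033 [9217] .nil .nil) (.node 10079 [4616] .nil .nil))) (.node 10142 [4616] (.node 10107 [9217] (.node 10089 [9217] .nil .nil) (.node 10124 [4616] .nil .nil)) (.node 10163 [9217] (.node 10145 [9217] .nil .nil) (.node 10170 [9217] .nil .nil)))))) (.node 10845 [8328] (.node 10446 [8328] (.node 10337 [4161] (.node 10233 [9217] (.node 10219 [9217] (.node 10205 [4616] .nil .nil) (.node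 10226 [9217] .nil .nil)) (.node 10327 [8328] (.node 10316 [8328] .nil .nil) (.node 10334 [8328] .nil .nil))) (.node 10397 [8328] (.node 10383 [8328] (.node 10355 [4161] .nil .nil) (.node 10390 [8328] .nil .nil)) (.node 10418 [4161] (.node 10411 [4161] .nil .nil) (.node 10425 [4161] .nil .nil)))) (.node 10586 [8201] (.node 10481 [4161] (.node 10460 [8328] (.node 10453 [8328] .nil .nil) (.node 10467 [4161] .nil .nil)) (.node 10523 [8201] (.node 10505 [8201] .nil .nil) (.node 10579 [8201] .nil .nil))) (.node 10698 [8201] (.node 10642 [8201] (.node 10635 [8201] .nil .nil) (.node 10649 [8201] .nil .nil)) (.node 10831 [8328] (.node 10705 [8201] .nil .nil) (.node 10838 [8328] .nil .nil))))) (.node 11083 [8201] (.node 10929 [4161] (.node 10901 [8328] (.node 10873 [4161] (.node 10859 [4161] .nil .nil) (.node 10894 [8328] .nil .nil)) (.node 10915 [4161] (.node 10908 [8328] .nil .nil) (.node 10922 [4161] .nil .nil))) (.node 10985 [4161] (.node 10964 [8328] (.node 10957 [8328] .nil .nil) (.node 10975 [8328] .nil .nil)) (.node 11027 [8201] (.node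 11003 [4161] .nil .nil) (.node 11034 [8201] .nil .nil)))) (.node 11349 [8328] (.node 11153 [8201] (.node 11097 [8201] (.node 11090 [8201] .nil .nil) (.node 11146 [8201] .nil .nil)) (.node 11227 [8201] (.node 11209 [8201] .nil .nil) (.node 11342 [8328] .nil .nil))) (.node 11405 [8328] (.node 11363 [4161] (.node 11356 [8328] .nil .nil) (.node 11377 [4161] .nil .nil)) (.node 11423 [8328] (.node 11412 [8328] .nil .nil) (.node 11426 [4161] .nil .nil))))))) (.node 13113 [9217] (.node 12042 [8201] (.node 11853 [8328] (.node 11538 [8201] (.node 11486 [8328] (.node 11468 [8328] (.node 11451 [4161] .nil .nil) (.node 11479 [8328] .nil .nil)) (.node 11507 [4161] (.node 11489 [4161] .nil .nil) (.node 11531 [8201] .nil .nil))) (.node 11657 [8201] (.node 11594 [8201] (.node 11545 [8201] .nil .nil) (.node 11601 [8201] .nil .nil)) (.node 11731 [8201] (.node 11675 [8201] .nil .nil) (.node 11738 [8201] .nil .nil)))) (.node 11937 [4161] (.node 11899 [4161] (.node 11871 [8328] (.node 11860 [8328] .nil .nil) (.node 11881 [4161] .nil .nil)) (.node 11927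 [8328] (.node 11916 [8328] .nil .nil) (.node 11934 [8328] .nil .nil))) (.node 11990 [8328] (.node 11962 [4161] (.node 11955 [4161] .nil .nil) (.node 11983 [8328] .nil .nil)) (.node 12011 [4161] (.node 11997 [8328] .nil .nil) (.node 12025 [4161] .nil .nil))))) (.node 12955 [4681] (.node 12249 [8201] (.node 12179 [8201] (.node 12105 [8201] (.node 12049 [8201] .nil .nil) (.node 12123 [8201] .nil .nil)) (.node 12235 [8201] (.node 12186 [8201] .nil .nil) (.node 12242 [8201] .nil .nil))) (.node 12910 [4672] (.node 12881 [4681] (.node 12874 [4681] .nil .nil) (.node 12903 [4672] .nil .nil)) (.node 12924 [4672] (.node 12917 [4672] .nil .nil) (.node 12937 [22737] .nil .nil)))) (.node 13036 [4672] (.node 12991 [4672] (.node 12973 [4672] (.node 12966 [4672] .nil .nil) (.node 12980 [4672] .nil .nil)) (.node 13018 [4681] (.node 13011 [22737] .nil .nil) (.node 13029 [4672] .nil .nil))) (.node 13078 [4616] (.node 13054 [4672] (.node 13047 [4672] .nil .nil) (.node 13071 [4616] .nil .nil)) (.node 13099 [9217] (.node 13085 [4616] .nil .nil) (.node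 13106 [9217] .nil .nil)))))) (.node 13558 [4672] (.node 13281 [9217] (.node 13204 [4616] (.node 13155 [9217] (.node 13141 [4616] (.node 13134 [4616] .nil .nil) (.node 13148 [4616] .nil .nil)) (.node 13169 [9217] (.node 13162 [9217] .nil .nil) (.node 13197 [4616] .nil .nil))) (.node 13243 [9217] (.node 13218 [9217] (.node 13215 [4616] .nil .nil) (.node 13225 [9217] .nil .nil)) (.node 13271 [4616] (.node 13260 [4616] .nil .nil) (.node 13278 [4616] .nil .nil)))) (.node 13439 [4672] (.node 13403 [4681] (.node 13306 [9217] (.node 13299 [9217] .nil .nil) (.node 13385 [22737] .nil .nil)) (.node 13421 [4672] (.node 13414 [4672] .nil .nil) (.node 13428 [4672] .nil .nil))) (.node 13522 [4681] (.node 13466 [22737] (.node 13459 [22737] .nil .nil) (.node 13515 [22737] .nil .nil)) (.node 13540 [4672] (.node 13529 [4681] .nil .nil) (.node 13551 [4672] .nil .nil))))) (.node 13754 [9217] (.node 13663 [4616] (.node 13603 [9217] (.node 13589 [4616] (.node 13565 [4672] .nil .nil) (.node 13596 [4616] .nil .nil)) (.node 13617 [9217] (.node 13610 [9217]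 .nil .nil) (.node 13652 [4616] .nil .nil))) (.node 13719 [4616] (.node 13673 [9217] (.node 13666 [9217] .nil .nil) (.node 13691 [9217] .nil .nil)) (.node 13729 [9217] (.node 13726 [4616] .nil .nil) (.node 13747 [9217] .nil .nil)))) (.node 13925 [4672] (.node 13810 [9217] (.node 13789 [4616] (.node 13782 [4616] .nil .nil) (.node 13803 [9217] .nil .nil)) (.node 13907 [4681] (.node 13817 [9217] .nil .nil) (.node 13914 [22737] .nil .nil))) (.node 13963 [4681] (.node 13943 [4672] (.node 13932 [4672] .nil .nil) (.node 13950 [4672] .nil .nil)) (.node 13977 [22737] (.node 13970 [4681] .nil .nil) .nil)))))))) (.node 21660 [648] (.node 16991 [648] (.node 15070 [8328] (.node 14478 [8328] (.node 14223 [4616] (.node 14114 [9217] (.node 14026 [22737] (.node 14006 [4672] (.node 13999 [4672] .nil .nil) (.node 14013 [4672] .nil .nil)) (.node 14093 [4616] (.node 14033 [22737] .nil .nil) (.node 14100 [4616] .nil .nil))) (.node 14167 [4616] (.node 14139 [9217] (.node 14121 [9217] .nil .nil) (.node 14156 [4616] .nil .nil)) (.node 14195 [9217] (.node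 14177 [9217] .nil .nil) (.node 14202 [9217] .nil .nil)))) (.node 14314 [9217] (.node 14265 [9217] (.node 14251 [9217] (.node 14230 [4616] .nil .nil) (.node 14258 [9217] .nil .nil)) (.node 14293 [4616] (.node 14286 [4616] .nil .nil) (.node 14307 [9217] .nil .nil))) (.node 14429 [8328] (.node 14415 [8328] (.node 14321 [9217] .nil .nil) (.node 14422 [8328] .nil .nil)) (.node 14450 [4161] (.node 14443 [4161] .nil .nil) (.node 14457 [4161] .nil .nil))))) (.node 14737 [8201] (.node 14562 [4161] (.node 14506 [4161] (.node 14492 [8328] (.node 14485 [8328] .nil .nil) (.node 14499 [4161] .nil .nil)) (.node 14548 [8328] (.node 14541 [8328] .nil .nil) (.node 14559 [8328] .nil .nil))) (.node 14667 [8201] (.node 14611 [8201] (.node 14569 [4161] .nil .nil) (.node 14618 [8201] .nil .nil)) (.node 14681 [8201] (.node 14674 [8201] .nil .nil) (.node 14730 [8201] .nil .nil)))) (.node 14961 [4161] (.node 14933 [8328] (.node 14811 [8201] (.node 14793 [8201] .nil .nil) (.node 14926 [8328] .nil .nil)) (.node 14947 [4161] (.node 14940 [8328] .nil .nil) (.node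 14954 [4161] .nil .nil))) (.node 15010 [4161] (.node 14996 [8328] (.node 14989 [8328] .nil .nil) (.node 15007 [8328] .nil .nil)) (.node 15052 [8328] (.node 15035 [4161] .nil .nil) (.node 15063 [8328] .nil .nil)))))) (.node 15763 [8201] (.node 15465 [4161] (.node 15241 [8201] (.node 15122 [8201] (.node 15098 [4161] (.node 15073 [4161] .nil .nil) (.node 15115 [8201] .nil .nil)) (.node 15178 [8201] (.node 15129 [8201] .nil .nil) (.node 15185 [8201] .nil .nil))) (.node 15437 [8328] (.node 15315 [8201] (.node 15259 [8201] .nil .nil) (.node 15322 [8201] .nil .nil)) (.node 15455 [8328] (.node 15444 [8328] .nil .nil) (.node 15458 [4161] .nil .nil)))) (.node 15574 [8328] (.node 15518 [8328] (.node 15500 [8328] (.node 15483 [4161] .nil .nil) (.node 15511 [8328] .nil .nil)) (.node 15546 [4161] (.node 15539 [4161] .nil .nil) (.node 15567 [8328] .nil .nil))) (.node 15626 [8201] (.node 15602 [4161] (.node 15581 [8328] .nil .nil) (.node 15609 [4161] .nil .nil)) (.node 15689 [8201] (.node 15633 [8201] .nil .nil) (.node 15707 [8201] .nil .nil)))))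 (.node 16078 [8328] (.node 15969 [4161] (.node 15833 [8201] (.node 15819 [8201] (.node 15770 [8201] .nil .nil) (.node 15826 [8201] .nil .nil)) (.node 15959 [8328] (.node 15948 [8328] .nil .nil) (.node 15966 [8328] .nil .nil))) (.node 16022 [8328] (.node 15994 [4161] (.node 15987 [4161] .nil .nil) (.node 16015 [8328] .nil .nil)) (.node 16043 [4161] (.node 16029 [8328] .nil .nil) (.node 16050 [4161] .nil .nil)))) (.node 16218 [8201] (.node 16113 [4161] (.node 16092 [8328] (.node 16085 [8328] .nil .nil) (.node 16106 [4161] .nil .nil)) (.node 16155 [8201] (.node 16137 [8201] .nil .nil) (.node 16211 [8201] .nil .nil))) (.node 16330 [8201] (.node 16274 [8201] (.node 16267 [8201] .nil .nil) (.node 16281 [8201] .nil .nil)) (.node 16973 [648] (.node 16337 [8201] .nil .nil) (.node 16980 [648] .nil .nil))))))) (.node 18153 [1089] (.node 17579 [1089] (.node 17162 [521] (.node 17075 [1089] (.node 17036 [648] (.node 17001 [1089] (.node 16994 [1089] .nil .nil) (.node 17019 [1089] .nil .nil)) (.node 17054 [648] (.node 17047 [648] .nil .nil) (.node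 17057 [1089] .nil .nil))) (.node 17117 [648] (.node 17103 [648] (.node 17082 [1089] .nil .nil) (.node 17110 [648] .nil .nil)) (.node 17138 [1089] (.node 17131 [1089] .nil .nil) (.node 17145 [1089] .nil .nil)))) (.node 17495 [648] (.node 17355 [521] (.node 17243 [521] (.node 17169 [521] .nil .nil) (.node 17306 [521] .nil .nil)) (.node 17369 [521] (.node 17362 [521] .nil .nil) (.node 17484 [648] .nil .nil))) (.node 17530 [1089] (.node 17505 [1089] (.node 17502 [648] .nil .nil) (.node 17523 [1089] .nil .nil)) (.node 17558 [648] (.node 17551 [648] .nil .nil) (.node 17565 [648] .nil .nil))))) (.node 17999 [648] (.node 17649 [1089] (.node 17621 [648] (.node 17593 [1089] (.node 17586 [1089] .nil .nil) (.node 17614 [648] .nil .nil)) (.node 17635 [1089] (.node 17628 [648] .nil .nil) (.node 17642 [1089] .nil .nil))) (.node 17803 [521] (.node 17691 [521] (.node 17673 [521] .nil .nil) (.node 17747 [521] .nil .nil)) (.node 17817 [521] (.node 17810 [521] .nil .nil) (.node 17873 [521] .nil .nil)))) (.node 18076 [648] (.node 18034 [1089] (.node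 18013 [648] (.node 18006 [648] .nil .nil) (.node 18027 [1089] .nil .nil)) (.node 18062 [648] (.node 18041 [1089] .nil .nil) (.node 18069 [648] .nil .nil))) (.node 18125 [648] (.node 18090 [1089] (.node 18083 [1089] .nil .nil) (.node 18097 [1089] .nil .nil)) (.node 18143 [648] (.node 18132 [648] .nil .nil) (.node 18146 [1089] .nil .nil)))))) (.node 21086 [648] (.node 19098 [73] (.node 18377 [521] (.node 18251 [521] (.node 18195 [521] (.node 18171 [1089] .nil .nil) (.node 18202 [521] .nil .nil)) (.node 18265 [521] (.node 18258 [521] .nil .nil) (.node 18314 [521] .nil .nil))) (.node 18587 [73] (.node 18513 [73] (.node 18506 [73] .nil .nil) (.node 18569 [73] .nil .nil)) (.node 18650 [73] (.node 18643 [73] .nil .nil) (.node 19035 [73] .nil .nil)))) (.node 19665 [73] (.node 19539 [73] (.node 19154 [73] (.node 19147 [73] .nil .nil) (.node 19161 [73] .nil .nil)) (.node 19602 [73] (.node 19595 [73] .nil .nil) (.node 19609 [73] .nil .nil))) (.node 20106 [73] (.node 20050 [73] (.node 20043 [73] .nil .nil) (.node 20057 [73] .nil .nil)) (.node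 21068 [648] (.node 20169 [73] .nil .nil) (.node 21079 [648] .nil .nil))))) (.node 21275 [521] (.node 21170 [1089] (.node 21135 [648] (.node 21107 [1089] (.node 21089 [1089] .nil .nil) (.node 21114 [1089] .nil .nil)) (.node 21149 [648] (.node 21142 [648] .nil .nil) (.node 21163 [1089] .nil .nil))) (.node 21212 [648] (.node 21198 [648] (.node 21177 [1089] .nil .nil) (.node 21205 [648] .nil .nil)) (.node 21226 [1089] (.node 21219 [1089] .nil .nil) (.node 21233 [1089] .nil .nil)))) (.node 21590 [648] (.node 21401 [521] (.node 21387 [521] (.node 21338 [521] .nil .nil) (.node 21394 [521] .nil .nil)) (.node 21457 [521] (.node 21450 [521] .nil .nil) (.node 21583 [648] .nil .nil))) (.node 21625 [1089] (.node 21611 [1089] (.node 21597 [648] .nil .nil) (.node 21618 [1089] .nil .nil)) (.node 21653 [648] (.node 21646 [648] .nil .nil) .nil))))))) (.node 26347 [1089] (.node 25174 [648] (.node 22241 [1089] (.node 21979 [521] (.node 21737 [1089] (.node 21709 [648] (.node 21674 [1089] (.node 21667 [1089] .nil .nil) (.node 21681 [1089] .nil .nil))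 (.node 21727 [648] (.node 21716 [648] .nil .nil) (.node 21730 [1089] .nil .nil))) (.node 21842 [521] (.node 21779 [521] (.node 21755 [1089] .nil .nil) (.node 21835 [521] .nil .nil)) (.node 21905 [521] (.node 21849 [521] .nil .nil) (.node 21961 [521] .nil .nil)))) (.node 22164 [648] (.node 22115 [1089] (.node 22101 [648] (.node 22094 [648] .nil .nil) (.node 22108 [648] .nil .nil)) (.node 22129 [1089] (.node 22122 [1089] .nil .nil) (.node 22157 [648] .nil .nil))) (.node 22203 [1089] (.node 22178 [1089] (.node 22175 [648] .nil .nil) (.node 22185 [1089] .nil .nil)) (.node 22231 [648] (.node 22220 [648] .nil .nil) (.node 22238 [648] .nil .nil))))) (.node 23179 [73] (.node 22483 [521] (.node 22290 [521] (.node 22266 [1089] (.node 22259 [1089] .nil .nil) (.node 22283 [521] .nil .nil)) (.node 22346 [521] (.node 22297 [521] .nil .nil) (.node 22409 [521] .nil .nil))) (.node 22731 [73] (.node 22619 [73] (.node 22490 [521] .nil .nil) (.node 22682 [73] .nil .nil)) (.node 22745 [73] (.node 22738 [73] .nil .nil) (.node 23123 [73] .nil .nil))))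 (.node 23753 [73] (.node 23627 [73] (.node 23193 [73] (.node 23186 [73] .nil .nil) (.node 23249 [73] .nil .nil)) (.node 23641 [73] (.node 23634 [73] .nil .nil) (.node 23690 [73] .nil .nil))) (.node 24219 [73] (.node 24145 [73] (.node 24138 [73] .nil .nil) (.node 24201 [73] .nil .nil)) (.node 24282 [73] (.node 24275 [73] .nil .nil) (.node 25167 [648] .nil .nil)))))) (.node 25759 [648] (.node 25339 [1089] (.node 25251 [1089] (.node 25209 [1089] (.node 25195 [1089] (.node 25181 [648] .nil .nil) (.node 25202 [1089] .nil .nil)) (.node 25237 [648] (.node 25230 [648] .nil .nil) (.node 25244 [648] .nil .nil))) (.node 25300 [648] (.node 25265 [1089] (.node 25258 [1089] .nil .nil) (.node 25293 [648] .nil .nil)) (.node 25314 [1089] (.node 25311 [648] .nil .nil) (.node 25321 [1089] .nil .nil)))) (.node 25678 [648] (.node 25433 [521] (.node 25419 [521] (.node 25370 [521] .nil .nil) (.node 25426 [521] .nil .nil)) (.node 25489 [521] (.node 25482 [521] .nil .nil) (.node 25563 [521] .nil .nil))) (.node 25706 [1089] (.node 25692 [648] (.node 25685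 [648] .nil .nil) (.node 25699 [1089] .nil .nil)) (.node 25741 [648] (.node 25713 [1089] .nil .nil) (.node 25748 [648] .nil .nil))))) (.node 26067 [521] (.node 25843 [1089] (.node 25804 [648] (.node 25769 [1089] (.node 25762 [1089] .nil .nil) (.node 25787 [1089] .nil .nil)) (.node 25822 [648] (.node 25815 [648] .nil .nil) (.node 25825 [1089] .nil .nil))) (.node 25881 [521] (.node 25867 [521] (.node 25850 [1089] .nil .nil) (.node 25874 [521] .nil .nil)) (.node 25993 [521] (.node 25937 [521] .nil .nil) (.node 26011 [521] .nil .nil)))) (.node 26263 [648] (.node 26210 [1089] (.node 26196 [648] (.node 26189 [648] .nil .nil) (.node 26207 [648] .nil .nil)) (.node 26235 [1089] (.node 26217 [1089] .nil .nil) (.node 26252 [648] .nil .nil))) (.node 26298 [1089] (.node 26273 [1089] (.node 26270 [648] .nil .nil) (.node 26291 [1089] .nil .nil)) (.node 26326 [648] (.node 26319 [648] .nil .nil) (.node 26333 [648] .nil .nil))))))) (.node 29854 [648] (.node 29269 [648] (.node 27218 [73] (.node 26578 [521] (.node 26441 [521] (.node 26361 [1089] (.node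 26354 [1089] .nil .nil) (.node 26378 [521] .nil .nil)) (.node 26522 [521] (.node 26515 [521] .nil .nil) (.node 26571 [521] .nil .nil))) (.node 26770 [73] (.node 26707 [73] (.node 26585 [521] .nil .nil) (.node 26763 [73] .nil .nil)) (.node 26833 [73] (.node 26777 [73] .nil .nil) (.node 27211 [73] .nil .nil)))) (.node 27859 [73] (.node 27722 [73] (.node 27274 [73] (.node 27225 [73] .nil .nil) (.node 27337 [73] .nil .nil)) (.node 27785 [73] (.node 27729 [73] .nil .nil) (.node 27803 [73] .nil .nil))) (.node 28363 [73] (.node 28251 [73] (.node 27866 [73] .nil .nil) (.node 28314 [73] .nil .nil)) (.node 28377 [73] (.node 28370 [73] .nil .nil) (.node 29262 [648] .nil .nil))))) (.node 29434 [1089] (.node 29346 [1089] (.node 29297 [1089] (.node 29283 [1089] (.node 29276 [648] .nil .nil) (.node 29290 [1089] .nil .nil)) (.node 29332 [648] (.node 29325 [648] .nil .nil) (.node 29343 [648] .nil .nil))) (.node 29399 [648] (.node 29371 [1089] (.node 29353 [1089] .nil .nil) (.node 29388 [648] .nil .nil)) (.node 29409 [1089] (.node 29406 [648] .nil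 .nil) (.node 29427 [1089] .nil .nil)))) (.node 29773 [648] (.node 29514 [521] (.node 29458 [521] (.node 29451 [521] .nil .nil) (.node 29465 [521] .nil .nil)) (.node 29595 [521] (.node 29521 [521] .nil .nil) (.node 29658 [521] .nil .nil))) (.node 29801 [1089] (.node 29791 [648] (.node 29780 [648] .nil .nil) (.node 29794 [1089] .nil .nil)) (.node 29836 [648] (.node 29819 [1089] .nil .nil) (.node 29847 [648] .nil .nil)))))) (.node 30435 [1089] (.node 30169 [521] (.node 29938 [1089] (.node 29903 [648] (.node 29875 [1089] (.node 29857 [1089] .nil .nil) (.node 29882 [1089] .nil .nil)) (.node 29917 [648] (.node 29910 [648] .nil .nil) (.node 29931 [1089] .nil .nil))) (.node 30043 [521] (.node 29969 [521] (.node 29945 [1089] .nil .nil) (.node 30025 [521] .nil .nil)) (.node 30155 [521] (.node 30099 [521] .nil .nil) (.node 30162 [521] .nil .nil)))) (.node 30358 [648] (.node 30305 [1089] (.node 30295 [648] (.node 30284 [648] .nil .nil) (.node 30302 [648] .nil .nil)) (.node 30330 [1089] (.node 30323 [1089] .nil .nil) (.node 30351 [648] .nil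 .nil))) (.node 30393 [1089] (.node 30379 [1089] (.node 30365 [648] .nil .nil) (.node 30386 [1089] .nil .nil)) (.node 30421 [648] (.node 30414 [648] .nil .nil) (.node 30428 [648] .nil .nil))))) (.node 31313 [73] (.node 30617 [521] (.node 30547 [521] (.node 30449 [1089] (.node 30442 [1089] .nil .nil) (.node 30473 [521] .nil .nil)) (.node 30603 [521] (.node 30554 [521] .nil .nil) (.node 30610 [521] .nil .nil))) (.node 30809 [73] (.node 30795 [73] (.node 30666 [521] .nil .nil) (.node 30802 [73] .nil .nil)) (.node 30921 [73] (.node 30858 [73] .nil .nil) (.node 31306 [73] .nil .nil)))) (.node 31954 [73] (.node 31450 [73] (.node 31387 [73] (.node 31369 [73] .nil .nil) (.node 31443 [73] .nil .nil)) (.node 31898 [73] (.node 31835 [73] .nil .nil) (.node 31947 [73] .nil .nil))) (.node 32402 [73] (.node 32339 [73] (.node 31961 [73] .nil .nil) (.node 32395 [73] .nil .nil)) (.node 32465 [73] (.node 32409 [73] .nil .nil) .nil)))))))))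

def LC5 : List Ct := [⟨[false, false, false, false, false], 0, 2, 0⟩, ⟨[false, false, false, false, true], 1, 2, 2⟩, ⟨[false, false, false, true, false], 1, 2, 2⟩, ⟨[false, false, false, true, true], 2, 2, 2⟩, ⟨[false, false, true, false, false], 1, 2, 2⟩, ⟨[false, false, true, false, true], 2, 2, 2⟩, ⟨[false, false, true, true, false], 2, 2, 4⟩, ⟨[false, false, true, true, true], 2, 2, 2⟩, ⟨[false, true, false, false, false], 1, 2, 2⟩, ⟨[false, true, false, false, true], 2, 2, 4⟩, ⟨[false, true, false, true, false], 2, 2, 2⟩, ⟨[false, true, false, true, true], 2, 2, 2⟩, ⟨[false, true, true, false, false], 2, 2, 4⟩, ⟨[false, true, true, false, true], 2, 2, 4⟩, ⟨[false, true, true, true, false], 2, 2, 4⟩, ⟨[false, true, true, true, true], 2, 1, 2⟩, ⟨[true, false, false, false, false], 1, 2, 2⟩, ⟨[true, false, false, false, true], 2, 2, 4⟩, ⟨[true, false, false, true, false], 2, 2, 4⟩, ⟨[true, false, false, true, true], 2, 2, 4⟩, ⟨[true, false, true, false, false], 2, 2, 2⟩, ⟨[true, false, true, false, true], 2, 2, 2⟩, ⟨[true, false,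 true, true, false], 2, 2, 4⟩, ⟨[true, false, true, true, true], 2, 1, 2⟩, ⟨[true, true, false, false, false], 2, 2, 2⟩, ⟨[true, true, false, false, true], 2, 2, 4⟩, ⟨[true, true, false, true, false], 2, 2, 2⟩, ⟨[true, true, false, true, true], 2, 1, 2⟩, ⟨[true, true, true, false, false], 2, 2, 2⟩, ⟨[true, true, true, false, true], 2, 1, 2⟩, ⟨[true, true, true, true, false], 2, 1, 2⟩, ⟨[true, true, true, true, true], 2, 0, 0⟩]

end Pool.Agent.W420.NS
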