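import Pool.Agent.W420.NS.TP8
import Pool.Agent.W420.NS.TP3
import Pool.Agent.W420.NS.TC5

/-! # Check of `P8` -/

set_option autoImplicit false
set_option maxRecDepth 1000000

namespace Pool.Agent.W420.NS

def GP8 : Tr (List (ℕ × List ℕ)) := (.node 247 [(8832,[25,18,11])] (.node 159 [(584,[57,43]),(4168,[29,22])] (.node 111 [(8832,[17,10])] (.node 92 [(584,[57,50,43]),(4168,[29,22,15])] (.node 82 [(145,[60,53,46,39]),(4681,[10]),(17242,[17])] (.node 77 [(584,[58,51]),(4168,[30,23])] (.node 75 [(145,[60,53,46,39]),(17242,[17,10])] (.node 74 [(145,[36,61,54,47]),(4681,[18]),(17242,[25,11])] (.node 73 [(145,[44,37,62,55]),(4681,[26,19])] .nil .nil) .nil) (.node 76 [(584,[34,59]),(4168,[20,31])] .nil .nil)) (.node 79 [(584,[42,35]),(4168,[28,21])] (.node 78 [(584,[50,43]),(4168,[29,22])] .nil .nil) (.node 81 [(145,[36,61,54,47]),(4681,[25]),(17242,[18,11])] .nil .nil))) (.node 87 [(584,[41,34]),(4168,[13,31])] (.node 85 [(584,[57,50]),(4168,[29,15])] (.node 84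 [(584,[33,58]),(4168,[12,30])] (.node 83 [(145,[52,45,38,63]),(4681,[9]),(17242,[27])] .nil .nil) .nil) (.node 86 [(584,[49,42]),(4168,[28,14])] .nil .nil)) (.node 90 [(145,[52,45,38,63]),(4681,[9,27])] (.node 89 [(145,[60,53,46,39]),(4681,[17]),(17242,[10])] .nil .nil) (.node 91 [(145,[44,37,62,55]),(4681,[26]),(17242,[19])] .nil .nil)))) (.node 102 [(8832,[26,19])] (.node 98 [(641,[33,58,51]),(4161,[12,30,23])] (.node 95 [(584,[33,58,51]),(4168,[12,30,23])] (.node 94 [(584,[41,34,59]),(4168,[20,13,31])] (.node 93 [(584,[49,42,35]),(4168,[28,21,14])] .nil .nil) .nil) (.node 97 [(641,[41,34,59]),(4161,[20,31])] .nil .nil)) (.node 100 [(8832,[17,10])] (.node 99 [(641,[57,50,43]),(4161,[29,15])] .nil .nil) (.node 101 [(8832,[9,27])] .nil .nil))) (.node 107 [(641,[49,42,35]),(4161,[28,14])] (.node 105 [(641,[33,58,51]),(4161,[30,23])] (.node 103 [(8832,[25,18,11])] .nil .nil) (.node 106 [(641,[57,50,43]),(4161,[29,22,15])] .nil .nil)) (.node 109 [(8832,[26,19])]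 (.node 108 [(8832,[9,27])] .nil .nil) (.node 110 [(8832,[25,18,11])] .nil .nil))))) (.node 140 [(584,[33,51]),(4168,[12,23])] (.node 122 [(641,[41,34,59]),(4161,[20,13,31])] (.node 117 [(8832,[25,18,11])] (.node 115 [(641,[41,34,59]),(4161,[13,31])] (.node 114 [(641,[49,42,35]),(4161,[28,21,14])] (.node 113 [(641,[57,50,43]),(4161,[29,22])] .nil .nil) .nil) (.node 116 [(8832,[26,19])] .nil .nil)) (.node 119 [(8832,[9,27])] (.node 118 [(8832,[17,10])] .nil .nil) (.node 121 [(641,[49,42,35]),(4161,[28,21])] .nil .nil))) (.node 127 [(8832,[26,19])] (.node 125 [(8832,[17,10])] (.node 124 [(8832,[25,18,11])] (.node 123 [(641,[33,58,51]),(4161,[12,30])] .nil .nil) .nil) (.node 126 [(8832,[9,27])] .nil .nil)) (.node 138 [(145,[60,53,46,39]),(4681,[17]),(17242,[10])] (.node 137 [(145,[36,61,54,47]),(4681,[11]),(17242,[25,18])] .nil .nil) (.node 139 [(145,[52,45,38,63]),(4681,[9]),(17242,[27])] .nil .nil)))) (.node 150 [(584,[41,34,59]),(4168,[20,13,31])] (.node 146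 [(145,[52,45,38,63]),(17242,[9,27])] (.node 143 [(584,[41,59]),(4168,[20,13])] (.node 142 [(584,[49,35]),(4168,[21,14])] (.node 141 [(584,[57,43]),(4168,[22,15])] .nil .nil) .nil) (.node 145 [(145,[60,53,46,39]),(4681,[17,10])] .nil .nil)) (.node 148 [(584,[57,50,43]),(4168,[29,22,15])] (.node 147 [(145,[44,37,62,55]),(4681,[26,19])] .nil .nil) (.node 149 [(584,[49,42,35]),(4168,[28,21,14])] .nil .nil))) (.node 155 [(145,[36,61,54,47]),(4681,[25]),(17242,[18,11])] (.node 153 [(145,[52,45,38,63]),(4681,[27]),(17242,[9])] (.node 151 [(584,[33,58,51]),(4168,[12,30,23])] .nil .nil) (.node 154 [(145,[44,37,62,55]),(4681,[19]),(17242,[26])] .nil .nil)) (.node 157 [(584,[41,59]),(4168,[20,31])] (.node 156 [(584,[49,35]),(4168,[28,21])] .nil .nil) (.node 158 [(584,[33,51]),(4168,[30,23])] .nil .nil)))))) (.node 207 [(584,[33,58,51]),(4168,[12,30,23])] (.node 180 [(8832,[25,18,11])] (.node 170 [(641,[49,42,35]),(4161,[21])] (.node 165 [(8832,[26,19])] (.node 163 [(641,[49,42,35]),(4161,[28,21,14])]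 (.node 162 [(641,[57,50,43]),(4161,[22])] (.node 161 [(641,[33,58,51]),(4161,[12,30,23])] .nil .nil) .nil) (.node 164 [(8832,[9,27])] .nil .nil)) (.node 167 [(8832,[17,10])] (.node 166 [(8832,[25,18,11])] .nil .nil) (.node 169 [(641,[57,50,43]),(4161,[29,22,15])] .nil .nil))) (.node 175 [(8832,[9,27])] (.node 173 [(8832,[25,18,11])] (.node 172 [(8832,[26,19])] (.node 171 [(641,[41,34,59]),(4161,[20,13,31])] .nil .nil) .nil) (.node 174 [(8832,[17,10])] .nil .nil)) (.node 178 [(641,[41,34,59]),(4161,[20])] (.node 177 [(641,[49,42,35]),(4161,[28,21,14])] .nil .nil) (.node 179 [(641,[33,58,51]),(4161,[12,30,23])] .nil .nil)))) (.node 190 [(8832,[26,19])] (.node 186 [(641,[33,58,51]),(4161,[23])] (.node 183 [(8832,[26,19])] (.node 182 [(8832,[9,27])] (.node 181 [(8832,[17,10])] .nil .nil) .nil) (.node 185 [(641,[41,34,59]),(4161,[20,13,31])] .nil .nil)) (.node 188 [(8832,[17,10])] (.node 187 [(641,[57,50,43]),(4161,[29,22,15])] .nil .nil) (.node 189 [(8832,[9,27])]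 .nil .nil))) (.node 203 [(145,[44,37,62,55]),(4681,[19]),(17242,[26])] (.node 201 [(145,[60,53,46,39]),(4681,[10]),(17242,[17])] (.node 191 [(8832,[25,18,11])] .nil .nil) (.node 202 [(145,[52,45,38,63]),(4681,[9,27])] .nil .nil)) (.node 205 [(584,[49,42,35]),(4168,[28,21,14])] (.node 204 [(584,[57,50,43]),(4168,[29,22,15])] .nil .nil) (.node 206 [(584,[41,34,59]),(4168,[20,13,31])] .nil .nil))))) (.node 228 [(8832,[26,19])] (.node 218 [(145,[36,61,54,47]),(4681,[18]),(17242,[25,11])] (.node 213 [(584,[34,59]),(4168,[13,31])] (.node 211 [(145,[36,61,54,47]),(4681,[11]),(17242,[25,18])] (.node 210 [(145,[44,37,62,55]),(4681,[26]),(17242,[19])] (.node 209 [(145,[52,45,38,63]),(4681,[27]),(17242,[9])] .nil .nil) .nil) (.node 212 [(584,[42,35]),(4168,[28,14])] .nil .nil)) (.node 215 [(584,[50,43]),(4168,[29,15])] (.node 214 [(584,[58,51]),(4168,[12,30])] .nil .nil) (.node 217 [(145,[44,37,62,55]),(17242,[26,19])] .nil .nil))) (.node 223 [(584,[49,42]),(4168,[21,14])]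 (.node 221 [(584,[33,58]),(4168,[12,23])] (.node 220 [(584,[41,34]),(4168,[20,13])] (.node 219 [(145,[60,53,46,39]),(4681,[17,10])] .nil .nil) .nil) (.node 222 [(584,[57,50]),(4168,[22,15])] .nil .nil)) (.node 226 [(641,[49,42,35]),(4161,[28,21,14])] (.node 225 [(641,[57,50,43]),(4161,[29,15])] .nil .nil) (.node 227 [(641,[41,34,59]),(4161,[20,13])] .nil .nil)))) (.node 238 [(8832,[9,27])] (.node 234 [(641,[41,34,59]),(4161,[20,13,31])] (.node 231 [(8832,[9,27])] (.node 230 [(8832,[17,10])] (.node 229 [(8832,[25,18,11])] .nil .nil) .nil) (.node 233 [(641,[49,42,35]),(4161,[28,14])] .nil .nil)) (.node 236 [(8832,[25,18,11])] (.node 235 [(641,[33,58,51]),(4161,[12,23])] .nil .nil) (.node 237 [(8832,[17,10])] .nil .nil))) (.node 243 [(641,[57,50,43]),(4161,[22,15])] (.node 241 [(641,[41,34,59]),(4161,[13,31])] (.node 239 [(8832,[26,19])] .nil .nil) (.node 242 [(641,[33,58,51]),(4161,[12,30,23])] .nil .nil)) (.node 245 [(8832,[9,27])] (.node 244 [(8832,[17,10])]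 .nil .nil) (.node 246 [(8832,[26,19])] .nil .nil))))))) (.node 371 [(4609,[9])] (.node 305 [(4609,[26,19])] (.node 276 [(8712,[9,27])] (.node 266 [(521,[33,58,51]),(4113,[12,30,23])] (.node 253 [(8832,[26,19])] (.node 251 [(641,[49,42,35]),(4161,[21,14])] (.node 250 [(641,[57,50,43]),(4161,[29,22,15])] (.node 249 [(641,[33,58,51]),(4161,[12,30])] .nil .nil) .nil) (.node 252 [(8832,[9,27])] .nil .nil)) (.node 255 [(8832,[17,10])] (.node 254 [(8832,[25,18,11])] .nil .nil) (.node 265 [(521,[34,59]),(4113,[20,13,31])] .nil .nil))) (.node 271 [(8712,[25,18,11])] (.node 269 [(8712,[9,27])] (.node 268 [(8712,[17,10])] (.node 267 [(521,[57,43]),(4113,[29,22,15])] .nil .nil) .nil) (.node 270 [(8712,[26,19])] .nil .nil)) (.node 274 [(521,[50]),(4113,[29,22,15])] (.node 273 [(521,[33,58,51]),(4113,[12,30,23])] .nil .nil) (.node 275 [(521,[49,42,35]),(4113,[28,21,14])] .nil .nil)))) (.node 286 [(8712,[17,10])] (.node 282 [(521,[49,42,35]),(4113,[28,21,14])] (.node 279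 [(8712,[17,10])] (.node 278 [(8712,[25,18,11])] (.node 277 [(8712,[26,19])] .nil .nil) .nil) (.node 281 [(521,[57,43]),(4113,[29,22,15])] .nil .nil)) (.node 284 [(8712,[26,19])] (.node 283 [(521,[41,34]),(4113,[20,13,31])] .nil .nil) (.node 285 [(8712,[25,18,11])] .nil .nil))) (.node 291 [(4609,[26,19])] (.node 289 [(4609,[17,10])] (.node 287 [(8712,[9,27])] .nil .nil) (.node 290 [(4609,[9,27])] .nil .nil)) (.node 298 [(4609,[26,19])] (.node 297 [(4609,[27])] .nil .nil) (.node 299 [(4609,[25,11])] .nil .nil))))) (.node 342 [(8712,[17,10])] (.node 332 [(8712,[9,27])] (.node 315 [(4609,[9])] (.node 313 [(4609,[25,11])] (.node 307 [(4609,[17,10])] (.node 306 [(4609,[18])] .nil .nil) .nil) (.node 314 [(4609,[17,10])] .nil .nil)) (.node 330 [(521,[57,50,43]),(4113,[29,22,15])] (.node 329 [(521,[58,51]),(4113,[12,30,23])] .nil .nil) (.node 331 [(521,[49,35]),(4113,[28,21,14])] .nil .nil))) (.node 338 [(521,[42]),(4113,[28,21,14])] (.node 335 [(8712,[17,10])] (.node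 334 [(8712,[25,18,11])] (.node 333 [(8712,[26,19])] .nil .nil) .nil) (.node 337 [(521,[57,50,43]),(4113,[29,22,15])] .nil .nil)) (.node 340 [(8712,[26,19])] (.node 339 [(521,[41,34,59]),(4113,[20,13,31])] .nil .nil) (.node 341 [(8712,[25,18,11])] .nil .nil)))) (.node 353 [(4609,[27])] (.node 348 [(8712,[25,18,11])] (.node 346 [(521,[41,34,59]),(4113,[20,13,31])] (.node 345 [(521,[49,35]),(4113,[28,21,14])] (.node 343 [(8712,[9,27])] .nil .nil) .nil) (.node 347 [(521,[33,58]),(4113,[12,30,23])] .nil .nil)) (.node 350 [(8712,[9,27])] (.node 349 [(8712,[17,10])] .nil .nil) (.node 351 [(8712,[26,19])] .nil .nil))) (.node 362 [(4609,[18])] (.node 355 [(4609,[25,11])] (.node 354 [(4609,[26,19])] .nil .nil) (.node 361 [(4609,[26,19])] .nil .nil)) (.node 369 [(4609,[25,11])] (.node 363 [(4609,[17,10])] .nil .nil) (.node 370 [(4609,[17,10])] .nil .nil)))))) (.node 442 [(4609,[26,19])] (.node 409 [(521,[41,59]),(4113,[20,13,31])] (.node 398 [(8712,[17,10])] (.node 394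 [(521,[49,42,35]),(4113,[28,21,14])] (.node 379 [(4609,[26,19])] (.node 378 [(4609,[9,27])] (.node 377 [(4609,[17,10])] .nil .nil) .nil) (.node 393 [(521,[50,43]),(4113,[29,22,15])] .nil .nil)) (.node 396 [(8712,[26,19])] (.node 395 [(521,[41,59]),(4113,[20,13,31])] .nil .nil) (.node 397 [(8712,[25,18,11])] .nil .nil))) (.node 404 [(8712,[25,18,11])] (.node 402 [(521,[34]),(4113,[20,13,31])] (.node 401 [(521,[49,42,35]),(4113,[28,21,14])] (.node 399 [(8712,[9,27])] .nil .nil) .nil) (.node 403 [(521,[33,58,51]),(4113,[12,30,23])] .nil .nil)) (.node 406 [(8712,[9,27])] (.node 405 [(8712,[17,10])] .nil .nil) (.node 407 [(8712,[26,19])] .nil .nil)))) (.node 419 [(4609,[17,10])] (.node 414 [(8712,[26,19])] (.node 412 [(8712,[17,10])] (.node 411 [(521,[57,50]),(4113,[29,22,15])] (.node 410 [(521,[33,58,51]),(4113,[12,30,23])] .nil .nil) .nil) (.node 413 [(8712,[9,27])] .nil .nil)) (.node 417 [(4609,[26,19])] (.node 415 [(8712,[25,18,11])] .nil .nil) (.node 418 [(4609,[18])]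 .nil .nil))) (.node 433 [(4609,[17,10])] (.node 426 [(4609,[17,10])] (.node 425 [(4609,[25,11])] .nil .nil) (.node 427 [(4609,[9])] .nil .nil)) (.node 435 [(4609,[26,19])] (.node 434 [(4609,[9,27])] .nil .nil) (.node 441 [(4609,[27])] .nil .nil))))) (.node 475 [(521,[49,42]),(4113,[28,21,14])] (.node 465 [(521,[41,34,59]),(4113,[20,13,31])] (.node 460 [(8712,[25,18,11])] (.node 458 [(521,[41,34,59]),(4113,[20,13,31])] (.node 457 [(521,[42,35]),(4113,[28,21,14])] (.node 443 [(4609,[25,11])] .nil .nil) .nil) (.node 459 [(521,[33,51]),(4113,[12,30,23])] .nil .nil)) (.node 462 [(8712,[9,27])] (.node 461 [(8712,[17,10])] .nil .nil) (.node 463 [(8712,[26,19])] .nil .nil))) (.node 470 [(8712,[26,19])] (.node 468 [(8712,[17,10])] (.node 467 [(521,[57,50,43]),(4113,[29,22,15])] (.node 466 [(521,[58]),(4113,[12,30,23])] .nil .nil) .nil) (.node 469 [(8712,[9,27])] .nil .nil)) (.node 473 [(521,[33,51]),(4113,[12,30,23])] (.node 471 [(8712,[25,18,11])] .nil .nil) (.node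 474 [(521,[57,50,43]),(4113,[29,22,15])] .nil .nil)))) (.node 490 [(4609,[9,27])] (.node 481 [(4609,[25,11])] (.node 478 [(8712,[25,18,11])] (.node 477 [(8712,[26,19])] (.node 476 [(8712,[9,27])] .nil .nil) .nil) (.node 479 [(8712,[17,10])] .nil .nil)) (.node 483 [(4609,[9])] (.node 482 [(4609,[17,10])] .nil .nil) (.node 489 [(4609,[17,10])] .nil .nil))) (.node 499 [(4609,[25,11])] (.node 497 [(4609,[27])] (.node 491 [(4609,[26,19])] .nil .nil) (.node 498 [(4609,[26,19])] .nil .nil)) (.node 506 [(4609,[18])] (.node 505 [(4609,[26,19])] .nil .nil) (.node 507 [(4609,[17,10])] .nil .nil))))))))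

def MP8 : Tr (List ℕ) := (.node 136351809 [520] (.node 19144840 [72] (.node 17072649 [65] (.node 4756041 [9] (.node 4751569 [16777216] .nil .nil) .nil) (.node 19137160 [65] (.node 17084433 [72] .nil .nil) .nil)) (.node 134775305 [513] (.node 21008449 [72] (.node 21005505 [16777216] .nil .nil) .nil) (.node 136348865 [513] (.node 134787089 [16777216] .nil .nil) .nil))) (.node 153391689 [585] (.node 151027713 [576] (.node 136585352 [520] (.node 136577672 [513] .nil .nil) .nil) (.node 153387217 [576] (.node 151041025 [585,1745] .nil .nil) .nil)) (.node 564986065 [16777216] (.node 289415808 [585,1233] (.node 285483528 [585,1617] .nil .nil) .nil) (.node 564990537 [585,1673] .nil .nil))))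

theorem jP8 : chkJ 5 5 3 [0, 1, 3, 2, 4] [1, 2, 4, 0, 3] TP3 TC5 MP8 GP8 TP8 = true := by decide +kernel

theorem cP8 : chkCut 3 (reL [0, 1, 3, 2, 4] LP3) (reL [1, 2, 4, 0, 3] LC5) LP8 = true := by decide +kernel

end Pool.Agent.W420.NS
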