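import Pool.Agent.W420.NS.TP9
import Pool.Agent.W420.NS.TP8
import Pool.Agent.W420.NS.TV

/-! # Check of `P9` -/

set_option autoImplicit false
set_option maxRecDepth 1000000

namespace Pool.Agent.W420.NS

def GP9 : Tr (List (ℕ × List ℕ)) := (.node 4 [(8,[57,50,43]),(64,[29,22,15])] (.node 2 [(1,[52,45,38,63]),(73,[9,27])] (.node 1 [(1,[60,53,46,39]),(73,[17,10])] .nil .nil) (.node 3 [(1,[44,37,62,55]),(73,[26,19])] .nil .nil)) (.node 6 [(8,[41,34,59]),(64,[20,13,31])] (.node 5 [(8,[49,42,35]),(64,[28,21,14])] .nil .nil) (.node 7 [(8,[33,58,51]),(64,[12,30,23])] .nil .nil)))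

def MP9 : Tr (List ℕ) := (.node 262216 [8201] (.node 5713 [209] (.node 4609 [64] (.node 4161 [8] (.node 4105 [1] .nil .nil) .nil) (.node 5329 [16777216] (.node 4681 [73] .nil .nil) .nil)) (.node 32840 [1033] (.node 5841 [16777216] (.node 5769 [209] .nil .nil) .nil) (.node 33344 [1096] (.node 33288 [1089] .nil .nil) .nil))) (.node 299593 [4681] (.node 299017 [4609] (.node 262720 [8264] (.node 262664 [8257] .nil .nil) .nil) (.node 299521 [4672] (.node 299073 [4616] .nil .nil) .nil)) (.node 300681 [4817] (.node 300625 [9425] (.node 300241 [13905] .nil .nil) .nil) (.node 300753 [13969] .nil .nil))))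

theorem jP9 : chkJ 4 3 1 [0, 1, 2, 3] [0, 1, 2] TP8 TV MP9 GP9 TP9 = true := by decide +kernel

theorem cP9 : chkCut 1 (reL [0, 1, 2, 3] LP8) (reL [0, 1, 2] LV) LP9 = true := by decide +kernel

end Pool.Agent.W420.NS
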