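import Pool.Agent.W420.NS.Bundle
import Pool.Agent.W420.NS.CC5
import Pool.Agent.W420.NS.CK2
import Pool.Agent.W420.NS.CK4
import Pool.Agent.W420.NS.CM142
import Pool.Agent.W420.NS.CM158
import Pool.Agent.W420.NS.CM54
import Pool.Agent.W420.NS.CN15
import Pool.Agent.W420.NS.CN18
import Pool.Agent.W420.NS.CN20
import Pool.Agent.W420.NS.CN21
import Pool.Agent.W420.NS.CN26
import Pool.Agent.W420.NS.CN3
import Pool.Agent.W420.NS.CN31
import Pool.Agent.W420.NS.CN34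
import Pool.Agent.W420.NS.CN43
import Pool.Agent.W420.NS.CN52
import Pool.Agent.W420.NS.CN63
import Pool.Agent.W420.NS.CN7
import Pool.Agent.W420.NS.CN88
import Pool.Agent.W420.NS.CP3
import Pool.Agent.W420.NS.CP7
import Pool.Agent.W420.NS.CP8
import Pool.Agent.W420.NS.CP9

/-!
# All nodes
-/

set_option autoImplicit false
set_option maxRecDepth 1000000

namespace Pool.Agent.W420.NS

theorem nK2 (q : Parts) : ∃ P : Pole, Node P 4 2 TK2 LK2 :=
  Node.join q (node_V q) (node_V q) (s := 1) (σ := [2, 0, 1]) (τ := [2, 0, 1]) (M := MK2) (G := GK2) jK2 cK2 (by decide) (by decide) (by decide) (by decide) rfl rfl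

theorem nP3 (q : Parts) : ∃ P : Pole, Node P 5 3 TP3 LP3 :=
  Node.join q (nK2 q) (node_V q) (s := 1) (σ := [0, 1, 2, 3]) (τ := [0, 1, 2]) (M := MP3) (G := GP3) jP3 cP3 (by decide) (by decide) (by decide) (by decide) rfl rfl

theorem nC5 (q : Parts) : ∃ P : Pole, Node P 5 5 TC5 LC5 :=
  Node.join q (nP3 q) (nK2 q) (s := 2) (σ := [1, 3, 0, 2, 4]) (τ := [0, 2, 1, 3]) (M := MC5) (G := GC5) jC5 cC5 (by decide) (by decide) (by decide) (by decide) rfl rfl

theorem nP8 (q : Parts) : ∃ P : Pole, Node P 4 8 TP8 LP8 :=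
  Node.join q (nP3 q) (nC5 q) (s := 3) (σ := [0, 1, 3, 2, 4]) (τ := [1, 2, 4, 0, 3]) (M := MP8) (G := GP8) jP8 cP8 (by decide) (by decide) (by decide) (by decide) rfl rfl

theorem nP7 (q : Parts) : ∃ P : Pole, Node P 5 7 TP7 LP7 :=
  Node.join q (nK2 q) (nC5 q) (s := 2) (σ := [0, 2, 1, 3]) (τ := [1, 4, 0, 2, 3]) (M := MP7) (G := GP7) jP7 cP7 (by decide) (by decide) (by decide) (by decide) rfl rfl

theorem nP9 (q : Parts) : ∃ P : Pole, Node P 5 9 TP9 LP9 :=
  Node.join q (nP8 q) (node_V q) (s := 1) (σ := [0, 1, 2, 3]) (τ := [0, 1, 2]) (M := MP9) (G := GP9) jP9 cP9 (by decide) (by decide) (by decide) (by decide) rfl rfl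

theorem nK4 (q : Parts) : ∃ P : Pole, Node P 4 4 TK4 LK4 :=
  Node.join q (nK2 q) (nK2 q) (s := 2) (σ := [0, 2, 1, 3]) (τ := [0, 2, 1, 3]) (M := MK4) (G := GK4) jK4 cK4 (by decide) (by decide) (by decide) (by decide) rfl rfl

theorem nN3 (q : Parts) : ∃ P : Pole, Node P 4 10 TN3 LN3 :=
  Node.join q (nK2 q) (nP8 q) (s := 2) (σ := [0, 2, 1, 3]) (τ := [2, 1, 0, 3]) (M := MN3) (G := GN3) jN3 cN3 (by decide) (by decide) (by decide) (by decide) rfl rfl

theorem nN7 (q : Parts) : ∃ P : Pole, Node P 4 18 TN7 LN7 :=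
  Node.join q (nP8 q) (nN3 q) (s := 2) (σ := [2, 1, 0, 3]) (τ := [0, 1, 2, 3]) (M := MN7) (G := GN7) jN7 cN7 (by decide) (by decide) (by decide) (by decide) rfl rfl

theorem nM54 (q : Parts) : ∃ P : Pole, Node P 5 17 TM54 LM54 :=
  Node.join q (nP8 q) (nP9 q) (s := 2) (σ := [2, 1, 0, 3]) (τ := [3, 2, 1, 4, 0]) (M := MM54) (G := GM54) jM54 cM54 (by decide) (by decide) (by decide) (by decide) rfl rfl

theorem nM142 (q : Parts) : ∃ P : Pole, Node P 5 35 TM142 LM142 :=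
  Node.join q (nN7 q) (nM54 q) (s := 2) (σ := [0, 1, 2, 3]) (τ := [0, 1, 2, 3, 4]) (M := MM142) (G := GM142) jM142 cM142 (by decide) (by decide) (by decide) (by decide) rfl rfl

theorem nN18 (q : Parts) : ∃ P : Pole, Node P 4 38 TN18 LN18 :=
  Node.join q (nP3 q) (nM142 q) (s := 3) (σ := [0, 1, 3, 2, 4]) (τ := [2, 0, 1, 3, 4]) (M := MN18) (G := GN18) jN18 cN18 (by decide) (by decide) (by decide) (by decide) rfl rfl

theorem nN15 (q : Parts) : ∃ P : Pole, Node P 4 36 TN15 LN15 :=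
  Node.join q (nM142 q) (node_V q) (s := 2) (σ := [0, 3, 1, 2, 4]) (τ := [0, 1, 2]) (M := MN15) (G := GN15) jN15 cN15 (by decide) (by decide) (by decide) (by decide) rfl rfl

theorem nM158 (q : Parts) : ∃ P : Pole, Node P 5 37 TM158 LM158 :=
  Node.join q (nN15 q) (node_V q) (s := 1) (σ := [1, 0, 2, 3]) (τ := [0, 1, 2]) (M := MM158) (G := GM158) jM158 cM158 (by decide) (by decide) (by decide) (by decide) rfl rfl

theorem nN20 (q : Parts) : ∃ P : Pole, Node P 4 44 TN20 LN20 :=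
  Node.join q (nP7 q) (nM158 q) (s := 3) (σ := [2, 4, 1, 0, 3]) (τ := [3, 1, 4, 0, 2]) (M := MN20) (G := GN20) jN20 cN20 (by decide) (by decide) (by decide) (by decide) rfl rfl

theorem nN21 (q : Parts) : ∃ P : Pole, Node P 4 46 TN21 LN21 :=
  Node.join q (nK2 q) (nN20 q) (s := 2) (σ := [0, 2, 1, 3]) (τ := [0, 1, 2, 3]) (M := MN21) (G := GN21) jN21 cN21 (by decide) (by decide) (by decide) (by decide) rfl rfl

theorem nN26 (q : Parts) : ∃ P : Pole, Node P 4 84 TN26 LN26 :=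
  Node.join q (nN18 q) (nN21 q) (s := 2) (σ := [2, 3, 0, 1]) (τ := [0, 1, 2, 3]) (M := MN26) (G := GN26) jN26 cN26 (by decide) (by decide) (by decide) (by decide) rfl rfl

theorem nN31 (q : Parts) : ∃ P : Pole, Node P 4 168 TN31 LN31 :=
  Node.join q (nN26 q) (nN26 q) (s := 2) (σ := [0, 1, 2, 3]) (τ := [0, 1, 2, 3]) (M := MN31) (G := GN31) jN31 cN31 (by decide) (by decide) (by decide) (by decide) rfl rfl

theorem nN34 (q : Parts) : ∃ P : Pole, Node P 4 170 TN34 LN34 :=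
  Node.join q (nK2 q) (nN31 q) (s := 2) (σ := [0, 2, 1, 3]) (τ := [0, 2, 1, 3]) (M := MN34) (G := GN34) jN34 cN34 (by decide) (by decide) (by decide) (by decide) rfl rfl

theorem nN43 (q : Parts) : ∃ P : Pole, Node P 4 174 TN43 LN43 :=
  Node.join q (nK4 q) (nN34 q) (s := 2) (σ := [0, 3, 1, 2]) (τ := [0, 3, 1, 2]) (M := MN43) (G := GN43) jN43 cN43 (by decide) (by decide) (by decide) (by decide) rfl rfl

theorem nN52 (q : Parts) : ∃ P : Pole, Node P 4 336 TN52 LN52 :=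
  Node.join q (nN31 q) (nN31 q) (s := 2) (σ := [0, 1, 2, 3]) (τ := [0, 1, 2, 3]) (M := MN52) (G := GN52) jN52 cN52 (by decide) (by decide) (by decide) (by decide) rfl rfl

theorem nN63 (q : Parts) : ∃ P : Pole, Node P 4 510 TN63 LN63 :=
  Node.join q (nN43 q) (nN52 q) (s := 2) (σ := [0, 1, 2, 3]) (τ := [0, 1, 2, 3]) (M := MN63) (G := GN63) jN63 cN63 (by decide) (by decide) (by decide) (by decide) rfl rfl

theorem nN88 (q : Parts) : ∃ P : Pole, Node P 4 1020 TN88 LN88 :=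
  Node.join q (nN63 q) (nN63 q) (s := 2) (σ := [0, 1, 2, 3]) (τ := [0, 2, 1, 3]) (M := MN88) (G := GN88) jN88 cN88 (by decide) (by decide) (by decide) (by decide) rfl rfl

theorem jZ : chkZ 4 [0, 1, 2, 3] [0, 1, 3, 2] TN88 TN88 = true := by decide +kernel

theorem cZ : chkCutC 4 (reL [0, 1, 2, 3] LN88) (reL [0, 1, 3, 2] LN88) = true := by decide +kernel

/-- the closed multipole -/
theorem nZ (q : Parts) :
    ∃ P : Pole, P.D = [] ∧ SlotOK P ∧ BigCuts P ∧ Fintype.card P.V = 2040 ∧ NoCol P :=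
  Node.close q (nN88 q) jZ cZ (by decide) (by decide) (by decide)

end Pool.Agent.W420.NS
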