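import Pool.Agent.W420.NS.Fast

/-!
# Statements about the fast checking functions
-/

set_option autoImplicit false

namespace Pool.Agent.W420.NS

/-- replacement of the colours by `1` and `4` -/
def ty (a : St) : St := a.map fun y => (bif isT y.1 then 1 else 4, y.2)

/-- (FORD) -/
def S_FORD : Prop := ∀ (k : ℕ) (σ : List ℕ) (x m : ℕ), (∀ i ∈ σ, i < k) →
  ord σ (unz k x m) = unz σ.length (rn σ x) (rn σ m) ∧ rn σ x < 8 ^ σ.length ∧
    (cons k x m → cons σ.length (rn σ x) (rn σ m))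

/-- (FTY) -/
def S_FTY : Prop := (∀ k x m, cons k x m → tys k m = ty (unz k x m)) ∧
  (∀ (s : ℕ) (a b : St), mrg s (ty a) (ty b) = ty (mrg s a b)) ∧
  (∀ (s : ℕ) (a b : St), opnB s (ty a) (ty b) (mrg s (ty a) (ty b)) = true ↔ Opn s a b) ∧
  ∀ r t : St, r.map Prod.fst = t.map Prod.fst → crsB (ty r) (ty t) = true → Crs r t

/-- (FDIG) -/
def S_FDIG : Prop :=
  (∀ s k x m : ℕ, s ≤ k → (unz k x m).drop s = unz (k - s) (x / 8 ^ s) (m / 8 ^ s)) ∧
  (∀ k l x y m n : ℕ, x < 8 ^ k → m < 8 ^ k →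
    unz k x m ++ unz l y n = unz (k + l) (x + 8 ^ k * y) (m + 8 ^ k * n)) ∧
  (∀ k x m : ℕ, (unz k x m).length = k) ∧
  ∀ s k l x y m n : ℕ, s ≤ k → s ≤ l → Mat s (unz k x m) (unz l y n) → negD s x = y % 8 ^ s

/-- (FMAIN) the fast check of a join is sound -/
def S_FMAIN : Prop := ∀ (ka kb s : ℕ) (σ τ : List ℕ) (TA TB M : Tr (List ℕ))
  (G : Tr (List (ℕ × List ℕ))) (T : Tr (List ℕ)),
  σ.Perm (List.range ka) → τ.Perm (List.range kb) → s ≤ ka → s ≤ kb →
  chkJ ka kb s σ τ TA TB M G T = true →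
  ∀ a b, ZS ka TA a → ZS kb TB b → Mat s (ord σ a) (ord τ b) → Opn s (ord σ a) (ord τ b) →
    ∃ t, ZS ((ka - s) + (kb - s)) T t ∧ Crs (mrg s (ord σ a) (ord τ b)) t

/-- two edges outside `C` whose labels are not identified -/
def clsB (s : ℕ) (a b : St) : Bool :=
  a.any fun u => a.any fun w => isT u.1 && (isT w.1 &&
    !(Nat.beq (unite (prs s a b) u.2) (unite (prs s a b) w.2)))

/-- the check of the final join -/
noncomputable def chkZ (s : ℕ) (σ τ : List ℕ) (TA TB : Tr (List ℕ)) : Bool :=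
  TA.allT fun x m => TB.allT fun y n => @Bool.rec (fun _ => Bool) true
    (clsB s (unz s (rn σ x) (rn σ m)) (unz s (rn τ y) (rn τ n))) (Nat.beq (negD s (rn σ x)) (rn τ y))

/-- (FCLO) the check of the final join is sound -/
def S_FCLO : Prop := ∀ (s : ℕ) (σ τ : List ℕ) (TA TB : Tr (List ℕ)),
  σ.Perm (List.range s) → τ.Perm (List.range s) → chkZ s σ τ TA TB = true →
  ∀ a b, ZS s TA a → ZS s TB b → Mat s (ord σ a) (ord τ b) →
    ∃ x ∈ ord σ a, ∃ y ∈ ord σ a, isT x.1 = true ∧ isT y.1 = true ∧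
      unite (prs s (ord σ a) (ord τ b)) x.2 ≠ unite (prs s (ord σ a) (ord τ b)) y.2

end Pool.Agent.W420.NS
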