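import Pool.Agent.W420.NS.TV
import Pool.Agent.W420.NS.FStm

/-!
# Multipoles with their tables
-/

set_option autoImplicit false
set_option maxRecDepth 100000

namespace Pool.Agent.W420.NS

/-- A multipole with `k` dangling edges and `n` vertices, with its tables of states and cuts. -/
structure Node (P : Pole) (k n : ℕ) (T : Tr (List ℕ)) (L : List Ct) : Prop where
  len : P.D.length = k
  crd : Fintype.card P.V = n
  snd : Sound P (ZS k T)
  cut : CutS P L
  slot : SlotOK P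

theorem Sound.mono {P : Pole} {S S' : St → Prop} (h : Sound P S) (h' : ∀ s, S s → S' s) :
    Sound P S' := by
  intro c hv hr
  obtain ⟨s, hs, hc⟩ := h c hv hr
  exact ⟨s, h' s hs, hc⟩

/-- all the parts -/
structure Parts : Prop where
  crs : S_CRS
  one : S_ONE
  re : S_RE
  jn : S_JOIN
  cl : S_CLOSE
  chk : S_FMAIN
  chc : S_FCLO
  cut1 : S_CUT1
  cutr : S_CUTR
  cutj : S_CUTJ
  cutc : S_CUTC
  slr : S_SLR
  slj : S_SLJ
  cub : S_CUB
  con : S_CON
  cyc : S_CYC
  md : S_MOD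
  col : S_COL

/-- the label of an edge at a vertex -/
def lb (a : ℕ) : ℕ := bif isT a then 1 else 0

theorem tabV : ∀ a < 8, ∀ b < 8, ∀ c < 8, okV a b c = true →
    (anyL (fun m => Nat.beq m (lb a + 8 * (lb b + 8 * lb c))) (TV.find [] (a + 8 * (b + 8 * c)))) =
      true := by
  decide +kernel

theorem anyL_eq {α : Type} (f : α → Bool) (l : List α) : anyL f l = l.any f := by
  induction l with
  | nil => rfl
  | cons x l ih =>
    have : anyL f (x :: l) = @Bool.rec (fun _ => Bool) (anyL f l) true (f x) := rfl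
    rw [this, ih, List.any_cons]
    cases f x <;> rfl

theorem lb_ok : ∀ a < 8, isT a = !(Nat.beq (lb a) 0) := by decide

theorem unz3 (a b c p q r : ℕ) (ha : a < 8) (hb : b < 8) (hc : c < 8) (hp : p < 8) (hq : q < 8)
    (hr : r < 8) : unz 3 (a + 8 * (b + 8 * c)) (p + 8 * (q + 8 * r)) = [(a, p), (b, q), (c, r)] := by
  have e1 : (a + 8 * (b + 8 * c)) / 8 = b + 8 * c := by omega
  have e2 : (b + 8 * c) / 8 = c := by omega
  have e3 : (p + 8 * (q + 8 * r)) / 8 = q + 8 * r := by omega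
  have e4 : (q + 8 * r) / 8 = r := by omega
  have f1 : (a + 8 * (b + 8 * c)) % 8 = a := by omega
  have f2 : (b + 8 * c) % 8 = b := by omega
  have f3 : (p + 8 * (q + 8 * r)) % 8 = p := by omega
  have f4 : (q + 8 * r) % 8 = q := by omega
  simp only [unz, e1, e2, e3, e4, f1, f2, f3, f4, Nat.mod_eq_of_lt hc, Nat.mod_eq_of_lt hr]

theorem lb_lt (a : ℕ) : lb a < 8 := by
  unfold lb
  cases isT a <;> simp

theorem node_V (q : Parts) : ∃ P : Pole, Node P 3 1 TV LV := by
  refine ⟨one, rfl, rfl, ?_, q.cut1, ?_⟩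
  · intro cc hv hr
    obtain ⟨s, ⟨a, b, c, h, rfl⟩, hcov⟩ := q.one cc hv hr
    have h' := h
    simp only [okV, Bool.and_eq_true, Nat.blt_eq] at h'
    obtain ⟨⟨⟨⟨_, ha⟩, _, hb⟩, _, hc⟩, _⟩ := h'
    have ht := tabV a ha b hb c hc h
    rw [anyL_eq, List.any_eq_true] at ht
    obtain ⟨m, hm, he⟩ := ht
    rw [Nat.beq_eq] at he
    refine ⟨[(a, lb a), (b, lb b), (c, lb c)], ⟨_, m, hm, ?_, ?_⟩, ?_⟩
    · rw [he]
      unfold cons
      rw [unz3 a b c _ _ _ ha hb hc (lb_lt a) (lb_lt b) (lb_lt c)]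
      intro y hy
      simp only [List.mem_cons, List.not_mem_nil, or_false] at hy
      rcases hy with rfl | rfl | rfl
      · exact lb_ok a ha
      · exact lb_ok b hb
      · exact lb_ok c hc
    · rw [he, unz3 a b c _ _ _ ha hb hc (lb_lt a) (lb_lt b) (lb_lt c)]
    · refine q.crs one cc _ _ hcov ⟨rfl, ?_, ?_⟩
      · intro x hx
        simp only [List.zip_cons_cons, List.zip_nil_right, List.mem_cons, List.not_mem_nil,
          or_false] at hx
        rcases hx with rfl | rfl | rfl <;> rfl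
      · intro x hx y hy hx1 hy1 _
        simp only [List.zip_cons_cons, List.zip_nil_right, List.mem_cons, List.not_mem_nil,
          or_false] at hx hy
        rcases hx with rfl | rfl | rfl <;> rcases hy with rfl | rfl | rfl <;>
          simp only [lb] at * <;> simp [hx1, hy1]
  · rintro ⟨u, i⟩
    fin_cases i <;> rfl

theorem Node.join (q : Parts) {ka kb na nb : ℕ} {TA TB : Tr (List ℕ)} {LA LB : List Ct}
    (hA : ∃ A, Node A ka na TA LA) (hB : ∃ B, Node B kb nb TB LB) {σ τ : List ℕ} {s k n : ℕ}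
    {M : Tr (List ℕ)} {G : Tr (List (ℕ × List ℕ))} {T : Tr (List ℕ)} {L : List Ct}
    (h1 : chkJ ka kb s σ τ TA TB M G T = true)
    (h2 : chkCut s (reL σ LA) (reL τ LB) L = true)
    (h3 : σ.Perm (List.range ka)) (h4 : τ.Perm (List.range kb)) (h5 : s ≤ ka) (h6 : s ≤ kb)
    (h7 : k = (ka - s) + (kb - s)) (h8 : n = na + nb) : ∃ P, Node P k n T L := by
  obtain ⟨A, hA⟩ := hA
  obtain ⟨B, hB⟩ := hB
  have lA := q.slr A σ (by rw [hA.len]; exact h3) hA.slot
  have lB := q.slr B τ (by rw [hB.len]; exact h4) hB.slot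
  have eA : (A.re σ).D.length = ka := lA.2.trans hA.len
  have eB : (B.re τ).D.length = kb := lB.2.trans hB.len
  have sj := q.slj (A.re σ) (B.re τ) s (by omega) (by omega) lA.1 lB.1
  refine ⟨(A.re σ).join (B.re τ) s, ?_, ?_, ?_, ?_, sj.1⟩
  · rw [sj.2, eA, eB, h7]
  · have : Fintype.card (A.V ⊕ B.V) = na + nb := by rw [Fintype.card_sum, hA.crd, hB.crd]
    rw [h8, ← this]
    rfl
  · refine q.jn (A.re σ) (B.re τ) s _ _ _ (by omega) (by omega) (q.re A σ _ hA.snd)
      (q.re B τ _ hB.snd) ?_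
    rintro _ _ ⟨a, ha, rfl⟩ ⟨b, hb, rfl⟩ la lb hm ho
    rw [h7]
    exact q.chk ka kb s σ τ TA TB M G T h3 h4 h5 h6 h1 a b ha hb hm ho
  · exact q.cutj (A.re σ) (B.re τ) s _ _ L (by omega) (by omega) (q.cutr A σ LA hA.cut)
      (q.cutr B τ LB hB.cut) h2

theorem Node.close (q : Parts) {s n : ℕ} {TA : Tr (List ℕ)} {LA : List Ct}
    (hA : ∃ A, Node A s n TA LA) {σ τ : List ℕ}
    (h1 : chkZ s σ τ TA TA = true)
    (h2 : chkCutC s (reL σ LA) (reL τ LA) = true)
    (h3 : σ.Perm (List.range s)) (h4 : τ.Perm (List.range s)) (h5 : 0 < n) :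
    ∃ P : Pole, P.D = [] ∧ SlotOK P ∧ BigCuts P ∧ Fintype.card P.V = n + n ∧ NoCol P := by
  obtain ⟨A, hA⟩ := hA
  have lA := q.slr A σ (by rw [hA.len]; exact h3) hA.slot
  have lB := q.slr A τ (by rw [hA.len]; exact h4) hA.slot
  have eA : (A.re σ).D.length = s := lA.2.trans hA.len
  have eB : (A.re τ).D.length = s := lB.2.trans hA.len
  have sj := q.slj (A.re σ) (A.re τ) s (by omega) (by omega) lA.1 lB.1
  have ne : Nonempty A.V := by
    rw [← Fintype.card_pos_iff, hA.crd]; exact h5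
  refine ⟨(A.re σ).join (A.re τ) s, ?_, sj.1, ?_, ?_, ?_⟩
  · have := sj.2
    rw [eA, eB] at this
    exact List.length_eq_zero_iff.1 (by omega)
  · exact q.cutc (A.re σ) (A.re τ) s _ _ eA eB (q.cutr A σ LA hA.cut) (q.cutr A τ LA hA.cut) h2
  · have : Fintype.card (A.V ⊕ A.V) = n + n := by rw [Fintype.card_sum, hA.crd]
    rw [← this]
    rfl
  · refine q.cl (A.re σ) (A.re τ) s _ _ eA eB ne ne (q.re A σ _ hA.snd) (q.re A τ _ hA.snd) ?_
    rintro _ _ ⟨a, ha, rfl⟩ ⟨b, hb, rfl⟩ la lb hm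
    exact q.chc s σ τ TA TA h3 h4 h1 a b ha hb hm

end Pool.Agent.W420.NS
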