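import Pool.Agent.W420.NS.TN34
import Pool.Agent.W420.NS.TK2
import Pool.Agent.W420.NS.TN31

/-! # Check of `N34` -/

set_option autoImplicit false
set_option maxRecDepth 1000000

namespace Pool.Agent.W420.NS

def GN34 : Tr (List (ℕ × List ℕ)) := (.node 36 [(576,[25,18,11])] (.node 22 [(72,[57,50,43]),(1032,[22])] (.node 15 [(72,[57,50,43]),(1032,[29])] (.node 12 [(72,[49,42,35]),(1032,[28])] (.node 10 [(9,[44,37,62,55]),(665,[26]),(1177,[26]),(1673,[26]),(1681,[26])] (.node 9 [(9,[52,45,38,63]),(665,[27]),(1177,[27]),(1673,[27]),(1681,[27])] .nil .nil) (.node 11 [(9,[36,61,54,47]),(665,[25]),(1177,[25]),(1673,[25]),(1681,[25])] .nil .nil)) (.node 14 [(72,[33,58,51]),(1032,[30])] (.node 13 [(72,[41,34,59]),(1032,[31])] .nil .nil) .nil)) (.node 19 [(9,[60,53,46,39]),(665,[17]),(1177,[17]),(1673,[17]),(1681,[17])] (.node 18 [(9,[36,61,54,47]),(665,[18]),(1177,[18]),(1673,[18]),(1681,[18])] (.node 17 [(9,[44,37,62,55]),(665,[19]),(1177,[19]),(1673,[19]),(1681,[19])]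 .nil .nil) .nil) (.node 21 [(72,[33,58,51]),(1032,[23])] (.node 20 [(72,[41,34,59]),(1032,[20])] .nil .nil) .nil))) (.node 29 [(72,[57,50,43]),(1032,[15])] (.node 26 [(9,[60,53,46,39]),(665,[10]),(1177,[10]),(1673,[10]),(1681,[10])] (.node 25 [(9,[36,61,54,47]),(665,[11]),(1177,[11]),(1673,[11]),(1681,[11])] (.node 23 [(72,[49,42,35]),(1032,[21])] .nil .nil) .nil) (.node 28 [(72,[33,58,51]),(1032,[12])] (.node 27 [(9,[52,45,38,63]),(665,[9]),(1177,[9]),(1673,[9]),(1681,[9])] .nil .nil) .nil)) (.node 33 [(129,[35]),(513,[28,21,14])] (.node 31 [(72,[41,34,59]),(1032,[13])] (.node 30 [(72,[49,42,35]),(1032,[14])] .nil .nil) .nil) (.node 35 [(129,[33]),(513,[12,30,23])] (.node 34 [(129,[34]),(513,[20,13,31])] .nil .nil) .nil)))) (.node 51 [(129,[49]),(513,[28,21,14])] (.node 44 [(576,[17,10])] (.node 41 [(129,[59]),(513,[20,13,31])] (.node 38 [(576,[9,27])] (.node 37 [(576,[17,10])] .nil .nil) (.node 39 [(576,[26,19])] .nil .nil)) (.node 43 [(129,[57]),(513,[29,22,15])]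 (.node 42 [(129,[58]),(513,[12,30,23])] .nil .nil) .nil)) (.node 47 [(576,[25,18,11])] (.node 46 [(576,[26,19])] (.node 45 [(576,[9,27])] .nil .nil) .nil) (.node 50 [(129,[50]),(513,[29,22,15])] (.node 49 [(129,[51]),(513,[12,30,23])] .nil .nil) .nil))) (.node 58 [(129,[42]),(513,[28,21,14])] (.node 54 [(576,[25,18,11])] (.node 53 [(576,[26,19])] (.node 52 [(576,[9,27])] .nil .nil) .nil) (.node 57 [(129,[43]),(513,[29,22,15])] (.node 55 [(576,[17,10])] .nil .nil) .nil)) (.node 61 [(576,[25,18,11])] (.node 60 [(576,[26,19])] (.node 59 [(129,[41]),(513,[20,13,31])] .nil .nil) .nil) (.node 63 [(576,[9,27])] (.node 62 [(576,[17,10])] .nil .nil) .nil)))))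

def MN34 : Tr (List ℕ) := (.node 2723857 [16777216] (.node 528449 [129] (.node 294992 [129] (.node 37449 [9] (.node 36881 [16777216] .nil .nil) .nil) (.node 295432 [72] .nil .nil)) (.node 2102273 [1032] (.node 2101313 [513] (.node 529409 [16777216] .nil .nil) .nil) (.node 2360384 [1161,1745] .nil .nil))) (.node 4821577 [1161] (.node 4227592 [1032] (.node 4227152 [16777216] (.node 2724425 [649] .nil .nil) .nil) (.node 4821009 [16777216] .nil .nil)) (.node 6885393 [16777216] (.node 6853193 [1161] (.node 6852625 [16777216] .nil .nil) .nil) (.node 6885961 [1097] .nil .nil))))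

theorem jN34 : chkJ 4 4 2 [0, 2, 1, 3] [0, 2, 1, 3] TK2 TN31 MN34 GN34 TN34 = true := by decide +kernel

theorem cN34 : chkCut 2 (reL [0, 2, 1, 3] LK2) (reL [0, 2, 1, 3] LN31) LN34 = true := by decide +kernel

end Pool.Agent.W420.NS
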