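import Pool.Agent.W420.NS.Defs

/-!
# Multipoles: checking functions
-/

set_option autoImplicit false

namespace Pool.Agent.W420.NS

/-- binary search trees -/
inductive BT : Type
  | nil : BT
  | node (k : ℕ) (v : List ℕ) (l r : BT) : BT

def BT.find : BT → ℕ → List ℕ
  | .nil, _ => []
  | .node k v l r, x => bif Nat.beq x k then v else bif Nat.blt x k then l.find x else r.find x

def BT.all (f : ℕ → Bool) : BT → Bool
  | .nil => true
  | .node _ v l r => v.all f && (l.all f && r.all f)

/-- the state with `k` dangling edges encoded by `n` -/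
def unp : ℕ → ℕ → St
  | 0, _ => []
  | k + 1, n => (n % 8, (n / 8) % 8) :: unp k (n / 64)

/-- the set of states given by a tree -/
def TS (k : ℕ) (T : BT) : St → Prop := fun s => ∃ x n, n ∈ T.find x ∧ s = unp k n

/-- the key of a list of colours -/
def key : List ℕ → ℕ
  | [] => 0
  | c :: l => c + 8 * key l

/-- equality of states -/
def eqS : St → St → Bool
  | [], [] => true
  | x :: a, y :: b => (Nat.beq x.1 y.1 && Nat.beq x.2 y.2) && eqS a b
  | _, _ => false

def opnB (s : ℕ) (a b r : St) : Bool :=
  (a.all fun x => !isT x.1 || r.any fun y => isT y.1 && Nat.beq y.2 (unite (prs s a b) x.2)) &&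
  (b.all fun x => !isT x.1 || r.any fun y => isT y.1 && Nat.beq y.2 (unite (prs s a b) (x.2 + 8)))

def crsB (r t : St) : Bool :=
  Nat.beq t.length r.length && ((r.zip t).all fun x => Nat.beq x.2.1 x.1.1) &&
    (r.zip t).all fun x => (r.zip t).all fun y =>
      !(isT x.1.1 && isT y.1.1 && Nat.beq x.1.2 y.1.2) || Nat.beq x.2.2 y.2.2

def pairOK (k s : ℕ) (a b : St) (T : BT) : Bool :=
  !opnB s a b (mrg s a b) ||
    (T.find (key ((mrg s a b).map Prod.fst))).any fun m => crsB (mrg s a b) (unp k m)

def rowOK (kb k s : ℕ) (a : St) (G T : BT) : Bool :=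
  (G.find (key ((a.take s).map fun x => neg x.1))).all fun m => pairOK k s a (unp kb m) T

/-- `G` contains all states of `TB`, reordered, at their keys -/
def grp (kb s : ℕ) (τ : List ℕ) (TB G : BT) : Bool :=
  TB.all fun n => (G.find (key (((ord τ (unp kb n)).take s).map Prod.fst))).any fun m =>
    eqS (unp kb m) (ord τ (unp kb n))

def chkJoin (ka kb k s : ℕ) (σ τ : List ℕ) (TA TB G T : BT) : Bool :=
  grp kb s τ TB G && TA.all fun n => rowOK kb k s (ord σ (unp ka n)) G T

end Pool.Agent.W420.NS
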