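import Mathlib

/-!
# Multipoles: definitions

A multipole is a cubic graph with dangling edges. A slot is a pair (vertex, index 0, 1 or 2); an
edge joins two slots, a dangling edge is one slot.
-/

set_option autoImplicit false

namespace Pool.Agent.W420.NS

/-- A multipole: vertices, edges (pairs of slots), dangling edges (slots). -/
structure Pole where
  V : Type
  [fin : Fintype V]
  [dec : DecidableEq V]
  E : List ((V × Fin 3) × (V × Fin 3))
  D : List (V × Fin 3)

attribute [instance] Pole.fin Pole.dec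

/-- the multipole with one vertex -/
def one : Pole where
  V := Unit
  E := []
  D := [((), 0), ((), 1), ((), 2)]

/-- map on slots -/
def lmap {V W : Type} (f : V → W) (x : V × Fin 3) : W × Fin 3 := (f x.1, x.2)

/-- reordering of a list -/
def ord {α : Type} (σ : List ℕ) (l : List α) : List α := σ.filterMap (fun i => l[i]?)

/-- reordering of the dangling edges -/
def Pole.re (A : Pole) (σ : List ℕ) : Pole where
  V := A.V
  E := A.E
  D := ord σ A.D

/-- the new edges of the join: the first `s` dangling edges of `A` and `B` are glued -/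
def newE (A B : Pole) (s : ℕ) : List (((A.V ⊕ B.V) × Fin 3) × ((A.V ⊕ B.V) × Fin 3)) :=
  ((A.D.take s).map (lmap Sum.inl)).zip ((B.D.take s).map (lmap Sum.inr))

/-- join of two multipoles, the first `s` dangling edges being glued -/
def Pole.join (A B : Pole) (s : ℕ) : Pole where
  V := A.V ⊕ B.V
  E := (A.E.map fun e => (lmap Sum.inl e.1, lmap Sum.inl e.2)) ++
    ((B.E.map fun e => (lmap Sum.inr e.1, lmap Sum.inr e.2)) ++ newE A B s)
  D := (A.D.drop s).map (lmap Sum.inl) ++ (B.D.drop s).map (lmap Sum.inr)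

/-! ### colourings -/

/-- The colours are `1, 2, 3` (edges outside `C`, with their value in `ℤ/4`) and `4, ..., 7` (edges of
`C`, with value `0, ..., 3`). -/
def isT (c : ℕ) : Bool := Nat.blt c 4

/-- the colour seen from the other end -/
def neg (c : ℕ) : ℕ := bif isT c then (4 - c) % 4 else 4 + (8 - c) % 4

/-- the three colours at a vertex -/
def okV (a b c : ℕ) : Bool :=
  (Nat.blt 0 a && Nat.blt a 8) && (Nat.blt 0 b && Nat.blt b 8) && (Nat.blt 0 c && Nat.blt c 8) &&
    (Nat.beq ((a / 4 + b / 4 + c / 4) % 2) 0 && Nat.beq ((a + b + c) % 4) 0)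

/-- `c x i` is the colour at slot `i` of the vertex `x` -/
def Valid (P : Pole) (c : P.V → Fin 3 → ℕ) : Prop :=
  (∀ x, okV (c x 0) (c x 1) (c x 2) = true) ∧
    ∀ e ∈ P.E, c e.2.1 e.2.2 = neg (c e.1.1 e.1.2) ∧ c e.1.1 e.1.2 = neg (c e.2.1 e.2.2)

/-- connected by edges outside `C` -/
def Conn (P : Pole) (c : P.V → Fin 3 → ℕ) : P.V → P.V → Prop :=
  Relation.EqvGen (fun x y => ∃ e ∈ P.E, e.1.1 = x ∧ e.2.1 = y ∧ isT (c e.1.1 e.1.2) = true)

/-- every vertex is connected to a dangling edge outside `C` -/
def Reach (P : Pole) (c : P.V → Fin 3 → ℕ) : Prop :=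
  ∀ x, ∃ d ∈ P.D, isT (c d.1 d.2) = true ∧ Conn P c x d.1

/-- A state: colour and label of every dangling edge. -/
abbrev St : Type := List (ℕ × ℕ)

/-- The state `s` covers the colouring: right colours, and connected dangling edges outside `C` have
the same label. -/
def Cov (P : Pole) (c : P.V → Fin 3 → ℕ) (s : St) : Prop :=
  s.length = P.D.length ∧ (∀ x ∈ P.D.zip s, c x.1.1 x.1.2 = x.2.1) ∧
    ∀ x ∈ P.D.zip s, ∀ y ∈ P.D.zip s, isT x.2.1 = true → isT y.2.1 = true →
      Conn P c x.1.1 y.1.1 → x.2.2 = y.2.2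

/-- Every colouring is covered by one of the states in `S`. -/
def Sound (P : Pole) (S : St → Prop) : Prop :=
  ∀ c : P.V → Fin 3 → ℕ, Valid P c → Reach P c → ∃ s, S s ∧ Cov P c s

/-! ### joining states -/

/-- substitution of `q` by `p` -/
def sub1 (p q l : ℕ) : ℕ := bif Nat.beq l q then p else l

/-- the labels after the identification of the first `n` pairs of labels in the list -/
def uniteN : ℕ → List (ℕ × ℕ) → ℕ → ℕ
  | 0, _, l => l
  | _ + 1, [], l => l
  | n + 1, (p, q) :: r, l => uniteN n (r.map fun x => (sub1 p q x.1, sub1 p q x.2)) (sub1 p q l)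

/-- the labels after the identification of the pairs of labels in the list -/
def unite (r : List (ℕ × ℕ)) (l : ℕ) : ℕ := uniteN r.length r l

/-- the pairs of labels to be identified (labels of `b` are shifted by `8`) -/
def prs (s : ℕ) (a b : St) : List (ℕ × ℕ) :=
  (((a.take s).zip (b.take s)).filter fun x => isT x.1.1).map fun x => (x.1.2, x.2.2 + 8)

/-- the first `s` colours match -/
def Mat (s : ℕ) (a b : St) : Prop := ∀ x ∈ (a.take s).zip (b.take s), x.2.1 = neg x.1.1

/-- the joined state -/
def mrg (s : ℕ) (a b : St) : St :=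
  ((a.drop s).map fun x => (x.1, unite (prs s a b) x.2)) ++
    ((b.drop s).map fun x => (x.1, unite (prs s a b) (x.2 + 8)))

/-- no component is closed off: every label of an edge outside `C` occurs in the joined state -/
def Opn (s : ℕ) (a b : St) : Prop :=
  (∀ x ∈ a, isT x.1 = true →
    ∃ y ∈ mrg s a b, isT y.1 = true ∧ y.2 = unite (prs s a b) x.2) ∧
  ∀ x ∈ b, isT x.1 = true →
    ∃ y ∈ mrg s a b, isT y.1 = true ∧ y.2 = unite (prs s a b) (x.2 + 8)

/-- `t` is coarser than `r` -/
def Crs (r t : St) : Prop :=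
  t.length = r.length ∧ (∀ x ∈ r.zip t, x.2.1 = x.1.1) ∧
    ∀ x ∈ r.zip t, ∀ y ∈ r.zip t, isT x.1.1 = true → isT y.1.1 = true → x.1.2 = y.1.2 → x.2.2 = y.2.2

/-! ### cuts -/

/-- number of edges with exactly one end in `X` -/
def cutN (P : Pole) (X : P.V → Bool) : ℕ := (P.E.filter fun e => X e.1.1 != X e.2.1).length

/-- number of vertices in `X`, truncated at `2` -/
def sz {V : Type} [Fintype V] (X : V → Bool) : ℕ := min 2 (Fintype.card {x // X x = true})

/-- An entry of a table of cuts: pattern of `X` at the dangling edges, sizes of `X` and of its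
complement, and a lower bound for the number of edges of the cut. -/
structure Ct where
  pat : List Bool
  a : ℕ
  b : ℕ
  cut : ℕ

/-- `L` is a table of the cuts of `P`. -/
def CutS (P : Pole) (L : List Ct) : Prop :=
  ∀ X : P.V → Bool, ∃ e ∈ L, e.pat = P.D.map (fun d => X d.1) ∧ e.a = sz X ∧
    e.b = sz (fun x => !X x) ∧ e.cut ≤ cutN P X

/-! ### slots -/

/-- all ends of edges -/
def ends (P : Pole) : List (P.V × Fin 3) := P.D ++ P.E.flatMap fun e => [e.1, e.2]

/-- every slot is used exactly once -/
def SlotOK (P : Pole) : Prop := ∀ x : P.V × Fin 3, (ends P).count x = 1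

/-! ### closed multipoles -/

/-- the graph of a closed multipole -/
def Pole.graph (P : Pole) : SimpleGraph P.V :=
  SimpleGraph.fromRel fun x y => ∃ e ∈ P.E, e.1.1 = x ∧ e.2.1 = y

/-- no colouring with connected complement of `C` -/
def NoCol (P : Pole) : Prop := ∀ c : P.V → Fin 3 → ℕ, Valid P c → ¬ ∀ x y, Conn P c x y

/-- all cuts with at least two vertices on both sides have at least four edges, and the other
nontrivial ones at least one -/
def BigCuts (P : Pole) : Prop := ∀ X : P.V → Bool, 1 ≤ sz X → 1 ≤ sz (fun x => !X x) →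
  1 ≤ cutN P X ∧ (2 ≤ sz X → 2 ≤ sz (fun x => !X x) → 4 ≤ cutN P X)

end Pool.Agent.W420.NS
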