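import Pool.Agent.W420.NS.Flow

/-!
# Flows on the contracted graph
-/

set_option autoImplicit false

namespace Pool.Agent.W420.NS

theorem faith : S_FAITH := by
  intro V _ G C hF
  obtain ⟨tail, head, f, hends, hval, hsum⟩ := hF
  classical
  have : Fintype (G \ C).edgeSet := Fintype.ofFinite _
  have hch : ∀ e : (G \ C).edgeSet, ∃ p : V × V, e.1 = s(p.1, p.2) ∧
      C.connectedComponentMk p.1 = tail e ∧ C.connectedComponentMk p.2 = head e := by
    rintro ⟨e, he⟩
    induction e using Sym2.ind with
    | _ u v =>
      have h := hends ⟨s(u, v), he⟩
      unfold contractedEnds at h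
      rw [Sym2.map_mk, Sym2.eq_iff] at h
      rcases h with ⟨h1, h2⟩ | ⟨h1, h2⟩
      · exact ⟨(u, v), rfl, h1, h2⟩
      · exact ⟨(v, u), Sym2.eq_swap, h2, h1⟩
  choose p hp ha hb using hch
  have huniq : ∀ (e : (G \ C).edgeSet) (u v : V), p e = (u, v) → e.1 = s(u, v) := by
    intro e u v h
    rw [hp e, h]
  let g : V → V → ℤ := fun u v => (∑ e, if p e = (u, v) then f e else 0) -
    ∑ e, if p e = (v, u) then f e else 0
  refine ⟨g, ?_, ?_, ?_, ?_⟩
  · intro u v
    simp only [g]
    ring
  · intro u v hadj
    have hne : u ≠ v := hadj.ne
    let e0 : (G \ C).edgeSet := ⟨s(u, v), hadj⟩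
    have h0 : e0.1 = s((p e0).1, (p e0).2) := hp e0
    have hv := hval e0
    have key : g u v = f e0 ∨ g u v = - f e0 := by
      have h1 : s(u, v) = s((p e0).1, (p e0).2) := h0
      rw [Sym2.eq_iff] at h1
      rcases h1 with ⟨h1, h2⟩ | ⟨h1, h2⟩
      · left
        have e1 : p e0 = (u, v) := Prod.ext h1.symm h2.symm
        have s1 : (∑ e, if p e = (u, v) then f e else 0) = f e0 := by
          rw [Finset.sum_eq_single e0]
          · rw [if_pos e1]
          · intro e _ he
            rw [if_neg]
            intro h
            exact he (Subtype.ext (huniq e u v h))
          · intro h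
            exact absurd (Finset.mem_univ _) h
        have s2 : (∑ e, if p e = (v, u) then f e else 0) = 0 := by
          refine Finset.sum_eq_zero ?_
          intro e _
          rw [if_neg]
          intro h
          have : e = e0 := Subtype.ext ((huniq e v u h).trans Sym2.eq_swap)
          rw [this, e1] at h
          exact hne (Prod.ext_iff.1 h).1
        simp only [g, s1, s2, sub_zero]
      · right
        have e1 : p e0 = (v, u) := Prod.ext h2.symm h1.symm
        have s1 : (∑ e, if p e = (v, u) then f e else 0) = f e0 := by
          rw [Finset.sum_eq_single e0]
          · rw [if_pos e1]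
          · intro e _ he
            rw [if_neg]
            intro h
            exact he (Subtype.ext ((huniq e v u h).trans Sym2.eq_swap))
          · intro h
            exact absurd (Finset.mem_univ _) h
        have s2 : (∑ e, if p e = (u, v) then f e else 0) = 0 := by
          refine Finset.sum_eq_zero ?_
          intro e _
          rw [if_neg]
          intro h
          have : e = e0 := Subtype.ext (huniq e u v h)
          rw [this, e1] at h
          exact hne (Prod.ext_iff.1 h).2
        simp only [g, s1, s2, zero_sub]
    rcases key with h | h <;> rw [h] <;>
      rcases hv with h' | h' | h' | h' | h' | h' <;> rw [h'] <;> norm_num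
  · intro u v hadj
    have z : ∀ u v : V, ¬ (G \ C).Adj u v → (∑ e, if p e = (u, v) then f e else 0) = 0 := by
      intro u v h
      refine Finset.sum_eq_zero ?_
      intro e _
      rw [if_neg]
      intro h'
      apply h
      have h2 := e.2
      rw [huniq e u v h'] at h2
      exact h2
    simp only [g, z u v hadj, z v u (fun h => hadj h.symm), sub_zero]
  · intro K
    have r1 : ∀ u, ∑ v, (∑ e, if p e = (u, v) then f e else 0) =
        ∑ e, if (p e).1 = u then f e else 0 := by
      intro u
      rw [Finset.sum_comm]
      refine Finset.sum_congr rfl ?_
      intro e _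
      by_cases h : (p e).1 = u
      · rw [if_pos h, Finset.sum_eq_single (p e).2]
        · have e3 : p e = (u, (p e).2) := Prod.ext h rfl
          rw [if_pos e3]
        · intro v _ hv
          rw [if_neg]
          intro h'
          exact hv (by rw [h'])
        · intro h'
          exact absurd (Finset.mem_univ _) h'
      · rw [if_neg h]
        refine Finset.sum_eq_zero ?_
        intro v _
        rw [if_neg]
        intro h'
        exact h (by rw [h'])
    have r2 : ∀ u, ∑ v, (∑ e, if p e = (v, u) then f e else 0) =
        ∑ e, if (p e).2 = u then f e else 0 := by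
      intro u
      rw [Finset.sum_comm]
      refine Finset.sum_congr rfl ?_
      intro e _
      by_cases h : (p e).2 = u
      · rw [if_pos h, Finset.sum_eq_single (p e).1]
        · have e3 : p e = ((p e).1, u) := Prod.ext rfl h
          rw [if_pos e3]
        · intro v _ hv
          rw [if_neg]
          intro h'
          exact hv (by rw [h'])
        · intro h'
          exact absurd (Finset.mem_univ _) h'
      · rw [if_neg h]
        refine Finset.sum_eq_zero ?_
        intro v _
        rw [if_neg]
        intro h'
        exact h (by rw [h'])
    have t : ∀ q : (G \ C).edgeSet → V,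
        ∑ u, (if C.connectedComponentMk u = K then (∑ e, if q e = u then f e else 0) else 0) =
          ∑ e, if C.connectedComponentMk (q e) = K then f e else 0 := by
      intro q
      have : ∀ u, (if C.connectedComponentMk u = K then (∑ e, if q e = u then f e else 0) else 0) =
          ∑ e, if q e = u then (if C.connectedComponentMk (q e) = K then f e else 0) else 0 := by
        intro u
        by_cases h : C.connectedComponentMk u = K
        · rw [if_pos h]
          refine Finset.sum_congr rfl ?_
          intro e _
          by_cases h' : q e = u
          · rw [if_pos h', if_pos h', h', if_pos h]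
          · rw [if_neg h', if_neg h']
        · rw [if_neg h]
          symm
          refine Finset.sum_eq_zero ?_
          intro e _
          by_cases h' : q e = u
          · rw [if_pos h', h', if_neg h]
          · rw [if_neg h']
      rw [Finset.sum_congr rfl (fun u _ => this u), Finset.sum_comm]
      refine Finset.sum_congr rfl ?_
      intro e _
      rw [Finset.sum_ite_eq]
      simp
    have e1 : ∑ u, (if C.connectedComponentMk u = K then ∑ v, g u v else 0) =
        (∑ u, (if C.connectedComponentMk u = K then (∑ e, if (p e).1 = u then f e else 0) else 0)) -
        ∑ u, (if C.connectedComponentMk u = K then (∑ e, if (p e).2 = u then f e else 0) else 0) := by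
      rw [← Finset.sum_sub_distrib]
      refine Finset.sum_congr rfl ?_
      intro u _
      by_cases h : C.connectedComponentMk u = K
      · rw [if_pos h, if_pos h, if_pos h, ← r1 u, ← r2 u, ← Finset.sum_sub_distrib]
      · rw [if_neg h, if_neg h, if_neg h, sub_zero]
    have hs := hsum K
    rw [finsum_eq_sum_of_fintype, finsum_eq_sum_of_fintype] at hs
    simp only [finsum_eq_if] at hs
    have e2 : ∑ u, (if C.connectedComponentMk u = K then ∑ v, g u v else 0) = 0 := by
      rw [e1, t (fun e => (p e).1), t (fun e => (p e).2)]
      simp only [ha, hb]
      rw [hs, sub_self]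
    convert e2

end Pool.Agent.W420.NS
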