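import Pool.Agent.W420.NS.Stm

/-!
# Multipoles: fast checking functions

A state with `k` dangling edges is given by two numbers, whose digits in base `8` are the colours and
the labels; here the labels of edges outside `C` are positive, those of edges of `C` are `0`.
-/

set_option autoImplicit false

namespace Pool.Agent.W420.NS

/-- search trees -/
inductive Tr (α : Type) : Type
  | nil : Tr α
  | node (k : ℕ) (v : α) (l r : Tr α) : Tr α

/-- value at the key `x` (default `d`) -/
noncomputable def Tr.find {α : Type} (d : α) (t : Tr α) (x : ℕ) : α :=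
  @Tr.rec α (fun _ => α) d (fun k v _ _ il ir =>
    @Bool.rec (fun _ => α) ir (@Bool.rec (fun _ => α) il v (Nat.beq x k)) (Nat.ble x k)) t

/-- all elements of a list -/
noncomputable def allL {α : Type} (f : α → Bool) (l : List α) : Bool :=
  @List.rec α (fun _ => Bool) true (fun x _ ih => @Bool.rec (fun _ => Bool) false ih (f x)) l

/-- some element of a list -/
noncomputable def anyL {α : Type} (f : α → Bool) (l : List α) : Bool :=
  @List.rec α (fun _ => Bool) false (fun x _ ih => @Bool.rec (fun _ => Bool) ih true (f x)) l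

/-- all entries of a tree of lists -/
noncomputable def Tr.allT (f : ℕ → ℕ → Bool) (t : Tr (List ℕ)) : Bool :=
  @Tr.rec (List ℕ) (fun _ => Bool) true (fun k v _ _ il ir =>
    @Bool.rec (fun _ => Bool) false (@Bool.rec (fun _ => Bool) false ir il) (allL (f k) v)) t

/-- the state with colours `x` and labels `m` -/
def unz : ℕ → ℕ → ℕ → St
  | 0, _, _ => []
  | k + 1, x, m => (x % 8, m % 8) :: unz k (x / 8) (m / 8)

/-- edges outside `C` have positive labels, edges of `C` have label `0` -/
def cons (k x m : ℕ) : Prop := ∀ y ∈ unz k x m, isT y.1 = !(Nat.beq y.2 0)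

/-- the set of states of a tree -/
def ZS (k : ℕ) (T : Tr (List ℕ)) : St → Prop :=
  fun s => ∃ x m, m ∈ T.find [] x ∧ cons k x m ∧ s = unz k x m

/-- reordering of digits -/
noncomputable def rn (σ : List ℕ) (x : ℕ) : ℕ :=
  @List.rec ℕ (fun _ => ℕ) 0 (fun i _ ih => x / 8 ^ i % 8 + 8 * ih) σ

/-- colours seen from the other end, of the first `s` digits -/
noncomputable def negD (s : ℕ) (x : ℕ) : ℕ :=
  @Nat.rec (fun _ => ℕ → ℕ) (fun _ => 0) (fun _ ih y => neg (y % 8) + 8 * ih (y / 8)) s x

/-- the state with labels `m`, and colours `1` for positive labels, `4` for label `0` -/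
def tys : ℕ → ℕ → St
  | 0, _ => []
  | k + 1, m => (bif Nat.beq (m % 8) 0 then 4 else 1, m % 8) :: tys k (m / 8)

/-- the number standing for: no open state -/
def big : ℕ := 16777216

/-- check of an entry of the table of merged labels: `c` encodes two lists of labels; if `v` contains
`big`, they give no open state, the other elements of `v` are coarser than the merged labels -/
def mOK (ka kb s c : ℕ) (v : List ℕ) : Bool :=
  v.all fun w => bif Nat.beq w big then
      !opnB s (tys ka (c % 8 ^ ka)) (tys kb (c / 8 ^ ka)) (mrg s (tys ka (c % 8 ^ ka)) (tys kb (c / 8 ^ ka)))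
    else crsB (mrg s (tys ka (c % 8 ^ ka)) (tys kb (c / 8 ^ ka)))
      (tys ((ka - s) + (kb - s)) w)

/-- check of the table of merged labels -/
noncomputable def mAll (ka kb s : ℕ) (M : Tr (List ℕ)) : Bool :=
  @Tr.rec (List ℕ) (fun _ => Bool) true (fun c v _ _ il ir =>
    @Bool.rec (fun _ => Bool) false (@Bool.rec (fun _ => Bool) false ir il) (mOK ka kb s c v)) M

/-- `G` contains all reordered states of `TB` -/
noncomputable def gOK (s : ℕ) (τ : List ℕ) (TB : Tr (List ℕ)) (G : Tr (List (ℕ × List ℕ))) : Bool :=
  TB.allT fun x m => anyL (fun g => @Bool.rec (fun _ => Bool) false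
    (anyL (fun y => Nat.beq y (rn τ x / 8 ^ s)) g.2) (Nat.beq g.1 (rn τ m))) (G.find [] (rn τ x % 8 ^ s))

/-- a state of `A` against a group of states of `B` -/
noncomputable def pOK (v : List ℕ) (xr e : ℕ) (T : Tr (List ℕ)) (ys : List ℕ) : Bool :=
  @Bool.rec (fun _ => Bool)
    (allL (fun y => anyL (fun w => anyL (fun u => Nat.beq u w) v) (T.find [] (xr + e * y))) ys)
    true (anyL (fun u => Nat.beq u big) v)

/-- a state of `A` against all groups of states of `B` -/
noncomputable def rOK (ka s : ℕ) (M : Tr (List ℕ)) (G : Tr (List (ℕ × List ℕ))) (T : Tr (List ℕ))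
    (x m : ℕ) : Bool :=
  allL (fun g => pOK (M.find [] (m + 8 ^ ka * g.1)) (x / 8 ^ s) (8 ^ (ka - s)) T g.2)
    (G.find [] (negD s x))

/-- the check of a join -/
noncomputable def chkJ (ka kb s : ℕ) (σ τ : List ℕ) (TA TB M : Tr (List ℕ))
    (G : Tr (List (ℕ × List ℕ))) (T : Tr (List ℕ)) : Bool :=
  @Bool.rec (fun _ => Bool) false (@Bool.rec (fun _ => Bool) false
    (TA.allT fun x m => rOK ka s M G T (rn σ x) (rn σ m)) (mAll ka kb s M)) (gOK s τ TB G)

end Pool.Agent.W420.NS
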