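import Pool.Agent.W420.NS.Stm

/-!
# Nowhere-zero 4-flows on multigraphs and on contracted graphs
-/

set_option autoImplicit false

namespace Pool.Agent.W420.NS

/-- The multigraph with vertex set `W`, edge set `E` and ends `ends e` (a loop if both ends agree) has a
nowhere-zero 4-flow: there is an orientation (`tail`, `head`) and a map `f : E → {±1, ±2, ±3}` such that
at every vertex the total inflow equals the total outflow. -/
def HasNowhereZeroFourFlow {W E : Type} (ends : E → Sym2 W) : Prop :=
  ∃ (tail head : E → W) (f : E → ℤ), (∀ e, ends e = s(tail e, head e)) ∧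
    (∀ e, f e = 1 ∨ f e = -1 ∨ f e = 2 ∨ f e = -2 ∨ f e = 3 ∨ f e = -3) ∧
    ∀ w : W, ∑ᶠ (e : E) (_ : head e = w), f e = ∑ᶠ (e : E) (_ : tail e = w), f e

/-- The ends of the edges of `G / E(C)`: its vertices are the components of `C`, its edges are the
edges of `G` that are not in `C`. -/
def contractedEnds {V : Type} (G C : SimpleGraph V) (e : (G \ C).edgeSet) :
    Sym2 C.ConnectedComponent :=
  Sym2.map C.connectedComponentMk e.1

/-- (FAITH) -/
def S_FAITH : Prop := ∀ (V : Type) [Fintype V] (G C : SimpleGraph V),
  HasNowhereZeroFourFlow (contractedEnds G C) → FourFlow G C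

end Pool.Agent.W420.NS
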