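import Pool.Agent.W366.NS.ValRea
import Pool.Agent.W120.NS.Chk

/-!
# Labels of the vertices of a join
-/

set_option autoImplicit false

namespace Pool.Agent.W420.NS

open Pool.Agent.W366.NS

theorem zip_mem {α β : Type} {l : List α} {m : List β} {i : ℕ} (h1 : i < l.length)
    (h2 : i < m.length) : (l[i], m[i]) ∈ l.zip m := by
  refine List.mem_iff_getElem.2 ⟨i, by rw [List.length_zip]; omega, ?_⟩
  rw [List.getElem_zip]

theorem choose_lab {P : Pole} {c : P.V → Fin 3 → ℕ} {a : St} (hR : Reach P c) (hc : Cov P c a)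
    (x : P.V) : ∃ y ∈ P.D.zip a, isT y.2.1 = true ∧ Conn P c x y.1.1 := by
  obtain ⟨d, hd, ht, hx⟩ := hR x
  obtain ⟨i, hi, rfl⟩ := List.mem_iff_getElem.1 hd
  have hi' : i < a.length := by rw [hc.1]; exact hi
  have hz := zip_mem hi hi'
  refine ⟨_, hz, ?_, hx⟩
  have := hc.2.1 _ hz
  show isT (a[i]).1 = true
  change c (P.D[i]).1 (P.D[i]).2 = (a[i]).1 at this
  rw [← this]
  exact ht

theorem lab : S_LAB := by
  intro A B s c a b hv hA hB ca cb
  choose fA hfA htA hcA using choose_lab hA ca
  choose fB hfB htB hcB using choose_lab hB cb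
  have p1 : ∀ x ∈ A.D.zip a, isT x.2.1 = true →
      unite (prs s a b) (fA x.1.1).2.2 = unite (prs s a b) x.2.2 := by
    intro x hx ht
    rw [ca.2.2 _ (hfA x.1.1) x hx (htA _) ht (Relation.EqvGen.symm _ _ (hcA x.1.1))]
  have p2 : ∀ x ∈ B.D.zip b, isT x.2.1 = true →
      unite (prs s a b) ((fB x.1.1).2.2 + 8) = unite (prs s a b) (x.2.2 + 8) := by
    intro x hx ht
    rw [cb.2.2 _ (hfB x.1.1) x hx (htB _) ht (Relation.EqvGen.symm _ _ (hcB x.1.1))]
  let lb : A.V ⊕ B.V → ℕ := Sum.elim (fun x => unite (prs s a b) (fA x).2.2)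
    (fun x => unite (prs s a b) ((fB x).2.2 + 8))
  refine ⟨lb, p1, p2, ?_⟩
  have key : ∀ e ∈ (A.join B s).E, isT (c e.1.1 e.1.2) = true → lb e.1.1 = lb e.2.1 := by
    intro e he ht
    rcases mem_E.1 he with ⟨e', he', rfl⟩ | ⟨e', he', rfl⟩ | he'
    · have hr : Conn A (fun x => c (Sum.inl x)) e'.1.1 e'.2.1 :=
        Relation.EqvGen.rel _ _ ⟨e', he', rfl, rfl, ht⟩
      show unite (prs s a b) (fA e'.1.1).2.2 = unite (prs s a b) (fA e'.2.1).2.2
      rw [ca.2.2 _ (hfA e'.1.1) _ (hfA e'.2.1) (htA _) (htA _)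
        (Relation.EqvGen.trans _ _ _ (Relation.EqvGen.symm _ _ (hcA e'.1.1))
          (Relation.EqvGen.trans _ _ _ hr (hcA e'.2.1)))]
    · have hr : Conn B (fun x => c (Sum.inr x)) e'.1.1 e'.2.1 :=
        Relation.EqvGen.rel _ _ ⟨e', he', rfl, rfl, ht⟩
      show unite (prs s a b) ((fB e'.1.1).2.2 + 8) = unite (prs s a b) ((fB e'.2.1).2.2 + 8)
      rw [cb.2.2 _ (hfB e'.1.1) _ (hfB e'.2.1) (htB _) (htB _)
        (Relation.EqvGen.trans _ _ _ (Relation.EqvGen.symm _ _ (hcB e'.1.1))
          (Relation.EqvGen.trans _ _ _ hr (hcB e'.2.1)))]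
    · have hT : isT (c e.2.1 e.2.2) = true := by
        rw [(hv.2 e he).1]
        exact isT_neg ht
      unfold newE at he'
      obtain ⟨i, hi, rfl⟩ := List.mem_iff_getElem.1 he'
      rw [List.length_zip, List.length_map, List.length_map, List.length_take,
        List.length_take] at hi
      have his : i < s := by omega
      have hiA : i < A.D.length := by omega
      have hiB : i < B.D.length := by omega
      have hia : i < a.length := by rw [ca.1]; exact hiA
      have hib : i < b.length := by rw [cb.1]; exact hiB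
      rw [List.getElem_zip] at ht hT ⊢
      simp only [List.getElem_map, List.getElem_take] at ht hT ⊢
      have zA := zip_mem hiA hia
      have zB := zip_mem hiB hib
      have tA : isT (a[i]).1 = true := by
        have := ca.2.1 _ zA
        change c (Sum.inl (A.D[i]).1) (A.D[i]).2 = (a[i]).1 at this
        rw [← this]
        exact ht
      have tB : isT (b[i]).1 = true := by
        have := cb.2.1 _ zB
        change c (Sum.inr (B.D[i]).1) (B.D[i]).2 = (b[i]).1 at this
        rw [← this]
        exact hT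
      have hp : ((a[i]).2, (b[i]).2 + 8) ∈ prs s a b := by
        unfold prs
        rw [List.mem_map]
        refine ⟨(a[i], b[i]), ?_, rfl⟩
        rw [List.mem_filter]
        refine ⟨?_, tA⟩
        have h1 : i < (a.take s).length := by rw [List.length_take]; omega
        have h2 : i < (b.take s).length := by rw [List.length_take]; omega
        have := zip_mem h1 h2
        simpa only [List.getElem_take] using this
      have hu := Pool.Agent.W120.NS.t_UNI _ _ hp
      have q1 := p1 _ zA tA
      have q2 := p2 _ zB tB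
      show unite (prs s a b) (fA (A.D[i]).1).2.2 = unite (prs s a b) ((fB (B.D[i]).1).2.2 + 8)
      exact q1.trans (hu.trans q2.symm)
  intro x y hxy
  induction hxy with
  | rel x y h1 =>
    obtain ⟨e, he, rfl, rfl, ht⟩ := h1
    exact key e he ht
  | refl x => rfl
  | symm x y _ ih => exact ih.symm
  | trans x y z _ _ ih1 ih2 => exact ih1.trans ih2

end Pool.Agent.W420.NS
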