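import Pool.Agent.W420.NS.All
import Pool.Agent.W420.NS.Flow
import Pool.Agent.W420.NS.Lab
import Pool.Agent.W237.NS.CrsOneRe
import Pool.Agent.W366.NS.ValRea
import Pool.Agent.W597.NS.JoinClose
import Pool.Agent.W412.NS.CUT
import Pool.Agent.W381.NS.Slot
import Pool.Agent.W358.NS.Cnt
import Pool.Agent.W320.NS.NB
import Pool.Agent.W554.NS.CubCon
import Pool.Agent.W753.NS.CYC
import Pool.Agent.W683.NS.Lift
import Pool.Agent.W585.NS.Mod
import Pool.Agent.W300.NS.Col
import Pool.Agent.W236.NS.Dig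
import Pool.Agent.W140.NS.FTY
import Pool.Agent.W120.NS.FMain
import Pool.Agent.W120.NS.Chk
import Pool.Agent.W723.NS.FCLO

/-!
# The graph
-/

set_option autoImplicit false

namespace Pool.Agent.W420.NS

theorem nb_all : S_NB := Pool.Agent.W320.NS.x Pool.Agent.W358.NS.Cnt.x

theorem parts : Parts where
  crs := Pool.Agent.W237.NS.crs
  one := Pool.Agent.W237.NS.one_sound
  re := Pool.Agent.W237.NS.re_sound
  jn := Pool.Agent.W597.NS.x Pool.Agent.W237.NS.crs Pool.Agent.W366.NS.val Pool.Agent.W366.NS.rea lab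
  cl := Pool.Agent.W597.NS.y Pool.Agent.W366.NS.val Pool.Agent.W366.NS.rea lab
  chk := Pool.Agent.W120.NS.t_FMAIN Pool.Agent.W236.NS.ford Pool.Agent.W140.NS.fty
    Pool.Agent.W236.NS.fdig
  chc := Pool.Agent.W723.NS.FCLO Pool.Agent.W236.NS.ford Pool.Agent.W236.NS.fdig
  cut1 := Pool.Agent.W412.NS.cut1
  cutr := Pool.Agent.W412.NS.cutr
  cutj := Pool.Agent.W412.NS.cutj
  cutc := Pool.Agent.W412.NS.cutc
  slr := Pool.Agent.W381.NS.slr
  slj := Pool.Agent.W381.NS.slj
  cub := Pool.Agent.W554.NS.cub nb_all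
  con := Pool.Agent.W554.NS.con
  cyc := Pool.Agent.W753.NS.x nb_all
  md := Pool.Agent.W585.NS.Mod.x Pool.Agent.W683.NS.lift
  col := Pool.Agent.W300.NS.col nb_all

/-- the graph -/
theorem main : ∃ (V : Type) (_ : Fintype V) (G : SimpleGraph V),
    Fintype.card V = 2040 ∧ (∀ v, (G.neighborSet v).ncard = 3) ∧ G.Connected ∧
    (∀ F : Set (Sym2 V), F.ncard ≤ 3 →
      ∀ (u v : V) (p : (G.deleteEdges F).Walk u u) (q : (G.deleteEdges F).Walk v v),
        p.IsCycle → q.IsCycle → (G.deleteEdges F).Reachable u v) ∧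
    ∀ C : SimpleGraph V, C ≤ G → (∀ v, Even (C.neighborSet v).ncard) → (G \ C).Connected →
      ¬ FourFlow G C := by
  have q := parts
  obtain ⟨P, hD, hS, hB, hc, hN⟩ := nZ q
  have h4 : 4 ≤ Fintype.card P.V := by rw [hc]; norm_num
  have hne : Nonempty P.V := by
    rw [← Fintype.card_pos_iff]; omega
  refine ⟨P.V, inferInstance, P.graph, hc, q.cub P hD hS hB h4, q.con P hne hB,
    q.cyc P hD hS hB h4, ?_⟩
  intro C hC hev hcon hflow
  obtain ⟨φ, h1, h2, h3, h5⟩ := q.md P.V P.graph C hC hflow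
  obtain ⟨c, hv, hall⟩ := q.col P hD hS hB h4 C hC hev hcon φ h1 h2 h3 h5
  exact hN c hv hall

end Pool.Agent.W420.NS
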