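import Pool.Agent.W420.NS.Fast

/-! # Table of `M54` -/

set_option autoImplicit false
set_option maxRecDepth 1000000

namespace Pool.Agent.W420.NS

def TM54 : Tr (List ℕ) := (.node 18731 [1] (.node 11451 [4161] (.node 7793 [8321] (.node 6242 [8321] (.node 5409 [4609] (.node 5014 [4616] (.node 4846 [4672] (.node 4761 [4745,8777,9865] (.node 4727 [9280,8768] (.node 4709 [9280,8768] (.node 4698 [18641,18001,18129,6353,17617,17105,18065,10449,9865] (.node 4691 [18641,18001,18129,6353,17617,17105,18065,10449,9865] .nil .nil) .nil) (.node 4716 [9280,8768] .nil .nil)) (.node 4747 [4745,8777,9865] (.node 4734 [9280,8768] .nil .nil) (.node 4754 [4745,8777,9865] .nil .nil))) (.node 4797 [9280,8768] (.node 4783 [9280,8768] (.node 4772 [9280,8768] .nil .nil) (.node 4790 [9280,8768] .nil .nil)) (.node 4817 [4689,9361,9865] (.node 4810 [9361,4689,9865] .nil .nil) (.node 4839 [4672] .nil .nil)))) (.node 4923 [4609] (.node 4884 [4616] (.node 4860 [4672] (.node 4853 [4672] .nil .nil) (.node 4877 [4616] .nil .nil)) (.node 4898 [4609] (.node 4895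 [4616] .nil .nil) (.node 4905 [4609] .nil .nil))) (.node 4961 [4609] (.node 4951 [4616] (.node 4940 [4616] .nil .nil) (.node 4958 [4616] .nil .nil)) (.node 4986 [4609] (.node 4979 [4609] .nil .nil) (.node 5007 [4616] .nil .nil))))) (.node 5245 [9280,8768] (.node 5098 [4609] (.node 5070 [4616] (.node 5042 [4609] (.node 5035 [4609] (.node 5021 [4616] .nil .nil) .nil) (.node 5049 [4609] .nil .nil)) (.node 5084 [4616] (.node 5077 [4616] .nil .nil) (.node 5091 [4609] .nil .nil))) (.node 5209 [4745,8777,9865] (.node 5195 [4745,8777,9865] (.node 5105 [4609] .nil .nil) (.node 5202 [4745,8777,9865] .nil .nil)) (.node 5231 [9280,8768] (.node 5220 [9280,8768] .nil .nil) (.node 5238 [9280,8768] .nil .nil)))) (.node 5339 [4689,9361,9865] (.node 5294 [9280,8768] (.node 5265 [18641,18001,18129,6353,17617,17105,18065,10449,9865] (.node 5258 [17617,18641,18001,18129,6353,17105,18065,10449,9865] .nil .nil) (.node 5287 [9280,8768] .nil .nil)) (.node 5308 [9280,8768] (.node 5301 [9280,8768] .nil .nil) (.node 5321 [9361,4689,9865] .nil .nil))) (.node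 5375 [4672] (.node 5357 [4672] (.node 5350 [4672] .nil .nil) (.node 5364 [4672] .nil .nil)) (.node 5399 [4616] (.node 5388 [4616] .nil .nil) (.node 5406 [4616] .nil .nil)))))) (.node 5843 [4689,9361,9865] (.node 5599 [4616] (.node 5518 [4616] (.node 5469 [4616] (.node 5455 [4616] (.node 5434 [4609] (.node 5427 [4609] .nil .nil) .nil) (.node 5462 [4616] .nil .nil)) (.node 5490 [4609] (.node 5483 [4609] .nil .nil) (.node 5497 [4609] .nil .nil))) (.node 5546 [4609] (.node 5532 [4616] (.node 5525 [4616] .nil .nil) (.node 5539 [4609] .nil .nil)) (.node 5581 [4616] (.node 5553 [4609] .nil .nil) (.node 5588 [4616] .nil .nil)))) (.node 5749 [8768,9280] (.node 5706 [18001,18641,18129,6353,17617,17105,18065,10449,9865] (.node 5609 [4609] (.node 5602 [4609] .nil .nil) (.node 5627 [4609] .nil .nil)) (.node 5735 [8768,9280] (.node 5713 [18001,18641,18129,6353,17617,17105,18065,10449,9865] .nil .nil) (.node 5742 [8768,9280] .nil .nil))) (.node 5798 [9280,8768] (.node 5769 [17617,18641,18001,18129,6353,17105,18065,10449,9865] (.node 5756 [8768,9280]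 .nil .nil) (.node 5787 [18641,18001,18129,6353,17617,17105,18065,10449,9865] .nil .nil)) (.node 5812 [9280,8768] (.node 5805 [9280,8768] .nil .nil) (.node 5823 [9280,8768] .nil .nil))))) (.node 6001 [4609] (.node 5931 [4609] (.node 5886 [4672] (.node 5868 [4672] (.node 5861 [4672] (.node 5850 [4689,9361,9865] .nil .nil) .nil) (.node 5879 [4672] .nil .nil)) (.node 5910 [4616] (.node 5903 [4616] .nil .nil) (.node 5917 [4616] .nil .nil))) (.node 5973 [4616] (.node 5945 [4609] (.node 5938 [4609] .nil .nil) (.node 5966 [4616] .nil .nil)) (.node 5987 [4609] (.node 5980 [4616] .nil .nil) (.node 5994 [4609] .nil .nil)))) (.node 6103 [4616] (.node 6050 [4609] (.node 6036 [4616] (.node 6029 [4616] .nil .nil) (.node 6047 [4616] .nil .nil)) (.node 6075 [4609] (.node 6057 [4609] .nil .nil) (.node 6092 [4616] .nil .nil))) (.node 6138 [4609] (.node 6113 [4609] (.node 6110 [4616] .nil .nil) (.node 6131 [4609] .nil .nil)) (.node 6228 [8328] (.node 6221 [8328] .nil .nil) (.node 6239 [8328] .nil .nil))))))) (.node 7013 [4096] (.node 6603 [4105] (.node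 6439 [4096] (.node 6351 [4168] (.node 6302 [8328] (.node 6284 [8328] (.node 6267 [8321] (.node 6249 [8321] .nil .nil) .nil) (.node 6295 [8328] .nil .nil)) (.node 6323 [8321] (.node 6305 [8321] .nil .nil) (.node 6330 [8321] .nil .nil))) (.node 6386 [4161] (.node 6365 [4168] (.node 6358 [4168] .nil .nil) (.node 6379 [4161] .nil .nil)) (.node 6410 [8201] (.node 6393 [4161] .nil .nil) (.node 6417 [8201] .nil .nil)))) (.node 6516 [4096] (.node 6473 [8201] (.node 6453 [4096] (.node 6446 [4096] .nil .nil) (.node 6460 [4096] .nil .nil)) (.node 6502 [4096] (.node 6491 [8201] .nil .nil) (.node 6509 [4096] .nil .nil))) (.node 6565 [4096] (.node 6547 [8201] (.node 6527 [4096] .nil .nil) (.node 6554 [8201] .nil .nil)) (.node 6583 [4096] (.node 6572 [4096] .nil .nil) (.node 6590 [4096] .nil .nil))))) (.node 6834 [8321] (.node 6750 [8328] (.node 6646 [4096] (.node 6628 [4096] (.node 6617 [4105] (.node 6610 [4105] .nil .nil) .nil) (.node 6639 [4096] .nil .nil)) (.node 6732 [8328] (.node 6653 [4096] .nil .nil) (.node 6743 [8328] .nil .nil))) (.node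 6799 [8328] (.node 6771 [8321] (.node 6753 [8321] .nil .nil) (.node 6778 [8321] .nil .nil)) (.node 6813 [8328] (.node 6806 [8328] .nil .nil) (.node 6827 [8321] .nil .nil)))) (.node 6921 [8201] (.node 6876 [4168] (.node 6862 [4168] (.node 6841 [8321] .nil .nil) (.node 6869 [4168] .nil .nil)) (.node 6890 [4161] (.node 6883 [4161] .nil .nil) (.node 6897 [4161] .nil .nil))) (.node 6964 [4096] (.node 6950 [4096] (.node 6939 [8201] .nil .nil) (.node 6957 [4096] .nil .nil)) (.node 6995 [8201] (.node 6975 [4096] .nil .nil) (.node 7002 [8201] .nil .nil)))))) (.node 7401 [4161] (.node 7247 [8328] (.node 7094 [4096] (.node 7058 [4105] (.node 7038 [4096] (.node 7031 [4096] (.node 7020 [4096] .nil .nil) .nil) (.node 7051 [4105] .nil .nil)) (.node 7076 [4096] (.node 7065 [4105] .nil .nil) (.node 7087 [4096] .nil .nil))) (.node 7143 [4096] (.node 7114 [8201] (.node 7101 [4096] .nil .nil) (.node 7121 [8201] .nil .nil)) (.node 7157 [4096] (.node 7150 [4096] .nil .nil) (.node 7164 [4096] .nil .nil)))) (.node 7324 [8328] (.node 7282 [8321] (.node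 7261 [8328] (.node 7254 [8328] .nil .nil) (.node 7275 [8321] .nil .nil)) (.node 7310 [8328] (.node 7289 [8321] .nil .nil) (.node 7317 [8328] .nil .nil))) (.node 7373 [4168] (.node 7338 [8321] (.node 7331 [8321] .nil .nil) (.node 7345 [8321] .nil .nil)) (.node 7391 [4168] (.node 7380 [4168] .nil .nil) (.node 7394 [4161] .nil .nil))))) (.node 7569 [8201] (.node 7499 [4105] (.node 7461 [4096] (.node 7443 [8201] (.node 7419 [4161] .nil .nil) (.node 7450 [8201] .nil .nil)) (.node 7479 [4096] (.node 7468 [4096] .nil .nil) (.node 7486 [4096] .nil .nil))) (.node 7535 [4096] (.node 7513 [4105] (.node 7506 [4105] .nil .nil) (.node 7524 [4096] .nil .nil)) (.node 7549 [4096] (.node 7542 [4096] .nil .nil) (.node 7562 [8201] .nil .nil)))) (.node 7661 [4096] (.node 7612 [4096] (.node 7598 [4096] (.node 7591 [4096] .nil .nil) (.node 7605 [4096] .nil .nil)) (.node 7643 [8201] (.node 7625 [8201] .nil .nil) (.node 7654 [4096] .nil .nil))) (.node 7765 [8328] (.node 7679 [4096] (.node 7668 [4096] .nil .nil) (.node 7758 [8328] .nil .nil)) (.node 7779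 [8321] (.node 7772 [8328] .nil .nil) (.node 7786 [8321] .nil .nil)))))))) (.node 9900 [4672] (.node 9067 [4609] (.node 8154 [8201] (.node 7983 [4096] (.node 7902 [4168] (.node 7849 [8321] (.node 7839 [8328] (.node 7828 [8328] (.node 7821 [8328] .nil .nil) .nil) (.node 7842 [8321] .nil .nil)) (.node 7884 [4168] (.node 7867 [8321] .nil .nil) (.node 7895 [4168] .nil .nil))) (.node 7947 [4105] (.node 7923 [4161] (.node 7905 [4161] .nil .nil) (.node 7930 [4161] .nil .nil)) (.node 7961 [4105] (.node 7954 [4105] .nil .nil) (.node 7972 [4096] .nil .nil)))) (.node 8060 [4096] (.node 8017 [8201] (.node 7997 [4096] (.node 7990 [4096] .nil .nil) (.node 8010 [8201] .nil .nil)) (.node 8046 [4096] (.node 8039 [4096] .nil .nil) (.node 8053 [4096] .nil .nil))) (.node 8109 [4096] (.node 8091 [8201] (.node 8073 [8201] .nil .nil) (.node 8102 [4096] .nil .nil)) (.node 8127 [4096] (.node 8116 [4096] .nil .nil) (.node 8147 [8201] .nil .nil))))) (.node 8892 [4672] (.node 8815 [8768,9280] (.node 8779 [8777,4745,9865] (.node 8183 [4096] (.node 8172 [4096]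 (.node 8165 [4096] .nil .nil) .nil) (.node 8190 [4096] .nil .nil)) (.node 8793 [8777,4745,9865] (.node 8786 [8777,4745,9865] .nil .nil) (.node 8804 [8768,9280] .nil .nil))) (.node 8849 [4689,9361,9865] (.node 8829 [8768,9280] (.node 8822 [8768,9280] .nil .nil) (.node 8842 [9361,4689,9865] .nil .nil)) (.node 8878 [4672] (.node 8871 [4672] .nil .nil) (.node 8885 [4672] .nil .nil)))) (.node 8983 [4616] (.node 8941 [8768,9280] (.node 8923 [18001,18641,18129,6353,17617,17105,18065,10449,9865] (.node 8905 [18001,18641,18129,6353,17617,17105,18065,10449,9865] .nil .nil) (.node 8934 [8768,9280] .nil .nil)) (.node 8959 [8768,9280] (.node 8948 [8768,9280] .nil .nil) (.node 8972 [4616] .nil .nil))) (.node 9018 [4609] (.node 8993 [4609] (.node 8990 [4616] .nil .nil) (.node 9011 [4609] .nil .nil)) (.node 9046 [4616] (.node 9039 [4616] .nil .nil) (.node 9053 [4616] .nil .nil)))))) (.node 9487 [4616] (.node 9319 [9280,8768] (.node 9165 [4616] (.node 9116 [4616] (.node 9102 [4616] (.node 9081 [4609] (.node 9074 [4609] .nil .nil) .nil) (.node 9109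 [4616] .nil .nil)) (.node 9130 [4609] (.node 9123 [4609] .nil .nil) (.node 9137 [4609] .nil .nil))) (.node 9193 [4609] (.node 9183 [4616] (.node 9172 [4616] .nil .nil) (.node 9186 [4609] .nil .nil)) (.node 9290 [17617,18641,18001,18129,6353,17105,18065,10449,9865] (.node 9211 [4609] .nil .nil) (.node 9297 [18641,18001,18129,6353,17617,17105,18065,10449,9865] .nil .nil)))) (.node 9396 [4672] (.node 9353 [9361,4689,9865] (.node 9333 [9280,8768] (.node 9326 [9280,8768] .nil .nil) (.node 9340 [9280,8768] .nil .nil)) (.node 9382 [4672] (.node 9371 [4689,9361,9865] .nil .nil) (.node 9389 [4672] .nil .nil))) (.node 9445 [9280,8768] (.node 9427 [18641,18001,18129,6353,17617,17105,18065,10449,9865] (.node 9407 [4672] .nil .nil) (.node 9434 [17617,18641,18001,18129,6353,17105,18065,10449,9865] .nil .nil)) (.node 9463 [9280,8768] (.node 9452 [9280,8768] .nil .nil) (.node 9470 [9280,8768] .nil .nil))))) (.node 9659 [4609] (.node 9571 [4609] (.node 9529 [4609] (.node 9515 [4609] (.node 9501 [4616] (.node 9494 [4616] .nil .nil) .nil) (.node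 9522 [4609] .nil .nil)) (.node 9557 [4616] (.node 9550 [4616] .nil .nil) (.node 9564 [4616] .nil .nil))) (.node 9620 [4616] (.node 9585 [4609] (.node 9578 [4609] .nil .nil) (.node 9613 [4616] .nil .nil)) (.node 9634 [4609] (.node 9631 [4616] .nil .nil) (.node 9641 [4609] .nil .nil)))) (.node 9819 [18001,18641,18129,6353,17617,17105,18065,10449,9865] (.node 9697 [4609] (.node 9687 [4616] (.node 9676 [4616] .nil .nil) (.node 9694 [4616] .nil .nil)) (.node 9722 [4609] (.node 9715 [4609] .nil .nil) (.node 9801 [17617,18001,18641,18129,6353,17105,18065,10449,9865] .nil .nil))) (.node 9855 [8768,9280] (.node 9837 [8768,9280] (.node 9830 [8768,9280] .nil .nil) (.node 9844 [8768,9280] .nil .nil)) (.node 9882 [4689,9361,9865] (.node 9875 [4689,9361,9865] .nil .nil) (.node 9893 [4672] .nil .nil))))))) (.node 10649 [4105] (.node 10233 [4609] (.node 10068 [4616] (.node 9981 [9280,8768] (.node 9945 [4745,8777,9865] (.node 9931 [4745,8777,9865] (.node 9918 [4672] (.node 9911 [4672] .nil .nil) .nil) (.node 9938 [4745,8777,9865] .nil .nil)) (.node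 9967 [9280,8768] (.node 9956 [9280,8768] .nil .nil) (.node 9974 [9280,8768] .nil .nil))) (.node 10019 [4609] (.node 10005 [4616] (.node 9998 [4616] .nil .nil) (.node 10012 [4616] .nil .nil)) (.node 10033 [4609] (.node 10026 [4609] .nil .nil) (.node 10061 [4616] .nil .nil)))) (.node 10145 [4609] (.node 10107 [4609] (.node 10082 [4609] (.node 10079 [4616] .nil .nil) (.node 10089 [4609] .nil .nil)) (.node 10135 [4616] (.node 10124 [4616] .nil .nil) (.node 10142 [4616] .nil .nil))) (.node 10198 [4616] (.node 10170 [4609] (.node 10163 [4609] .nil .nil) (.node 10191 [4616] .nil .nil)) (.node 10219 [4609] (.node 10205 [4616] .nil .nil) (.node 10226 [4609] .nil .nil))))) (.node 10474 [8321] (.node 10397 [4168] (.node 10355 [8321] (.node 10334 [8328] (.node 10327 [8328] (.node 10316 [8328] .nil .nil) .nil) (.node 10337 [8321] .nil .nil)) (.node 10383 [4168] (.node 10362 [8321] .nil .nil) (.node 10390 [4168] .nil .nil))) (.node 10446 [8328] (.node 10418 [4161] (.node 10411 [4161] .nil .nil) (.node 10425 [4161] .nil .nil)) (.node 10460 [8328]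 (.node 10453 [8328] .nil .nil) (.node 10467 [8321] .nil .nil)))) (.node 10579 [8201] (.node 10534 [4096] (.node 10505 [8201] (.node 10481 [8321] .nil .nil) (.node 10523 [8201] .nil .nil)) (.node 10548 [4096] (.node 10541 [4096] .nil .nil) (.node 10559 [4096] .nil .nil))) (.node 10615 [4096] (.node 10597 [4096] (.node 10586 [8201] .nil .nil) (.node 10604 [4096] .nil .nil)) (.node 10635 [4105] (.node 10622 [4096] .nil .nil) (.node 10642 [4105] .nil .nil)))))) (.node 11063 [4096] (.node 10894 [4168] (.node 10741 [4096] (.node 10698 [8201] (.node 10678 [4096] (.node 10671 [4096] (.node 10660 [4096] .nil .nil) .nil) (.node 10685 [4096] .nil .nil)) (.node 10727 [4096] (.node 10705 [8201] .nil .nil) (.node 10734 [4096] .nil .nil))) (.node 10845 [8328] (.node 10831 [8328] (.node 10748 [4096] .nil .nil) (.node 10838 [8328] .nil .nil)) (.node 10866 [8321] (.node 10859 [8321] .nil .nil) (.node 10873 [8321] .nil .nil)))) (.node 10975 [8328] (.node 10922 [4161] (.node 10908 [4168] (.node 10901 [4168] .nil .nil) (.node 10915 [4161] .nil .nil))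 (.node 10957 [8328] (.node 10929 [4161] .nil .nil) (.node 10964 [8328] .nil .nil))) (.node 11027 [8201] (.node 10985 [8321] (.node 10978 [8321] .nil .nil) (.node 11003 [8321] .nil .nil)) (.node 11045 [4096] (.node 11034 [8201] .nil .nil) (.node 11052 [4096] .nil .nil))))) (.node 11227 [8201] (.node 11133 [4096] (.node 11097 [4105] (.node 11083 [4105] (.node 11070 [4096] .nil .nil) (.node 11090 [4105] .nil .nil)) (.node 11119 [4096] (.node 11108 [4096] .nil .nil) (.node 11126 [4096] .nil .nil))) (.node 11182 [4096] (.node 11153 [8201] (.node 11146 [8201] .nil .nil) (.node 11175 [4096] .nil .nil)) (.node 11196 [4096] (.node 11189 [4096] .nil .nil) (.node 11209 [8201] .nil .nil)))) (.node 11363 [8321] (.node 11263 [4096] (.node 11245 [4096] (.node 11238 [4096] .nil .nil) (.node 11252 [4096] .nil .nil)) (.node 11349 [8328] (.node 11342 [8328] .nil .nil) (.node 11356 [8328] .nil .nil))) (.node 11412 [4168] (.node 11377 [8321] (.node 11370 [8321] .nil .nil) (.node 11405 [4168] .nil .nil)) (.node 11426 [4161] (.node 11423 [4168] .nil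 .nil) (.node 11433 [4161] .nil .nil))))))))) (.node 15098 [8321] (.node 13540 [9280,8768] (.node 12215 [4096] (.node 11860 [8328] (.node 11630 [4096] (.node 11545 [4105] (.node 11507 [8321] (.node 11486 [8328] (.node 11479 [8328] (.node 11468 [8328] .nil .nil) .nil) (.node 11489 [8321] .nil .nil)) (.node 11531 [4105] (.node 11514 [8321] .nil .nil) (.node 11538 [4105] .nil .nil))) (.node 11581 [4096] (.node 11567 [4096] (.node 11556 [4096] .nil .nil) (.node 11574 [4096] .nil .nil)) (.node 11601 [8201] (.node 11594 [8201] .nil .nil) (.node 11623 [4096] .nil .nil)))) (.node 11711 [4096] (.node 11675 [8201] (.node 11644 [4096] (.node 11637 [4096] .nil .nil) (.node 11657 [8201] .nil .nil)) (.node 11693 [4096] (.node 11686 [4096] .nil .nil) (.node 11700 [4096] .nil .nil))) (.node 11756 [4096] (.node 11738 [8201] (.node 11731 [8201] .nil .nil) (.node 11749 [4096] .nil .nil)) (.node 11774 [4096] (.node 11767 [4096] .nil .nil) (.node 11853 [8328] .nil .nil))))) (.node 12042 [8201] (.node 11955 [4161] (.node 11916 [4168] (.node 11881 [8321]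 (.node 11874 [8321] (.node 11871 [8328] .nil .nil) .nil) (.node 11899 [8321] .nil .nil)) (.node 11934 [4168] (.node 11927 [4168] .nil .nil) (.node 11937 [4161] .nil .nil))) (.node 11997 [8328] (.node 11983 [8328] (.node 11962 [4161] .nil .nil) (.node 11990 [8328] .nil .nil)) (.node 12018 [8321] (.node 12011 [8321] .nil .nil) (.node 12025 [8321] .nil .nil)))) (.node 12134 [4096] (.node 12085 [4096] (.node 12071 [4096] (.node 12049 [8201] .nil .nil) (.node 12078 [4096] .nil .nil)) (.node 12105 [8201] (.node 12092 [4096] .nil .nil) (.node 12123 [8201] .nil .nil))) (.node 12179 [8201] (.node 12148 [4096] (.node 12141 [4096] .nil .nil) (.node 12159 [4096] .nil .nil)) (.node 12197 [4096] (.node 12186 [8201] .nil .nil) (.node 12204 [4096] .nil .nil)))))) (.node 13134 [4616] (.node 12966 [9280,8768] (.node 12874 [9361,4689,9865] (.node 12260 [4096] (.node 12242 [4105] (.node 12235 [4105] (.node 12222 [4096] .nil .nil) .nil) (.node 12249 [4105] .nil .nil)) (.node 12278 [4096] (.node 12271 [4096] .nil .nil) (.node 12285 [4096] .nil .nil)))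 (.node 12917 [4672] (.node 12903 [4672] (.node 12881 [4689,9361,9865] .nil .nil) (.node 12910 [4672] .nil .nil)) (.node 12937 [18641,18001,18129,6353,17617,17105,18065,10449,9865] (.node 12924 [4672] .nil .nil) (.node 12955 [18641,18001,18129,6353,17617,17105,18065,10449,9865] .nil .nil)))) (.node 13047 [9280,8768] (.node 13011 [18641,18001,18129,6353,17617,17105,18065,10449,9865] (.node 12980 [9280,8768] (.node 12973 [9280,8768] .nil .nil) (.node 12991 [9280,8768] .nil .nil)) (.node 13029 [9280,8768] (.node 13018 [18641,18001,18129,6353,17617,17105,18065,10449,9865] .nil .nil) (.node 13036 [9280,8768] .nil .nil))) (.node 13085 [4616] (.node 13071 [4616] (.node 13054 [9280,8768] .nil .nil) (.node 13078 [4616] .nil .nil)) (.node 13106 [4609] (.node 13099 [4609] .nil .nil) (.node 13113 [4609] .nil .nil))))) (.node 13306 [4609] (.node 13218 [4609] (.node 13169 [4609] (.node 13155 [4609] (.node 13148 [4616] (.node 13141 [4616] .nil .nil) .nil) (.node 13162 [4609] .nil .nil)) (.node 13204 [4616] (.node 13197 [4616] .nil .nil) (.node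 13215 [4616] .nil .nil))) (.node 13271 [4616] (.node 13243 [4609] (.node 13225 [4609] .nil .nil) (.node 13260 [4616] .nil .nil)) (.node 13281 [4609] (.node 13278 [4616] .nil .nil) (.node 13299 [4609] .nil .nil)))) (.node 13466 [17617,18641,18001,18129,6353,17105,18065,10449,9865] (.node 13421 [4672] (.node 13403 [4689,9361,9865] (.node 13385 [9361,4689,9865] .nil .nil) (.node 13414 [4672] .nil .nil)) (.node 13439 [4672] (.node 13428 [4672] .nil .nil) (.node 13459 [18641,18001,18129,6353,17617,17105,18065,10449,9865] .nil .nil))) (.node 13502 [9280,8768] (.node 13484 [9280,8768] (.node 13477 [9280,8768] .nil .nil) (.node 13495 [9280,8768] .nil .nil)) (.node 13522 [4745,8777,9865] (.node 13515 [4745,8777,9865] .nil .nil) (.node 13529 [4745,8777,9865] .nil .nil))))))) (.node 14293 [4616] (.node 13950 [4672] (.node 13719 [4616] (.node 13617 [4609] (.node 13589 [4616] (.node 13565 [9280,8768] (.node 13558 [9280,8768] (.node 13551 [9280,8768] .nil .nil) .nil) (.node 13582 [4616] .nil .nil)) (.node 13603 [4609] (.node 13596 [4616] .nil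 .nil) (.node 13610 [4609] .nil .nil))) (.node 13666 [4609] (.node 13652 [4616] (.node 13645 [4616] .nil .nil) (.node 13663 [4616] .nil .nil)) (.node 13691 [4609] (.node 13673 [4609] .nil .nil) (.node 13708 [4616] .nil .nil)))) (.node 13803 [4609] (.node 13754 [4609] (.node 13729 [4609] (.node 13726 [4616] .nil .nil) (.node 13747 [4609] .nil .nil)) (.node 13782 [4616] (.node 13775 [4616] .nil .nil) (.node 13789 [4616] .nil .nil))) (.node 13914 [4689,9361,9865] (.node 13817 [4609] (.node 13810 [4609] .nil .nil) (.node 13907 [4689,9361,9865] .nil .nil)) (.node 13932 [4672] (.node 13925 [4672] .nil .nil) (.node 13943 [4672] .nil .nil))))) (.node 14114 [4609] (.node 14033 [18641,18001,18129,6353,17617,17105,18065,10449,9865] (.node 13999 [9280,8768] (.node 13977 [4745,8777,9865] (.node 13970 [4745,8777,9865] (.node 13963 [4745,8777,9865] .nil .nil) .nil) (.node 13988 [9280,8768] .nil .nil)) (.node 14013 [9280,8768] (.node 14006 [9280,8768] .nil .nil) (.node 14026 [18641,18001,18129,6353,17617,17105,18065,10449,9865] .nil .nil))) (.node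 14076 [9280,8768] (.node 14062 [9280,8768] (.node 14055 [9280,8768] .nil .nil) (.node 14069 [9280,8768] .nil .nil)) (.node 14100 [4616] (.node 14093 [4616] .nil .nil) (.node 14111 [4616] .nil .nil)))) (.node 14202 [4609] (.node 14167 [4616] (.node 14139 [4609] (.node 14121 [4609] .nil .nil) (.node 14156 [4616] .nil .nil)) (.node 14177 [4609] (.node 14174 [4616] .nil .nil) (.node 14195 [4609] .nil .nil))) (.node 14251 [4609] (.node 14230 [4616] (.node 14223 [4616] .nil .nil) (.node 14237 [4616] .nil .nil)) (.node 14265 [4609] (.node 14258 [4609] .nil .nil) (.node 14286 [4616] .nil .nil)))))) (.node 14703 [4096] (.node 14541 [8328] (.node 14450 [4161] (.node 14415 [4168] (.node 14314 [4609] (.node 14307 [4609] (.node 14300 [4616] .nil .nil) .nil) (.node 14321 [4609] .nil .nil)) (.node 14429 [4168] (.node 14422 [4168] .nil .nil) (.node 14443 [4161] .nil .nil))) (.node 14492 [8328] (.node 14478 [8328] (.node 14457 [4161] .nil .nil) (.node 14485 [8328] .nil .nil)) (.node 14506 [8321] (.node 14499 [8321] .nil .nil) (.node 14513 [8321]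 .nil .nil)))) (.node 14629 [4096] (.node 14569 [8321] (.node 14559 [8328] (.node 14548 [8328] .nil .nil) (.node 14562 [8321] .nil .nil)) (.node 14611 [8201] (.node 14587 [8321] .nil .nil) (.node 14618 [8201] .nil .nil))) (.node 14667 [4105] (.node 14647 [4096] (.node 14636 [4096] .nil .nil) (.node 14654 [4096] .nil .nil)) (.node 14681 [4105] (.node 14674 [4105] .nil .nil) (.node 14692 [4096] .nil .nil))))) (.node 14933 [4168] (.node 14780 [4096] (.node 14737 [8201] (.node 14717 [4096] (.node 14710 [4096] .nil .nil) (.node 14730 [8201] .nil .nil)) (.node 14766 [4096] (.node 14759 [4096] .nil .nil) (.node 14773 [4096] .nil .nil))) (.node 14829 [4096] (.node 14811 [8201] (.node 14793 [8201] .nil .nil) (.node 14822 [4096] .nil .nil)) (.node 14847 [4096] (.node 14836 [4096] .nil .nil) (.node 14926 [4168] .nil .nil)))) (.node 15010 [8321] (.node 14961 [4161] (.node 14947 [4161] (.node 14940 [4168] .nil .nil) (.node 14954 [4161] .nil .nil)) (.node 14996 [8328] (.node 14989 [8328] .nil .nil) (.node 15007 [8328] .nil .nil))) (.node 15063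 [8328] (.node 15035 [8321] (.node 15017 [8321] .nil .nil) (.node 15052 [8328] .nil .nil)) (.node 15073 [8321] (.node 15070 [8328] .nil .nil) (.node 15091 [8321] .nil .nil)))))))) (.node 17169 [529,1041] (.node 15855 [4096] (.node 15511 [8328] (.node 15277 [4096] (.node 15185 [8201] (.node 15151 [4096] (.node 15129 [4105] (.node 15122 [4105] (.node 15115 [4105] .nil .nil) .nil) (.node 15140 [4096] .nil .nil)) (.node 15165 [4096] (.node 15158 [4096] .nil .nil) (.node 15178 [8201] .nil .nil))) (.node 15228 [4096] (.node 15214 [4096] (.node 15207 [4096] .nil .nil) (.node 15221 [4096] .nil .nil)) (.node 15259 [8201] (.node 15241 [8201] .nil .nil) (.node 15270 [4096] .nil .nil)))) (.node 15358 [4096] (.node 15322 [8201] (.node 15295 [4096] (.node 15284 [4096] .nil .nil) (.node 15315 [8201] .nil .nil)) (.node 15340 [4096] (.node 15333 [4096] .nil .nil) (.node 15351 [4096] .nil .nil))) (.node 15458 [4161] (.node 15444 [4168] (.node 15437 [4168] .nil .nil) (.node 15455 [4168] .nil .nil)) (.node 15483 [4161] (.node 15465 [4161] .nil .nil)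 (.node 15500 [8328] .nil .nil))))) (.node 15689 [8201] (.node 15602 [8321] (.node 15567 [8328] (.node 15539 [8321] (.node 15521 [8321] (.node 15518 [8328] .nil .nil) .nil) (.node 15546 [8321] .nil .nil)) (.node 15581 [8328] (.node 15574 [8328] .nil .nil) (.node 15595 [8321] .nil .nil))) (.node 15655 [4096] (.node 15626 [8201] (.node 15609 [8321] .nil .nil) (.node 15633 [8201] .nil .nil)) (.node 15669 [4096] (.node 15662 [4096] .nil .nil) (.node 15676 [4096] .nil .nil)))) (.node 15781 [4096] (.node 15732 [4096] (.node 15718 [4096] (.node 15707 [8201] .nil .nil) (.node 15725 [4096] .nil .nil)) (.node 15763 [8201] (.node 15743 [4096] .nil .nil) (.node 15770 [8201] .nil .nil))) (.node 15819 [4105] (.node 15799 [4096] (.node 15788 [4096] .nil .nil) (.node 15806 [4096] .nil .nil)) (.node 15833 [4105] (.node 15826 [4105] .nil .nil) (.node 15844 [4096] .nil .nil)))))) (.node 16267 [4105] (.node 16092 [8328] (.node 16015 [8328] (.node 15966 [4168] (.node 15948 [4168] (.node 15869 [4096] (.node 15862 [4096] .nil .nil) .nil) (.node 15959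 [4168] .nil .nil)) (.node 15987 [4161] (.node 15969 [4161] .nil .nil) (.node 15994 [4161] .nil .nil))) (.node 16050 [8321] (.node 16029 [8328] (.node 16022 [8328] .nil .nil) (.node 16043 [8321] .nil .nil)) (.node 16078 [8328] (.node 16057 [8321] .nil .nil) (.node 16085 [8328] .nil .nil)))) (.node 16180 [4096] (.node 16137 [8201] (.node 16106 [8321] (.node 16099 [8321] .nil .nil) (.node 16113 [8321] .nil .nil)) (.node 16166 [4096] (.node 16155 [8201] .nil .nil) (.node 16173 [4096] .nil .nil))) (.node 16229 [4096] (.node 16211 [8201] (.node 16191 [4096] .nil .nil) (.node 16218 [8201] .nil .nil)) (.node 16247 [4096] (.node 16236 [4096] .nil .nil) (.node 16254 [4096] .nil .nil))))) (.node 16994 [577] (.node 16337 [8201] (.node 16303 [4096] (.node 16281 [4105] (.node 16274 [4105] .nil .nil) (.node 16292 [4096] .nil .nil)) (.node 16317 [4096] (.node 16310 [4096] .nil .nil) (.node 16330 [8201] .nil .nil))) (.node 16380 [4096] (.node 16366 [4096] (.node 16359 [4096] .nil .nil) (.node 16373 [4096] .nil .nil)) (.node 16980 [584] (.node 16973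 [584] .nil .nil) (.node 16991 [584] .nil .nil)))) (.node 17082 [577] (.node 17047 [584] (.node 17019 [577] (.node 17001 [577] .nil .nil) (.node 17036 [584] .nil .nil)) (.node 17057 [577] (.node 17054 [584] .nil .nil) (.node 17075 [577] .nil .nil))) (.node 17131 [577] (.node 17110 [584] (.node 17103 [584] .nil .nil) (.node 17117 [584] .nil .nil)) (.node 17145 [577] (.node 17138 [577] .nil .nil) (.node 17162 [1041,529] .nil .nil))))))) (.node 17916 [512] (.node 17579 [577] (.node 17355 [521] (.node 17268 [512] (.node 17225 [529,1041] (.node 17205 [512] (.node 17198 [512] (.node 17191 [512] .nil .nil) .nil) (.node 17212 [512] .nil .nil)) (.node 17254 [512] (.node 17243 [529,1041] .nil .nil) (.node 17261 [512] .nil .nil))) (.node 17317 [512] (.node 17299 [529,1041] (.node 17279 [512] .nil .nil) (.node 17306 [529,1041] .nil .nil)) (.node 17335 [512] (.node 17324 [512] .nil .nil) (.node 17342 [512] .nil .nil)))) (.node 17495 [584] (.node 17391 [512] (.node 17369 [521] (.node 17362 [521] .nil .nil) (.node 17380 [512] .nil .nil)) (.node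 17405 [512] (.node 17398 [512] .nil .nil) (.node 17484 [584] .nil .nil))) (.node 17530 [577] (.node 17505 [577] (.node 17502 [584] .nil .nil) (.node 17523 [577] .nil .nil)) (.node 17558 [584] (.node 17551 [584] .nil .nil) (.node 17565 [584] .nil .nil))))) (.node 17765 [512] (.node 17673 [1041,529] (.node 17628 [584] (.node 17614 [584] (.node 17593 [577] (.node 17586 [577] .nil .nil) .nil) (.node 17621 [584] .nil .nil)) (.node 17642 [577] (.node 17635 [577] .nil .nil) (.node 17649 [577] .nil .nil))) (.node 17716 [512] (.node 17702 [512] (.node 17691 [529,1041] .nil .nil) (.node 17709 [512] .nil .nil)) (.node 17747 [529,1041] (.node 17727 [512] .nil .nil) (.node 17754 [1041,529] .nil .nil)))) (.node 17839 [512] (.node 17803 [521] (.node 17783 [512] (.node 17772 [512] .nil .nil) (.node 17790 [512] .nil .nil)) (.node 17817 [521] (.node 17810 [521] .nil .nil) (.node 17828 [512] .nil .nil))) (.node 17873 [529,1041] (.node 17853 [512] (.node 17846 [512] .nil .nil) (.node 17866 [1041,529] .nil .nil)) (.node 17902 [512] (.node 17895 [512]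 .nil .nil) (.node 17909 [512] .nil .nil)))))) (.node 18321 [529,1041] (.node 18153 [577] (.node 18076 [584] (.node 18034 [577] (.node 18013 [584] (.node 18006 [584] (.node 17999 [584] .nil .nil) .nil) (.node 18027 [577] .nil .nil)) (.node 18062 [584] (.node 18041 [577] .nil .nil) (.node 18069 [584] .nil .nil))) (.node 18125 [584] (.node 18090 [577] (.node 18083 [577] .nil .nil) (.node 18097 [577] .nil .nil)) (.node 18143 [584] (.node 18132 [584] .nil .nil) (.node 18146 [577] .nil .nil)))) (.node 18251 [521] (.node 18213 [512] (.node 18195 [529,1041] (.node 18171 [577] .nil .nil) (.node 18202 [529,1041] .nil .nil)) (.node 18231 [512] (.node 18220 [512] .nil .nil) (.node 18238 [512] .nil .nil))) (.node 18287 [512] (.node 18265 [521] (.node 18258 [521] .nil .nil) (.node 18276 [512] .nil .nil)) (.node 18301 [512] (.node 18294 [512] .nil .nil) (.node 18314 [529,1041] .nil .nil))))) (.node 18556 [64] (.node 18413 [512] (.node 18364 [512] (.node 18350 [512] (.node 18343 [512] .nil .nil) (.node 18357 [512] .nil .nil)) (.node 18395 [529,1041]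 (.node 18377 [1041,529] .nil .nil) (.node 18406 [512] .nil .nil))) (.node 18513 [137] (.node 18431 [512] (.node 18420 [512] .nil .nil) (.node 18506 [137] .nil .nil)) (.node 18542 [64] (.node 18535 [64] .nil .nil) (.node 18549 [64] .nil .nil)))) (.node 18650 [137] (.node 18605 [64] (.node 18587 [137] (.node 18569 [137] .nil .nil) (.node 18598 [64] .nil .nil)) (.node 18623 [64] (.node 18612 [64] .nil .nil) (.node 18643 [137] .nil .nil))) (.node 18686 [64] (.node 18668 [64] (.node 18661 [64] .nil .nil) (.node 18679 [64] .nil .nil)) (.node 18710 [8] (.node 18703 [8] .nil .nil) (.node 18717 [8] .nil .nil)))))))))) (.node 26011 [529,1041] (.node 22375 [512] (.node 20303 [8] (.node 19557 [64] (.node 19147 [73] (.node 18910 [8] (.node 18829 [8] (.node 18780 [8] (.node 18766 [8] (.node 18745 [1] (.node 18738 [1] .nil .nil) .nil) (.node 18773 [8] .nil .nil)) (.node 18794 [1] (.node 18787 [1] .nil .nil) (.node 18801 [1] .nil .nil))) (.node 18857 [1] (.node 18847 [8] (.node 18836 [8] .nil .nil) (.node 18850 [1] .nil .nil)) (.node 18892 [8]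 (.node 18875 [1] .nil .nil) (.node 18903 [8] .nil .nil)))) (.node 19060 [64] (.node 19017 [137] (.node 18931 [1] (.node 18913 [1] .nil .nil) (.node 18938 [1] .nil .nil)) (.node 19046 [64] (.node 19035 [137] .nil .nil) (.node 19053 [64] .nil .nil))) (.node 19109 [64] (.node 19091 [137] (.node 19071 [64] .nil .nil) (.node 19098 [137] .nil .nil)) (.node 19127 [64] (.node 19116 [64] .nil .nil) (.node 19134 [64] .nil .nil))))) (.node 19305 [1] (.node 19228 [8] (.node 19190 [64] (.node 19172 [64] (.node 19161 [73] (.node 19154 [73] .nil .nil) .nil) (.node 19183 [64] .nil .nil)) (.node 19214 [8] (.node 19197 [64] .nil .nil) (.node 19221 [8] .nil .nil))) (.node 19277 [8] (.node 19242 [1] (.node 19235 [1] .nil .nil) (.node 19249 [1] .nil .nil)) (.node 19295 [8] (.node 19284 [8] .nil .nil) (.node 19298 [1] .nil .nil)))) (.node 19407 [8] (.node 19358 [8] (.node 19340 [8] (.node 19323 [1] .nil .nil) (.node 19351 [8] .nil .nil)) (.node 19379 [1] (.node 19361 [1] .nil .nil) (.node 19386 [1] .nil .nil))) (.node 19442 [1] (.node 19421 [8] (.node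 19414 [8] .nil .nil) (.node 19435 [1] .nil .nil)) (.node 19539 [137] (.node 19449 [1] .nil .nil) (.node 19546 [137] .nil .nil)))))) (.node 19890 [1] (.node 19725 [8] (.node 19638 [64] (.node 19602 [73] (.node 19582 [64] (.node 19575 [64] (.node 19564 [64] .nil .nil) .nil) (.node 19595 [73] .nil .nil)) (.node 19620 [64] (.node 19609 [73] .nil .nil) (.node 19631 [64] .nil .nil))) (.node 19687 [64] (.node 19658 [137] (.node 19645 [64] .nil .nil) (.node 19665 [137] .nil .nil)) (.node 19701 [64] (.node 19694 [64] .nil .nil) (.node 19708 [64] .nil .nil)))) (.node 19806 [8] (.node 19753 [1] (.node 19743 [8] (.node 19732 [8] .nil .nil) (.node 19746 [1] .nil .nil)) (.node 19788 [8] (.node 19771 [1] .nil .nil) (.node 19799 [8] .nil .nil))) (.node 19855 [8] (.node 19827 [1] (.node 19809 [1] .nil .nil) (.node 19834 [1] .nil .nil)) (.node 19869 [8] (.node 19862 [8] .nil .nil) (.node 19883 [1] .nil .nil))))) (.node 20135 [64] (.node 20050 [73] (.node 19939 [1] (.node 19925 [8] (.node 19918 [8] (.node 19897 [1] .nil .nil) .nil) (.node 19932 [8]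 .nil .nil)) (.node 19953 [1] (.node 19946 [1] .nil .nil) (.node 20043 [73] .nil .nil))) (.node 20086 [64] (.node 20068 [64] (.node 20057 [73] .nil .nil) (.node 20079 [64] .nil .nil)) (.node 20106 [137] (.node 20093 [64] .nil .nil) (.node 20113 [137] .nil .nil)))) (.node 20212 [64] (.node 20169 [137] (.node 20149 [64] (.node 20142 [64] .nil .nil) (.node 20156 [64] .nil .nil)) (.node 20198 [64] (.node 20187 [137] .nil .nil) (.node 20205 [64] .nil .nil))) (.node 20254 [8] (.node 20236 [8] (.node 20223 [64] .nil .nil) (.node 20247 [8] .nil .nil)) (.node 20275 [1] (.node 20257 [1] .nil .nil) (.node 20282 [1] .nil .nil))))))) (.node 21625 [577] (.node 21219 [577] (.node 20475 [1] (.node 20387 [1] (.node 20345 [1] (.node 20331 [1] (.node 20317 [8] (.node 20310 [8] .nil .nil) .nil) (.node 20338 [1] .nil .nil)) (.node 20373 [8] (.node 20366 [8] .nil .nil) (.node 20380 [8] .nil .nil))) (.node 20436 [8] (.node 20401 [1] (.node 20394 [1] .nil .nil) (.node 20429 [8] .nil .nil)) (.node 20450 [1] (.node 20447 [8] .nil .nil) (.node 20457 [1] .nil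 .nil)))) (.node 21142 [584] (.node 21089 [577] (.node 21079 [584] (.node 21068 [584] .nil .nil) (.node 21086 [584] .nil .nil)) (.node 21114 [577] (.node 21107 [577] .nil .nil) (.node 21135 [584] .nil .nil))) (.node 21177 [577] (.node 21163 [577] (.node 21149 [584] .nil .nil) (.node 21170 [577] .nil .nil)) (.node 21205 [584] (.node 21198 [584] .nil .nil) (.node 21212 [584] .nil .nil))))) (.node 21401 [521] (.node 21331 [529,1041] (.node 21286 [512] (.node 21257 [529,1041] (.node 21233 [577] (.node 21226 [577] .nil .nil) .nil) (.node 21275 [529,1041] .nil .nil)) (.node 21300 [512] (.node 21293 [512] .nil .nil) (.node 21311 [512] .nil .nil))) (.node 21367 [512] (.node 21349 [512] (.node 21338 [529,1041] .nil .nil) (.node 21356 [512] .nil .nil)) (.node 21387 [521] (.node 21374 [512] .nil .nil) (.node 21394 [521] .nil .nil)))) (.node 21486 [512] (.node 21437 [512] (.node 21423 [512] (.node 21412 [512] .nil .nil) (.node 21430 [512] .nil .nil)) (.node 21457 [529,1041] (.node 21450 [1041,529] .nil .nil) (.node 21479 [512] .nil .nil)))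 (.node 21590 [584] (.node 21500 [512] (.node 21493 [512] .nil .nil) (.node 21583 [584] .nil .nil)) (.node 21611 [577] (.node 21597 [584] .nil .nil) (.node 21618 [577] .nil .nil)))))) (.node 21979 [529,1041] (.node 21815 [512] (.node 21727 [584] (.node 21674 [577] (.node 21660 [584] (.node 21653 [584] (.node 21646 [584] .nil .nil) .nil) (.node 21667 [577] .nil .nil)) (.node 21709 [584] (.node 21681 [577] .nil .nil) (.node 21716 [584] .nil .nil))) (.node 21779 [529,1041] (.node 21737 [577] (.node 21730 [577] .nil .nil) (.node 21755 [577] .nil .nil)) (.node 21797 [512] (.node 21786 [1041,529] .nil .nil) (.node 21804 [512] .nil .nil)))) (.node 21885 [512] (.node 21849 [521] (.node 21835 [521] (.node 21822 [512] .nil .nil) (.node 21842 [521] .nil .nil)) (.node 21871 [512] (.node 21860 [512] .nil .nil) (.node 21878 [512] .nil .nil))) (.node 21934 [512] (.node 21905 [529,1041] (.node 21898 [1041,529] .nil .nil) (.node 21927 [512] .nil .nil)) (.node 21948 [512] (.node 21941 [512] .nil .nil) (.node 21961 [1041,529] .nil .nil))))) (.node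 22203 [577] (.node 22115 [577] (.node 22015 [512] (.node 21997 [512] (.node 21990 [512] .nil .nil) (.node 22004 [512] .nil .nil)) (.node 22101 [584] (.node 22094 [584] .nil .nil) (.node 22108 [584] .nil .nil))) (.node 22164 [584] (.node 22129 [577] (.node 22122 [577] .nil .nil) (.node 22157 [584] .nil .nil)) (.node 22178 [577] (.node 22175 [584] .nil .nil) (.node 22185 [577] .nil .nil)))) (.node 22290 [521] (.node 22241 [577] (.node 22231 [584] (.node 22220 [584] .nil .nil) (.node 22238 [584] .nil .nil)) (.node 22266 [577] (.node 22259 [577] .nil .nil) (.node 22283 [521] .nil .nil))) (.node 22326 [512] (.node 22308 [512] (.node 22297 [521] .nil .nil) (.node 22319 [512] .nil .nil)) (.node 22346 [529,1041] (.node 22333 [512] .nil .nil) (.node 22353 [529,1041] .nil .nil)))))))) (.node 23922 [1] (.node 23186 [73] (.node 22774 [64] (.node 22619 [137] (.node 22463 [512] (.node 22427 [529,1041] (.node 22396 [512] (.node 22389 [512] (.node 22382 [512] .nil .nil) .nil) (.node 22409 [1041,529] .nil .nil)) (.node 22445 [512] (.node 22438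 [512] .nil .nil) (.node 22452 [512] .nil .nil))) (.node 22508 [512] (.node 22490 [529,1041] (.node 22483 [529,1041] .nil .nil) (.node 22501 [512] .nil .nil)) (.node 22526 [512] (.node 22519 [512] .nil .nil) (.node 22601 [137] .nil .nil)))) (.node 22700 [64] (.node 22655 [64] (.node 22637 [64] (.node 22630 [64] .nil .nil) (.node 22644 [64] .nil .nil)) (.node 22682 [137] (.node 22675 [137] .nil .nil) (.node 22693 [64] .nil .nil))) (.node 22738 [73] (.node 22718 [64] (.node 22711 [64] .nil .nil) (.node 22731 [73] .nil .nil)) (.node 22756 [64] (.node 22745 [73] .nil .nil) (.node 22767 [64] .nil .nil))))) (.node 22945 [1] (.node 22868 [8] (.node 22819 [1] (.node 22805 [8] (.node 22798 [8] (.node 22781 [64] .nil .nil) .nil) (.node 22812 [8] .nil .nil)) (.node 22833 [1] (.node 22826 [1] .nil .nil) (.node 22861 [8] .nil .nil))) (.node 22907 [1] (.node 22882 [1] (.node 22879 [8] .nil .nil) (.node 22889 [1] .nil .nil)) (.node 22935 [8] (.node 22924 [8] .nil .nil) (.node 22942 [8] .nil .nil)))) (.node 23033 [1] (.node 22998 [8] (.node 22970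 [1] (.node 22963 [1] .nil .nil) (.node 22991 [8] .nil .nil)) (.node 23019 [1] (.node 23005 [8] .nil .nil) (.node 23026 [1] .nil .nil))) (.node 23148 [64] (.node 23130 [137] (.node 23123 [137] .nil .nil) (.node 23141 [64] .nil .nil)) (.node 23166 [64] (.node 23159 [64] .nil .nil) (.node 23179 [73] .nil .nil)))))) (.node 23523 [1] (.node 23355 [1] (.node 23278 [64] (.node 23229 [64] (.node 23215 [64] (.node 23204 [64] (.node 23193 [73] .nil .nil) .nil) (.node 23222 [64] .nil .nil)) (.node 23249 [137] (.node 23242 [137] .nil .nil) (.node 23271 [64] .nil .nil))) (.node 23316 [8] (.node 23292 [64] (.node 23285 [64] .nil .nil) (.node 23309 [8] .nil .nil)) (.node 23330 [1] (.node 23327 [8] .nil .nil) (.node 23337 [1] .nil .nil)))) (.node 23446 [8] (.node 23393 [1] (.node 23383 [8] (.node 23372 [8] .nil .nil) (.node 23390 [8] .nil .nil)) (.node 23418 [1] (.node 23411 [1] .nil .nil) (.node 23439 [8] .nil .nil))) (.node 23481 [1] (.node 23467 [1] (.node 23453 [8] .nil .nil) (.node 23474 [1] .nil .nil)) (.node 23509 [8] (.node 23502 [8] .nil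 .nil) (.node 23516 [8] .nil .nil))))) (.node 23753 [137] (.node 23670 [64] (.node 23634 [73] (.node 23537 [1] (.node 23530 [1] .nil .nil) (.node 23627 [73] .nil .nil)) (.node 23652 [64] (.node 23641 [73] .nil .nil) (.node 23663 [64] .nil .nil))) (.node 23719 [64] (.node 23690 [137] (.node 23677 [64] .nil .nil) (.node 23697 [137] .nil .nil)) (.node 23733 [64] (.node 23726 [64] .nil .nil) (.node 23740 [64] .nil .nil)))) (.node 23838 [8] (.node 23796 [64] (.node 23782 [64] (.node 23771 [137] .nil .nil) (.node 23789 [64] .nil .nil)) (.node 23820 [8] (.node 23807 [64] .nil .nil) (.node 23831 [8] .nil .nil))) (.node 23887 [8] (.node 23859 [1] (.node 23841 [1] .nil .nil) (.node 23866 [1] .nil .nil)) (.node 23901 [8] (.node 23894 [8] .nil .nil) (.node 23915 [1] .nil .nil))))))) (.node 25258 [577] (.node 24342 [8] (.node 24174 [64] (.node 24020 [8] (.node 23971 [1] (.node 23957 [8] (.node 23950 [8] (.node 23929 [1] .nil .nil) .nil) (.node 23964 [8] .nil .nil)) (.node 23985 [1] (.node 23978 [1] .nil .nil) (.node 24013 [8] .nil .nil))) (.node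 24059 [1] (.node 24034 [1] (.node 24031 [8] .nil .nil) (.node 24041 [1] .nil .nil)) (.node 24145 [137] (.node 24138 [137] .nil .nil) (.node 24167 [64] .nil .nil)))) (.node 24255 [64] (.node 24219 [137] (.node 24188 [64] (.node 24181 [64] .nil .nil) (.node 24201 [137] .nil .nil)) (.node 24237 [64] (.node 24230 [64] .nil .nil) (.node 24244 [64] .nil .nil))) (.node 24300 [64] (.node 24282 [137] (.node 24275 [137] .nil .nil) (.node 24293 [64] .nil .nil)) (.node 24318 [64] (.node 24311 [64] .nil .nil) (.node 24335 [8] .nil .nil))))) (.node 24524 [8] (.node 24426 [1] (.node 24398 [8] (.node 24370 [1] (.node 24363 [1] (.node 24349 [8] .nil .nil) .nil) (.node 24377 [1] .nil .nil)) (.node 24412 [8] (.node 24405 [8] .nil .nil) (.node 24419 [1] .nil .nil))) (.node 24479 [8] (.node 24461 [8] (.node 24433 [1] .nil .nil) (.node 24468 [8] .nil .nil)) (.node 24489 [1] (.node 24482 [1] .nil .nil) (.node 24507 [1] .nil .nil)))) (.node 25181 [584] (.node 24563 [1] (.node 24542 [8] (.node 24535 [8] .nil .nil) (.node 24545 [1] .nil .nil)) (.node 25167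 [584] (.node 24570 [1] .nil .nil) (.node 25174 [584] .nil .nil))) (.node 25230 [584] (.node 25202 [577] (.node 25195 [577] .nil .nil) (.node 25209 [577] .nil .nil)) (.node 25244 [584] (.node 25237 [584] .nil .nil) (.node 25251 [577] .nil .nil)))))) (.node 25678 [584] (.node 25444 [512] (.node 25370 [529,1041] (.node 25314 [577] (.node 25300 [584] (.node 25293 [584] (.node 25265 [577] .nil .nil) .nil) (.node 25311 [584] .nil .nil)) (.node 25339 [577] (.node 25321 [577] .nil .nil) (.node 25363 [529,1041] .nil .nil))) (.node 25406 [512] (.node 25388 [512] (.node 25381 [512] .nil .nil) (.node 25399 [512] .nil .nil)) (.node 25426 [521] (.node 25419 [521] .nil .nil) (.node 25433 [521] .nil .nil)))) (.node 25525 [512] (.node 25482 [1041,529] (.node 25462 [512] (.node 25455 [512] .nil .nil) (.node 25469 [512] .nil .nil)) (.node 25511 [512] (.node 25489 [529,1041] .nil .nil) (.node 25518 [512] .nil .nil))) (.node 25574 [512] (.node 25545 [529,1041] (.node 25532 [512] .nil .nil) (.node 25563 [529,1041] .nil .nil)) (.node 25588 [512] (.node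 25581 [512] .nil .nil) (.node 25599 [512] .nil .nil))))) (.node 25843 [577] (.node 25759 [584] (.node 25706 [577] (.node 25692 [584] (.node 25685 [584] .nil .nil) (.node 25699 [577] .nil .nil)) (.node 25741 [584] (.node 25713 [577] .nil .nil) (.node 25748 [584] .nil .nil))) (.node 25804 [584] (.node 25769 [577] (.node 25762 [577] .nil .nil) (.node 25787 [577] .nil .nil)) (.node 25822 [584] (.node 25815 [584] .nil .nil) (.node 25825 [577] .nil .nil)))) (.node 25917 [512] (.node 25881 [521] (.node 25867 [521] (.node 25850 [577] .nil .nil) (.node 25874 [521] .nil .nil)) (.node 25903 [512] (.node 25892 [512] .nil .nil) (.node 25910 [512] .nil .nil))) (.node 25966 [512] (.node 25937 [529,1041] (.node 25930 [1041,529] .nil .nil) (.node 25959 [512] .nil .nil)) (.node 25980 [512] (.node 25973 [512] .nil .nil) (.node 25993 [1041,529] .nil .nil))))))))) (.node 29658 [529,1041] (.node 27562 [1] (.node 26813 [64] (.node 26421 [512] (.node 26252 [584] (.node 26103 [512] (.node 26067 [529,1041] (.node 26036 [512] (.node 26029 [512] (.node 26022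 [512] .nil .nil) .nil) (.node 26047 [512] .nil .nil)) (.node 26085 [512] (.node 26074 [1041,529] .nil .nil) (.node 26092 [512] .nil .nil))) (.node 26207 [584] (.node 26189 [584] (.node 26110 [512] .nil .nil) (.node 26196 [584] .nil .nil)) (.node 26217 [577] (.node 26210 [577] .nil .nil) (.node 26235 [577] .nil .nil)))) (.node 26333 [584] (.node 26291 [577] (.node 26270 [584] (.node 26263 [584] .nil .nil) (.node 26273 [577] .nil .nil)) (.node 26319 [584] (.node 26298 [577] .nil .nil) (.node 26326 [584] .nil .nil))) (.node 26378 [529,1041] (.node 26354 [577] (.node 26347 [577] .nil .nil) (.node 26361 [577] .nil .nil)) (.node 26407 [512] (.node 26385 [529,1041] .nil .nil) (.node 26414 [512] .nil .nil))))) (.node 26596 [512] (.node 26522 [529,1041] (.node 26477 [512] (.node 26459 [529,1041] (.node 26441 [1041,529] (.node 26428 [512] .nil .nil) .nil) (.node 26470 [512] .nil .nil)) (.node 26495 [512] (.node 26484 [512] .nil .nil) (.node 26515 [529,1041] .nil .nil))) (.node 26558 [512] (.node 26540 [512] (.node 26533 [512] .nil .nil)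 (.node 26551 [512] .nil .nil)) (.node 26578 [521] (.node 26571 [521] .nil .nil) (.node 26585 [521] .nil .nil)))) (.node 26743 [64] (.node 26707 [137] (.node 26614 [512] (.node 26607 [512] .nil .nil) (.node 26621 [512] .nil .nil)) (.node 26725 [64] (.node 26714 [137] .nil .nil) (.node 26732 [64] .nil .nil))) (.node 26777 [73] (.node 26763 [73] (.node 26750 [64] .nil .nil) (.node 26770 [73] .nil .nil)) (.node 26799 [64] (.node 26788 [64] .nil .nil) (.node 26806 [64] .nil .nil)))))) (.node 27225 [73] (.node 26995 [1] (.node 26911 [8] (.node 26869 [64] (.node 26855 [64] (.node 26833 [137] (.node 26826 [137] .nil .nil) .nil) (.node 26862 [64] .nil .nil)) (.node 26893 [8] (.node 26876 [64] .nil .nil) (.node 26900 [8] .nil .nil))) (.node 26956 [8] (.node 26921 [1] (.node 26914 [1] .nil .nil) (.node 26939 [1] .nil .nil)) (.node 26974 [8] (.node 26967 [8] .nil .nil) (.node 26977 [1] .nil .nil)))) (.node 27086 [8] (.node 27037 [8] (.node 27023 [8] (.node 27002 [1] .nil .nil) (.node 27030 [8] .nil .nil)) (.node 27058 [1] (.node 27051 [1]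 .nil .nil) (.node 27065 [1] .nil .nil))) (.node 27114 [1] (.node 27100 [8] (.node 27093 [8] .nil .nil) (.node 27107 [1] .nil .nil)) (.node 27211 [73] (.node 27121 [1] .nil .nil) (.node 27218 [73] .nil .nil))))) (.node 27404 [8] (.node 27317 [64] (.node 27274 [137] (.node 27254 [64] (.node 27247 [64] (.node 27236 [64] .nil .nil) .nil) (.node 27261 [64] .nil .nil)) (.node 27303 [64] (.node 27281 [137] .nil .nil) (.node 27310 [64] .nil .nil))) (.node 27366 [64] (.node 27337 [137] (.node 27324 [64] .nil .nil) (.node 27355 [137] .nil .nil)) (.node 27380 [64] (.node 27373 [64] .nil .nil) (.node 27391 [64] .nil .nil)))) (.node 27485 [8] (.node 27443 [1] (.node 27422 [8] (.node 27415 [8] .nil .nil) (.node 27425 [1] .nil .nil)) (.node 27471 [8] (.node 27450 [1] .nil .nil) (.node 27478 [8] .nil .nil))) (.node 27534 [8] (.node 27506 [1] (.node 27499 [1] .nil .nil) (.node 27513 [1] .nil .nil)) (.node 27548 [8] (.node 27541 [8] .nil .nil) (.node 27555 [1] .nil .nil))))))) (.node 28399 [64] (.node 27989 [8] (.node 27821 [64] (.node 27729 [137]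 (.node 27618 [1] (.node 27604 [8] (.node 27597 [8] (.node 27569 [1] .nil .nil) .nil) (.node 27615 [8] .nil .nil)) (.node 27643 [1] (.node 27625 [1] .nil .nil) (.node 27722 [137] .nil .nil))) (.node 27772 [64] (.node 27758 [64] (.node 27751 [64] .nil .nil) (.node 27765 [64] .nil .nil)) (.node 27803 [137] (.node 27785 [137] .nil .nil) (.node 27814 [64] .nil .nil)))) (.node 27902 [64] (.node 27866 [137] (.node 27839 [64] (.node 27828 [64] .nil .nil) (.node 27859 [137] .nil .nil)) (.node 27884 [64] (.node 27877 [64] .nil .nil) (.node 27895 [64] .nil .nil))) (.node 27947 [1] (.node 27926 [8] (.node 27919 [8] .nil .nil) (.node 27933 [8] .nil .nil)) (.node 27961 [1] (.node 27954 [1] .nil .nil) (.node 27982 [8] .nil .nil))))) (.node 28233 [137] (.node 28073 [1] (.node 28045 [8] (.node 28010 [1] (.node 28003 [1] (.node 27996 [8] .nil .nil) .nil) (.node 28017 [1] .nil .nil)) (.node 28063 [8] (.node 28052 [8] .nil .nil) (.node 28066 [1] .nil .nil))) (.node 28126 [8] (.node 28108 [8] (.node 28091 [1] .nil .nil) (.node 28119 [8] .nil .nil))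 (.node 28147 [1] (.node 28129 [1] .nil .nil) (.node 28154 [1] .nil .nil)))) (.node 28325 [64] (.node 28276 [64] (.node 28262 [64] (.node 28251 [137] .nil .nil) (.node 28269 [64] .nil .nil)) (.node 28307 [137] (.node 28287 [64] .nil .nil) (.node 28314 [137] .nil .nil))) (.node 28363 [73] (.node 28343 [64] (.node 28332 [64] .nil .nil) (.node 28350 [64] .nil .nil)) (.node 28377 [73] (.node 28370 [73] .nil .nil) (.node 28388 [64] .nil .nil)))))) (.node 29325 [584] (.node 28574 [8] (.node 28493 [8] (.node 28444 [8] (.node 28430 [8] (.node 28413 [64] (.node 28406 [64] .nil .nil) .nil) (.node 28437 [8] .nil .nil)) (.node 28458 [1] (.node 28451 [1] .nil .nil) (.node 28465 [1] .nil .nil))) (.node 28521 [1] (.node 28511 [8] (.node 28500 [8] .nil .nil) (.node 28514 [1] .nil .nil)) (.node 28556 [8] (.node 28539 [1] .nil .nil) (.node 28567 [8] .nil .nil)))) (.node 28658 [1] (.node 28623 [8] (.node 28595 [1] (.node 28577 [1] .nil .nil) (.node 28602 [1] .nil .nil)) (.node 28637 [8] (.node 28630 [8] .nil .nil) (.node 28651 [1] .nil .nil))) (.node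 29276 [584] (.node 29262 [584] (.node 28665 [1] .nil .nil) (.node 29269 [584] .nil .nil)) (.node 29290 [577] (.node 29283 [577] .nil .nil) (.node 29297 [577] .nil .nil))))) (.node 29487 [512] (.node 29406 [584] (.node 29353 [577] (.node 29343 [584] (.node 29332 [584] .nil .nil) (.node 29346 [577] .nil .nil)) (.node 29388 [584] (.node 29371 [577] .nil .nil) (.node 29399 [584] .nil .nil))) (.node 29451 [521] (.node 29427 [577] (.node 29409 [577] .nil .nil) (.node 29434 [577] .nil .nil)) (.node 29465 [521] (.node 29458 [521] .nil .nil) (.node 29476 [512] .nil .nil)))) (.node 29564 [512] (.node 29521 [529,1041] (.node 29501 [512] (.node 29494 [512] .nil .nil) (.node 29514 [1041,529] .nil .nil)) (.node 29550 [512] (.node 29543 [512] .nil .nil) (.node 29557 [512] .nil .nil))) (.node 29613 [512] (.node 29595 [529,1041] (.node 29577 [529,1041] .nil .nil) (.node 29606 [512] .nil .nil)) (.node 29631 [512] (.node 29620 [512] .nil .nil) (.node 29651 [529,1041] .nil .nil)))))))) (.node 31202 [1] (.node 30473 [1041,529] (.node 30068 [512] (.node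 29903 [584] (.node 29801 [577] (.node 29773 [584] (.node 29687 [512] (.node 29676 [512] (.node 29669 [512] .nil .nil) .nil) (.node 29694 [512] .nil .nil)) (.node 29791 [584] (.node 29780 [584] .nil .nil) (.node 29794 [577] .nil .nil))) (.node 29854 [584] (.node 29836 [584] (.node 29819 [577] .nil .nil) (.node 29847 [584] .nil .nil)) (.node 29875 [577] (.node 29857 [577] .nil .nil) (.node 29882 [577] .nil .nil)))) (.node 29991 [512] (.node 29938 [577] (.node 29917 [584] (.node 29910 [584] .nil .nil) (.node 29931 [577] .nil .nil)) (.node 29962 [1041,529] (.node 29945 [577] .nil .nil) (.node 29969 [529,1041] .nil .nil))) (.node 30025 [1041,529] (.node 30005 [512] (.node 29998 [512] .nil .nil) (.node 30012 [512] .nil .nil)) (.node 30054 [512] (.node 30043 [529,1041] .nil .nil) (.node 30061 [512] .nil .nil))))) (.node 30302 [584] (.node 30162 [521] (.node 30124 [512] (.node 30106 [1041,529] (.node 30099 [529,1041] (.node 30079 [512] .nil .nil) .nil) (.node 30117 [512] .nil .nil)) (.node 30142 [512] (.node 30135 [512] .nil .nil) (.node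 30155 [521] .nil .nil))) (.node 30198 [512] (.node 30180 [512] (.node 30169 [521] .nil .nil) (.node 30191 [512] .nil .nil)) (.node 30284 [584] (.node 30205 [512] .nil .nil) (.node 30295 [584] .nil .nil)))) (.node 30386 [577] (.node 30351 [584] (.node 30323 [577] (.node 30305 [577] .nil .nil) (.node 30330 [577] .nil .nil)) (.node 30365 [584] (.node 30358 [584] .nil .nil) (.node 30379 [577] .nil .nil))) (.node 30428 [584] (.node 30414 [584] (.node 30393 [577] .nil .nil) (.node 30421 [584] .nil .nil)) (.node 30442 [577] (.node 30435 [577] .nil .nil) (.node 30449 [577] .nil .nil)))))) (.node 30865 [137] (.node 30646 [512] (.node 30572 [512] (.node 30527 [512] (.node 30509 [512] (.node 30502 [512] (.node 30491 [529,1041] .nil .nil) .nil) (.node 30516 [512] .nil .nil)) (.node 30554 [529,1041] (.node 30547 [529,1041] .nil .nil) (.node 30565 [512] .nil .nil))) (.node 30610 [521] (.node 30590 [512] (.node 30583 [512] .nil .nil) (.node 30603 [521] .nil .nil)) (.node 30628 [512] (.node 30617 [521] .nil .nil) (.node 30639 [512] .nil .nil))))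 (.node 30795 [73] (.node 30695 [512] (.node 30666 [529,1041] (.node 30653 [512] .nil .nil) (.node 30673 [529,1041] .nil .nil)) (.node 30709 [512] (.node 30702 [512] .nil .nil) (.node 30716 [512] .nil .nil))) (.node 30831 [64] (.node 30809 [73] (.node 30802 [73] .nil .nil) (.node 30820 [64] .nil .nil)) (.node 30845 [64] (.node 30838 [64] .nil .nil) (.node 30858 [137] .nil .nil))))) (.node 31034 [1] (.node 30957 [64] (.node 30908 [64] (.node 30894 [64] (.node 30887 [64] .nil .nil) (.node 30901 [64] .nil .nil)) (.node 30939 [137] (.node 30921 [137] .nil .nil) (.node 30950 [64] .nil .nil))) (.node 30999 [8] (.node 30975 [64] (.node 30964 [64] .nil .nil) (.node 30988 [8] .nil .nil)) (.node 31009 [1] (.node 31006 [8] .nil .nil) (.node 31027 [1] .nil .nil)))) (.node 31125 [8] (.node 31083 [1] (.node 31062 [8] (.node 31055 [8] .nil .nil) (.node 31069 [8] .nil .nil)) (.node 31097 [1] (.node 31090 [1] .nil .nil) (.node 31118 [8] .nil .nil))) (.node 31153 [1] (.node 31139 [1] (.node 31132 [8] .nil .nil) (.node 31146 [1] .nil .nil)) (.node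 31188 [8] (.node 31181 [8] .nil .nil) (.node 31199 [8] .nil .nil))))))) (.node 32028 [8] (.node 31629 [8] (.node 31461 [64] (.node 31369 [137] (.node 31335 [64] (.node 31306 [137] (.node 31227 [1] (.node 31209 [1] .nil .nil) .nil) (.node 31313 [137] .nil .nil)) (.node 31349 [64] (.node 31342 [64] .nil .nil) (.node 31356 [64] .nil .nil))) (.node 31412 [64] (.node 31398 [64] (.node 31387 [137] .nil .nil) (.node 31405 [64] .nil .nil)) (.node 31443 [137] (.node 31423 [64] .nil .nil) (.node 31450 [137] .nil .nil)))) (.node 31538 [1] (.node 31503 [8] (.node 31479 [64] (.node 31468 [64] .nil .nil) (.node 31486 [64] .nil .nil)) (.node 31517 [8] (.node 31510 [8] .nil .nil) (.node 31531 [1] .nil .nil))) (.node 31580 [8] (.node 31566 [8] (.node 31545 [1] .nil .nil) (.node 31573 [8] .nil .nil)) (.node 31594 [1] (.node 31587 [1] .nil .nil) (.node 31601 [1] .nil .nil))))) (.node 31871 [64] (.node 31713 [1] (.node 31675 [1] (.node 31650 [1] (.node 31647 [8] (.node 31636 [8] .nil .nil) .nil) (.node 31657 [1] .nil .nil)) (.node 31703 [8] (.node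 31692 [8] .nil .nil) (.node 31710 [8] .nil .nil))) (.node 31835 [137] (.node 31738 [1] (.node 31731 [1] .nil .nil) (.node 31817 [137] .nil .nil)) (.node 31853 [64] (.node 31846 [64] .nil .nil) (.node 31860 [64] .nil .nil)))) (.node 31954 [73] (.node 31916 [64] (.node 31898 [137] (.node 31891 [137] .nil .nil) (.node 31909 [64] .nil .nil)) (.node 31934 [64] (.node 31927 [64] .nil .nil) (.node 31947 [73] .nil .nil))) (.node 31990 [64] (.node 31972 [64] (.node 31961 [73] .nil .nil) (.node 31983 [64] .nil .nil)) (.node 32014 [8] (.node 31997 [64] .nil .nil) (.node 32021 [8] .nil .nil)))))) (.node 32438 [64] (.node 32214 [8] (.node 32123 [1] (.node 32084 [8] (.node 32049 [1] (.node 32042 [1] (.node 32035 [1] .nil .nil) .nil) (.node 32077 [8] .nil .nil)) (.node 32098 [1] (.node 32095 [8] .nil .nil) (.node 32105 [1] .nil .nil))) (.node 32161 [1] (.node 32151 [8] (.node 32140 [8] .nil .nil) (.node 32158 [8] .nil .nil)) (.node 32186 [1] (.node 32179 [1] .nil .nil) (.node 32207 [8] .nil .nil)))) (.node 32364 [64] (.node 32249 [1] (.node 32235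 [1] (.node 32221 [8] .nil .nil) (.node 32242 [1] .nil .nil)) (.node 32346 [137] (.node 32339 [137] .nil .nil) (.node 32357 [64] .nil .nil))) (.node 32402 [73] (.node 32382 [64] (.node 32375 [64] .nil .nil) (.node 32395 [73] .nil .nil)) (.node 32420 [64] (.node 32409 [73] .nil .nil) (.node 32431 [64] .nil .nil))))) (.node 32606 [8] (.node 32525 [8] (.node 32487 [64] (.node 32458 [137] (.node 32445 [64] .nil .nil) (.node 32465 [137] .nil .nil)) (.node 32501 [64] (.node 32494 [64] .nil .nil) (.node 32508 [64] .nil .nil))) (.node 32553 [1] (.node 32543 [8] (.node 32532 [8] .nil .nil) (.node 32546 [1] .nil .nil)) (.node 32588 [8] (.node 32571 [1] .nil .nil) (.node 32599 [8] .nil .nil)))) (.node 32690 [1] (.node 32655 [8] (.node 32627 [1] (.node 32609 [1] .nil .nil) (.node 32634 [1] .nil .nil)) (.node 32669 [8] (.node 32662 [8] .nil .nil) (.node 32683 [1] .nil .nil))) (.node 32732 [8] (.node 32718 [8] (.node 32697 [1] .nil .nil) (.node 32725 [8] .nil .nil)) (.node 32746 [1] (.node 32739 [1] .nil .nil) (.node 32753 [1] .nil .nil)))))))))))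

def LM54 : List Ct := [⟨[false, false, false, false, false], 0, 2, 0⟩, ⟨[false, false, false, false, false], 1, 2, 3⟩, ⟨[false, false, false, false, false], 2, 2, 4⟩, ⟨[false, false, false, false, true], 1, 2, 2⟩, ⟨[false, false, false, false, true], 2, 2, 3⟩, ⟨[false, false, false, true, false], 1, 2, 2⟩, ⟨[false, false, false, true, false], 2, 2, 3⟩, ⟨[false, false, false, true, true], 2, 2, 4⟩, ⟨[false, false, true, false, false], 1, 2, 2⟩, ⟨[false, false, true, false, false], 2, 2, 3⟩, ⟨[false, false, true, false, true], 2, 2, 2⟩, ⟨[false, false, true, true, false], 2, 2, 4⟩, ⟨[false, false, true, true, true], 2, 2, 2⟩, ⟨[false, true, false, false, false], 1, 2, 2⟩, ⟨[false, true, false, false, false], 2, 2, 3⟩, ⟨[false, true, false, false, true], 2, 2, 4⟩, ⟨[false, true, false, true, false], 2, 2, 4⟩, ⟨[false, true, false, true, true], 2, 2, 4⟩, ⟨[false, true, true, false, false], 2, 2, 4⟩, ⟨[false, true, true, false, true], 2, 2, 4⟩, ⟨[false, true, true, true, false], 2, 2, 4⟩, ⟨[false, true, true, true, true], 2, 1, 2⟩,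 ⟨[false, true, true, true, true], 2, 2, 3⟩, ⟨[true, false, false, false, false], 1, 2, 2⟩, ⟨[true, false, false, false, false], 2, 2, 3⟩, ⟨[true, false, false, false, true], 2, 2, 4⟩, ⟨[true, false, false, true, false], 2, 2, 4⟩, ⟨[true, false, false, true, true], 2, 2, 4⟩, ⟨[true, false, true, false, false], 2, 2, 4⟩, ⟨[true, false, true, false, true], 2, 2, 4⟩, ⟨[true, false, true, true, false], 2, 2, 4⟩, ⟨[true, false, true, true, true], 2, 1, 2⟩, ⟨[true, false, true, true, true], 2, 2, 3⟩, ⟨[true, true, false, false, false], 2, 2, 2⟩, ⟨[true, true, false, false, true], 2, 2, 4⟩, ⟨[true, true, false, true, false], 2, 2, 2⟩, ⟨[true, true, false, true, true], 2, 1, 2⟩, ⟨[true, true, false, true, true], 2, 2, 3⟩, ⟨[true, true, true, false, false], 2, 2, 4⟩, ⟨[true, true, true, false, true], 2, 1, 2⟩, ⟨[true, true, true, false, true], 2, 2, 3⟩, ⟨[true, true, true, true, false], 2, 1, 2⟩, ⟨[true, true, true, true, false], 2, 2, 3⟩, ⟨[true, true, true, true, true], 2, 0, 0⟩, ⟨[true, true, true, true, true], 2, 1, 3⟩, ⟨[true, true,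 true, true, true], 2, 2, 4⟩]

end Pool.Agent.W420.NS
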