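import Pool.Agent.W420.NS.Fast

/-! # Table of `N88` -/

set_option autoImplicit false
set_option maxRecDepth 1000000

namespace Pool.Agent.W420.NS

def TN88 : Tr (List ℕ) := (.node 1395 [513] (.node 954 [513] (.node 852 [520] (.node 796 [520] (.node 729 [2257] (.node 722 [2257] (.node 715 [2257] .nil .nil) .nil) (.node 789 [520] (.node 782 [520] .nil .nil) .nil)) (.node 817 [513] (.node 810 [513] (.node 803 [513] .nil .nil) .nil) (.node 845 [520] .nil .nil))) (.node 908 [520] (.node 873 [513] (.node 866 [513] (.node 863 [520] .nil .nil) .nil) (.node 891 [513] .nil .nil)) (.node 929 [513] (.node 926 [520] (.node 919 [520] .nil .nil) .nil) (.node 947 [513] .nil .nil)))) (.node 1293 [520] (.node 1010 [513] (.node 989 [520] (.node 982 [520] (.node 975 [520] .nil .nil) .nil) (.node 1003 [513] .nil .nil)) (.node 1170 [2257] (.node 1163 [2257] (.node 1017 [513] .nil .nil) .nil) (.node 1177 [2257] .nil .nil))) (.node 1339 [513] (.node 1314 [513] (.node 1311 [520] (.node 1300 [520] .nil .nil) .nil) (.node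 1321 [513] .nil .nil)) (.node 1374 [520] (.node 1367 [520] (.node 1356 [520] .nil .nil) .nil) (.node 1377 [513] .nil .nil))))) (.node 1843 [513] (.node 1507 [513] (.node 1458 [513] (.node 1430 [520] (.node 1423 [520] (.node 1402 [513] .nil .nil) .nil) (.node 1451 [513] (.node 1437 [520] .nil .nil) .nil)) (.node 1493 [520] (.node 1486 [520] (.node 1465 [513] .nil .nil) .nil) (.node 1500 [520] .nil .nil))) (.node 1625 [2257] (.node 1611 [2257] (.node 1521 [513] (.node 1514 [513] .nil .nil) .nil) (.node 1618 [2257] .nil .nil)) (.node 1822 [520] (.node 1815 [520] (.node 1804 [520] .nil .nil) .nil) (.node 1825 [513] .nil .nil)))) (.node 1948 [520] (.node 1899 [513] (.node 1878 [520] (.node 1871 [520] (.node 1850 [513] .nil .nil) .nil) (.node 1885 [520] .nil .nil)) (.node 1934 [520] (.node 1913 [513] (.node 1906 [513] .nil .nil) .nil) (.node 1941 [520] .nil .nil))) (.node 2004 [520] (.node 1969 [513] (.node 1962 [513] (.node 1955 [513] .nil .nil) .nil) (.node 1997 [520] .nil .nil)) (.node 2025 [513] (.node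 2018 [513] (.node 2015 [520] .nil .nil) .nil) (.node 2043 [513] .nil .nil))))))

def LN88 : List Ct := [⟨[false, false, false, false], 0, 2, 0⟩, ⟨[false, false, false, false], 1, 2, 3⟩, ⟨[false, false, false, false], 2, 2, 4⟩, ⟨[false, false, false, true], 1, 2, 2⟩, ⟨[false, false, false, true], 2, 2, 3⟩, ⟨[false, false, true, false], 1, 2, 2⟩, ⟨[false, false, true, false], 2, 2, 3⟩, ⟨[false, false, true, true], 2, 2, 2⟩, ⟨[false, true, false, false], 1, 2, 2⟩, ⟨[false, true, false, false], 2, 2, 3⟩, ⟨[false, true, false, true], 2, 2, 4⟩, ⟨[false, true, true, false], 2, 2, 4⟩, ⟨[false, true, true, true], 2, 1, 2⟩, ⟨[false, true, true, true], 2, 2, 3⟩, ⟨[true, false, false, false], 1, 2, 2⟩, ⟨[true, false, false, false], 2, 2, 3⟩, ⟨[true, false, false, true], 2, 2, 4⟩, ⟨[true, false, true, false], 2, 2, 4⟩, ⟨[true, false, true, true], 2, 1, 2⟩, ⟨[true, false, true, true], 2, 2, 3⟩, ⟨[true, true, false, false], 2, 2, 2⟩, ⟨[true, true, false, true], 2, 1, 2⟩, ⟨[true, true, false, true], 2, 2, 3⟩, ⟨[true,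 true, true, false], 2, 1, 2⟩, ⟨[true, true, true, false], 2, 2, 3⟩, ⟨[true, true, true, true], 2, 0, 0⟩, ⟨[true, true, true, true], 2, 1, 3⟩, ⟨[true, true, true, true], 2, 2, 4⟩]

end Pool.Agent.W420.NS
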