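import Pool.Agent.W420.NS.Fast

/-! # Table of `P9` -/

set_option autoImplicit false
set_option maxRecDepth 1000000

namespace Pool.Agent.W420.NS

def TP9 : Tr (List ℕ) := (.node 19582 [64] (.node 11594 [8201] (.node 7849 [8257] (.node 6239 [8264] (.node 5202 [4681] (.node 4898 [4609] (.node 4790 [4672] (.node 4734 [4672] (.node 4709 [4672] (.node 4698 [13969,4817,9425,13905] (.node 4691 [4817,13969,9425,13905] .nil .nil) .nil) (.node 4727 [4672] (.node 4716 [4672] .nil .nil) .nil)) (.node 4761 [4681] (.node 4754 [4681] (.node 4747 [4681] .nil .nil) .nil) (.node 4783 [4672] (.node 4772 [4672] .nil .nil) .nil))) (.node 4853 [4672] (.node 4817 [4817,13969,9425,13905] (.node 4810 [13969,4817,9425,13905] (.node 4797 [4672] .nil .nil) .nil) (.node 4846 [4672] (.node 4839 [4672] .nil .nil) .nil)) (.node 4884 [4616] (.node 4877 [4616] (.node 4860 [4672] .nil .nil) .nil) (.node 4895 [4616] .nil .nil)))) (.node 5021 [4616] (.node 4961 [4609] (.node 4940 [4616] (.node 4923 [4609] (.node 4905 [4609] .nil .nil) .nil) (.node 4958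 [4616] (.node 4951 [4616] .nil .nil) .nil)) (.node 5007 [4616] (.node 4986 [4609] (.node 4979 [4609] .nil .nil) .nil) (.node 5014 [4616] .nil .nil))) (.node 5084 [4616] (.node 5049 [4609] (.node 5042 [4609] (.node 5035 [4609] .nil .nil) .nil) (.node 5077 [4616] (.node 5070 [4616] .nil .nil) .nil)) (.node 5105 [4609] (.node 5098 [4609] (.node 5091 [4609] .nil .nil) .nil) (.node 5195 [4681] .nil .nil))))) (.node 5427 [4609] (.node 5308 [4672] (.node 5258 [4817,13969,9425,13905] (.node 5231 [4672] (.node 5220 [4672] (.node 5209 [4681] .nil .nil) .nil) (.node 5245 [4672] (.node 5238 [4672] .nil .nil) .nil)) (.node 5294 [4672] (.node 5287 [4672] (.node 5265 [4817,13969,9425,13905] .nil .nil) .nil) (.node 5301 [4672] .nil .nil))) (.node 5375 [4672] (.node 5350 [4672] (.node 5339 [4817,13969,9425,13905] (.node 5321 [4817,13969,9425,13905] .nil .nil) .nil) (.node 5364 [4672] (.node 5357 [4672] .nil .nil) .nil)) (.node 5406 [4616] (.node 5399 [4616] (.node 5388 [4616] .nil .nil) .nil) (.node 5409 [4609] .nil .nil)))) (.node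 5539 [4609] (.node 5490 [4609] (.node 5462 [4616] (.node 5455 [4616] (.node 5434 [4609] .nil .nil) .nil) (.node 5483 [4609] (.node 5469 [4616] .nil .nil) .nil)) (.node 5525 [4616] (.node 5518 [4616] (.node 5497 [4609] .nil .nil) .nil) (.node 5532 [4616] .nil .nil))) (.node 5602 [4609] (.node 5581 [4616] (.node 5553 [4609] (.node 5546 [4609] .nil .nil) .nil) (.node 5599 [4616] (.node 5588 [4616] .nil .nil) .nil)) (.node 6221 [8264] (.node 5627 [4609] (.node 5609 [4609] .nil .nil) .nil) (.node 6228 [8264] .nil .nil)))))) (.node 6995 [8201] (.node 6610 [8201] (.node 6365 [8264] (.node 6302 [8264] (.node 6267 [8257] (.node 6249 [8257] (.node 6242 [8257] .nil .nil) .nil) (.node 6295 [8264] (.node 6284 [8264] .nil .nil) .nil)) (.node 6330 [8257] (.node 6323 [8257] (.node 6305 [8257] .nil .nil) .nil) (.node 6358 [8264] (.node 6351 [8264] .nil .nil) .nil))) (.node 6473 [8201] (.node 6393 [8257] (.node 6386 [8257] (.node 6379 [8257] .nil .nil) .nil) (.node 6417 [8201] (.node 6410 [8201] .nil .nil) .nil)) (.node 6554 [8201] (.node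 6547 [8201] (.node 6491 [8201] .nil .nil) .nil) (.node 6603 [8201] .nil .nil)))) (.node 6827 [8257] (.node 6771 [8257] (.node 6743 [8264] (.node 6732 [8264] (.node 6617 [8201] .nil .nil) .nil) (.node 6753 [8257] (.node 6750 [8264] .nil .nil) .nil)) (.node 6806 [8264] (.node 6799 [8264] (.node 6778 [8257] .nil .nil) .nil) (.node 6813 [8264] .nil .nil))) (.node 6883 [8257] (.node 6862 [8264] (.node 6841 [8257] (.node 6834 [8257] .nil .nil) .nil) (.node 6876 [8264] (.node 6869 [8264] .nil .nil) .nil)) (.node 6921 [8201] (.node 6897 [8257] (.node 6890 [8257] .nil .nil) .nil) (.node 6939 [8201] .nil .nil))))) (.node 7394 [8257] (.node 7282 [8257] (.node 7121 [8201] (.node 7058 [8201] (.node 7051 [8201] (.node 7002 [8201] .nil .nil) .nil) (.node 7114 [8201] (.node 7065 [8201] .nil .nil) .nil)) (.node 7261 [8264] (.node 7254 [8264] (.node 7247 [8264] .nil .nil) .nil) (.node 7275 [8257] .nil .nil))) (.node 7338 [8257] (.node 7317 [8264] (.node 7310 [8264] (.node 7289 [8257] .nil .nil) .nil) (.node 7331 [8257] (.node 7324 [8264]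 .nil .nil) .nil)) (.node 7380 [8264] (.node 7373 [8264] (.node 7345 [8257] .nil .nil) .nil) (.node 7391 [8264] .nil .nil)))) (.node 7643 [8201] (.node 7506 [8201] (.node 7443 [8201] (.node 7419 [8257] (.node 7401 [8257] .nil .nil) .nil) (.node 7499 [8201] (.node 7450 [8201] .nil .nil) .nil)) (.node 7569 [8201] (.node 7562 [8201] (.node 7513 [8201] .nil .nil) .nil) (.node 7625 [8201] .nil .nil))) (.node 7793 [8257] (.node 7772 [8264] (.node 7765 [8264] (.node 7758 [8264] .nil .nil) .nil) (.node 7786 [8257] (.node 7779 [8257] .nil .nil) .nil)) (.node 7839 [8264] (.node 7828 [8264] (.node 7821 [8264] .nil .nil) .nil) (.node 7842 [8257] .nil .nil))))))) (.node 10089 [4609] (.node 9067 [4609] (.node 8829 [4672] (.node 8017 [8201] (.node 7923 [8257] (.node 7895 [8264] (.node 7884 [8264] (.node 7867 [8257] .nil .nil) .nil) (.node 7905 [8257] (.node 7902 [8264] .nil .nil) .nil)) (.node 7954 [8201] (.node 7947 [8201] (.node 7930 [8257] .nil .nil) .nil) (.node 8010 [8201] (.node 7961 [8201] .nil .nil) .nil))) (.node 8786 [4681]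 (.node 8147 [8201] (.node 8091 [8201] (.node 8073 [8201] .nil .nil) .nil) (.node 8779 [4681] (.node 8154 [8201] .nil .nil) .nil)) (.node 8815 [4672] (.node 8804 [4672] (.node 8793 [4681] .nil .nil) .nil) (.node 8822 [4672] .nil .nil)))) (.node 8948 [4672] (.node 8892 [4672] (.node 8871 [4672] (.node 8849 [4817,13969,9425,13905] (.node 8842 [4817,13969,9425,13905] .nil .nil) .nil) (.node 8885 [4672] (.node 8878 [4672] .nil .nil) .nil)) (.node 8934 [4672] (.node 8923 [4817,13969,9425,13905] (.node 8905 [4817,13969,9425,13905] .nil .nil) .nil) (.node 8941 [4672] .nil .nil))) (.node 9011 [4609] (.node 8983 [4616] (.node 8972 [4616] (.node 8959 [4672] .nil .nil) .nil) (.node 8993 [4609] (.node 8990 [4616] .nil .nil) .nil)) (.node 9046 [4616] (.node 9039 [4616] (.node 9018 [4609] .nil .nil) .nil) (.node 9053 [4616] .nil .nil))))) (.node 9882 [4817,13969,9425,13905] (.node 9183 [4616] (.node 9123 [4609] (.node 9102 [4616] (.node 9081 [4609] (.node 9074 [4609] .nil .nil) .nil) (.node 9116 [4616] (.node 9109 [4616] .nil .nil)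 .nil)) (.node 9165 [4616] (.node 9137 [4609] (.node 9130 [4609] .nil .nil) .nil) (.node 9172 [4616] .nil .nil))) (.node 9830 [4672] (.node 9211 [4609] (.node 9193 [4609] (.node 9186 [4609] .nil .nil) .nil) (.node 9819 [4817,13969,9425,13905] (.node 9801 [13969,4817,9425,13905] .nil .nil) .nil)) (.node 9855 [4672] (.node 9844 [4672] (.node 9837 [4672] .nil .nil) .nil) (.node 9875 [4817,13969,9425,13905] .nil .nil)))) (.node 9981 [4672] (.node 9938 [4681] (.node 9911 [4672] (.node 9900 [4672] (.node 9893 [4672] .nil .nil) .nil) (.node 9931 [4681] (.node 9918 [4672] .nil .nil) .nil)) (.node 9967 [4672] (.node 9956 [4672] (.node 9945 [4681] .nil .nil) .nil) (.node 9974 [4672] .nil .nil))) (.node 10033 [4609] (.node 10012 [4616] (.node 10005 [4616] (.node 9998 [4616] .nil .nil) .nil) (.node 10026 [4609] (.node 10019 [4609] .nil .nil) .nil)) (.node 10079 [4616] (.node 10068 [4616] (.node 10061 [4616] .nil .nil) .nil) (.node 10082 [4609] .nil .nil)))))) (.node 10866 [8257] (.node 10411 [8257] (.node 10226 [4609] (.node 10163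 [4609] (.node 10135 [4616] (.node 10124 [4616] (.node 10107 [4609] .nil .nil) .nil) (.node 10145 [4609] (.node 10142 [4616] .nil .nil) .nil)) (.node 10198 [4616] (.node 10191 [4616] (.node 10170 [4609] .nil .nil) .nil) (.node 10219 [4609] (.node 10205 [4616] .nil .nil) .nil))) (.node 10355 [8257] (.node 10327 [8264] (.node 10316 [8264] (.node 10233 [4609] .nil .nil) .nil) (.node 10337 [8257] (.node 10334 [8264] .nil .nil) .nil)) (.node 10390 [8264] (.node 10383 [8264] (.node 10362 [8257] .nil .nil) .nil) (.node 10397 [8264] .nil .nil)))) (.node 10579 [8201] (.node 10467 [8257] (.node 10446 [8264] (.node 10425 [8257] (.node 10418 [8257] .nil .nil) .nil) (.node 10460 [8264] (.node 10453 [8264] .nil .nil) .nil)) (.node 10505 [8201] (.node 10481 [8257] (.node 10474 [8257] .nil .nil) .nil) (.node 10523 [8201] .nil .nil))) (.node 10705 [8201] (.node 10642 [8201] (.node 10635 [8201] (.node 10586 [8201] .nil .nil) .nil) (.node 10698 [8201] (.node 10649 [8201] .nil .nil) .nil)) (.node 10845 [8264] (.node 10838 [8264] (.node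 10831 [8264] .nil .nil) .nil) (.node 10859 [8257] .nil .nil))))) (.node 11227 [8201] (.node 10978 [8257] (.node 10922 [8257] (.node 10901 [8264] (.node 10894 [8264] (.node 10873 [8257] .nil .nil) .nil) (.node 10915 [8257] (.node 10908 [8264] .nil .nil) .nil)) (.node 10964 [8264] (.node 10957 [8264] (.node 10929 [8257] .nil .nil) .nil) (.node 10975 [8264] .nil .nil))) (.node 11090 [8201] (.node 11027 [8201] (.node 11003 [8257] (.node 10985 [8257] .nil .nil) .nil) (.node 11083 [8201] (.node 11034 [8201] .nil .nil) .nil)) (.node 11153 [8201] (.node 11146 [8201] (.node 11097 [8201] .nil .nil) .nil) (.node 11209 [8201] .nil .nil)))) (.node 11433 [8257] (.node 11377 [8257] (.node 11356 [8264] (.node 11349 [8264] (.node 11342 [8264] .nil .nil) .nil) (.node 11370 [8257] (.node 11363 [8257] .nil .nil) .nil)) (.node 11423 [8264] (.node 11412 [8264] (.node 11405 [8264] .nil .nil) .nil) (.node 11426 [8257] .nil .nil))) (.node 11507 [8257] (.node 11479 [8264] (.node 11468 [8264] (.node 11451 [8257] .nil .nil) .nil) (.node 11489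 [8257] (.node 11486 [8264] .nil .nil) .nil)) (.node 11538 [8201] (.node 11531 [8201] (.node 11514 [8257] .nil .nil) .nil) (.node 11545 [8201] .nil .nil)))))))) (.node 15483 [8257] (.node 14026 [13969,4817,9425,13905] (.node 13515 [4681] (.node 12025 [8257] (.node 11916 [8264] (.node 11853 [8264] (.node 11675 [8201] (.node 11657 [8201] (.node 11601 [8201] .nil .nil) .nil) (.node 11738 [8201] (.node 11731 [8201] .nil .nil) .nil)) (.node 11874 [8257] (.node 11871 [8264] (.node 11860 [8264] .nil .nil) .nil) (.node 11899 [8257] (.node 11881 [8257] .nil .nil) .nil))) (.node 11983 [8264] (.node 11937 [8257] (.node 11934 [8264] (.node 11927 [8264] .nil .nil) .nil) (.node 11962 [8257] (.node 11955 [8257] .nil .nil) .nil)) (.node 12011 [8257] (.node 11997 [8264] (.node 11990 [8264] .nil .nil) .nil) (.node 12018 [8257] .nil .nil)))) (.node 13403 [4817,13969,9425,13905] (.node 12186 [8201] (.node 12105 [8201] (.node 12049 [8201] (.node 12042 [8201] .nil .nil) .nil) (.node 12179 [8201] (.node 12123 [8201] .nil .nil) .nil)) (.node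 12249 [8201] (.node 12242 [8201] (.node 12235 [8201] .nil .nil) .nil) (.node 13385 [13969,4817,9425,13905] .nil .nil))) (.node 13466 [4817,13969,9425,13905] (.node 13428 [4672] (.node 13421 [4672] (.node 13414 [4672] .nil .nil) .nil) (.node 13459 [4817,13969,9425,13905] (.node 13439 [4672] .nil .nil) .nil)) (.node 13495 [4672] (.node 13484 [4672] (.node 13477 [4672] .nil .nil) .nil) (.node 13502 [4672] .nil .nil))))) (.node 13729 [4609] (.node 13610 [4609] (.node 13565 [4672] (.node 13540 [4672] (.node 13529 [4681] (.node 13522 [4681] .nil .nil) .nil) (.node 13558 [4672] (.node 13551 [4672] .nil .nil) .nil)) (.node 13596 [4616] (.node 13589 [4616] (.node 13582 [4616] .nil .nil) .nil) (.node 13603 [4609] .nil .nil))) (.node 13673 [4609] (.node 13652 [4616] (.node 13645 [4616] (.node 13617 [4609] .nil .nil) .nil) (.node 13666 [4609] (.node 13663 [4616] .nil .nil) .nil)) (.node 13719 [4616] (.node 13708 [4616] (.node 13691 [4609] .nil .nil) .nil) (.node 13726 [4616] .nil .nil)))) (.node 13925 [4672] (.node 13803 [4609]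 (.node 13775 [4616] (.node 13754 [4609] (.node 13747 [4609] .nil .nil) .nil) (.node 13789 [4616] (.node 13782 [4616] .nil .nil) .nil)) (.node 13907 [4817,13969,9425,13905] (.node 13817 [4609] (.node 13810 [4609] .nil .nil) .nil) (.node 13914 [13969,4817,9425,13905] .nil .nil))) (.node 13977 [4681] (.node 13950 [4672] (.node 13943 [4672] (.node 13932 [4672] .nil .nil) .nil) (.node 13970 [4681] (.node 13963 [4681] .nil .nil) .nil)) (.node 14006 [4672] (.node 13999 [4672] (.node 13988 [4672] .nil .nil) .nil) (.node 14013 [4672] .nil .nil)))))) (.node 14562 [8257] (.node 14265 [4609] (.node 14156 [4616] (.node 14093 [4616] (.node 14062 [4672] (.node 14055 [4672] (.node 14033 [4817,13969,9425,13905] .nil .nil) .nil) (.node 14076 [4672] (.node 14069 [4672] .nil .nil) .nil)) (.node 14114 [4609] (.node 14111 [4616] (.node 14100 [4616] .nil .nil) .nil) (.node 14139 [4609] (.node 14121 [4609] .nil .nil) .nil))) (.node 14223 [4616] (.node 14177 [4609] (.node 14174 [4616] (.node 14167 [4616] .nil .nil) .nil) (.node 14202 [4609]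 (.node 14195 [4609] .nil .nil) .nil)) (.node 14251 [4609] (.node 14237 [4616] (.node 14230 [4616] .nil .nil) .nil) (.node 14258 [4609] .nil .nil)))) (.node 14450 [8257] (.node 14321 [4609] (.node 14300 [4616] (.node 14293 [4616] (.node 14286 [4616] .nil .nil) .nil) (.node 14314 [4609] (.node 14307 [4609] .nil .nil) .nil)) (.node 14429 [8264] (.node 14422 [8264] (.node 14415 [8264] .nil .nil) .nil) (.node 14443 [8257] .nil .nil))) (.node 14506 [8257] (.node 14485 [8264] (.node 14478 [8264] (.node 14457 [8257] .nil .nil) .nil) (.node 14499 [8257] (.node 14492 [8264] .nil .nil) .nil)) (.node 14548 [8264] (.node 14541 [8264] (.node 14513 [8257] .nil .nil) .nil) (.node 14559 [8264] .nil .nil))))) (.node 15017 [8257] (.node 14811 [8201] (.node 14674 [8201] (.node 14611 [8201] (.node 14587 [8257] (.node 14569 [8257] .nil .nil) .nil) (.node 14667 [8201] (.node 14618 [8201] .nil .nil) .nil)) (.node 14737 [8201] (.node 14730 [8201] (.node 14681 [8201] .nil .nil) .nil) (.node 14793 [8201] .nil .nil))) (.node 14961 [8257] (.node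 14940 [8264] (.node 14933 [8264] (.node 14926 [8264] .nil .nil) .nil) (.node 14954 [8257] (.node 14947 [8257] .nil .nil) .nil)) (.node 15007 [8264] (.node 14996 [8264] (.node 14989 [8264] .nil .nil) .nil) (.node 15010 [8257] .nil .nil)))) (.node 15178 [8201] (.node 15091 [8257] (.node 15063 [8264] (.node 15052 [8264] (.node 15035 [8257] .nil .nil) .nil) (.node 15073 [8257] (.node 15070 [8264] .nil .nil) .nil)) (.node 15122 [8201] (.node 15115 [8201] (.node 15098 [8257] .nil .nil) .nil) (.node 15129 [8201] .nil .nil))) (.node 15437 [8264] (.node 15259 [8201] (.node 15241 [8201] (.node 15185 [8201] .nil .nil) .nil) (.node 15322 [8201] (.node 15315 [8201] .nil .nil) .nil)) (.node 15458 [8257] (.node 15455 [8264] (.node 15444 [8264] .nil .nil) .nil) (.node 15465 [8257] .nil .nil))))))) (.node 17621 [1096] (.node 16274 [8201] (.node 15959 [8264] (.node 15609 [8257] (.node 15546 [8257] (.node 15518 [8264] (.node 15511 [8264] (.node 15500 [8264] .nil .nil) .nil) (.node 15539 [8257] (.node 15521 [8257] .nil .nil) .nil)) (.node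 15581 [8264] (.node 15574 [8264] (.node 15567 [8264] .nil .nil) .nil) (.node 15602 [8257] (.node 15595 [8257] .nil .nil) .nil))) (.node 15770 [8201] (.node 15689 [8201] (.node 15633 [8201] (.node 15626 [8201] .nil .nil) .nil) (.node 15763 [8201] (.node 15707 [8201] .nil .nil) .nil)) (.node 15833 [8201] (.node 15826 [8201] (.node 15819 [8201] .nil .nil) .nil) (.node 15948 [8264] .nil .nil)))) (.node 16078 [8264] (.node 16022 [8264] (.node 15987 [8257] (.node 15969 [8257] (.node 15966 [8264] .nil .nil) .nil) (.node 16015 [8264] (.node 15994 [8257] .nil .nil) .nil)) (.node 16050 [8257] (.node 16043 [8257] (.node 16029 [8264] .nil .nil) .nil) (.node 16057 [8257] .nil .nil))) (.node 16137 [8201] (.node 16099 [8257] (.node 16092 [8264] (.node 16085 [8264] .nil .nil) .nil) (.node 16113 [8257] (.node 16106 [8257] .nil .nil) .nil)) (.node 16218 [8201] (.node 16211 [8201] (.node 16155 [8201] .nil .nil) .nil) (.node 16267 [8201] .nil .nil))))) (.node 17162 [1033] (.node 17047 [1096] (.node 16991 [1096] (.node 16337 [8201] (.node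 16330 [8201] (.node 16281 [8201] .nil .nil) .nil) (.node 16980 [1096] (.node 16973 [1096] .nil .nil) .nil)) (.node 17019 [1089] (.node 17001 [1089] (.node 16994 [1089] .nil .nil) .nil) (.node 17036 [1096] .nil .nil))) (.node 17110 [1096] (.node 17075 [1089] (.node 17057 [1089] (.node 17054 [1096] .nil .nil) .nil) (.node 17103 [1096] (.node 17082 [1089] .nil .nil) .nil)) (.node 17138 [1089] (.node 17131 [1089] (.node 17117 [1096] .nil .nil) .nil) (.node 17145 [1089] .nil .nil)))) (.node 17502 [1096] (.node 17355 [1033] (.node 17243 [1033] (.node 17225 [1033] (.node 17169 [1033] .nil .nil) .nil) (.node 17306 [1033] (.node 17299 [1033] .nil .nil) .nil)) (.node 17484 [1096] (.node 17369 [1033] (.node 17362 [1033] .nil .nil) .nil) (.node 17495 [1096] .nil .nil))) (.node 17565 [1096] (.node 17530 [1089] (.node 17523 [1089] (.node 17505 [1089] .nil .nil) .nil) (.node 17558 [1096] (.node 17551 [1096] .nil .nil) .nil)) (.node 17593 [1089] (.node 17586 [1089] (.node 17579 [1089] .nil .nil) .nil) (.node 17614 [1096] .nil .nil))))))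 (.node 19060 [64] (.node 18083 [1089] (.node 17866 [1033] (.node 17691 [1033] (.node 17642 [1089] (.node 17635 [1089] (.node 17628 [1096] .nil .nil) .nil) (.node 17673 [1033] (.node 17649 [1089] .nil .nil) .nil)) (.node 17803 [1033] (.node 17754 [1033] (.node 17747 [1033] .nil .nil) .nil) (.node 17817 [1033] (.node 17810 [1033] .nil .nil) .nil))) (.node 18034 [1089] (.node 18006 [1096] (.node 17999 [1096] (.node 17873 [1033] .nil .nil) .nil) (.node 18027 [1089] (.node 18013 [1096] .nil .nil) .nil)) (.node 18069 [1096] (.node 18062 [1096] (.node 18041 [1089] .nil .nil) .nil) (.node 18076 [1096] .nil .nil)))) (.node 18251 [1033] (.node 18146 [1089] (.node 18125 [1096] (.node 18097 [1089] (.node 18090 [1089] .nil .nil) .nil) (.node 18143 [1096] (.node 18132 [1096] .nil .nil) .nil)) (.node 18195 [1033] (.node 18171 [1089] (.node 18153 [1089] .nil .nil) .nil) (.node 18202 [1033] .nil .nil))) (.node 18395 [1033] (.node 18314 [1033] (.node 18265 [1033] (.node 18258 [1033] .nil .nil) .nil) (.node 18377 [1033] (.node 18321 [1033]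 .nil .nil) .nil)) (.node 19046 [64] (.node 19035 [209] (.node 19017 [209] .nil .nil) .nil) (.node 19053 [64] .nil .nil))))) (.node 19284 [8] (.node 19172 [64] (.node 19127 [64] (.node 19098 [209] (.node 19091 [209] (.node 19071 [64] .nil .nil) .nil) (.node 19116 [64] (.node 19109 [64] .nil .nil) .nil)) (.node 19154 [73] (.node 19147 [73] (.node 19134 [64] .nil .nil) .nil) (.node 19161 [73] .nil .nil))) (.node 19228 [8] (.node 19197 [64] (.node 19190 [64] (.node 19183 [64] .nil .nil) .nil) (.node 19221 [8] (.node 19214 [8] .nil .nil) .nil)) (.node 19249 [1] (.node 19242 [1] (.node 19235 [1] .nil .nil) .nil) (.node 19277 [8] .nil .nil)))) (.node 19407 [8] (.node 19351 [8] (.node 19305 [1] (.node 19298 [1] (.node 19295 [8] .nil .nil) .nil) (.node 19340 [8] (.node 19323 [1] .nil .nil) .nil)) (.node 19379 [1] (.node 19361 [1] (.node 19358 [8] .nil .nil) .nil) (.node 19386 [1] .nil .nil))) (.node 19539 [209] (.node 19435 [1] (.node 19421 [8] (.node 19414 [8] .nil .nil) .nil) (.node 19449 [1] (.node 19442 [1] .nil .nil) .nil))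 (.node 19564 [64] (.node 19557 [64] (.node 19546 [209] .nil .nil) .nil) (.node 19575 [64] .nil .nil))))))))) (.node 26298 [1089] (.node 22767 [64] (.node 21149 [1096] (.node 20106 [209] (.node 19809 [1] (.node 19701 [64] (.node 19638 [64] (.node 19609 [73] (.node 19602 [73] (.node 19595 [73] .nil .nil) .nil) (.node 19631 [64] (.node 19620 [64] .nil .nil) .nil)) (.node 19665 [209] (.node 19658 [209] (.node 19645 [64] .nil .nil) .nil) (.node 19694 [64] (.node 19687 [64] .nil .nil) .nil))) (.node 19753 [1] (.node 19732 [8] (.node 19725 [8] (.node 19708 [64] .nil .nil) .nil) (.node 19746 [1] (.node 19743 [8] .nil .nil) .nil)) (.node 19799 [8] (.node 19788 [8] (.node 19771 [1] .nil .nil) .nil) (.node 19806 [8] .nil .nil)))) (.node 19932 [8] (.node 19883 [1] (.node 19855 [8] (.node 19834 [1] (.node 19827 [1] .nil .nil) .nil) (.node 19869 [8] (.node 19862 [8] .nil .nil) .nil)) (.node 19918 [8] (.node 19897 [1] (.node 19890 [1] .nil .nil) .nil) (.node 19925 [8] .nil .nil))) (.node 20057 [73] (.node 19953 [1] (.node 19946 [1]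 (.node 19939 [1] .nil .nil) .nil) (.node 20050 [73] (.node 20043 [73] .nil .nil) .nil)) (.node 20086 [64] (.node 20079 [64] (.node 20068 [64] .nil .nil) .nil) (.node 20093 [64] .nil .nil))))) (.node 20338 [1] (.node 20223 [64] (.node 20169 [209] (.node 20142 [64] (.node 20135 [64] (.node 20113 [209] .nil .nil) .nil) (.node 20156 [64] (.node 20149 [64] .nil .nil) .nil)) (.node 20205 [64] (.node 20198 [64] (.node 20187 [209] .nil .nil) .nil) (.node 20212 [64] .nil .nil))) (.node 20282 [1] (.node 20254 [8] (.node 20247 [8] (.node 20236 [8] .nil .nil) .nil) (.node 20275 [1] (.node 20257 [1] .nil .nil) .nil)) (.node 20317 [8] (.node 20310 [8] (.node 20303 [8] .nil .nil) .nil) (.node 20331 [1] .nil .nil)))) (.node 20450 [1] (.node 20394 [1] (.node 20373 [8] (.node 20366 [8] (.node 20345 [1] .nil .nil) .nil) (.node 20387 [1] (.node 20380 [8] .nil .nil) .nil)) (.node 20436 [8] (.node 20429 [8] (.node 20401 [1] .nil .nil) .nil) (.node 20447 [8] .nil .nil))) (.node 21089 [1089] (.node 21068 [1096] (.node 20475 [1] (.node 20457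 [1] .nil .nil) .nil) (.node 21086 [1096] (.node 21079 [1096] .nil .nil) .nil)) (.node 21135 [1096] (.node 21114 [1089] (.node 21107 [1089] .nil .nil) .nil) (.node 21142 [1096] .nil .nil)))))) (.node 21979 [1033] (.node 21618 [1089] (.node 21331 [1033] (.node 21212 [1096] (.node 21177 [1089] (.node 21170 [1089] (.node 21163 [1089] .nil .nil) .nil) (.node 21205 [1096] (.node 21198 [1096] .nil .nil) .nil)) (.node 21233 [1089] (.node 21226 [1089] (.node 21219 [1089] .nil .nil) .nil) (.node 21275 [1033] (.node 21257 [1033] .nil .nil) .nil))) (.node 21457 [1033] (.node 21394 [1033] (.node 21387 [1033] (.node 21338 [1033] .nil .nil) .nil) (.node 21450 [1033] (.node 21401 [1033] .nil .nil) .nil)) (.node 21597 [1096] (.node 21590 [1096] (.node 21583 [1096] .nil .nil) .nil) (.node 21611 [1089] .nil .nil)))) (.node 21730 [1089] (.node 21674 [1089] (.node 21653 [1096] (.node 21646 [1096] (.node 21625 [1089] .nil .nil) .nil) (.node 21667 [1089] (.node 21660 [1096] .nil .nil) .nil)) (.node 21716 [1096] (.node 21709 [1096] (.node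 21681 [1089] .nil .nil) .nil) (.node 21727 [1096] .nil .nil))) (.node 21842 [1033] (.node 21779 [1033] (.node 21755 [1089] (.node 21737 [1089] .nil .nil) .nil) (.node 21835 [1033] (.node 21786 [1033] .nil .nil) .nil)) (.node 21905 [1033] (.node 21898 [1033] (.node 21849 [1033] .nil .nil) .nil) (.node 21961 [1033] .nil .nil))))) (.node 22346 [1033] (.node 22185 [1089] (.node 22129 [1089] (.node 22108 [1096] (.node 22101 [1096] (.node 22094 [1096] .nil .nil) .nil) (.node 22122 [1089] (.node 22115 [1089] .nil .nil) .nil)) (.node 22175 [1096] (.node 22164 [1096] (.node 22157 [1096] .nil .nil) .nil) (.node 22178 [1089] .nil .nil))) (.node 22259 [1089] (.node 22231 [1096] (.node 22220 [1096] (.node 22203 [1089] .nil .nil) .nil) (.node 22241 [1089] (.node 22238 [1096] .nil .nil) .nil)) (.node 22290 [1033] (.node 22283 [1033] (.node 22266 [1089] .nil .nil) .nil) (.node 22297 [1033] .nil .nil)))) (.node 22655 [64] (.node 22601 [209] (.node 22427 [1033] (.node 22409 [1033] (.node 22353 [1033] .nil .nil) .nil) (.node 22490 [1033]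 (.node 22483 [1033] .nil .nil) .nil)) (.node 22637 [64] (.node 22630 [64] (.node 22619 [209] .nil .nil) .nil) (.node 22644 [64] .nil .nil))) (.node 22718 [64] (.node 22693 [64] (.node 22682 [209] (.node 22675 [209] .nil .nil) .nil) (.node 22711 [64] (.node 22700 [64] .nil .nil) .nil)) (.node 22745 [73] (.node 22738 [73] (.node 22731 [73] .nil .nil) .nil) (.node 22756 [64] .nil .nil))))))) (.node 23820 [8] (.node 23292 [64] (.node 23005 [8] (.node 22882 [1] (.node 22819 [1] (.node 22798 [8] (.node 22781 [64] (.node 22774 [64] .nil .nil) .nil) (.node 22812 [8] (.node 22805 [8] .nil .nil) .nil)) (.node 22861 [8] (.node 22833 [1] (.node 22826 [1] .nil .nil) .nil) (.node 22879 [8] (.node 22868 [8] .nil .nil) .nil))) (.node 22945 [1] (.node 22924 [8] (.node 22907 [1] (.node 22889 [1] .nil .nil) .nil) (.node 22942 [8] (.node 22935 [8] .nil .nil) .nil)) (.node 22991 [8] (.node 22970 [1] (.node 22963 [1] .nil .nil) .nil) (.node 22998 [8] .nil .nil)))) (.node 23186 [73] (.node 23141 [64] (.node 23033 [1] (.node 23026 [1] (.node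 23019 [1] .nil .nil) .nil) (.node 23130 [209] (.node 23123 [209] .nil .nil) .nil)) (.node 23166 [64] (.node 23159 [64] (.node 23148 [64] .nil .nil) .nil) (.node 23179 [73] .nil .nil))) (.node 23242 [209] (.node 23215 [64] (.node 23204 [64] (.node 23193 [73] .nil .nil) .nil) (.node 23229 [64] (.node 23222 [64] .nil .nil) .nil)) (.node 23278 [64] (.node 23271 [64] (.node 23249 [209] .nil .nil) .nil) (.node 23285 [64] .nil .nil))))) (.node 23523 [1] (.node 23411 [1] (.node 23355 [1] (.node 23327 [8] (.node 23316 [8] (.node 23309 [8] .nil .nil) .nil) (.node 23337 [1] (.node 23330 [1] .nil .nil) .nil)) (.node 23390 [8] (.node 23383 [8] (.node 23372 [8] .nil .nil) .nil) (.node 23393 [1] .nil .nil))) (.node 23474 [1] (.node 23446 [8] (.node 23439 [8] (.node 23418 [1] .nil .nil) .nil) (.node 23467 [1] (.node 23453 [8] .nil .nil) .nil)) (.node 23509 [8] (.node 23502 [8] (.node 23481 [1] .nil .nil) .nil) (.node 23516 [8] .nil .nil)))) (.node 23697 [209] (.node 23652 [64] (.node 23627 [73] (.node 23537 [1] (.node 23530 [1] .nil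 .nil) .nil) (.node 23641 [73] (.node 23634 [73] .nil .nil) .nil)) (.node 23677 [64] (.node 23670 [64] (.node 23663 [64] .nil .nil) .nil) (.node 23690 [209] .nil .nil))) (.node 23771 [209] (.node 23733 [64] (.node 23726 [64] (.node 23719 [64] .nil .nil) .nil) (.node 23753 [209] (.node 23740 [64] .nil .nil) .nil)) (.node 23796 [64] (.node 23789 [64] (.node 23782 [64] .nil .nil) .nil) (.node 23807 [64] .nil .nil)))))) (.node 25426 [1033] (.node 24059 [1] (.node 23950 [8] (.node 23887 [8] (.node 23841 [1] (.node 23838 [8] (.node 23831 [8] .nil .nil) .nil) (.node 23866 [1] (.node 23859 [1] .nil .nil) .nil)) (.node 23915 [1] (.node 23901 [8] (.node 23894 [8] .nil .nil) .nil) (.node 23929 [1] (.node 23922 [1] .nil .nil) .nil))) (.node 24013 [8] (.node 23971 [1] (.node 23964 [8] (.node 23957 [8] .nil .nil) .nil) (.node 23985 [1] (.node 23978 [1] .nil .nil) .nil)) (.node 24034 [1] (.node 24031 [8] (.node 24020 [8] .nil .nil) .nil) (.node 24041 [1] .nil .nil)))) (.node 25258 [1089] (.node 25209 [1089] (.node 25181 [1096] (.node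 25174 [1096] (.node 25167 [1096] .nil .nil) .nil) (.node 25202 [1089] (.node 25195 [1089] .nil .nil) .nil)) (.node 25244 [1096] (.node 25237 [1096] (.node 25230 [1096] .nil .nil) .nil) (.node 25251 [1089] .nil .nil))) (.node 25321 [1089] (.node 25300 [1096] (.node 25293 [1096] (.node 25265 [1089] .nil .nil) .nil) (.node 25314 [1089] (.node 25311 [1096] .nil .nil) .nil)) (.node 25370 [1033] (.node 25363 [1033] (.node 25339 [1089] .nil .nil) .nil) (.node 25419 [1033] .nil .nil))))) (.node 25843 [1089] (.node 25713 [1089] (.node 25678 [1096] (.node 25489 [1033] (.node 25482 [1033] (.node 25433 [1033] .nil .nil) .nil) (.node 25563 [1033] (.node 25545 [1033] .nil .nil) .nil)) (.node 25699 [1089] (.node 25692 [1096] (.node 25685 [1096] .nil .nil) .nil) (.node 25706 [1089] .nil .nil))) (.node 25787 [1089] (.node 25759 [1096] (.node 25748 [1096] (.node 25741 [1096] .nil .nil) .nil) (.node 25769 [1089] (.node 25762 [1089] .nil .nil) .nil)) (.node 25822 [1096] (.node 25815 [1096] (.node 25804 [1096] .nil .nil) .nil) (.node 25825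 [1089] .nil .nil)))) (.node 26189 [1096] (.node 25937 [1033] (.node 25874 [1033] (.node 25867 [1033] (.node 25850 [1089] .nil .nil) .nil) (.node 25930 [1033] (.node 25881 [1033] .nil .nil) .nil)) (.node 26067 [1033] (.node 26011 [1033] (.node 25993 [1033] .nil .nil) .nil) (.node 26074 [1033] .nil .nil))) (.node 26252 [1096] (.node 26210 [1089] (.node 26207 [1096] (.node 26196 [1096] .nil .nil) .nil) (.node 26235 [1089] (.node 26217 [1089] .nil .nil) .nil)) (.node 26273 [1089] (.node 26270 [1096] (.node 26263 [1096] .nil .nil) .nil) (.node 26291 [1089] .nil .nil)))))))) (.node 29836 [1096] (.node 27513 [1] (.node 26995 [1] (.node 26770 [73] (.node 26522 [1033] (.node 26361 [1089] (.node 26333 [1096] (.node 26326 [1096] (.node 26319 [1096] .nil .nil) .nil) (.node 26354 [1089] (.node 26347 [1089] .nil .nil) .nil)) (.node 26441 [1033] (.node 26385 [1033] (.node 26378 [1033] .nil .nil) .nil) (.node 26515 [1033] (.node 26459 [1033] .nil .nil) .nil))) (.node 26725 [64] (.node 26585 [1033] (.node 26578 [1033] (.node 26571 [1033]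 .nil .nil) .nil) (.node 26714 [209] (.node 26707 [209] .nil .nil) .nil)) (.node 26750 [64] (.node 26743 [64] (.node 26732 [64] .nil .nil) .nil) (.node 26763 [73] .nil .nil)))) (.node 26876 [64] (.node 26826 [209] (.node 26799 [64] (.node 26788 [64] (.node 26777 [73] .nil .nil) .nil) (.node 26813 [64] (.node 26806 [64] .nil .nil) .nil)) (.node 26862 [64] (.node 26855 [64] (.node 26833 [209] .nil .nil) .nil) (.node 26869 [64] .nil .nil))) (.node 26939 [1] (.node 26911 [8] (.node 26900 [8] (.node 26893 [8] .nil .nil) .nil) (.node 26921 [1] (.node 26914 [1] .nil .nil) .nil)) (.node 26974 [8] (.node 26967 [8] (.node 26956 [8] .nil .nil) .nil) (.node 26977 [1] .nil .nil))))) (.node 27281 [209] (.node 27107 [1] (.node 27058 [1] (.node 27030 [8] (.node 27023 [8] (.node 27002 [1] .nil .nil) .nil) (.node 27051 [1] (.node 27037 [8] .nil .nil) .nil)) (.node 27093 [8] (.node 27086 [8] (.node 27065 [1] .nil .nil) .nil) (.node 27100 [8] .nil .nil))) (.node 27236 [64] (.node 27211 [73] (.node 27121 [1] (.node 27114 [1] .nil .nil) .nil)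 (.node 27225 [73] (.node 27218 [73] .nil .nil) .nil)) (.node 27261 [64] (.node 27254 [64] (.node 27247 [64] .nil .nil) .nil) (.node 27274 [209] .nil .nil)))) (.node 27404 [8] (.node 27355 [209] (.node 27317 [64] (.node 27310 [64] (.node 27303 [64] .nil .nil) .nil) (.node 27337 [209] (.node 27324 [64] .nil .nil) .nil)) (.node 27380 [64] (.node 27373 [64] (.node 27366 [64] .nil .nil) .nil) (.node 27391 [64] .nil .nil))) (.node 27471 [8] (.node 27425 [1] (.node 27422 [8] (.node 27415 [8] .nil .nil) .nil) (.node 27450 [1] (.node 27443 [1] .nil .nil) .nil)) (.node 27499 [1] (.node 27485 [8] (.node 27478 [8] .nil .nil) .nil) (.node 27506 [1] .nil .nil)))))) (.node 28567 [8] (.node 28343 [64] (.node 27643 [1] (.node 27569 [1] (.node 27548 [8] (.node 27541 [8] (.node 27534 [8] .nil .nil) .nil) (.node 27562 [1] (.node 27555 [1] .nil .nil) .nil)) (.node 27615 [8] (.node 27604 [8] (.node 27597 [8] .nil .nil) .nil) (.node 27625 [1] (.node 27618 [1] .nil .nil) .nil))) (.node 28287 [64] (.node 28262 [64] (.node 28251 [209] (.node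 28233 [209] .nil .nil) .nil) (.node 28276 [64] (.node 28269 [64] .nil .nil) .nil)) (.node 28325 [64] (.node 28314 [209] (.node 28307 [209] .nil .nil) .nil) (.node 28332 [64] .nil .nil)))) (.node 28444 [8] (.node 28399 [64] (.node 28370 [73] (.node 28363 [73] (.node 28350 [64] .nil .nil) .nil) (.node 28388 [64] (.node 28377 [73] .nil .nil) .nil)) (.node 28430 [8] (.node 28413 [64] (.node 28406 [64] .nil .nil) .nil) (.node 28437 [8] .nil .nil))) (.node 28511 [8] (.node 28465 [1] (.node 28458 [1] (.node 28451 [1] .nil .nil) .nil) (.node 28500 [8] (.node 28493 [8] .nil .nil) .nil)) (.node 28539 [1] (.node 28521 [1] (.node 28514 [1] .nil .nil) .nil) (.node 28556 [8] .nil .nil))))) (.node 29371 [1089] (.node 29262 [1096] (.node 28630 [8] (.node 28595 [1] (.node 28577 [1] (.node 28574 [8] .nil .nil) .nil) (.node 28623 [8] (.node 28602 [1] .nil .nil) .nil)) (.node 28658 [1] (.node 28651 [1] (.node 28637 [8] .nil .nil) .nil) (.node 28665 [1] .nil .nil))) (.node 29325 [1096] (.node 29283 [1089] (.node 29276 [1096] (.node 29269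 [1096] .nil .nil) .nil) (.node 29297 [1089] (.node 29290 [1089] .nil .nil) .nil)) (.node 29346 [1089] (.node 29343 [1096] (.node 29332 [1096] .nil .nil) .nil) (.node 29353 [1089] .nil .nil)))) (.node 29521 [1033] (.node 29434 [1089] (.node 29406 [1096] (.node 29399 [1096] (.node 29388 [1096] .nil .nil) .nil) (.node 29427 [1089] (.node 29409 [1089] .nil .nil) .nil)) (.node 29465 [1033] (.node 29458 [1033] (.node 29451 [1033] .nil .nil) .nil) (.node 29514 [1033] .nil .nil))) (.node 29780 [1096] (.node 29651 [1033] (.node 29595 [1033] (.node 29577 [1033] .nil .nil) .nil) (.node 29773 [1096] (.node 29658 [1033] .nil .nil) .nil)) (.node 29801 [1089] (.node 29794 [1089] (.node 29791 [1096] .nil .nil) .nil) (.node 29819 [1089] .nil .nil))))))) (.node 31209 [1] (.node 30617 [1033] (.node 30302 [1096] (.node 29962 [1033] (.node 29903 [1096] (.node 29857 [1089] (.node 29854 [1096] (.node 29847 [1096] .nil .nil) .nil) (.node 29882 [1089] (.node 29875 [1089] .nil .nil) .nil)) (.node 29931 [1089] (.node 29917 [1096] (.node 29910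 [1096] .nil .nil) .nil) (.node 29945 [1089] (.node 29938 [1089] .nil .nil) .nil))) (.node 30155 [1033] (.node 30043 [1033] (.node 30025 [1033] (.node 29969 [1033] .nil .nil) .nil) (.node 30106 [1033] (.node 30099 [1033] .nil .nil) .nil)) (.node 30284 [1096] (.node 30169 [1033] (.node 30162 [1033] .nil .nil) .nil) (.node 30295 [1096] .nil .nil)))) (.node 30421 [1096] (.node 30365 [1096] (.node 30330 [1089] (.node 30323 [1089] (.node 30305 [1089] .nil .nil) .nil) (.node 30358 [1096] (.node 30351 [1096] .nil .nil) .nil)) (.node 30393 [1089] (.node 30386 [1089] (.node 30379 [1089] .nil .nil) .nil) (.node 30414 [1096] .nil .nil))) (.node 30491 [1033] (.node 30442 [1089] (.node 30435 [1089] (.node 30428 [1096] .nil .nil) .nil) (.node 30473 [1033] (.node 30449 [1089] .nil .nil) .nil)) (.node 30603 [1033] (.node 30554 [1033] (.node 30547 [1033] .nil .nil) .nil) (.node 30610 [1033] .nil .nil))))) (.node 30988 [8] (.node 30865 [209] (.node 30820 [64] (.node 30795 [73] (.node 30673 [1033] (.node 30666 [1033] .nil .nil) .nil) (.node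 30809 [73] (.node 30802 [73] .nil .nil) .nil)) (.node 30845 [64] (.node 30838 [64] (.node 30831 [64] .nil .nil) .nil) (.node 30858 [209] .nil .nil))) (.node 30939 [209] (.node 30901 [64] (.node 30894 [64] (.node 30887 [64] .nil .nil) .nil) (.node 30921 [209] (.node 30908 [64] .nil .nil) .nil)) (.node 30964 [64] (.node 30957 [64] (.node 30950 [64] .nil .nil) .nil) (.node 30975 [64] .nil .nil)))) (.node 31097 [1] (.node 31055 [8] (.node 31009 [1] (.node 31006 [8] (.node 30999 [8] .nil .nil) .nil) (.node 31034 [1] (.node 31027 [1] .nil .nil) .nil)) (.node 31083 [1] (.node 31069 [8] (.node 31062 [8] .nil .nil) .nil) (.node 31090 [1] .nil .nil))) (.node 31153 [1] (.node 31132 [8] (.node 31125 [8] (.node 31118 [8] .nil .nil) .nil) (.node 31146 [1] (.node 31139 [1] .nil .nil) .nil)) (.node 31199 [8] (.node 31188 [8] (.node 31181 [8] .nil .nil) .nil) (.node 31202 [1] .nil .nil)))))) (.node 32249 [1] (.node 32021 [8] (.node 31916 [64] (.node 31860 [64] (.node 31835 [209] (.node 31817 [209] (.node 31227 [1] .nil .nil) .nil) (.node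 31853 [64] (.node 31846 [64] .nil .nil) .nil)) (.node 31898 [209] (.node 31891 [209] (.node 31871 [64] .nil .nil) .nil) (.node 31909 [64] .nil .nil))) (.node 31972 [64] (.node 31947 [73] (.node 31934 [64] (.node 31927 [64] .nil .nil) .nil) (.node 31961 [73] (.node 31954 [73] .nil .nil) .nil)) (.node 31997 [64] (.node 31990 [64] (.node 31983 [64] .nil .nil) .nil) (.node 32014 [8] .nil .nil)))) (.node 32140 [8] (.node 32084 [8] (.node 32042 [1] (.node 32035 [1] (.node 32028 [8] .nil .nil) .nil) (.node 32077 [8] (.node 32049 [1] .nil .nil) .nil)) (.node 32105 [1] (.node 32098 [1] (.node 32095 [8] .nil .nil) .nil) (.node 32123 [1] .nil .nil))) (.node 32207 [8] (.node 32161 [1] (.node 32158 [8] (.node 32151 [8] .nil .nil) .nil) (.node 32186 [1] (.node 32179 [1] .nil .nil) .nil)) (.node 32235 [1] (.node 32221 [8] (.node 32214 [8] .nil .nil) .nil) (.node 32242 [1] .nil .nil))))) (.node 32543 [8] (.node 32431 [64] (.node 32382 [64] (.node 32357 [64] (.node 32346 [209] (.node 32339 [209] .nil .nil) .nil) (.node 32375 [64] (.node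 32364 [64] .nil .nil) .nil)) (.node 32409 [73] (.node 32402 [73] (.node 32395 [73] .nil .nil) .nil) (.node 32420 [64] .nil .nil))) (.node 32494 [64] (.node 32458 [209] (.node 32445 [64] (.node 32438 [64] .nil .nil) .nil) (.node 32487 [64] (.node 32465 [209] .nil .nil) .nil)) (.node 32525 [8] (.node 32508 [64] (.node 32501 [64] .nil .nil) .nil) (.node 32532 [8] .nil .nil)))) (.node 32662 [8] (.node 32606 [8] (.node 32571 [1] (.node 32553 [1] (.node 32546 [1] .nil .nil) .nil) (.node 32599 [8] (.node 32588 [8] .nil .nil) .nil)) (.node 32634 [1] (.node 32627 [1] (.node 32609 [1] .nil .nil) .nil) (.node 32655 [8] .nil .nil))) (.node 32725 [8] (.node 32690 [1] (.node 32683 [1] (.node 32669 [8] .nil .nil) .nil) (.node 32718 [8] (.node 32697 [1] .nil .nil) .nil)) (.node 32746 [1] (.node 32739 [1] (.node 32732 [8] .nil .nil) .nil) (.node 32753 [1] .nil .nil))))))))))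

def LP9 : List Ct := [⟨[false, false, false, false, false], 0, 2, 0⟩, ⟨[false, false, false, false, false], 1, 2, 3⟩, ⟨[false, false, false, false, false], 2, 2, 4⟩, ⟨[false, false, false, true, true], 1, 2, 1⟩, ⟨[false, false, false, true, true], 2, 2, 2⟩, ⟨[false, false, true, false, false], 1, 2, 2⟩, ⟨[false, false, true, false, false], 2, 2, 3⟩, ⟨[false, false, true, true, true], 2, 2, 3⟩, ⟨[false, true, false, false, false], 1, 2, 2⟩, ⟨[false, true, false, false, false], 2, 2, 3⟩, ⟨[false, true, false, true, true], 2, 2, 3⟩, ⟨[false, true, true, false, false], 2, 2, 3⟩, ⟨[false, true, true, true, true], 2, 1, 2⟩, ⟨[false, true, true, true, true], 2, 2, 3⟩, ⟨[true, false, false, false, false], 1, 2, 2⟩, ⟨[true, false, false, false, false], 2, 2, 3⟩, ⟨[true, false, false, true, true], 2, 2, 3⟩, ⟨[true, false, true, false, false], 2, 2, 3⟩, ⟨[true, false, true, true, true], 2, 1, 2⟩, ⟨[true, false, true, true, true], 2, 2, 3⟩, ⟨[true, true, false, false, false], 2, 2, 3⟩, ⟨[true, true, false, true, true], 2, 1, 2⟩,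 ⟨[true, true, false, true, true], 2, 2, 3⟩, ⟨[true, true, true, false, false], 2, 1, 1⟩, ⟨[true, true, true, false, false], 2, 2, 2⟩, ⟨[true, true, true, true, true], 2, 0, 0⟩, ⟨[true, true, true, true, true], 2, 1, 3⟩, ⟨[true, true, true, true, true], 2, 2, 4⟩]

end Pool.Agent.W420.NS
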